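import Pool.Agent.PAL.Defs
import Pool.Agent.PFC.KDer

/-!
# PAL/Basic: first properties of `lin`, `ra`, `mp`, `InSub`, `Fund`
-/

set_option autoImplicit false

open PFC

namespace PAL

variable {G : Type} [Group G]

theorem el_one : (el (1 : G) : GR G) = 1 := map_one _

theorem el_mul (a b : G) : (el (a * b) : GR G) = el a * el b := map_mul _ _ _

theorem lin_mp {Q W : Type} [Group Q] [AddCommGroup W] (θ : G →* Q) (F : Q → W) (f : GR G) :
    lin F (mp θ f) = lin (fun g => F (θ g)) f := by
  refine add_ext ((lin F).comp (mp θ).toAddMonoidHom) (lin fun g => F (θ g)) ?_ f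
  intro g
  show lin F (mp θ (el g)) = _
  rw [mp_el, lin_el, lin_el]

theorem lin_add {W : Type} [AddCommGroup W] (F F' : G → W) (f : GR G) :
    lin (fun g => F g + F' g) f = lin F f + lin F' f := by
  refine add_ext (lin fun g => F g + F' g) (lin F + lin F') ?_ f
  intro g
  rw [AddMonoidHom.add_apply, lin_el, lin_el, lin_el]

theorem lin_zero {W : Type} [AddCommGroup W] (f : GR G) : lin (fun _ : G => (0 : W)) f = 0 := by
  refine add_ext (lin fun _ : G => (0 : W)) 0 ?_ f
  intro g
  rw [lin_el]; rfl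

theorem lin_neg {W : Type} [AddCommGroup W] (F : G → W) (f : GR G) :
    lin (fun g => - F g) f = - lin F f := by
  refine add_ext (lin fun g => - F g) (- lin F) ?_ f
  intro g
  rw [AddMonoidHom.neg_apply, lin_el, lin_el]

theorem lin_sub {W : Type} [AddCommGroup W] (F F' : G → W) (f : GR G) :
    lin (fun g => F g - F' g) f = lin F f - lin F' f := by
  refine add_ext (lin fun g => F g - F' g) (lin F - lin F') ?_ f
  intro g
  rw [AddMonoidHom.sub_apply, lin_el, lin_el, lin_el]

theorem lin_comp {W W' : Type} [AddCommGroup W] [AddCommGroup W'] (L : W →+ W') (F : G → W)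
    (f : GR G) : lin (fun g => L (F g)) f = L (lin F f) := by
  refine add_ext (lin fun g => L (F g)) (L.comp (lin F)) ?_ f
  intro g
  rw [AddMonoidHom.comp_apply, lin_el, lin_el]

theorem lin_sum {ι W : Type} [AddCommGroup W] (s : Finset ι) (F : ι → G → W) (f : GR G) :
    lin (fun g => ∑ i ∈ s, F i g) f = ∑ i ∈ s, lin (F i) f := by
  rw [← AddMonoidHom.finsetSum_apply]
  refine add_ext (lin fun g => ∑ i ∈ s, F i g) (∑ i ∈ s, lin (F i)) ?_ f
  intro g
  rw [AddMonoidHom.finsetSum_apply, lin_el]
  exact Finset.sum_congr rfl fun i _ => (lin_el _ _).symm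

/-- `lin` as a finite sum over any set containing the support -/
theorem lin_eq_sum {W : Type} [AddCommGroup W] (F : G → W) (f : GR G) (S : Finset G)
    (hS : f.coeff.support ⊆ S) : lin F f = ∑ g ∈ S, f.coeff g • F g := by
  show (Finsupp.liftAddHom (fun g => zmultiplesHom W (F g))) f.coeff = _
  rw [Finsupp.liftAddHom_apply]
  show f.coeff.sum (fun g n => n • F g) = _
  exact Finsupp.sum_of_support_subset _ hS _ fun g _ => zero_smul _ _

theorem lin_mul_el {W : Type} [AddCommGroup W] (F : G → W) (f : GR G) (a : G) :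
    lin F (f * el a) = lin (fun g => F (g * a)) f := by
  refine add_ext ((lin F).comp (AddMonoidHom.mulRight (el a))) (lin fun g => F (g * a)) ?_ f
  intro g
  show lin F (el g * el a) = _
  rw [← el_mul, lin_el, lin_el]

theorem lin_el_mul {W : Type} [AddCommGroup W] (F : G → W) (f : GR G) (a : G) :
    lin F (el a * f) = lin (fun g => F (a * g)) f := by
  refine add_ext ((lin F).comp (AddMonoidHom.mulLeft (el a))) (lin fun g => F (a * g)) ?_ f
  intro g
  show lin F (el a * el g) = _
  rw [← el_mul, lin_el, lin_el]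

theorem lin_mul_sub {W : Type} [AddCommGroup W] (F : G → W) (f : GR G) (a : G) :
    lin F (f * (el a - 1)) = lin (fun g => F (g * a) - F g) f := by
  rw [mul_sub, mul_one, map_sub, lin_mul_el, lin_sub]

/-- `lin F` only depends on the values of `F` on the support -/
theorem lin_congr {W : Type} [AddCommGroup W] {F F' : G → W} {f : GR G}
    (h : ∀ g, f.coeff g ≠ 0 → F g = F' g) : lin F f = lin F' f := by
  rw [lin_eq_sum F f _ (Finset.Subset.refl _), lin_eq_sum F' f _ (Finset.Subset.refl _)]
  exact Finset.sum_congr rfl fun g hg => by rw [h g (Finsupp.mem_support_iff.1 hg)]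

/-- scalars of the group ring: `f • m = ∑_g f(g) (g • m)` -/
theorem smul_eq_lin {M : Type} [AddCommGroup M] [Module (GR G) M] (f : GR G) (m : M) :
    f • m = lin (fun g => (el g : GR G) • m) f := by
  refine add_ext ((AddMonoidHom.mk' (fun f : GR G => f • m) fun a b => add_smul a b m))
    (lin fun g => (el g : GR G) • m) ?_ f
  intro g
  rw [lin_el]; rfl

theorem mp_smul_eq_lin {Q M : Type} [Group Q] [AddCommGroup M] [Module (GR Q) M] (θ : G →* Q)
    (f : GR G) (m : M) : mp θ f • m = lin (fun g => (el (θ g) : GR Q) • m) f := by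
  rw [smul_eq_lin, lin_mp]

/-! ### the right action -/

theorem ra_add_left (v w : G → ℝ) (f : GR G) (x : G) :
    ra (fun y => v y + w y) f x = ra v f x + ra w f x := lin_add _ _ f

theorem ra_neg_left (v : G → ℝ) (f : GR G) (x : G) :
    ra (fun y => - v y) f x = - ra v f x := lin_neg _ f

theorem ra_sub_left (v w : G → ℝ) (f : GR G) (x : G) :
    ra (fun y => v y - w y) f x = ra v f x - ra w f x := lin_sub _ _ f

theorem ra_smul_left (c : ℝ) (v : G → ℝ) (f : GR G) (x : G) :
    ra (fun y => c * v y) f x = c * ra v f x :=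
  lin_comp (AddMonoidHom.mulLeft c) (fun g => v (x * g⁻¹)) f

theorem ra_zero_left (f : GR G) (x : G) : ra (fun _ => 0) f x = 0 := lin_zero f

theorem ra_sum_left {ι : Type} (s : Finset ι) (v : ι → G → ℝ) (f : GR G) (x : G) :
    ra (fun y => ∑ i ∈ s, v i y) f x = ∑ i ∈ s, ra (v i) f x := lin_sum s _ f

theorem ra_add_right (v : G → ℝ) (f h : GR G) (x : G) : ra v (f + h) x = ra v f x + ra v h x :=
  map_add _ _ _

theorem ra_neg_right (v : G → ℝ) (f : GR G) (x : G) : ra v (-f) x = - ra v f x := map_neg _ _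

theorem ra_zero_right (v : G → ℝ) (x : G) : ra v 0 x = 0 := map_zero _

theorem ra_sum_right {ι : Type} (s : Finset ι) (v : G → ℝ) (f : ι → GR G) (x : G) :
    ra v (∑ i ∈ s, f i) x = ∑ i ∈ s, ra v (f i) x := map_sum _ _ _

theorem ra_el (v : G → ℝ) (g : G) (x : G) : ra v (el g) x = v (x * g⁻¹) := lin_el _ _

theorem ra_one (v : G → ℝ) (x : G) : ra v 1 x = v x := by
  rw [← el_one, ra_el, inv_one, mul_one]

theorem ra_mul (v : G → ℝ) (f h : GR G) (x : G) : ra (ra v f) h x = ra v (f * h) x := by
  refine add_ext (W := ℝ) (lin fun g => ra v f (x * g⁻¹))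
    ((lin fun g => v (x * g⁻¹)).comp (AddMonoidHom.mulLeft f)) ?_ h
  intro k
  rw [lin_el]
  show lin (fun g => v (x * k⁻¹ * g⁻¹)) f = lin (fun g => v (x * g⁻¹)) (f * el k)
  rw [lin_mul_el]
  refine congrArg (fun F => lin F f) (funext fun g => ?_)
  rw [mul_inv_rev, mul_assoc]

/-- left translations commute with the right action -/
theorem ra_trans (v : G → ℝ) (f : GR G) (g x : G) :
    ra (fun y => v (g * y)) f x = ra v f (g * x) := by
  show lin (fun h => v (g * (x * h⁻¹))) f = lin (fun h => v (g * x * h⁻¹)) f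
  refine congrArg (fun F => lin F f) (funext fun h => ?_)
  rw [mul_assoc]

open Classical in
/-- if `f` is supported in `B` then the right action of `f` commutes with the restriction to `gB` -/
theorem ra_restrict (B : Subgroup G) (v : G → ℝ) (f : GR G) (hf : InSub B f) (g x : G) :
    ra (fun y => if g⁻¹ * y ∈ B then v y else 0) f x = if g⁻¹ * x ∈ B then ra v f x else 0 := by
  by_cases hx : g⁻¹ * x ∈ B
  · rw [if_pos hx]
    refine lin_congr fun h hh => ?_
    have : g⁻¹ * (x * h⁻¹) ∈ B := by
      rw [← mul_assoc]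
      exact B.mul_mem hx (B.inv_mem (hf h hh))
    exact if_pos this
  · rw [if_neg hx]
    have h1 : ra (fun y => if g⁻¹ * y ∈ B then v y else 0) f x = lin (fun _ : G => (0 : ℝ)) f := by
      refine lin_congr fun h hh => ?_
      refine if_neg fun h2 => hx ?_
      have h3 := B.mul_mem h2 (hf h hh)
      have h4 : g⁻¹ * (x * h⁻¹) * h = g⁻¹ * x := by group
      rwa [h4] at h3
    rw [h1, lin_zero]

/-! ### the support -/

theorem inSub_zero (B : Subgroup G) : InSub B (0 : GR G) := fun _ h => absurd rfl h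

theorem inSub_add {B : Subgroup G} {f h : GR G} (hf : InSub B f) (hh : InSub B h) :
    InSub B (f + h) := by
  intro g hg
  by_contra hB
  have h1 : f.coeff g = 0 := not_not.1 fun h => hB (hf g h)
  have h2 : h.coeff g = 0 := not_not.1 fun h' => hB (hh g h')
  apply hg
  show f.coeff g + h.coeff g = 0
  rw [h1, h2, add_zero]

theorem inSub_neg {B : Subgroup G} {f : GR G} (hf : InSub B f) : InSub B (-f) := by
  intro g hg
  refine hf g fun h => hg ?_
  show - f.coeff g = 0
  rw [h, neg_zero]

theorem inSub_el {B : Subgroup G} {g : G} (hg : g ∈ B) : InSub B (el g) := by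
  classical
  intro x hx
  have h1 : (el g : GR G).coeff = Finsupp.single g 1 := rfl
  rw [h1, Finsupp.single_apply] at hx
  by_cases h : g = x
  · rwa [← h]
  · rw [if_neg h] at hx
    exact absurd rfl hx

theorem inSub_one {B : Subgroup G} : InSub B (1 : GR G) := by
  rw [← el_one]; exact inSub_el B.one_mem

theorem inSub_el_mul {B : Subgroup G} {f : GR G} {b : G} (hb : b ∈ B) (hf : InSub B f) :
    InSub B (el b * f) := by
  intro g hg
  have h1 : (el b * f : GR G).coeff g = f.coeff (b⁻¹ * g) := by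
    have h2 : (el b : GR G) = MonoidAlgebra.single b 1 := rfl
    rw [h2, MonoidAlgebra.coeff_single_mul_apply, one_mul]
  rw [h1] at hg
  have h3 := B.mul_mem hb (hf _ hg)
  rwa [mul_inv_cancel_left] at h3

/-! ### the fundamental formula -/

/-- every element of the subgroup generated by the `a i` has Fox derivatives -/
theorem exists_fund {σ : Type} [Fintype σ] (a : σ → G) (A : Subgroup G)
    (hA : Subgroup.closure (Set.range a) = A) (c : G) (hc : c ∈ A) :
    ∃ f : σ → GR G, Fund a c f ∧ ∀ i, InSub A (f i) := by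
  classical
  rw [← hA] at hc
  induction hc using Subgroup.closure_induction with
  | mem x hx =>
    obtain ⟨i, rfl⟩ := hx
    refine ⟨fun j => if j = i then 1 else 0, ?_, ?_⟩
    · unfold Fund
      rw [Finset.sum_eq_single i]
      · show _ = (if i = i then (1 : GR G) else 0) * (el (a i) - 1)
        rw [if_pos rfl, one_mul]
      · intro j _ hj
        show (if j = i then (1 : GR G) else 0) * (el (a j) - 1) = 0
        rw [if_neg hj, zero_mul]
      · intro h
        exact absurd (Finset.mem_univ i) h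
    · intro j
      by_cases h : j = i
      · show InSub A (if j = i then 1 else 0)
        rw [if_pos h]; exact inSub_one
      · show InSub A (if j = i then 1 else 0)
        rw [if_neg h]; exact inSub_zero A
  | one =>
    refine ⟨fun _ => 0, ?_, fun _ => inSub_zero A⟩
    unfold Fund
    rw [el_one, sub_self]
    symm
    exact Finset.sum_eq_zero fun i _ => zero_mul _
  | mul x y hx hy ihx ihy =>
    obtain ⟨f, hf, hfs⟩ := ihx
    obtain ⟨h, hh, hhs⟩ := ihy
    refine ⟨fun i => f i + el x * h i, ?_, fun i => inSub_add (hfs i) (inSub_el_mul (by rw [← hA]; exact hx) (hhs i))⟩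
    unfold Fund at hf hh ⊢
    have h1 : (el (x * y) - 1 : GR G) = (el x - 1) + el x * (el y - 1) := by
      rw [el_mul]; noncomm_ring
    rw [h1, hf, hh, Finset.mul_sum, ← Finset.sum_add_distrib]
    refine Finset.sum_congr rfl fun i _ => ?_
    rw [add_mul, mul_assoc]
  | inv x hx ihx =>
    obtain ⟨f, hf, hfs⟩ := ihx
    refine ⟨fun i => - (el x⁻¹ * f i), ?_, fun i => inSub_neg (inSub_el_mul (by rw [← hA]; exact Subgroup.inv_mem _ hx) (hfs i))⟩
    unfold Fund at hf ⊢
    have h0 : (el x⁻¹ * el x : GR G) = 1 := by rw [← el_mul, inv_mul_cancel, el_one]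
    have h1 : (el x⁻¹ - 1 : GR G) = - (el x⁻¹ * (el x - 1)) := by
      rw [mul_sub, h0, mul_one, neg_sub]
    rw [h1, hf, Finset.mul_sum, ← Finset.sum_neg_distrib]
    refine Finset.sum_congr rfl fun i _ => ?_
    rw [neg_mul, mul_assoc]

/-- a derivation defined on a subgroup, and the group ring -/
theorem lin_der {Q M : Type} [Group Q] [AddCommGroup M] [Module (GR Q) M] (θ : G →* Q)
    (B : Subgroup G) (D : G → M) (hD : ∀ g ∈ B, ∀ h ∈ B, D (g * h) = D g + (el (θ g) : GR Q) • D h)
    (f : GR G) (hf : InSub B f) (a : G) (ha : a ∈ B) :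
    lin D (f * (el a - 1)) = mp θ f • D a := by
  rw [lin_mul_sub, mp_smul_eq_lin]
  refine lin_congr fun g hg => ?_
  rw [hD g (hf g hg) a ha, add_sub_cancel_left]

theorem inSub_top (f : GR G) : InSub ⊤ f := fun _ _ => Subgroup.mem_top _

/-- relations between the `z ν - 1` give relations between the values of a derivation -/
theorem der_rel {Q M N : Type} [Fintype N] [Group Q] [AddCommGroup M] [Module (GR Q) M]
    (θ : G →* Q) (B : Subgroup G) (D : B → M) (hD : IsDer (θ.comp B.subtype) D) (z : N → G)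
    (hz : ∀ ν, z ν ∈ B) (f : N → GR G) (hf : ∀ ν, InSub B (f ν))
    (h : ∑ ν, f ν * (el (z ν) - 1) = 0) : ∑ ν, mp θ (f ν) • D ⟨z ν, hz ν⟩ = 0 := by
  classical
  let D' : G → M := fun g => if hg : g ∈ B then D ⟨g, hg⟩ else 0
  have hD'e : ∀ g (hg : g ∈ B), D' g = D ⟨g, hg⟩ := fun g hg => dif_pos hg
  have hD' : ∀ g ∈ B, ∀ h ∈ B, D' (g * h) = D' g + (el (θ g) : GR Q) • D' h := by
    intro g hg k hk
    rw [hD'e g hg, hD'e k hk, hD'e _ (B.mul_mem hg hk)]
    exact hD ⟨g, hg⟩ ⟨k, hk⟩
  have h1 := congrArg (lin D') h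
  rw [map_sum, map_zero] at h1
  rw [← h1]
  refine Finset.sum_congr rfl fun ν _ => ?_
  rw [lin_der θ B D' hD' (f ν) (hf ν) (z ν) (hz ν), hD'e]

/-- the chain rule: the value of a derivation at an element with known Fox derivatives -/
theorem der_fund {Q M σ : Type} [Fintype σ] [Group Q] [AddCommGroup M] [Module (GR Q) M]
    (θ : G →* Q) (B : Subgroup G) (D : B → M) (hD : IsDer (θ.comp B.subtype) D) (a : σ → G)
    (ha : ∀ i, a i ∈ B) (c : G) (hc : c ∈ B) (f : σ → GR G) (hf : ∀ i, InSub B (f i))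
    (h : Fund a c f) : D ⟨c, hc⟩ = ∑ i, mp θ (f i) • D ⟨a i, ha i⟩ := by
  classical
  let D' : G → M := fun g => if hg : g ∈ B then D ⟨g, hg⟩ else 0
  have hD'e : ∀ g (hg : g ∈ B), D' g = D ⟨g, hg⟩ := fun g hg => dif_pos hg
  have hD' : ∀ g ∈ B, ∀ h ∈ B, D' (g * h) = D' g + (el (θ g) : GR Q) • D' h := by
    intro g hg k hk
    rw [hD'e g hg, hD'e k hk, hD'e _ (B.mul_mem hg hk)]
    exact hD ⟨g, hg⟩ ⟨k, hk⟩
  have h1 := congrArg (lin D') h
  rw [map_sum, map_sub] at h1
  have h2 : lin D' (el c) = D ⟨c, hc⟩ := by rw [lin_el, hD'e]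
  have h3 : lin D' (1 : GR G) = 0 := by
    rw [← el_one, lin_el, hD'e 1 B.one_mem]
    exact der_one (θ.comp B.subtype) hD
  rw [h2, h3, sub_zero] at h1
  rw [h1]
  refine Finset.sum_congr rfl fun i _ => ?_
  rw [lin_der θ B D' hD' (f i) (hf i) (a i) (ha i), hD'e]

/-- the versions of `der_rel` and `der_fund` for derivations on the whole group -/
theorem der_rel' {Q M N : Type} [Fintype N] [Group Q] [AddCommGroup M] [Module (GR Q) M]
    (θ : G →* Q) (D : G → M) (hD : IsDer θ D) (z : N → G) (f : N → GR G)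
    (h : ∑ ν, f ν * (el (z ν) - 1) = 0) : ∑ ν, mp θ (f ν) • D (z ν) = 0 := by
  have h1 := congrArg (lin D) h
  rw [map_sum, map_zero] at h1
  rw [← h1]
  refine Finset.sum_congr rfl fun ν _ => ?_
  rw [lin_der θ ⊤ D (fun g _ h _ => hD g h) (f ν) (inSub_top _) (z ν) (Subgroup.mem_top _)]

theorem der_fund' {Q M σ : Type} [Fintype σ] [Group Q] [AddCommGroup M] [Module (GR Q) M]
    (θ : G →* Q) (D : G → M) (hD : IsDer θ D) (a : σ → G) (c : G) (f : σ → GR G)
    (h : Fund a c f) : D c = ∑ i, mp θ (f i) • D (a i) := by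
  have h1 := congrArg (lin D) h
  rw [map_sum, map_sub, lin_el] at h1
  have h3 : lin D (1 : GR G) = 0 := by
    rw [← el_one, lin_el]
    exact der_one θ hD
  rw [h3, sub_zero] at h1
  rw [h1]
  refine Finset.sum_congr rfl fun i _ => ?_
  rw [lin_der θ ⊤ D (fun g _ h _ => hD g h) (f i) (inSub_top _) (a i) (Subgroup.mem_top _)]

theorem mp_id (f : GR G) : mp (MonoidHom.id G) f = f := by
  refine add_ext (mp (MonoidHom.id G)).toAddMonoidHom (AddMonoidHom.id _) ?_ f
  intro g
  exact mp_el _ _

end PAL
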