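import Pool.Agent.PAL.Defs

/-!
# PAL/Burn (module PAL-Burn): homomorphisms to finite `p`-groups are determined by generators modulo `p`

The range `H` of `(φ, ψ) : G → R × R` is a finite `p`-group.  A proper subgroup of `H` is contained in a
maximal subgroup, which is normal of index `p` and hence the kernel of a homomorphism to `Z/p`.  By `PG`
the images of the `y x` generate `H`, and they are in the diagonal.
-/

set_option autoImplicit false

open PFC

namespace PAL

private theorem Burn_prod {R : Type} [Group R] {p : ℕ} (hR : IsPGroup p R) : IsPGroup p (R × R) := by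
  rintro ⟨a, b⟩
  obtain ⟨k, hk⟩ := hR a
  obtain ⟨l, hl⟩ := hR b
  refine ⟨k + l, Prod.ext ?_ ?_⟩
  · change a ^ p ^ (k + l) = 1
    rw [pow_add, pow_mul, hk, one_pow]
  · change b ^ p ^ (k + l) = 1
    rw [add_comm, pow_add, pow_mul, hl, one_pow]

/-- a proper subgroup of a finite `p`-group is killed by a nontrivial homomorphism to `Z/p` -/
private theorem Burn_hom {H : Type} [Group H] [Finite H] (p : ℕ) [hp : Fact p.Prime]
    (hH : IsPGroup p H) (K : Subgroup H) (hK : K ≠ ⊤) :
    ∃ h : H →* Multiplicative (ZMod p), Function.Surjective h ∧ ∀ k ∈ K, h k = 1 := by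
  obtain ⟨M, hM, hKM⟩ := (eq_top_or_exists_le_coatom K).resolve_left hK
  have hnil : Group.IsNilpotent H := hH.isNilpotent
  have hMn : M.Normal := Subgroup.NormalizerCondition.normal_of_coatom M
    Group.normalizerCondition_of_isNilpotent hM
  have hQ : IsPGroup p (H ⧸ M) := hH.to_quotient M
  have hnt : Nontrivial (H ⧸ M) := by
    rw [QuotientGroup.nontrivial_iff]
    exact hM.1
  have hdvd : p ∣ Nat.card (H ⧸ M) := by
    obtain ⟨n, hn⟩ := IsPGroup.iff_card.1 hQ
    have h1 : 1 < Nat.card (H ⧸ M) := Finite.one_lt_card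
    rw [hn] at h1 ⊢
    refine dvd_pow_self p ?_
    rintro rfl
    simp at h1
  obtain ⟨x, hx⟩ := exists_prime_orderOf_dvd_card' p hdvd
  have htop : Subgroup.zpowers x = ⊤ := by
    have h1 : M ≤ (Subgroup.zpowers x).comap (QuotientGroup.mk' M) := by
      intro m hm
      have h2 : QuotientGroup.mk' M m = 1 := (QuotientGroup.eq_one_iff m).2 hm
      rw [Subgroup.mem_comap, h2]
      exact Subgroup.one_mem _
    rcases h1.eq_or_lt with h | h
    · exfalso
      obtain ⟨g, rfl⟩ := QuotientGroup.mk'_surjective M x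
      have h2 : g ∈ (Subgroup.zpowers (QuotientGroup.mk' M g)).comap (QuotientGroup.mk' M) :=
        Subgroup.mem_zpowers _
      rw [← h] at h2
      have h3 : QuotientGroup.mk' M g = 1 := (QuotientGroup.eq_one_iff g).2 h2
      rw [h3, orderOf_one] at hx
      exact hp.out.one_lt.ne hx
    · have h2 := hM.2 _ h
      rw [eq_top_iff]
      intro z _
      obtain ⟨g, rfl⟩ := QuotientGroup.mk'_surjective M z
      have h3 : g ∈ (Subgroup.zpowers x).comap (QuotientGroup.mk' M) := by
        rw [h2]
        exact Subgroup.mem_top g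
      exact h3
  have hcard : Nat.card (H ⧸ M) = p := by
    rw [← orderOf_eq_card_of_zpowers_eq_top htop, hx]
  have hcard2 : Nat.card (Multiplicative (ZMod p)) = p := Nat.card_zmod p
  refine ⟨(mulEquivOfPrimeCardEq hcard hcard2).toMonoidHom.comp (QuotientGroup.mk' M), ?_, ?_⟩
  · exact (mulEquivOfPrimeCardEq hcard hcard2).surjective.comp (QuotientGroup.mk'_surjective M)
  · intro k hk
    have h2 : QuotientGroup.mk' M k = 1 := (QuotientGroup.eq_one_iff k).2 (hKM hk)
    rw [MonoidHom.comp_apply, h2, map_one]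

theorem hom_ext_pg {G X R : Type} [Group G] [Group R] [Finite R] (p : ℕ) [Fact p.Prime]
    (hR : IsPGroup p R) (y : X → G) (hy : PG p y) (φ ψ : G →* R)
    (h : ∀ i, φ (y i) = ψ (y i)) : φ = ψ := by
  have hH : IsPGroup p (φ.prod ψ).range := (Burn_prod hR).to_subgroup _
  have hK : Subgroup.closure (Set.range fun i => (φ.prod ψ).rangeRestrict (y i)) = ⊤ := by
    by_contra hne
    obtain ⟨f, hf, hf1⟩ := Burn_hom p hH _ hne
    have h1 := hy (f.comp (φ.prod ψ).rangeRestrict) fun i =>
      hf1 _ (Subgroup.subset_closure ⟨i, rfl⟩)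
    obtain ⟨z, hz⟩ := hf (Multiplicative.ofAdd 1)
    obtain ⟨g, rfl⟩ := (φ.prod ψ).rangeRestrict_surjective z
    have h2 := DFunLike.congr_fun h1 g
    rw [MonoidHom.comp_apply, hz, MonoidHom.one_apply] at h2
    have h3 : (1 : ZMod p) = 0 := Multiplicative.ofAdd.injective h2
    exact one_ne_zero h3
  have hD : Subgroup.closure (Set.range fun i => (φ.prod ψ).rangeRestrict (y i)) ≤
      ((MonoidHom.fst R R).comp (φ.prod ψ).range.subtype).eqLocus
        ((MonoidHom.snd R R).comp (φ.prod ψ).range.subtype) := by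
    rw [Subgroup.closure_le]
    rintro _ ⟨i, rfl⟩
    exact h i
  refine MonoidHom.ext fun g => ?_
  rw [hK] at hD
  exact hD (Subgroup.mem_top ((φ.prod ψ).rangeRestrict g))

end PAL
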