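import Pool.Agent.PAL.Basic

/-!
# PAL/CBas (module PAL-CBas): bases of free subgroups and derivations

`exists_der` (`PFC/KDer.lean`) and the isomorphism of `FreeGroup κ` with the subgroup.
-/

set_option autoImplicit false

open PFC

namespace PAL

/-- the isomorphism of the free group with the subgroup freely generated by `c` -/
private theorem cb_iso {G κ : Type} [Group G] (C : Subgroup G) (c : κ → G)
    (hcl : Subgroup.closure (Set.range c) = C) (hinj : Function.Injective (FreeGroup.lift c)) :
    ∃ e : FreeGroup κ ≃* C, (∀ w, ((e w : C) : G) = FreeGroup.lift c w) ∧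
      ∀ (l : κ) (h : c l ∈ C), e.symm ⟨c l, h⟩ = FreeGroup.of l := by
  have hr : (FreeGroup.lift c).range = C := by
    rw [FreeGroup.range_lift_eq_closure, hcl]
  have hm : ∀ w, FreeGroup.lift c w ∈ C := fun w => hr ▸ ⟨w, rfl⟩
  let f : FreeGroup κ →* C := (FreeGroup.lift c).codRestrict C hm
  have hf : ∀ w, ((f w : C) : G) = FreeGroup.lift c w := fun w => rfl
  have hb : Function.Bijective f := by
    constructor
    · intro a b h
      apply hinj
      rw [← hf, ← hf, h]
    · intro y
      have hy : (y : G) ∈ (FreeGroup.lift c).range := by rw [hr]; exact y.2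
      obtain ⟨w, hw⟩ := hy
      exact ⟨w, Subtype.ext (by rw [hf]; exact hw)⟩
  refine ⟨MulEquiv.ofBijective f hb, fun w => rfl, fun l h => ?_⟩
  rw [MulEquiv.symm_apply_eq]
  apply Subtype.ext
  show c l = FreeGroup.lift c (FreeGroup.of l)
  rw [FreeGroup.lift_apply_of]

private theorem cb_basis {G : Type} [Group G] (C : Subgroup G) (hC : IsFreeGroup C) :
    ∃ (κ : Type) (e : FreeGroup κ ≃* C),
      Subgroup.closure (Set.range fun l => ((e (FreeGroup.of l) : C) : G)) = C ∧
        Function.Injective (FreeGroup.lift fun l => ((e (FreeGroup.of l) : C) : G)) := by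
  obtain ⟨κ, ⟨b⟩⟩ := hC.nonempty_basis
  refine ⟨κ, b.repr.symm, ?_⟩
  have h1 : (FreeGroup.lift fun l => ((b.repr.symm (FreeGroup.of l) : C) : G)) =
      C.subtype.comp b.repr.symm.toMonoidHom := by
    apply FreeGroup.ext_hom
    intro l
    rw [FreeGroup.lift_apply_of]
    rfl
  constructor
  · rw [← FreeGroup.range_lift_eq_closure, h1]
    apply le_antisymm
    · rintro x ⟨w, rfl⟩
      exact (b.repr.symm w).2
    · intro x hx
      refine ⟨b.repr ⟨x, hx⟩, ?_⟩
      show ((b.repr.symm (b.repr ⟨x, hx⟩) : C) : G) = x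
      rw [MulEquiv.symm_apply_apply]
  · rw [h1]
    intro v w h
    exact b.repr.symm.injective (Subtype.ext h)

/-- the homomorphism from the free group to the free abelian group -/
private noncomputable def cbF (κ : Type) : FreeGroup κ →* Multiplicative (κ →₀ ℤ) :=
  FreeGroup.lift fun l => Multiplicative.ofAdd (Finsupp.single l 1)

private theorem cb_finite (κ : Type) (h : Group.FG (FreeGroup κ)) : Finite κ := by
  classical
  obtain ⟨S, hS⟩ := h.out
  let T : Finset κ := S.biUnion fun w => (Multiplicative.toAdd (cbF κ w)).support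
  have hw : ∀ w : FreeGroup κ, (Multiplicative.toAdd (cbF κ w)).support ⊆ T := by
    intro w
    have hwS : w ∈ Subgroup.closure (S : Set (FreeGroup κ)) := by rw [hS]; trivial
    induction hwS using Subgroup.closure_induction with
    | mem x hx =>
      exact Finset.subset_biUnion_of_mem (fun w => (Multiplicative.toAdd (cbF κ w)).support) hx
    | one =>
      rw [map_one]
      show (0 : κ →₀ ℤ).support ⊆ T
      rw [Finsupp.support_zero]
      exact Finset.empty_subset T
    | mul x y _ _ hx hy =>
      rw [map_mul]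
      exact Finsupp.support_add.trans (Finset.union_subset hx hy)
    | inv x _ hx =>
      rw [map_inv]
      show (-(Multiplicative.toAdd (cbF κ x))).support ⊆ T
      rw [Finsupp.support_neg]
      exact hx
  have hT : ∀ l : κ, l ∈ T := by
    intro l
    apply hw (FreeGroup.of l)
    have h1 : cbF κ (FreeGroup.of l) = Multiplicative.ofAdd (Finsupp.single l 1) :=
      FreeGroup.lift_apply_of
    rw [h1]
    show l ∈ (Finsupp.single l (1 : ℤ)).support
    rw [Finsupp.mem_support_iff, Finsupp.single_eq_same]
    exact one_ne_zero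
  exact Finite.of_injective (fun l => (⟨l, hT l⟩ : T)) fun a b h => congrArg Subtype.val h

theorem exists_basis {G : Type} [Group G] (C : Subgroup G) (hC : IsFreeGroup C) :
    ∃ (κ : Type) (c : κ → G), Subgroup.closure (Set.range c) = C ∧
      Function.Injective (FreeGroup.lift c) := by
  obtain ⟨κ, e, h1, h2⟩ := cb_basis C hC
  exact ⟨κ, _, h1, h2⟩

/-- the basis is finite if the group is finitely generated; homological injectivity in terms of the
basis -/
theorem exists_basis_fg {G : Type} [Group G] (A : Subgroup G) (hA : IsFreeGroup A) (hfg : A.FG) :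
    ∃ (s : ℕ) (a : Fin s → G), Subgroup.closure (Set.range a) = A ∧
      Function.Injective (FreeGroup.lift a) ∧
      (Function.Injective (Abelianization.map A.subtype) →
        ∀ m : Fin s → ℤ, ∏ i, Abelianization.of (a i) ^ m i = 1 → m = 0) := by
  obtain ⟨κ, e, h1, h2⟩ := cb_basis A hA
  have hfgA : Group.FG A := (Group.fg_iff_subgroup_fg A).2 hfg
  have hfgF : Group.FG (FreeGroup κ) :=
    Group.fg_of_surjective (f := e.symm.toMonoidHom) e.symm.surjective
  have hfin : Finite κ := cb_finite κ hfgF
  obtain ⟨s, ⟨q⟩⟩ := Finite.exists_equiv_fin κ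
  have hl : (FreeGroup.lift fun i : Fin s => ((e (FreeGroup.of (q.symm i)) : A) : G)) =
      (FreeGroup.lift fun l => ((e (FreeGroup.of l) : A) : G)).comp
        (FreeGroup.freeGroupCongr q.symm).toMonoidHom := by
    apply FreeGroup.ext_hom
    intro i
    rw [FreeGroup.lift_apply_of]
    show _ = (FreeGroup.lift fun l => ((e (FreeGroup.of l) : A) : G))
      (FreeGroup.map q.symm (FreeGroup.of i))
    rw [FreeGroup.map.of, FreeGroup.lift_apply_of]
  refine ⟨s, fun i => ((e (FreeGroup.of (q.symm i)) : A) : G), ?_, ?_, ?_⟩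
  · have hr : (Set.range fun i : Fin s => ((e (FreeGroup.of (q.symm i)) : A) : G)) =
        Set.range fun l => ((e (FreeGroup.of l) : A) : G) :=
      q.symm.surjective.range_comp (fun l => ((e (FreeGroup.of l) : A) : G))
    rw [hr, h1]
  · rw [hl]
    intro v w h
    exact (FreeGroup.freeGroupCongr q.symm).injective (h2 h)
  · intro hab m hm
    have h3 : Abelianization.map A.subtype
        (∏ i, Abelianization.of (e (FreeGroup.of (q.symm i))) ^ m i) = 1 := by
      rw [map_prod]
      refine Eq.trans (Finset.prod_congr rfl fun i _ => ?_) hm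
      rw [map_zpow, Abelianization.map_of]
      rfl
    have h4 : ∏ i, Abelianization.of (e (FreeGroup.of (q.symm i))) ^ m i = 1 := by
      apply hab
      rw [h3, map_one]
    have h5 := congrArg (Abelianization.lift ((cbF κ).comp e.symm.toMonoidHom)) h4
    rw [map_prod, map_one] at h5
    have h6 : ∀ i, Abelianization.lift ((cbF κ).comp e.symm.toMonoidHom)
        (Abelianization.of (e (FreeGroup.of (q.symm i))) ^ m i) =
          Multiplicative.ofAdd (Finsupp.single (q.symm i) (m i)) := by
      intro i
      rw [map_zpow, Abelianization.lift_apply_of]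
      have h7 : ((cbF κ).comp e.symm.toMonoidHom) (e (FreeGroup.of (q.symm i))) =
          Multiplicative.ofAdd (Finsupp.single (q.symm i) 1) := by
        show cbF κ (e.symm (e (FreeGroup.of (q.symm i)))) = _
        rw [MulEquiv.symm_apply_apply]
        exact FreeGroup.lift_apply_of
      rw [h7, ← ofAdd_zsmul, Finsupp.smul_single, smul_eq_mul, mul_one]
    rw [Finset.prod_congr rfl fun i _ => h6 i, ← ofAdd_sum] at h5
    have h8 : ∑ i, Finsupp.single (q.symm i) (m i) = (0 : κ →₀ ℤ) := h5
    funext j
    have h9 := DFunLike.congr_fun h8 (q.symm j)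
    rw [Finsupp.finsetSum_apply, Finset.sum_eq_single j, Finsupp.single_eq_same] at h9
    · exact h9
    · intro i _ hij
      exact Finsupp.single_eq_of_ne fun h => hij (q.symm.injective h).symm
    · intro h
      exact absurd (Finset.mem_univ j) h

theorem free_der {G M σ : Type} [Group G] [AddCommGroup M] [Module (GR G) M] (A : Subgroup G)
    (a : σ → G) (hcl : Subgroup.closure (Set.range a) = A)
    (hinj : Function.Injective (FreeGroup.lift a)) (w : σ → M) :
    ∃ D : A → M, IsDer A.subtype D ∧ ∀ (i : σ) (h : a i ∈ A), D ⟨a i, h⟩ = w i := by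
  obtain ⟨e, he1, he2⟩ := cb_iso A a hcl hinj
  obtain ⟨D, hD1, hD2⟩ := exists_der (FreeGroup.lift a) w
  refine ⟨fun x => D (e.symm x), fun g h => ?_, fun i h => ?_⟩
  · show D (e.symm (g * h)) = D (e.symm g) + (el (g : G) : GR G) • D (e.symm h)
    rw [map_mul, hD1, ← he1, MulEquiv.apply_symm_apply]
  · show D (e.symm ⟨a i, h⟩) = w i
    rw [he2, hD2]

theorem dual_der {G κ : Type} [Group G] [DecidableEq κ] (C : Subgroup G) (c : κ → G)
    (hcl : Subgroup.closure (Set.range c) = C) (hinj : Function.Injective (FreeGroup.lift c))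
    (m : κ) :
    ∃ D : C → GR C, IsDer (MonoidHom.id C) D ∧
      ∀ (l : κ) (h : c l ∈ C), D ⟨c l, h⟩ = if l = m then 1 else 0 := by
  obtain ⟨e, he1, he2⟩ := cb_iso C c hcl hinj
  obtain ⟨D, hD1, hD2⟩ := exists_der (M := GR C) e.toMonoidHom
    (fun l => if l = m then (1 : GR C) else 0)
  refine ⟨fun x => D (e.symm x), fun g h => ?_, fun i h => ?_⟩
  · show D (e.symm (g * h)) = D (e.symm g) + (el g : GR C) • D (e.symm h)
    rw [map_mul, hD1]
    show _ + (el (e (e.symm g)) : GR C) • _ = _
    rw [MulEquiv.apply_symm_apply]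
  · show D (e.symm ⟨c i, h⟩) = _
    rw [he2, hD2]

/-- a derivation on `C` is determined by its values on generators -/
theorem der_eq_of_gen {G M κ : Type} [Group G] [AddCommGroup M] [Module (GR G) M]
    (C : Subgroup G) (c : κ → G) (hcl : Subgroup.closure (Set.range c) = C) (D D' : C → M)
    (hD : IsDer C.subtype D) (hD' : IsDer C.subtype D')
    (h : ∀ (l : κ) (hl : c l ∈ C), D ⟨c l, hl⟩ = D' ⟨c l, hl⟩) : D = D' := by
  have key : ∀ x (hx : x ∈ Subgroup.closure (Set.range c)),
      ∀ hC : x ∈ C, D ⟨x, hC⟩ = D' ⟨x, hC⟩ := by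
    intro x hx
    induction hx using Subgroup.closure_induction with
    | mem x hx =>
      obtain ⟨l, rfl⟩ := hx
      exact fun hC => h l hC
    | one =>
      intro hC
      have h1 : (⟨1, hC⟩ : C) = 1 := rfl
      rw [h1, der_one _ hD, der_one _ hD']
    | mul x y hx' hy' hx hy =>
      intro hC
      have hxC : x ∈ C := hcl ▸ hx'
      have hyC : y ∈ C := hcl ▸ hy'
      have h1 : (⟨x * y, hC⟩ : C) = ⟨x, hxC⟩ * ⟨y, hyC⟩ := rfl
      rw [h1, hD, hD', hx, hy]
    | inv x hx' hx =>
      intro hC
      have hxC : x ∈ C := hcl ▸ hx'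
      have h1 : (⟨x⁻¹, hC⟩ : C) = ⟨x, hxC⟩⁻¹ := rfl
      rw [h1, der_inv _ hD, der_inv _ hD', hx]
  funext x
  exact key x (by rw [hcl]; exact x.2) x.2

end PAL
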