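import Pool.Agent.PAL.Basic
import Pool.Agent.PFC.HShort
import Pool.Agent.PFC.HTr

/-!
# PAL/Cd (module PAL-Cd): the cohomological dimension is at most two

`0 → (ρ → GR G) → (N → GR G) → augId G → 0`, `w ↦ w X`, `u ↦ ∑ u_ν (el z_ν - 1)`, is exact.  Injective: the
coefficients of `w` are finitely supported, hence square summable, and `ra` of a finitely supported
function is the product; use `hP.inj`.  Middle: let `M` be the quotient of `N → GR G` by the submodule spanned
by the rows of `X`; by `hP.ext` there is a derivation `D : G → M` with `D(z_ν) = e_ν`; `der_rel` (with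
`θ = id`) gives `∑ u_ν e_ν = 0`.  Surjective: `aug_gen` (`PFC/KAug.lean`).  Then `pd_one`/`pd_two`/`pd_three`
(`PFC/HShort.lean`), `pd_proj`, `pd_tr` (`PFC/HTr.lean`).
-/

set_option autoImplicit false

open PFC

namespace PAL

/-- multiplication of row vectors by a matrix -/
private noncomputable def cdF {G ρ N : Type} [Group G] [Fintype ρ] (X : ρ → N → GR G) :
    (ρ → GR G) →ₗ[GR G] (N → GR G) where
  toFun w := fun ν => ∑ r, w r * X r ν
  map_add' v w := by
    funext ν
    show ∑ r, (v r + w r) * X r ν = ∑ r, v r * X r ν + ∑ r, w r * X r ν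
    rw [← Finset.sum_add_distrib]
    exact Finset.sum_congr rfl fun r _ => add_mul _ _ _
  map_smul' a w := by
    funext ν
    show ∑ r, (a * w r) * X r ν = a * ∑ r, w r * X r ν
    rw [Finset.mul_sum]
    exact Finset.sum_congr rfl fun r _ => mul_assoc _ _ _

private noncomputable def cdG0 {G N : Type} [Group G] [Fintype N] (z : N → G) :
    (N → GR G) →ₗ[GR G] GR G where
  toFun u := ∑ ν, u ν * (el (z ν) - 1)
  map_add' u v := by
    show ∑ ν, (u ν + v ν) * (el (z ν) - 1) = _
    rw [← Finset.sum_add_distrib]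
    exact Finset.sum_congr rfl fun ν _ => add_mul _ _ _
  map_smul' a u := by
    show ∑ ν, (a * u ν) * (el (z ν) - 1) = a * ∑ ν, u ν * (el (z ν) - 1)
    rw [Finset.mul_sum]
    exact Finset.sum_congr rfl fun ν _ => mul_assoc _ _ _

private theorem cdG0_mem {G N : Type} [Group G] [Fintype N] (z : N → G) (u : N → GR G) :
    cdG0 z u ∈ augId G := by
  rw [mem_augId]
  show eps G (∑ ν, u ν * (el (z ν) - 1)) = 0
  rw [map_sum]
  refine Finset.sum_eq_zero fun ν _ => ?_
  rw [map_mul, map_sub, eps_el, map_one, sub_self, mul_zero]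

private noncomputable def cdG {G N : Type} [Group G] [Fintype N] (z : N → G) :
    (N → GR G) →ₗ[GR G] augId G := (cdG0 z).codRestrict (augId G) (cdG0_mem z)

/-- the real function given by an element of the group ring -/
private noncomputable def cdv {G : Type} [Group G] (f : GR G) (g : G) : ℝ := ((f.coeff g : ℤ) : ℝ)

private theorem cdv_sq {G : Type} [Group G] (f : GR G) : Sq (cdv f) := by
  show Summable fun g => cdv f g ^ 2
  refine summable_of_hasFiniteSupport ?_
  refine Set.Finite.subset f.coeff.finite_support fun g hg => ?_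
  rw [Function.mem_support] at hg ⊢
  intro h
  apply hg
  show ((f.coeff g : ℤ) : ℝ) ^ 2 = 0
  rw [h]
  norm_num

private theorem cdv_ra {G : Type} [Group G] (w f : GR G) (x : G) : ra (cdv w) f x = cdv (w * f) x := by
  refine add_ext (W := ℝ) (lin fun g => cdv w (x * g⁻¹))
    (AddMonoidHom.mk' (fun f : GR G => cdv (w * f) x) ?_) ?_ f
  · intro a b
    show (((w * (a + b) : GR G).coeff x : ℤ) : ℝ) = (((w * a : GR G).coeff x : ℤ) : ℝ) + (((w * b : GR G).coeff x : ℤ) : ℝ)
    rw [mul_add]
    show (((w * a : GR G).coeff x + (w * b : GR G).coeff x : ℤ) : ℝ) = _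
    rw [Int.cast_add]
  · intro g
    rw [lin_el]
    show ((w.coeff (x * g⁻¹) : ℤ) : ℝ) = (((w * el g : GR G).coeff x : ℤ) : ℝ)
    have h2 : (el g : GR G) = MonoidAlgebra.single g 1 := rfl
    rw [h2, MonoidAlgebra.coeff_mul_single_apply, mul_one]

private theorem cdv_sum {G ρ : Type} [Group G] (s : Finset ρ) (f : ρ → GR G) (x : G) :
    cdv (∑ r ∈ s, f r) x = ∑ r ∈ s, cdv (f r) x := by
  classical
  induction s using Finset.induction_on with
  | empty =>
    rw [Finset.sum_empty, Finset.sum_empty]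
    show (((0 : GR G).coeff x : ℤ) : ℝ) = 0
    have h : (0 : GR G).coeff x = 0 := rfl
    rw [h, Int.cast_zero]
  | insert a s ha ih =>
    rw [Finset.sum_insert ha, Finset.sum_insert ha, ← ih]
    show (((f a + ∑ r ∈ s, f r : GR G).coeff x : ℤ) : ℝ) = _
    have h : (f a + ∑ r ∈ s, f r : GR G).coeff x = (f a).coeff x + (∑ r ∈ s, f r : GR G).coeff x := rfl
    rw [h, Int.cast_add]
    rfl

private theorem cdF_inj {G ρ N : Type} [Group G] [Fintype ρ] [Fintype N] (z : N → G) (X : ρ → N → GR G)
    (hP : Pres ⊤ z X) : Function.Injective (cdF X) := by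
  rw [← LinearMap.ker_eq_bot, LinearMap.ker_eq_bot']
  intro w hw
  have h1 := hP.inj (fun r => cdv (w r)) (fun r => cdv_sq (w r)) (by
    intro ν x
    have h2 : ∑ r, w r * X r ν = 0 := congrFun hw ν
    have h3 : cdv (∑ r, w r * X r ν) x = 0 := by
      rw [h2]
      show (((0 : GR G).coeff x : ℤ) : ℝ) = 0
      have h : (0 : GR G).coeff x = 0 := rfl
      rw [h, Int.cast_zero]
    rw [cdv_sum] at h3
    rw [← h3]
    exact Finset.sum_congr rfl fun r _ => cdv_ra (w r) (X r ν) x)
  funext r
  have h4 : ∀ g, (w r).coeff g = 0 := by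
    intro g
    have h5 : cdv (w r) g = 0 := congrFun (congrFun h1 r) g
    exact Int.cast_eq_zero.1 h5
  have h6 : (w r).coeff = 0 := Finsupp.ext h4
  show w r = 0
  exact MonoidAlgebra.coeff_injective (h6.trans rfl)

private theorem cd_exact {G ρ N : Type} [Group G] [Fintype ρ] [Fintype N] (z : N → G) (X : ρ → N → GR G)
    (hP : Pres ⊤ z X) : Function.Exact (cdF X) (cdG z) := by
  classical
  intro u
  constructor
  · intro hu
    have h0 : ∑ ν, u ν * (el (z ν) - 1) = 0 := congrArg Subtype.val hu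
    obtain ⟨E, hE⟩ : ∃ E : N → (N → GR G) ⧸ LinearMap.range (cdF X),
        E = fun ν => Submodule.Quotient.mk (Pi.single ν 1) := ⟨_, rfl⟩
    have hsum : ∀ v : N → GR G, ∑ ν, v ν • E ν = Submodule.Quotient.mk v := by
      intro v
      rw [hE]
      have h1 : ∀ ν, v ν • (Submodule.Quotient.mk (Pi.single ν 1) : (N → GR G) ⧸ LinearMap.range (cdF X)) =
          (LinearMap.range (cdF X)).mkQ (v ν • Pi.single ν 1) := fun ν => rfl
      rw [Finset.sum_congr rfl fun ν _ => h1 ν, ← map_sum]
      show Submodule.Quotient.mk _ = _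
      congr 1
      funext μ
      rw [Finset.sum_apply, Finset.sum_eq_single μ]
      · rw [Pi.smul_apply, Pi.single_eq_same, smul_eq_mul, mul_one]
      · intro ν _ hν
        rw [Pi.smul_apply, Pi.single_eq_of_ne hν.symm, smul_zero]
      · intro h
        exact absurd (Finset.mem_univ μ) h
    obtain ⟨D, hD, hDz⟩ := hP.ext ((N → GR G) ⧸ LinearMap.range (cdF X)) E (by
      intro r
      rw [hsum, Submodule.Quotient.mk_eq_zero]
      refine ⟨Pi.single r 1, ?_⟩
      funext ν
      show ∑ s, (Pi.single r 1 : ρ → GR G) s * X s ν = X r ν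
      rw [Finset.sum_eq_single r]
      · rw [Pi.single_eq_same, one_mul]
      · intro s _ hs
        rw [Pi.single_eq_of_ne hs, zero_mul]
      · intro h
        exact absurd (Finset.mem_univ r) h)
    have h2 := der_rel (MonoidHom.id G) ⊤ D hD z (fun ν => Subgroup.mem_top _) u
      (fun ν => inSub_top _) h0
    have h3 : ∑ ν, u ν • E ν = 0 := by
      rw [← h2]
      refine Finset.sum_congr rfl fun ν _ => ?_
      rw [mp_id, hDz]
    rw [hsum, Submodule.Quotient.mk_eq_zero] at h3
    exact h3
  · rintro ⟨w, rfl⟩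
    apply Subtype.ext
    show ∑ ν, (∑ r, w r * X r ν) * (el (z ν) - 1) = 0
    have h1 : ∀ ν, (∑ r, w r * X r ν) * (el (z ν) - 1) = ∑ r, w r * (X r ν * (el (z ν) - 1)) := by
      intro ν
      rw [Finset.sum_mul]
      exact Finset.sum_congr rfl fun r _ => mul_assoc _ _ _
    rw [Finset.sum_congr rfl fun ν _ => h1 ν, Finset.sum_comm]
    refine Finset.sum_eq_zero fun r _ => ?_
    rw [← Finset.mul_sum, hP.rel, mul_zero]

private theorem cdG_surj {G ρ N : Type} [Group G] [Fintype ρ] [Fintype N] (z : N → G) (X : ρ → N → GR G)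
    (hP : Pres ⊤ z X) : Function.Surjective (cdG z) := by
  rintro ⟨a, ha⟩
  obtain ⟨c, hc⟩ := aug_gen z hP.gen a ((mem_augId a).1 ha)
  exact ⟨c, Subtype.ext hc.symm⟩

theorem cd_two {G ρ N : Type} [Group G] [Fintype ρ] [Fintype N] (z : N → G) (X : ρ → N → GR G)
    (hP : Pres ⊤ z X) : PdLT G (Tr G) 3 := by
  refine pd_tr G 2 ?_
  refine pd_three (cdF X) (cdG z) (cdF_inj z X hP) (cdG_surj z X hP) (cd_exact z X hP) 1 ?_ ?_
  · exact pd_proj inferInstance
  · exact pd_mono 1 2 (by omega) (pd_proj inferInstance)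

end PAL
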