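import Pool.Agent.PAL.Rep

/-!
# PAL/Conv (module PAL-Conv): square summable kernel vectors are fixed by the convolution with `p`

Let the real group ring act from the right on vectors of functions by
`act w M l' x = ∑_l ∑_g (M l l')(g) w_l(x g⁻¹)`.  `v J = 0` gives `act v (TT J) = 0`, so
`act v (qn K n (TT J)) = v` for `n ≥ 1`.  By the Cauchy-Schwarz inequality
`|∑_{l,y} v_l(y) (qn - p)_{l l'}(y⁻¹ x)| ≤ ‖v‖ (|ρ| eta K n)^(1/2) → 0` (`eta_tendsto`).
-/

set_option autoImplicit false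

open PFC Filter

namespace PAL

private noncomputable def conv_l {G : Type} [Group G] (F : G → ℝ) : MonoidAlgebra ℝ G →+ ℝ :=
  (Finsupp.liftAddHom (fun g => AddMonoidHom.mulRight (F g))).comp
    (MonoidAlgebra.coeffAddEquiv (R := ℝ) (M := G)).toAddMonoidHom

private theorem conv_l_single {G : Type} [Group G] (F : G → ℝ) (g : G) (c : ℝ) :
    conv_l F (MonoidAlgebra.single g c) = c * F g := by
  have h1 : conv_l F (MonoidAlgebra.single g c) =
      (Finsupp.liftAddHom (fun g => AddMonoidHom.mulRight (F g))) (Finsupp.single g c) := rfl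
  rw [h1, Finsupp.liftAddHom_apply_single]
  rfl

private theorem conv_ext {G : Type} [Group G] (F F' : MonoidAlgebra ℝ G →+ ℝ)
    (h : ∀ g c, F (MonoidAlgebra.single g c) = F' (MonoidAlgebra.single g c))
    (x : MonoidAlgebra ℝ G) : F x = F' x := by
  have h1 : F = F' := by
    apply MonoidAlgebra.addMonoidHom_ext
    intro g n
    exact h g n
  rw [h1]

private theorem conv_l_eq {G : Type} [Group G] (F : G → ℝ) (f : MonoidAlgebra ℝ G) :
    conv_l F f = ∑ g ∈ f.coeff.support, f.coeff g * F g := by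
  show (Finsupp.liftAddHom (fun g => AddMonoidHom.mulRight (F g))) f.coeff = _
  rw [Finsupp.liftAddHom_apply]
  rfl

private theorem conv_l_sum {G ι : Type} [Group G] (s : Finset ι) (F : ι → G → ℝ)
    (f : MonoidAlgebra ℝ G) : conv_l (fun g => ∑ i ∈ s, F i g) f = ∑ i ∈ s, conv_l (F i) f := by
  rw [← AddMonoidHom.finsetSum_apply]
  refine conv_ext (conv_l fun g => ∑ i ∈ s, F i g) (∑ i ∈ s, conv_l (F i)) ?_ f
  intro g c
  rw [AddMonoidHom.finsetSum_apply, conv_l_single, Finset.mul_sum]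
  exact Finset.sum_congr rfl fun i _ => (conv_l_single _ _ _).symm

private noncomputable def conv_r {G : Type} [Group G] (w : G → ℝ) (f : MonoidAlgebra ℝ G)
    (x : G) : ℝ := conv_l (fun g => w (x * g⁻¹)) f

private theorem conv_r_mul {G : Type} [Group G] (w : G → ℝ) (f h : MonoidAlgebra ℝ G) (x : G) :
    conv_r (conv_r w f) h x = conv_r w (f * h) x := by
  refine conv_ext (conv_l fun g => conv_r w f (x * g⁻¹))
    ((conv_l fun g => w (x * g⁻¹)).comp (AddMonoidHom.mulLeft f)) ?_ h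
  intro k c
  rw [conv_l_single]
  show c * conv_l (fun g => w (x * k⁻¹ * g⁻¹)) f =
    conv_l (fun g => w (x * g⁻¹)) (f * MonoidAlgebra.single k c)
  refine conv_ext ((AddMonoidHom.mulLeft c).comp (conv_l fun g => w (x * k⁻¹ * g⁻¹)))
    ((conv_l fun g => w (x * g⁻¹)).comp (AddMonoidHom.mulRight (MonoidAlgebra.single k c))) ?_ f
  intro g b
  show c * conv_l (fun g => w (x * k⁻¹ * g⁻¹)) (MonoidAlgebra.single g b) =
    conv_l (fun g => w (x * g⁻¹)) (MonoidAlgebra.single g b * MonoidAlgebra.single k c)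
  rw [MonoidAlgebra.single_mul_single, conv_l_single, conv_l_single, mul_inv_rev, ← mul_assoc,
    ← mul_assoc, mul_comm c b]

private theorem conv_r_smul {G : Type} [Group G] (w : G → ℝ) (c : ℝ) (f : MonoidAlgebra ℝ G)
    (x : G) : conv_r w (c • f) x = c * conv_r w f x := by
  have hadd : ∀ a b : MonoidAlgebra ℝ G, c • (a + b) = c • a + c • b := fun a b => smul_add c a b
  refine conv_ext ((conv_l fun g => w (x * g⁻¹)).comp (AddMonoidHom.mk' (fun f => c • f) hadd))
    ((AddMonoidHom.mulLeft c).comp (conv_l fun g => w (x * g⁻¹))) ?_ f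
  intro g b
  show conv_l (fun g => w (x * g⁻¹)) (c • MonoidAlgebra.single g b) =
    c * conv_l (fun g => w (x * g⁻¹)) (MonoidAlgebra.single g b)
  rw [MonoidAlgebra.smul_single, smul_eq_mul, conv_l_single, conv_l_single, mul_assoc]

private theorem conv_r_toR {G : Type} [Group G] (w : G → ℝ) (f : GR G) (x : G) :
    conv_r w (toR f) x = ra w f x := by
  refine add_ext ((conv_l fun g => w (x * g⁻¹)).comp (toR (G := G)).toAddMonoidHom)
    (lin fun g => w (x * g⁻¹)) ?_ f
  intro g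
  rw [lin_el]
  show conv_l (fun g => w (x * g⁻¹)) (toR (MonoidAlgebra.single g 1)) = _
  have h1 : toR (MonoidAlgebra.single g 1 : GR G) = MonoidAlgebra.single g (1 : ℝ) := by
    simp [toR]
  rw [h1, conv_l_single, one_mul]

private theorem conv_hasSum {G : Type} [Group G] (w : G → ℝ) (f : MonoidAlgebra ℝ G) (x : G) :
    HasSum (fun y => w y * f.coeff (y⁻¹ * x)) (conv_r w f x) := by
  have h1 : HasSum (fun g => f.coeff g * w (x * g⁻¹)) (conv_r w f x) := by
    unfold conv_r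
    rw [conv_l_eq]
    apply hasSum_sum_of_ne_finset_zero
    intro g hg
    rw [Finsupp.notMem_support_iff.1 hg, zero_mul]
  have h2 := ((Equiv.inv G).trans (Equiv.mulRight x)).hasSum_iff.2 h1
  refine h2.congr_fun ?_
  intro y
  show w y * f.coeff (y⁻¹ * x) = f.coeff (y⁻¹ * x) * w (x * (y⁻¹ * x)⁻¹)
  rw [mul_comm]
  congr 2
  group

private noncomputable def conv_a {G ρ : Type} [Group G] [Fintype ρ] (w : ρ → G → ℝ)
    (M : Matrix ρ ρ (MonoidAlgebra ℝ G)) : ρ → G → ℝ := fun l' x => ∑ l, conv_r (w l) (M l l') x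

private theorem conv_a_one {G ρ : Type} [Group G] [Fintype ρ] [DecidableEq ρ] (w : ρ → G → ℝ) :
    conv_a w 1 = w := by
  funext l' x
  unfold conv_a
  rw [Finset.sum_eq_single l']
  · rw [Matrix.one_apply_eq]
    show conv_l (fun g => w l' (x * g⁻¹)) (MonoidAlgebra.single 1 1) = _
    rw [conv_l_single, inv_one, mul_one, one_mul]
  · intro l _ hl
    rw [Matrix.one_apply_ne hl]
    exact map_zero _
  · intro h
    exact absurd (Finset.mem_univ _) h

private theorem conv_a_mul {G ρ : Type} [Group G] [Fintype ρ] (w : ρ → G → ℝ)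
    (M N : Matrix ρ ρ (MonoidAlgebra ℝ G)) : conv_a w (M * N) = conv_a (conv_a w M) N := by
  funext l' x
  unfold conv_a
  have h1 : ∀ l, conv_r (w l) ((M * N) l l') x = ∑ k, conv_r (conv_r (w l) (M l k)) (N k l') x := by
    intro l
    rw [Matrix.mul_apply]
    have h2 : conv_r (w l) (∑ k, M l k * N k l') x = ∑ k, conv_r (w l) (M l k * N k l') x :=
      map_sum _ _ _
    rw [h2]
    exact Finset.sum_congr rfl fun k _ => (conv_r_mul _ _ _ _).symm
  rw [Finset.sum_congr rfl fun l _ => h1 l, Finset.sum_comm]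
  refine Finset.sum_congr rfl fun k _ => ?_
  exact (conv_l_sum Finset.univ (fun l g => conv_r (w l) (M l k) (x * g⁻¹)) (N k l')).symm

private theorem conv_a_sub {G ρ : Type} [Group G] [Fintype ρ] (w : ρ → G → ℝ)
    (M N : Matrix ρ ρ (MonoidAlgebra ℝ G)) (l' : ρ) (x : G) :
    conv_a w (M - N) l' x = conv_a w M l' x - conv_a w N l' x := by
  unfold conv_a
  rw [← Finset.sum_sub_distrib]
  refine Finset.sum_congr rfl fun l _ => ?_
  exact map_sub _ _ _

private theorem conv_a_smul {G ρ : Type} [Group G] [Fintype ρ] (w : ρ → G → ℝ) (c : ℝ)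
    (M : Matrix ρ ρ (MonoidAlgebra ℝ G)) (l' : ρ) (x : G) :
    conv_a w (c • M) l' x = c * conv_a w M l' x := by
  unfold conv_a
  rw [Finset.mul_sum]
  refine Finset.sum_congr rfl fun l _ => ?_
  exact conv_r_smul _ _ _ _

private theorem conv_a_sum {G ρ : Type} [Group G] [Fintype ρ] (w : ρ → G → ℝ) (s : Finset ℕ)
    (M : ℕ → Matrix ρ ρ (MonoidAlgebra ℝ G)) (l' : ρ) (x : G) :
    conv_a w (∑ k ∈ s, M k) l' x = ∑ k ∈ s, conv_a w (M k) l' x := by
  unfold conv_a
  rw [Finset.sum_comm]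
  refine Finset.sum_congr rfl fun l _ => ?_
  rw [Matrix.sum_apply]
  exact map_sum _ _ _

private theorem conv_TT {G ρ σ : Type} [Group G] [Fintype ρ] [Fintype σ] (J : ρ → σ → GR G)
    (v : ρ → G → ℝ) (h0 : ∀ j x, ∑ l, ra (v l) (J l j) x = 0) (l' : ρ) (x : G) :
    conv_a v (TT J) l' x = 0 := by
  unfold conv_a TT
  have h1 : ∀ l, conv_r (v l) (toR (∑ j, J l j * sta (J l' j))) x =
      ∑ j, ra (ra (v l) (J l j)) (sta (J l' j)) x := by
    intro l
    rw [conv_r_toR, ra_sum_right]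
    exact Finset.sum_congr rfl fun j _ => (ra_mul _ _ _ _).symm
  rw [Finset.sum_congr rfl fun l _ => h1 l, Finset.sum_comm]
  refine Finset.sum_eq_zero fun j _ => ?_
  rw [← ra_sum_left]
  have h2 : (fun y => ∑ l, ra (v l) (J l j) y) = fun _ => 0 := funext fun y => h0 j y
  have h3 : ra (fun y => ∑ l, ra (v l) (J l j) y) (sta (J l' j)) x =
      ra (fun _ => 0) (sta (J l' j)) x := by rw [h2]
  refine Eq.trans ?_ (h3.trans (ra_zero_left _ _))
  rfl

private theorem conv_qn {G ρ σ : Type} [Group G] [Fintype ρ] [DecidableEq ρ] [Fintype σ]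
    (J : ρ → σ → GR G) (K : ℝ) (v : ρ → G → ℝ) (h0 : ∀ j x, ∑ l, ra (v l) (J l j) x = 0) (n : ℕ)
    (hn : n ≠ 0) : conv_a v (qn K n (TT J)) = v := by
  have h1 : conv_a v (1 - K⁻¹ • TT J) = v := by
    funext l' x
    rw [conv_a_sub, conv_a_smul, conv_TT J v h0, conv_a_one, mul_zero, sub_zero]
  have h2 : ∀ k : ℕ, conv_a v ((1 - K⁻¹ • TT J) ^ k) = v := by
    intro k
    induction k with
    | zero => rw [pow_zero, conv_a_one]
    | succ k ih => rw [pow_succ, conv_a_mul, ih, h1]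
  funext l' x
  unfold qn
  rw [conv_a_smul, conv_a_sum]
  simp only [h2]
  rw [Finset.sum_const, Finset.card_range, nsmul_eq_mul, ← mul_assoc,
    inv_mul_cancel₀ (Nat.cast_ne_zero.2 hn), one_mul]

/-- the entries of `p` are square summable -/
theorem sq_of_bound {G ρ σ : Type} [Group G] [Fintype ρ] [DecidableEq ρ] [Fintype σ]
    (J : ρ → σ → GR G) (K : ℝ) (p : ρ → ρ → G → ℝ)
    (hp : ∀ n : ℕ, 2 ≤ n → ∀ S : Finset G,
      ∑ l, ∑ l', ∑ g ∈ S, ((qn K n (TT J) l l').coeff g - p l l' g) ^ 2 ≤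
        Fintype.card ρ * eta K n) (l l' : ρ) : Sq (p l l') := by
  have h1 : Summable fun g => ((qn K 2 (TT J) l l').coeff g - p l l' g) ^ 2 := by
    refine summable_of_sum_le (c := Fintype.card ρ * eta K 2) (fun g => sq_nonneg _) fun S => ?_
    refine le_trans ?_ (hp 2 le_rfl S)
    have h3 : ∑ g ∈ S, ((qn K 2 (TT J) l l').coeff g - p l l' g) ^ 2 ≤
        ∑ l', ∑ g ∈ S, ((qn K 2 (TT J) l l').coeff g - p l l' g) ^ 2 :=
      Finset.single_le_sum (f := fun l' => ∑ g ∈ S, ((qn K 2 (TT J) l l').coeff g - p l l' g) ^ 2)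
        (fun i _ => Finset.sum_nonneg fun g _ => sq_nonneg _) (Finset.mem_univ l')
    refine h3.trans ?_
    exact Finset.single_le_sum (f := fun l => ∑ l', ∑ g ∈ S,
      ((qn K 2 (TT J) l l').coeff g - p l l' g) ^ 2)
      (fun i _ => Finset.sum_nonneg fun j _ => Finset.sum_nonneg fun g _ => sq_nonneg _)
      (Finset.mem_univ l)
  have h2 : Summable fun g => ((qn K 2 (TT J) l l').coeff g) ^ 2 := by
    refine summable_of_ne_finset_zero (s := (qn K 2 (TT J) l l').coeff.support) fun g hg => ?_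
    rw [Finsupp.notMem_support_iff.1 hg]
    norm_num
  refine Summable.of_nonneg_of_le (fun g => sq_nonneg _) (fun g => ?_)
    ((h1.mul_left 2).add (h2.mul_left 2))
  show p l l' g ^ 2 ≤ 2 * ((qn K 2 (TT J) l l').coeff g - p l l' g) ^ 2 +
    2 * ((qn K 2 (TT J) l l').coeff g) ^ 2
  nlinarith [sq_nonneg (2 * (qn K 2 (TT J) l l').coeff g - p l l' g)]

theorem conv_fix {G ρ σ : Type} [Group G] [Fintype ρ] [DecidableEq ρ] [Fintype σ]
    (J : ρ → σ → GR G) (K : ℝ) (p : ρ → ρ → G → ℝ)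
    (hp : ∀ n : ℕ, 2 ≤ n → ∀ S : Finset G,
      ∑ l, ∑ l', ∑ g ∈ S, ((qn K n (TT J) l l').coeff g - p l l' g) ^ 2 ≤
        Fintype.card ρ * eta K n)
    (v : ρ → G → ℝ) (hv : ∀ l, Sq (v l)) (h0 : ∀ j x, ∑ l, ra (v l) (J l j) x = 0) (l' : ρ)
    (x : G) : HasSum (fun y => ∑ l, v l y * p l l' (y⁻¹ * x)) (v l' x) := by
  classical
  have hps : ∀ l, Summable fun y : G => p l l' (y⁻¹ * x) ^ 2 := fun l =>
    ((Equiv.inv G).trans (Equiv.mulRight x)).summable_iff.2 (sq_of_bound J K p hp l l')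
  have hsum : Summable fun y => ∑ l, v l y * p l l' (y⁻¹ * x) := by
    refine summable_sum fun l _ => ?_
    refine Summable.of_norm_bounded (g := fun y => v l y ^ 2 + p l l' (y⁻¹ * x) ^ 2)
      ((hv l).add (hps l)) fun y => ?_
    rw [Real.norm_eq_abs, abs_le]
    constructor
    · nlinarith [sq_nonneg (v l y + p l l' (y⁻¹ * x)), sq_nonneg (v l y),
        sq_nonneg (p l l' (y⁻¹ * x))]
    · nlinarith [sq_nonneg (v l y - p l l' (y⁻¹ * x)), sq_nonneg (v l y),
        sq_nonneg (p l l' (y⁻¹ * x))]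
  obtain ⟨S, hS⟩ := hsum
  have hq : ∀ n : ℕ, 2 ≤ n → HasSum (fun y => ∑ l, v l y * (qn K n (TT J) l l').coeff (y⁻¹ * x))
      (v l' x) := by
    intro n hn
    have h1 : v l' x = ∑ l, conv_r (v l) (qn K n (TT J) l l') x := by
      have h2 := congrFun (congrFun (conv_qn J K v h0 n (by omega)) l') x
      exact h2.symm
    rw [h1]
    exact hasSum_sum fun l _ => conv_hasSum (v l) (qn K n (TT J) l l') x
  set V : ℝ := ∑ l, ∑' y, v l y ^ 2 with hV
  have hV0 : 0 ≤ V := Finset.sum_nonneg fun l _ => tsum_nonneg fun y => sq_nonneg _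
  have hfin : ∀ n : ℕ, 2 ≤ n → ∀ Y : Finset G,
      (∑ y ∈ Y, ((∑ l, v l y * p l l' (y⁻¹ * x)) -
        ∑ l, v l y * (qn K n (TT J) l l').coeff (y⁻¹ * x))) ^ 2 ≤
      V * (Fintype.card ρ * eta K n) := by
    intro n hn Y
    have e1 : (∑ y ∈ Y, ((∑ l, v l y * p l l' (y⁻¹ * x)) -
        ∑ l, v l y * (qn K n (TT J) l l').coeff (y⁻¹ * x))) =
        ∑ z ∈ Y ×ˢ (Finset.univ : Finset ρ), v z.2 z.1 *
          (p z.2 l' (z.1⁻¹ * x) - (qn K n (TT J) z.2 l').coeff (z.1⁻¹ * x)) := by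
      rw [Finset.sum_product]
      refine Finset.sum_congr rfl fun y _ => ?_
      rw [← Finset.sum_sub_distrib]
      refine Finset.sum_congr rfl fun l _ => ?_
      show _ = v l y * (p l l' (y⁻¹ * x) - (qn K n (TT J) l l').coeff (y⁻¹ * x))
      ring
    rw [e1]
    refine (Finset.sum_mul_sq_le_sq_mul_sq _ _ _).trans ?_
    refine mul_le_mul ?_ ?_ (Finset.sum_nonneg fun z _ => sq_nonneg _) hV0
    · rw [Finset.sum_product_right]
      refine Finset.sum_le_sum fun l _ => ?_
      exact (hv l).sum_le_tsum Y fun y _ => sq_nonneg _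
    · rw [Finset.sum_product_right]
      have hinj : Function.Injective fun y : G => y⁻¹ * x := by
        intro a b hab
        exact inv_injective (mul_right_cancel hab)
      refine le_trans ?_ (hp n hn (Y.image fun y => y⁻¹ * x))
      refine Finset.sum_le_sum fun l _ => ?_
      have e2 : ∑ y ∈ Y, (p l l' (y⁻¹ * x) - (qn K n (TT J) l l').coeff (y⁻¹ * x)) ^ 2 =
          ∑ g ∈ Y.image (fun y => y⁻¹ * x), ((qn K n (TT J) l l').coeff g - p l l' g) ^ 2 := by
        rw [Finset.sum_image fun a _ b _ hab => hinj hab]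
        refine Finset.sum_congr rfl fun y _ => ?_
        ring
      refine e2.le.trans ?_
      exact Finset.single_le_sum (f := fun l' => ∑ g ∈ Y.image (fun y => y⁻¹ * x),
        ((qn K n (TT J) l l').coeff g - p l l' g) ^ 2)
        (fun i _ => Finset.sum_nonneg fun g _ => sq_nonneg _) (Finset.mem_univ l')
  have hlim : ∀ n : ℕ, 2 ≤ n → (S - v l' x) ^ 2 ≤ V * (Fintype.card ρ * eta K n) := by
    intro n hn
    have h1 := (hS.sub (hq n hn))
    have h2 : Tendsto (fun Y : Finset G => (∑ y ∈ Y, ((∑ l, v l y * p l l' (y⁻¹ * x)) -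
        ∑ l, v l y * (qn K n (TT J) l l').coeff (y⁻¹ * x))) ^ 2) atTop
        (nhds ((S - v l' x) ^ 2)) := h1.pow 2
    exact le_of_tendsto h2 (Eventually.of_forall fun Y => hfin n hn Y)
  have h3 : Tendsto (fun n : ℕ => V * (Fintype.card ρ * eta K n)) atTop
      (nhds (V * (Fintype.card ρ * 0))) :=
    ((eta_tendsto K).const_mul _).const_mul _
  rw [mul_zero, mul_zero] at h3
  have h4 : (S - v l' x) ^ 2 ≤ 0 :=
    ge_of_tendsto h3 ((eventually_ge_atTop 2).mono fun n hn => hlim n hn)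
  have h5 : S - v l' x = 0 := by
    have h6 := le_antisymm h4 (sq_nonneg _)
    exact pow_eq_zero_iff two_ne_zero |>.1 h6
  have h6 : S = v l' x := by linarith
  rw [← h6]
  exact hS

end PAL
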