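import Pool.Agent.PAL.Basic

/-!
# PAL/Glue (module PAL-Glue): derivations on amalgamated products

`amalgam_sup`: let `K = B ⊔ A ≤ H`; the universal property with `Y = K` gives `F : H → K` and with `Y = H`
(uniqueness) the composition of `F` with the inclusion is the identity.  `glue_der`: the universal
property with `Y` the semidirect product `M ⋊ G` (see `SD` in `PFC/KDer.lean`); the component in `G` is the
inclusion by uniqueness.
-/

set_option autoImplicit false

open PFC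

namespace PAL

theorem amalgam_sup {G : Type} [Group G] (H B A : Subgroup G) (hH : IsAmalgam H B A) :
    B ⊔ A = H := by
  obtain ⟨hB, hA, univ⟩ := hH
  apply le_antisymm (sup_le hB hA)
  obtain ⟨F, ⟨hF1, hF2⟩, -⟩ := univ (↥(B ⊔ A)) (Subgroup.inclusion le_sup_left)
    (Subgroup.inclusion le_sup_right) (fun x _ _ => rfl)
  obtain ⟨F', -, huniq⟩ := univ G B.subtype A.subtype (fun x _ _ => rfl)
  have h1 : (B ⊔ A).subtype.comp F = F' := by
    apply huniq
    refine ⟨fun x hx hxH => ?_, fun x hx hxH => ?_⟩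
    · rw [MonoidHom.comp_apply, hF1 x hx hxH]; rfl
    · rw [MonoidHom.comp_apply, hF2 x hx hxH]; rfl
  have h2 : H.subtype = F' := by
    apply huniq
    exact ⟨fun x hx hxH => rfl, fun x hx hxH => rfl⟩
  intro x hx
  have h3 : (B ⊔ A).subtype (F ⟨x, hx⟩) = x := by
    have h4 := DFunLike.congr_fun (h1.trans h2.symm) ⟨x, hx⟩
    exact h4
  rw [← h3]
  exact (F ⟨x, hx⟩).2

private structure GlSD (Q M : Type) where
  m : M
  q : Q

private theorem GlSD.ext' {Q M : Type} {a b : GlSD Q M} (h1 : a.m = b.m) (h2 : a.q = b.q) :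
    a = b := by
  cases a; cases b; cases h1; cases h2; rfl

@[instance_reducible]
private noncomputable def glGroup (Q M : Type) [Group Q] [AddCommGroup M] [Module (GR Q) M] :
    Group (GlSD Q M) where
  mul a b := ⟨a.m + (el a.q : GR Q) • b.m, a.q * b.q⟩
  one := ⟨0, 1⟩
  inv a := ⟨-((el a.q⁻¹ : GR Q) • a.m), a.q⁻¹⟩
  mul_assoc a b c := by
    refine GlSD.ext' ?_ (mul_assoc _ _ _)
    show a.m + (el a.q : GR Q) • b.m + (el (a.q * b.q) : GR Q) • c.m =
      a.m + (el a.q : GR Q) • (b.m + (el b.q : GR Q) • c.m)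
    rw [smul_add, el_mul, mul_smul, add_assoc]
  one_mul a := by
    refine GlSD.ext' ?_ (one_mul _)
    show (0 : M) + (el (1 : Q) : GR Q) • a.m = a.m
    rw [el_one, one_smul, zero_add]
  mul_one a := by
    refine GlSD.ext' ?_ (mul_one _)
    show a.m + (el a.q : GR Q) • (0 : M) = a.m
    rw [smul_zero, add_zero]
  inv_mul_cancel a := by
    refine GlSD.ext' ?_ (inv_mul_cancel _)
    show -((el a.q⁻¹ : GR Q) • a.m) + (el a.q⁻¹ : GR Q) • a.m = 0
    exact neg_add_cancel _

theorem glue_der {G M : Type} [Group G] [AddCommGroup M] [Module (GR G) M] (H B A : Subgroup G)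
    (hH : IsAmalgam H B A) (DB : B → M) (hDB : IsDer B.subtype DB) (DA : A → M)
    (hDA : IsDer A.subtype DA)
    (hag : ∀ (g : G) (hB : g ∈ B) (hA : g ∈ A), DB ⟨g, hB⟩ = DA ⟨g, hA⟩) :
    ∃ D : H → M, IsDer H.subtype D ∧
      (∀ (g : G) (hB : g ∈ B) (hg : g ∈ H), D ⟨g, hg⟩ = DB ⟨g, hB⟩) ∧
      ∀ (g : G) (hA : g ∈ A) (hg : g ∈ H), D ⟨g, hg⟩ = DA ⟨g, hA⟩ := by
  obtain ⟨hB, hA, univ⟩ := hH
  let _ := glGroup G M
  let f : B →* GlSD G M :=
    { toFun := fun b => ⟨DB b, b⟩
      map_one' := GlSD.ext' (der_one B.subtype hDB) rfl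
      map_mul' := fun a b => GlSD.ext' (hDB a b) rfl }
  let g : A →* GlSD G M :=
    { toFun := fun b => ⟨DA b, b⟩
      map_one' := GlSD.ext' (der_one A.subtype hDA) rfl
      map_mul' := fun a b => GlSD.ext' (hDA a b) rfl }
  let p : GlSD G M →* G :=
    { toFun := fun a => a.q
      map_one' := rfl
      map_mul' := fun _ _ => rfl }
  obtain ⟨F, ⟨hF1, hF2⟩, -⟩ := univ (GlSD G M) f g
    (fun x hB hA => GlSD.ext' (hag x hB hA) rfl)
  obtain ⟨F', -, huniq⟩ := univ G B.subtype A.subtype (fun x _ _ => rfl)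
  have h1 : p.comp F = F' := by
    apply huniq
    refine ⟨fun x hx hxH => ?_, fun x hx hxH => ?_⟩
    · rw [MonoidHom.comp_apply, hF1 x hx hxH]; rfl
    · rw [MonoidHom.comp_apply, hF2 x hx hxH]; rfl
  have h2 : H.subtype = F' := by
    apply huniq
    exact ⟨fun x hx hxH => rfl, fun x hx hxH => rfl⟩
  have h3 : ∀ x : H, (F x).q = x := fun x => DFunLike.congr_fun (h1.trans h2.symm) x
  refine ⟨fun x => (F x).m, ?_, ?_, ?_⟩
  · intro x y
    show (F (x * y)).m = (F x).m + (el (x : G) : GR G) • (F y).m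
    rw [map_mul]
    show (F x).m + (el (F x).q : GR G) • (F y).m = _
    rw [h3]
  · intro x hx hxH
    show (F ⟨x, hxH⟩).m = _
    rw [hF1 x hx hxH]; rfl
  · intro x hx hxH
    show (F ⟨x, hxH⟩).m = _
    rw [hF2 x hx hxH]; rfl

end PAL
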