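import Pool.Agent.PAL.Trans
import Pool.Agent.PAL.Glue
import Pool.Agent.PAL.CBas

/-!
# PAL/Cyc (module PAL-Cyc): amalgams over cyclic subgroups

Let `c` generate `B ⊓ A`.  If `c = 1`: `z'' = z, z'`, `X'' = diag(X, X')`.  If `c ≠ 1` then `c` has infinite order
(`hres`: if `c^n = 1` with `n > 0` take a prime `p` which does not divide `n` and a finite `p`-group quotient in
which `c` is nontrivial).  Let `JB`, `JA` be Fox derivatives of `c` (`exists_fund`); the rows of `X''` are
`(X, 0)`, `(- JB, JA)`, `(0, X')`.  `inj`: for `v = (v', v'', w)` with `v X'' = 0` the columns of `B` give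
`v' X = v'' JB`; multiply from the right by the `el (z ν) - 1` and sum (`hB.rel`, `Fund`, `ra_mul`):
`v'' (c - 1) = 0`, so `v''` is constant on the infinite cosets `x⟨c⟩`, so `v'' = 0`; then `hB.inj`, `hA.inj`.
`ext`: as in `PAL/Step.lean` (`glue_der`; derivations on `B ⊓ A` are determined by the value at `c`).
`gen`: `amalgam_sup`.
-/

set_option autoImplicit false

open PFC

namespace PAL

private theorem Cyc_inSub_mono {G : Type} [Group G] {B H : Subgroup G} (h : B ≤ H) {f : GR G}
    (hf : InSub B f) : InSub H f := fun g hg => h (hf g hg)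

private theorem Cyc_core {G ρ N ρ' N' κ : Type} [Group G] [Fintype ρ] [Fintype N] [Fintype ρ']
    [Fintype N'] [Fintype κ] (H B A : Subgroup G) (z : N → G)
    (X : ρ → N → GR G) (hB : Pres B z X) (z' : N' → G) (X' : ρ' → N' → GR G)
    (hA : Pres A z' X') (hH : IsAmalgam H B A) (c : κ → G)
    (hccl : Subgroup.closure (Set.range c) = B ⊓ A)
    (hκ : ∀ u : κ → G → ℝ, (∀ l, Sq (u l)) → (∀ x, ∑ l, ra (u l) (el (c l) - 1) x = 0) → u = 0) :
    ∃ (ρ'' N'' : Type) (_ : Fintype ρ'') (_ : Fintype N'') (z'' : N'' → G)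
      (X'' : ρ'' → N'' → GR G), Pres H z'' X'' := by
  have hcBA : ∀ l, c l ∈ B ⊓ A := by
    intro l
    rw [← hccl]
    exact Subgroup.subset_closure ⟨l, rfl⟩
  have hBH : B ≤ H := hH.1
  have hAH : A ≤ H := hH.2.1
  have hz : ∀ ν, z ν ∈ B := by
    intro ν
    rw [← hB.gen]
    exact Subgroup.subset_closure ⟨ν, rfl⟩
  have ha : ∀ i, z' i ∈ A := by
    intro i
    rw [← hA.gen]
    exact Subgroup.subset_closure ⟨i, rfl⟩
  choose JB hFB hSB using fun l => exists_fund z B hB.gen (c l) (hcBA l).1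
  choose JA hFA hSA using fun l => exists_fund z' A hA.gen (c l) (hcBA l).2
  refine ⟨ρ ⊕ (κ ⊕ ρ'), N ⊕ N', inferInstance, inferInstance, Sum.elim z z',
    Sum.elim (fun i => Sum.elim (X i) fun _ => 0)
      (Sum.elim (fun l => Sum.elim (JB l) fun i => - JA l i)
        (fun r => Sum.elim (fun _ => 0) (X' r))), ⟨?_, ?_, ?_, ?_, ?_⟩⟩
  · rw [Set.Sum.elim_range, Subgroup.closure_union, hB.gen, hA.gen]
    exact amalgam_sup H B A hH
  · rintro (i | l | r)
    · rw [Fintype.sum_sum_type]
      have h1 := hB.rel i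
      have h2 : ∑ i' : N', (0 : GR G) * (el (z' i') - 1) = 0 :=
        Finset.sum_eq_zero fun _ _ => zero_mul _
      show ∑ ν, X i ν * (el (z ν) - 1) + ∑ i' : N', (0 : GR G) * (el (z' i') - 1) = 0
      rw [h1, h2, add_zero]
    · rw [Fintype.sum_sum_type]
      have h1 : el (c l) - 1 = ∑ ν, JB l ν * (el (z ν) - 1) := hFB l
      have h2 : el (c l) - 1 = ∑ i, JA l i * (el (z' i) - 1) := hFA l
      show ∑ ν, JB l ν * (el (z ν) - 1) + ∑ i : N', (- JA l i) * (el (z' i) - 1) = 0
      have h3 : ∑ i : N', (- JA l i) * (el (z' i) - 1) = - (el (c l) - 1) := by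
        rw [h2, ← Finset.sum_neg_distrib]
        exact Finset.sum_congr rfl fun i _ => neg_mul _ _
      rw [← h1, h3, add_neg_cancel]
    · rw [Fintype.sum_sum_type]
      have h1 := hA.rel r
      have h2 : ∑ i' : N, (0 : GR G) * (el (z i') - 1) = 0 :=
        Finset.sum_eq_zero fun _ _ => zero_mul _
      show ∑ i' : N, (0 : GR G) * (el (z i') - 1) + ∑ ν, X' r ν * (el (z' ν) - 1) = 0
      rw [h1, h2, add_zero]
  · rintro (i | l | r) (ν | j)
    · exact Cyc_inSub_mono hBH (hB.supp i ν)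
    · exact inSub_zero H
    · exact Cyc_inSub_mono hBH (hSB l ν)
    · exact inSub_neg (Cyc_inSub_mono hAH (hSA l j))
    · exact inSub_zero H
    · exact Cyc_inSub_mono hAH (hA.supp r j)
  · intro M _ _ w hw
    obtain ⟨DB, hDB, hDBz⟩ := hB.ext M (fun ν => w (Sum.inl ν)) (by
      intro i
      have h1 := hw (Sum.inl i)
      rw [Fintype.sum_sum_type] at h1
      have h2 : ∑ i' : N', (0 : GR G) • w (Sum.inr i') = 0 :=
        Finset.sum_eq_zero fun _ _ => zero_smul _ _
      change ∑ ν, X i ν • w (Sum.inl ν) + ∑ i' : N', (0 : GR G) • w (Sum.inr i') = 0 at h1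
      rwa [h2, add_zero] at h1)
    obtain ⟨DA, hDA, hDAa⟩ := hA.ext M (fun ν => w (Sum.inr ν)) (by
      intro i
      have h1 := hw (Sum.inr (Sum.inr i))
      rw [Fintype.sum_sum_type] at h1
      have h2 : ∑ i' : N, (0 : GR G) • w (Sum.inl i') = 0 :=
        Finset.sum_eq_zero fun _ _ => zero_smul _ _
      change ∑ i' : N, (0 : GR G) • w (Sum.inl i') + ∑ ν, X' i ν • w (Sum.inr ν) = 0 at h1
      rwa [h2, zero_add] at h1)
    have hag : ∀ (g : G) (hgB : g ∈ B) (hgA : g ∈ A), DB ⟨g, hgB⟩ = DA ⟨g, hgA⟩ := by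
      have h1 : (fun y : (B ⊓ A : Subgroup G) => DB ⟨y.1, y.2.1⟩) =
          fun y : (B ⊓ A : Subgroup G) => DA ⟨y.1, y.2.2⟩ := by
        refine der_eq_of_gen (B ⊓ A) c hccl _ _ ?_ ?_ ?_
        · intro g h
          exact hDB ⟨g.1, g.2.1⟩ ⟨h.1, h.2.1⟩
        · intro g h
          exact hDA ⟨g.1, g.2.2⟩ ⟨h.1, h.2.2⟩
        · intro l hl
          show DB ⟨c l, hl.1⟩ = DA ⟨c l, hl.2⟩
          have h2 := der_fund (MonoidHom.id G) B DB hDB z hz (c l) hl.1 (JB l) (hSB l) (hFB l)
          have h3 := der_fund (MonoidHom.id G) A DA hDA z' ha (c l) hl.2 (JA l) (hSA l) (hFA l)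
          rw [h2, h3]
          have h4 := hw (Sum.inr (Sum.inl l))
          rw [Fintype.sum_sum_type] at h4
          change ∑ ν, JB l ν • w (Sum.inl ν) + ∑ i : N', (- JA l i) • w (Sum.inr i) = 0 at h4
          have h5 : ∑ i : N', (- JA l i) • w (Sum.inr i) =
              - ∑ i : N', JA l i • w (Sum.inr i) := by
            rw [← Finset.sum_neg_distrib]
            exact Finset.sum_congr rfl fun i _ => neg_smul _ _
          rw [h5, ← sub_eq_add_neg] at h4
          have h6 := sub_eq_zero.1 h4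
          calc ∑ ν, mp (MonoidHom.id G) (JB l ν) • DB ⟨z ν, hz ν⟩ =
              ∑ ν, JB l ν • w (Sum.inl ν) :=
                Finset.sum_congr rfl fun ν _ => by rw [mp_id, hDBz ν (hz ν)]
            _ = ∑ i, JA l i • w (Sum.inr i) := h6
            _ = _ := Finset.sum_congr rfl fun i _ => by rw [mp_id, hDAa i (ha i)]
      intro g hgB hgA
      exact congrFun h1 ⟨g, hgB, hgA⟩
    obtain ⟨D, hD, hD1, hD2⟩ := glue_der H B A hH DB hDB DA hDA hag
    refine ⟨D, hD, ?_⟩
    rintro (ν | i) h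
    · exact (hD1 (z ν) (hz ν) h).trans (hDBz ν (hz ν))
    · exact (hD2 (z' i) (ha i) h).trans (hDAa i (ha i))
  · intro v hv h
    have hcolB : ∀ ν x, ∑ i, ra (v (Sum.inl i)) (X i ν) x +
        ∑ l, ra (v (Sum.inr (Sum.inl l))) (JB l ν) x = 0 := by
      intro ν x
      have h2 := h (Sum.inl ν) x
      rw [Fintype.sum_sum_type, Fintype.sum_sum_type] at h2
      change ∑ i, ra (v (Sum.inl i)) (X i ν) x + (∑ l, ra (v (Sum.inr (Sum.inl l))) (JB l ν) x +
        ∑ r : ρ', ra (v (Sum.inr (Sum.inr r))) 0 x) = 0 at h2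
      have h3 : ∑ r : ρ', ra (v (Sum.inr (Sum.inr r))) 0 x = 0 :=
        Finset.sum_eq_zero fun r _ => ra_zero_right _ _
      rwa [h3, add_zero] at h2
    have hcolA : ∀ ν x, ∑ l, ra (v (Sum.inr (Sum.inl l))) (- JA l ν) x +
        ∑ r, ra (v (Sum.inr (Sum.inr r))) (X' r ν) x = 0 := by
      intro ν x
      have h2 := h (Sum.inr ν) x
      rw [Fintype.sum_sum_type, Fintype.sum_sum_type] at h2
      change ∑ i : ρ, ra (v (Sum.inl i)) 0 x + (∑ l, ra (v (Sum.inr (Sum.inl l))) (- JA l ν) x +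
        ∑ r : ρ', ra (v (Sum.inr (Sum.inr r))) (X' r ν) x) = 0 at h2
      have h3 : ∑ r : ρ, ra (v (Sum.inl r)) 0 x = 0 :=
        Finset.sum_eq_zero fun r _ => ra_zero_right _ _
      rwa [h3, zero_add] at h2
    have hmid : (fun l => v (Sum.inr (Sum.inl l))) = (0 : κ → G → ℝ) := by
      apply hκ
      · exact fun l => hv _
      · intro x
        have h1 : ∀ l, ra (v (Sum.inr (Sum.inl l))) (el (c l) - 1) x =
            ∑ ν, ra (ra (v (Sum.inr (Sum.inl l))) (JB l ν)) (el (z ν) - 1) x := by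
          intro l
          have h2 : el (c l) - 1 = ∑ ν, JB l ν * (el (z ν) - 1) := hFB l
          rw [h2, ra_sum_right]
          exact Finset.sum_congr rfl fun ν _ => (ra_mul _ _ _ _).symm
        have h2 : ∀ i, ∑ ν, ra (ra (v (Sum.inl i)) (X i ν)) (el (z ν) - 1) x = 0 := by
          intro i
          have h3 : ∑ ν, ra (ra (v (Sum.inl i)) (X i ν)) (el (z ν) - 1) x =
              ra (v (Sum.inl i)) (∑ ν, X i ν * (el (z ν) - 1)) x := by
            rw [ra_sum_right]
            exact Finset.sum_congr rfl fun ν _ => ra_mul _ _ _ _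
          rw [h3, hB.rel i, ra_zero_right]
        have h3 : ∀ ν, ∑ i, ra (ra (v (Sum.inl i)) (X i ν)) (el (z ν) - 1) x +
            ∑ l, ra (ra (v (Sum.inr (Sum.inl l))) (JB l ν)) (el (z ν) - 1) x = 0 := by
          intro ν
          rw [← ra_sum_left, ← ra_sum_left, ← ra_add_left]
          have h4 : (fun y => ∑ i, ra (v (Sum.inl i)) (X i ν) y +
              ∑ l, ra (v (Sum.inr (Sum.inl l))) (JB l ν) y) = fun _ => 0 :=
            funext fun y => hcolB ν y
          rw [h4, ra_zero_left]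
        calc ∑ l, ra (v (Sum.inr (Sum.inl l))) (el (c l) - 1) x
            = ∑ l, ∑ ν, ra (ra (v (Sum.inr (Sum.inl l))) (JB l ν)) (el (z ν) - 1) x :=
              Finset.sum_congr rfl fun l _ => h1 l
          _ = ∑ ν, ∑ l, ra (ra (v (Sum.inr (Sum.inl l))) (JB l ν)) (el (z ν) - 1) x :=
              Finset.sum_comm
          _ = ∑ ν, ∑ i, ra (ra (v (Sum.inl i)) (X i ν)) (el (z ν) - 1) x +
              ∑ ν, ∑ l, ra (ra (v (Sum.inr (Sum.inl l))) (JB l ν)) (el (z ν) - 1) x := by
              rw [Finset.sum_comm (f := fun ν i => ra (ra (v (Sum.inl i)) (X i ν))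
                (el (z ν) - 1) x), Finset.sum_eq_zero fun i _ => h2 i, zero_add]
          _ = 0 := by
              rw [← Finset.sum_add_distrib]
              exact Finset.sum_eq_zero fun ν _ => h3 ν
    have hl : ∀ l, v (Sum.inr (Sum.inl l)) = 0 := fun l => congrFun hmid l
    have h0 : ∀ (f : GR G) (x : G), ra (0 : G → ℝ) f x = 0 := fun f x => ra_zero_left f x
    have hv1 : (fun i => v (Sum.inl i)) = (0 : ρ → G → ℝ) := by
      apply hB.inj
      · exact fun i => hv _
      · intro ν x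
        have h2 := hcolB ν x
        have h3 : ∑ l, ra (v (Sum.inr (Sum.inl l))) (JB l ν) x = 0 :=
          Finset.sum_eq_zero fun l _ => by rw [hl l, h0]
        rwa [h3, add_zero] at h2
    have hv2 : (fun r => v (Sum.inr (Sum.inr r))) = (0 : ρ' → G → ℝ) := by
      apply hA.inj
      · exact fun i => hv _
      · intro ν x
        have h2 := hcolA ν x
        have h3 : ∑ l, ra (v (Sum.inr (Sum.inl l))) (- JA l ν) x = 0 :=
          Finset.sum_eq_zero fun l _ => by rw [hl l, h0]
        rwa [h3, zero_add] at h2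
    funext r
    rcases r with i | l | r
    · exact congrFun hv1 i
    · exact hl l
    · exact congrFun hv2 r

/-- elements of finite order are trivial -/
private theorem Cyc_torsion {G : Type} [Group G] (hres : ∀ p : ℕ, p.Prime → ResQ p G) (c : G)
    (hc : c ≠ 1) (n : ℕ) (hn : 0 < n) (h : c ^ n = 1) : False := by
  obtain ⟨p, hpn, hp⟩ := Nat.exists_infinite_primes (n + 1)
  obtain ⟨W, hW, f, hfin, hpW, hf⟩ := hres p hp c hc
  obtain ⟨k, hk⟩ := hpW (f c)
  have h1 : orderOf (f c) ∣ p ^ k := orderOf_dvd_of_pow_eq_one hk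
  have h2 : orderOf (f c) ∣ n := orderOf_dvd_of_pow_eq_one (by rw [← map_pow, h, map_one])
  have hcop : Nat.Coprime (p ^ k) n := by
    apply Nat.Coprime.pow_left
    rw [hp.coprime_iff_not_dvd]
    intro h3
    have := Nat.le_of_dvd hn h3
    omega
  have h3 : orderOf (f c) = 1 := Nat.eq_one_of_dvd_coprimes hcop h1 h2
  exact hf (orderOf_eq_one_iff.1 h3)

theorem cyc_step {G ρ N ρ' N' : Type} [Group G] [Fintype ρ] [Fintype N] [Fintype ρ']
    [Fintype N'] (hres : ∀ p : ℕ, p.Prime → ResQ p G) (H B A : Subgroup G) (z : N → G)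
    (X : ρ → N → GR G) (hB : Pres B z X) (z' : N' → G) (X' : ρ' → N' → GR G)
    (hA : Pres A z' X') (hC : IsCyclic (B ⊓ A : Subgroup G)) (hH : IsAmalgam H B A) :
    ∃ (ρ'' N'' : Type) (_ : Fintype ρ'') (_ : Fintype N'') (z'' : N'' → G)
      (X'' : ρ'' → N'' → GR G), Pres H z'' X'' := by
  obtain ⟨⟨c, hcm⟩, hgen⟩ := hC.exists_generator
  have hz : Subgroup.zpowers c = B ⊓ A := by
    apply le_antisymm
    · rw [Subgroup.zpowers_le]
      exact hcm
    · intro x hx
      obtain ⟨k, hk⟩ := Subgroup.mem_zpowers_iff.1 (hgen ⟨x, hx⟩)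
      refine Subgroup.mem_zpowers_iff.2 ⟨k, ?_⟩
      have := congrArg Subtype.val hk
      simpa using this
  by_cases hc : c = 1
  · refine Cyc_core H B A z X hB z' X' hA hH (fun e : Empty => e.elim) ?_ ?_
    · rw [← hz, hc]
      simp
    · intro u _ _
      exact Subsingleton.elim _ _
  · refine Cyc_core H B A z X hB z' X' hA hH (fun _ : Unit => c) ?_ ?_
    · rw [← hz, Subgroup.zpowers_eq_closure, Set.range_const]
    · intro u hu h
      have h1 : ∀ x, u () (x * c⁻¹) = u () x := by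
        intro x
        have h2 := h x
        rw [Fintype.sum_unique] at h2
        have h3 : ra (u ()) (el c - 1) x = u () (x * c⁻¹) - u () x := by
          rw [sub_eq_add_neg, ra_add_right, ra_neg_right, ra_el, ra_one]; ring
        have h4 : ra (u ()) (el c - 1) x = 0 := h2
        rw [h3] at h4
        exact sub_eq_zero.1 h4
      have h2 : ∀ (n : ℕ) x, u () (x * c⁻¹ ^ n) = u () x := by
        intro n
        induction n with
        | zero => intro x; rw [pow_zero, mul_one]
        | succ n ih =>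
          intro x
          rw [pow_succ, ← mul_assoc, h1, ih]
      have hinj : ∀ x : G, Function.Injective fun n : ℕ => x * c⁻¹ ^ n := by
        intro x
        have key : ∀ m n : ℕ, m < n → x * c⁻¹ ^ m = x * c⁻¹ ^ n → False := by
          intro m n hmn h3
          have h4 : c⁻¹ ^ m = c⁻¹ ^ n := mul_left_cancel h3
          have h5 : c⁻¹ ^ (n - m) = 1 := by
            have h6 : c⁻¹ ^ n = c⁻¹ ^ m * c⁻¹ ^ (n - m) := by
              rw [← pow_add, Nat.add_sub_cancel' hmn.le]
            rw [h6] at h4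
            exact (left_eq_mul.1 h4)
          rw [inv_pow, inv_eq_one] at h5
          exact Cyc_torsion hres c hc (n - m) (Nat.sub_pos_of_lt hmn) h5
        intro m n h3
        rcases lt_trichotomy m n with h4 | h4 | h4
        · exact (key m n h4 h3).elim
        · exact h4
        · exact (key n m h4 h3.symm).elim
      funext l x
      have hs : Summable fun g => u () g ^ 2 := hu ()
      have h3 := hs.comp_injective (hinj x)
      have h4 : ((fun g => u () g ^ 2) ∘ fun n : ℕ => x * c⁻¹ ^ n) = fun _ => u () x ^ 2 := by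
        funext n
        show u () (x * c⁻¹ ^ n) ^ 2 = u () x ^ 2
        rw [h2]
      rw [h4] at h3
      have h5 : u () x ^ 2 = 0 := by
        have h6 := h3.tendsto_atTop_zero
        exact tendsto_nhds_unique tendsto_const_nhds h6
      exact pow_eq_zero_iff (two_ne_zero) |>.1 h5

end PAL
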