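import Pool.Agent.PFC.KFox
import Pool.Agent.PFC.KAug

/-!
# Parafree amalgams with homologically injective free factors: definitions

`GR G` is the integral group ring, `el g` its element given by `g`.  Row vectors of functions on `G` are
multiplied by matrices over `GR G` from the right: `ra v f` is the function `x ↦ ∑_g f(g) v(x g⁻¹)`.
-/

set_option autoImplicit false

open PFC

namespace PAL

/-- the additive extension of a function on the group to the group ring -/
noncomputable def lin {G : Type} [Group G] {W : Type} [AddCommGroup W] (f : G → W) : GR G →+ W :=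
  (Finsupp.liftAddHom (fun g => zmultiplesHom W (f g))).comp
    (MonoidAlgebra.coeffAddEquiv (R := ℤ) (M := G)).toAddMonoidHom

theorem lin_single {G : Type} [Group G] {W : Type} [AddCommGroup W] (f : G → W) (g : G) (n : ℤ) :
    lin f (MonoidAlgebra.single g n) = n • f g := by
  have h1 : lin f (MonoidAlgebra.single g n) =
      (Finsupp.liftAddHom (fun g => zmultiplesHom W (f g))) (Finsupp.single g n) := rfl
  rw [h1, Finsupp.liftAddHom_apply_single, zmultiplesHom_apply]

theorem lin_el {G : Type} [Group G] {W : Type} [AddCommGroup W] (f : G → W) (g : G) :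
    lin f (el g) = f g := by
  have h : (el g : GR G) = MonoidAlgebra.single g 1 := rfl
  rw [h, lin_single, one_smul]

/-- two additive maps on the group ring which agree on the group are equal -/
theorem add_ext {G : Type} [Group G] {W : Type} [AddCommGroup W] (F F' : GR G →+ W)
    (h : ∀ g, F (el g) = F' (el g)) (x : GR G) : F x = F' x := by
  have h1 : F = F' := by
    apply MonoidAlgebra.addMonoidHom_ext
    intro g n
    have h2 : (MonoidAlgebra.single g n : GR G) = n • el g := by
      show _ = n • (MonoidAlgebra.single g 1 : GR G)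
      rw [MonoidAlgebra.smul_single, smul_eq_mul, mul_one]
    rw [h2, map_zsmul, map_zsmul, h g]
  rw [h1]

/-- the right action of the group ring on real functions: `(v f)(x) = ∑_g f(g) v(x g⁻¹)` -/
noncomputable def ra {G : Type} [Group G] (v : G → ℝ) (f : GR G) (x : G) : ℝ :=
  lin (fun g => v (x * g⁻¹)) f

/-- square summable functions -/
def Sq {G : Type} (v : G → ℝ) : Prop := Summable fun g => v g ^ 2

/-- the ring homomorphism of group rings given by a group homomorphism -/
noncomputable def mp {G Q : Type} [Group G] [Group Q] (θ : G →* Q) : GR G →+* GR Q :=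
  MonoidAlgebra.mapDomainRingHom ℤ θ

theorem mp_el {G Q : Type} [Group G] [Group Q] (θ : G →* Q) (g : G) : mp θ (el g) = el (θ g) := by
  show MonoidAlgebra.mapDomainRingHom ℤ θ (MonoidAlgebra.single g 1) = MonoidAlgebra.single (θ g) 1
  rw [MonoidAlgebra.mapDomainRingHom_apply, MonoidAlgebra.mapDomain_single]

/-- the element `f` of the group ring is supported in the subgroup `B` -/
def InSub {G : Type} [Group G] (B : Subgroup G) (f : GR G) : Prop := ∀ g : G, f.coeff g ≠ 0 → g ∈ B

/-- `f` satisfies the fundamental formula `c - 1 = ∑ f_i (a_i - 1)` of the Fox calculus -/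
def Fund {G σ : Type} [Group G] [Fintype σ] (a : σ → G) (c : G) (f : σ → GR G) : Prop :=
  el c - 1 = ∑ i, f i * (el (a i) - 1)

/-- every homomorphism from `G` to the group with `p` elements which kills the `y x` is trivial -/
def PG (p : ℕ) {G X : Type} [Group G] (y : X → G) : Prop :=
  ∀ h : G →* Multiplicative (ZMod p), (∀ x, h (y x) = 1) → h = 1

/-- the lower central quotients of `G` are those of the free group on `X` -/
def LcsEq (G X : Type) [Group G] : Prop :=
  ∀ n : ℕ, Nonempty ((G ⧸ PF.gam G n) ≃* (FreeGroup X ⧸ PF.gam (FreeGroup X) n))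

/-- the family `a` can be extended to a family indexed by `X` which generates modulo `p` -/
def ExtP (p : ℕ) {G : Type} (X : Type) {σ : Type} [Group G] (a : σ → G) : Prop :=
  ∃ (y : X → G) (ι : σ → X), Function.Injective ι ∧ (∀ i, y (ι i) = a i) ∧ PG p y

/-- `H` is the amalgamated product of its subgroups `B` and `A` over `B ⊓ A` -/
def IsAmalgam {G : Type} [Group G] (H B A : Subgroup G) : Prop :=
  B ≤ H ∧ A ≤ H ∧ ∀ (Y : Type) [Group Y] (f : B →* Y) (g : A →* Y),
    (∀ (x : G) (hB : x ∈ B) (hA : x ∈ A), f ⟨x, hB⟩ = g ⟨x, hA⟩) →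
    ∃! F : H →* Y, (∀ (x : G) (hB : x ∈ B) (hH : x ∈ H), F ⟨x, hH⟩ = f ⟨x, hB⟩) ∧
      ∀ (x : G) (hA : x ∈ A) (hH : x ∈ H), F ⟨x, hH⟩ = g ⟨x, hA⟩

/-- The subgroup `B` of `G` is generated by the `z ν`; the rows of `X` are (Fox derivatives of)
defining relators; and the right multiplication by `X` is injective on square summable vectors. -/
structure Pres {G ρ N : Type} [Group G] [Fintype ρ] [Fintype N] (B : Subgroup G) (z : N → G)
    (X : ρ → N → GR G) : Prop where
  gen : Subgroup.closure (Set.range z) = B
  rel : ∀ r, ∑ ν, X r ν * (el (z ν) - 1) = 0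
  supp : ∀ r ν, InSub B (X r ν)
  ext : ∀ (M : Type) [AddCommGroup M] [Module (GR G) M] (w : N → M),
    (∀ r, ∑ ν, X r ν • w ν = 0) →
    ∃ D : B → M, IsDer B.subtype D ∧ ∀ (ν : N) (h : z ν ∈ B), D ⟨z ν, h⟩ = w ν
  inj : ∀ v : ρ → G → ℝ, (∀ r, Sq (v r)) → (∀ ν x, ∑ r, ra (v r) (X r ν) x = 0) → v = 0

end PAL
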