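import Pool.Agent.PAL.Ext
import Pool.Agent.PAL.Basic

/-!
# PAL/DerExt (module PAL-DerExt): derivations with prescribed values at generators modulo `p`

Apply `exists_hom` to the semidirect product `M ⋊ Q` (a finite `p`-group; see `SD` in `PFC/KDer.lean`) and
the elements `(w i, θ (y i))`; the component in `Q` of the homomorphism is `θ` by `hom_ext_pg`.
-/

set_option autoImplicit false

open PFC

namespace PAL

private theorem dx_el_one (Q : Type) [Group Q] : (el (1 : Q) : GR Q) = 1 := map_one _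

private theorem dx_el_mul {Q : Type} [Group Q] (a b : Q) : (el (a * b) : GR Q) = el a * el b :=
  map_mul _ _ _

private theorem dx_el_inv_mul {Q : Type} [Group Q] (a : Q) : (el a⁻¹ : GR Q) * el a = 1 := by
  rw [← dx_el_mul, inv_mul_cancel, dx_el_one]

private structure DX (Q M : Type) where
  m : M
  q : Q

private theorem DX.ext' {Q M : Type} {a b : DX Q M} (h1 : a.m = b.m) (h2 : a.q = b.q) : a = b := by
  cases a; cases b; cases h1; cases h2; rfl

@[instance_reducible]
private noncomputable def dxGroup (Q M : Type) [Group Q] [AddCommGroup M] [Module (GR Q) M] :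
    Group (DX Q M) where
  mul a b := ⟨a.m + (el a.q : GR Q) • b.m, a.q * b.q⟩
  one := ⟨0, 1⟩
  inv a := ⟨-((el a.q⁻¹ : GR Q) • a.m), a.q⁻¹⟩
  mul_assoc a b c := by
    refine DX.ext' ?_ (mul_assoc _ _ _)
    show a.m + (el a.q : GR Q) • b.m + (el (a.q * b.q) : GR Q) • c.m =
      a.m + (el a.q : GR Q) • (b.m + (el b.q : GR Q) • c.m)
    rw [smul_add, dx_el_mul, mul_smul, add_assoc]
  one_mul a := by
    refine DX.ext' ?_ (one_mul _)
    show (0 : M) + (el (1 : Q) : GR Q) • a.m = a.m
    rw [dx_el_one, one_smul, zero_add]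
  mul_one a := by
    refine DX.ext' ?_ (mul_one _)
    show a.m + (el a.q : GR Q) • (0 : M) = a.m
    rw [smul_zero, add_zero]
  inv_mul_cancel a := by
    refine DX.ext' ?_ (inv_mul_cancel _)
    show -((el a.q⁻¹ : GR Q) • a.m) + (el a.q⁻¹ : GR Q) • a.m = 0
    exact neg_add_cancel _

theorem exists_der_p {G Q M : Type} [Group G] [Group Q] [Finite Q] [AddCommGroup M]
    [Module (GR Q) M] [Finite M] {r : ℕ} (x : Fin r → G) (hx : PRT.Para x) (p : ℕ) [Fact p.Prime]
    (hQ : IsPGroup p Q) (hM : ∀ m : M, ∃ k : ℕ, p ^ k • m = 0) (θ : G →* Q) (y : Fin r → G)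
    (hy : PG p y) (w : Fin r → M) : ∃ D : G → M, IsDer θ D ∧ ∀ i, D (y i) = w i := by
  let _ := dxGroup Q M
  have hfin : Finite (DX Q M) :=
    Finite.of_injective (fun a : DX Q M => (a.m, a.q)) fun a b h => by
      have h1 := congrArg Prod.fst h
      have h2 := congrArg Prod.snd h
      exact DX.ext' h1 h2
  let π : DX Q M →* Q :=
    { toFun := fun a => a.q
      map_one' := rfl
      map_mul' := fun _ _ => rfl }
  have hpow : ∀ (a : M) (n : ℕ), (⟨a, 1⟩ : DX Q M) ^ n = ⟨n • a, 1⟩ := by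
    intro a n
    induction n with
    | zero =>
      rw [pow_zero]
      refine DX.ext' ?_ rfl
      show (0 : M) = 0 • a
      rw [zero_smul]
    | succ n ih =>
      rw [pow_succ, ih]
      refine DX.ext' ?_ (mul_one _)
      show n • a + (el (1 : Q) : GR Q) • a = (n + 1) • a
      rw [dx_el_one, one_smul, succ_nsmul]
  have hR : IsPGroup p (DX Q M) := by
    intro g
    obtain ⟨k, hk⟩ := hQ (π g)
    have h1 : (g ^ p ^ k).q = 1 := by
      have h2 : π (g ^ p ^ k) = 1 := by rw [map_pow, hk]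
      exact h2
    obtain ⟨l, hl⟩ := hM (g ^ p ^ k).m
    refine ⟨k + l, ?_⟩
    rw [pow_add, pow_mul]
    have h3 : g ^ p ^ k = ⟨(g ^ p ^ k).m, 1⟩ := DX.ext' rfl h1
    rw [h3, hpow, hl]
    rfl
  obtain ⟨φ, hφ⟩ := exists_hom x hx p hR y hy fun i => (⟨w i, θ (y i)⟩ : DX Q M)
  have hp : π.comp φ = θ := by
    apply hom_ext_pg p hQ y hy
    intro i
    show (φ (y i)).q = θ (y i)
    rw [hφ i]
  refine ⟨fun g => (φ g).m, ?_, ?_⟩
  · intro g h
    show (φ (g * h)).m = (φ g).m + (el (θ g) : GR Q) • (φ h).m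
    rw [map_mul]
    show (φ g).m + (el (φ g).q : GR Q) • (φ h).m = _
    have h1 : (φ g).q = θ g := DFunLike.congr_fun hp g
    rw [h1]
  · intro i
    show (φ (y i)).m = w i
    rw [hφ i]

end PAL
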