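import Pool.Agent.PAL.Basic

/-!
# PAL/Det (module PAL-Det): the augmented relation matrix

The columns outside of the image of `ι` of the augmented relation matrix are linearly independent
modulo `p`, since a linear dependence gives a homomorphism to the group with `p` elements which is
trivial on the `z (ι i)`.  So their number is that of the rows, and the determinant is not `0`.
-/

set_option autoImplicit false

open PFC

namespace PAL

/-- a relation between the columns which vanishes on the image of `ι` is trivial -/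
private theorem det_ker {G ρ N : Type} [Group G] [Fintype ρ] [Fintype N] {r : ℕ} (p : ℕ)
    [Fact p.Prime] (z : N → G) (X : ρ → N → GR G) (hP : Pres ⊤ z X) (ι : Fin r → N)
    (hpg : PG p fun i => z (ι i)) (t : N → ZMod p)
    (h1 : ∀ i, ∑ ν, ((eps G (X i ν) : ℤ) : ZMod p) * t ν = 0) (h2 : ∀ s, t (ι s) = 0) :
    ∀ ν, t ν = 0 := by
  let _ : Module (GR G) (ZMod p) :=
    Module.compHom (ZMod p) ((Int.castRingHom (ZMod p)).comp (eps G))
  have hsm : ∀ (a : GR G) (m : ZMod p), a • m = ((eps G a : ℤ) : ZMod p) * m := fun a m => rfl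
  obtain ⟨D, hD, hDz⟩ := hP.ext (ZMod p) t (fun i => by
    simp only [hsm]
    exact h1 i)
  let h : G →* Multiplicative (ZMod p) := MonoidHom.mk'
    (fun g => Multiplicative.ofAdd (D ⟨g, Subgroup.mem_top g⟩)) (by
      intro a b
      have h3 := hD ⟨a, Subgroup.mem_top a⟩ ⟨b, Subgroup.mem_top b⟩
      rw [hsm, eps_el, Int.cast_one, one_mul] at h3
      exact congrArg Multiplicative.ofAdd h3)
  have hh : h = 1 := by
    refine hpg h fun s => ?_
    change Multiplicative.ofAdd (D ⟨z (ι s), Subgroup.mem_top _⟩) = 1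
    rw [hDz, h2]
    rfl
  intro ν
  have h4 : h (z ν) = 1 := by rw [hh]; rfl
  have h5 : Multiplicative.ofAdd (D ⟨z ν, Subgroup.mem_top _⟩) = 1 := h4
  rw [hDz] at h5
  exact Multiplicative.ofAdd.injective h5

theorem det_ne {G ρ N : Type} [Group G] [Fintype ρ] [DecidableEq ρ] [Fintype N] {r : ℕ} (p : ℕ)
    [Fact p.Prime] (z : N → G) (X : ρ → N → GR G) (hP : Pres ⊤ z X) (ι : Fin r → N)
    (hι : Function.Injective ι) (hpg : PG p fun i => z (ι i))
    (hc : Fintype.card ρ + r ≤ Fintype.card N) :
    ∃ e : ρ → N, Function.Injective e ∧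
      (Matrix.of fun i j : ρ => eps G (X i (e j))).det ≠ 0 := by
  classical
  -- relations between the columns outside of the image of `ι`
  have key : ∀ v : {ν : N // ν ∉ Set.range ι} → ZMod p,
      (∀ i, ∑ ν, ((eps G (X i ν.1) : ℤ) : ZMod p) * v ν = 0) → v = 0 := by
    intro v hv
    let t : N → ZMod p := fun ν => if h : ν ∈ Set.range ι then 0 else v ⟨ν, h⟩
    have ht : ∀ ν, t ν = 0 := by
      refine det_ker p z X hP ι hpg t (fun i => ?_) (fun s => dif_pos ⟨s, rfl⟩)
      refine (Fintype.sum_subtype_add_sum_subtype (fun ν => ν ∈ Set.range ι) _).symm.trans ?_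
      have h3 : ∀ ν : {ν : N // ν ∈ Set.range ι},
          ((eps G (X i ν.1) : ℤ) : ZMod p) * t ν.1 = 0 := by
        intro ν
        have h4 : t ν.1 = 0 := dif_pos ν.2
        rw [h4, mul_zero]
      have h5 : ∀ ν : {ν : N // ν ∉ Set.range ι},
          ((eps G (X i ν.1) : ℤ) : ZMod p) * t ν.1 = ((eps G (X i ν.1) : ℤ) : ZMod p) * v ν := by
        intro ν
        have h4 : t ν.1 = v ν := dif_neg ν.2
        rw [h4]
      refine (congrArg₂ (fun a b : ZMod p => a + b) (Finset.sum_eq_zero fun ν _ => h3 ν)
        (Finset.sum_congr rfl fun ν _ => h5 ν)).trans ?_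
      exact (zero_add _).trans (hv i)
    funext ν
    have h5 := ht ν.1
    have h4 : t ν.1 = v ν := dif_neg ν.2
    rw [h4] at h5
    exact h5
  have hcard : Fintype.card {ν : N // ν ∉ Set.range ι} + r = Fintype.card N := by
    have h3 : Fintype.card {ν : N // ν ∈ Set.range ι} = r := by
      have h4 := Set.card_range_of_injective hι
      rw [Fintype.card_fin] at h4
      exact (Fintype.card_congr (Equiv.refl _)).trans h4
    have h5 := Fintype.card_subtype_compl (fun ν => ν ∈ Set.range ι)
    have h6 := Fintype.card_subtype_le (fun ν => ν ∈ Set.range ι)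
    omega
  have hle : Fintype.card {ν : N // ν ∉ Set.range ι} ≤ Fintype.card ρ := by
    let A : Matrix ρ {ν : N // ν ∉ Set.range ι} (ZMod p) :=
      Matrix.of fun i ν => ((eps G (X i ν.1) : ℤ) : ZMod p)
    have hinj : Function.Injective A.mulVecLin := by
      rw [← LinearMap.ker_eq_bot, LinearMap.ker_eq_bot']
      intro v hv
      refine key v fun i => ?_
      exact congrFun hv i
    have h3 := LinearMap.finrank_le_finrank_of_injective hinj
    rw [Module.finrank_fintype_fun_eq_card, Module.finrank_fintype_fun_eq_card] at h3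
    exact h3
  have heq : Fintype.card ρ = Fintype.card {ν : N // ν ∉ Set.range ι} := by omega
  let e := Fintype.equivOfCardEq heq
  refine ⟨fun i => (e i).1, fun i j hij => e.injective (Subtype.ext hij), fun h0 => ?_⟩
  have h1 : ((Matrix.of fun i j : ρ => eps G (X i (e j).1)).map
      (Int.castRingHom (ZMod p))).det = 0 := by
    have h2 := RingHom.map_det (Int.castRingHom (ZMod p))
      (Matrix.of fun i j : ρ => eps G (X i (e j).1))
    rw [h0, map_zero] at h2
    exact h2.symm
  obtain ⟨v, hv0, hv⟩ := Matrix.exists_mulVec_eq_zero_iff.2 h1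
  apply hv0
  have h3 : (fun ν => v (e.symm ν)) = 0 := by
    refine key _ fun i => ?_
    rw [← e.sum_comp]
    have h4 := congrFun hv i
    simp only [Equiv.symm_apply_apply]
    exact h4
  funext i
  have h5 := congrFun h3 (e i)
  simp only [Equiv.symm_apply_apply] at h5
  exact h5

end PAL
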