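import Pool.Agent.PAL.Burn
import Pool.Agent.PRT.Defs

/-!
# PAL/Ext (module PAL-Ext): homomorphisms to finite `p`-groups with prescribed values

The map `(G →* R) → (Fin r → R)`, `φ ↦ φ ∘ x`, is bijective (`Para x`; a finite `p`-group is nilpotent),
so `G →* R` is finite with `|R| ^ r` elements.  The map `φ ↦ φ ∘ y` is injective (`hom_ext_pg`), hence
bijective.
-/

set_option autoImplicit false

open PFC

namespace PAL

theorem exists_hom {G R : Type} [Group G] [Group R] [Finite R] {r : ℕ} (x : Fin r → G)
    (hx : PRT.Para x) (p : ℕ) [Fact p.Prime] (hR : IsPGroup p R) (y : Fin r → G) (hy : PG p y)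
    (s : Fin r → R) : ∃ φ : G →* R, ∀ i, φ (y i) = s i := by
  have hnil : Group.IsNilpotent R := hR.isNilpotent
  have hb : Function.Bijective (fun (φ : G →* R) (i : Fin r) => φ (x i)) := by
    constructor
    · intro φ ψ h
      exact (hx R hnil fun i => φ (x i)).unique (fun _ => rfl) fun i => (congrFun h i).symm
    · intro f
      obtain ⟨φ, hφ, -⟩ := hx R hnil f
      exact ⟨φ, funext hφ⟩
  have hfin : Finite (G →* R) := Finite.of_equiv _ (Equiv.ofBijective _ hb).symm
  have hinj : Function.Injective (fun (φ : G →* R) (i : Fin r) => φ (y i)) := fun φ ψ h =>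
    hom_ext_pg p hR y hy φ ψ fun i => congrFun h i
  obtain ⟨φ, hφ⟩ := (Finite.injective_iff_surjective_of_equiv (Equiv.ofBijective _ hb)).1 hinj s
  exact ⟨φ, fun i => congrFun hφ i⟩

end PAL
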