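import Pool.Agent.PAL.DerExt

/-!
# PAL/FLvl (module PAL-FLvl): the finite level

`a` extends to a family `y : Fin r → G` which generates modulo `p`.  Let `M` be `(Z/p^e)[Q]` (for example
`MonoidAlgebra (ZMod (p ^ e)) Q` with the scalars given by the ring homomorphism
`MonoidAlgebra.mapRingHom Q (Int.castRingHom (ZMod (p ^ e)))`, `Module.compHom`; or the quotient of
`GR Q` by the multiples of `p ^ e`).  For `i0` take the derivation `D` with `D (a i) = 1` if `i = i0` and `0`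
otherwise (`exists_der_p`): `u i0` is `0` in `M`, for every `e`, so `u i0 = 0`.
-/

set_option autoImplicit false

open PFC

namespace PAL

private theorem flvl_eq_sum {Q : Type} [Group Q] [Fintype Q] (f : GR Q) :
    f = ∑ q : Q, f.coeff q • (el q : GR Q) := by
  have h1 : lin (fun g : Q => (el g : GR Q)) f = f := by
    refine add_ext (lin fun g : Q => (el g : GR Q)) (AddMonoidHom.id (GR Q)) ?_ f
    intro g
    rw [lin_el]; rfl
  have h2 := lin_eq_sum (fun g : Q => (el g : GR Q)) f Finset.univ (Finset.subset_univ _)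
  rw [h1] at h2
  exact h2

private def flvlN (Q : Type) [Group Q] (n : ℕ) : Submodule (GR Q) (GR Q) where
  carrier := {f | ∃ h : GR Q, f = n • h}
  add_mem' := by
    rintro a b ⟨c, rfl⟩ ⟨d, rfl⟩
    exact ⟨c + d, (smul_add _ _ _).symm⟩
  zero_mem' := ⟨0, (smul_zero _).symm⟩
  smul_mem' := by
    rintro x a ⟨c, rfl⟩
    refine ⟨x * c, ?_⟩
    show x * (n • c) = n • (x * c)
    exact mul_smul_comm _ _ _

private theorem flvl_finite (Q : Type) [Group Q] [Finite Q] (n : ℕ) (hn : 0 < n) :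
    Finite (GR Q ⧸ flvlN Q n) := by
  have _ := Fintype.ofFinite Q
  refine Finite.of_surjective
    (fun v : Q → Fin n => (Submodule.Quotient.mk (∑ q : Q, ((v q : ℕ) : ℤ) • (el q : GR Q)) :
      GR Q ⧸ flvlN Q n)) ?_
  intro z
  obtain ⟨f, rfl⟩ := Submodule.Quotient.mk_surjective _ z
  have hn' : (0 : ℤ) < n := by exact_mod_cast hn
  have hlt : ∀ q : Q, (f.coeff q % (n : ℤ)).toNat < n := by
    intro q
    have h1 := Int.emod_lt_of_pos (f.coeff q) hn'
    have h2 := Int.emod_nonneg (f.coeff q) hn'.ne'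
    omega
  refine ⟨fun q => ⟨(f.coeff q % (n : ℤ)).toNat, hlt q⟩, ?_⟩
  refine ((Submodule.Quotient.eq _).2 ?_)
  refine ⟨∑ q : Q, (-(f.coeff q / (n : ℤ))) • (el q : GR Q), ?_⟩
  refine (congrArg (fun t : GR Q => (∑ q : Q, (((f.coeff q % (n : ℤ)).toNat : ℕ) : ℤ) •
    (el q : GR Q)) - t) (flvl_eq_sum f)).trans ?_
  show (∑ q : Q, (((f.coeff q % (n : ℤ)).toNat : ℕ) : ℤ) • (el q : GR Q)) -
    ∑ q : Q, f.coeff q • (el q : GR Q) = _
  rw [← Finset.sum_sub_distrib, Finset.smul_sum]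
  refine Finset.sum_congr rfl fun q _ => ?_
  have h2 := Int.emod_nonneg (f.coeff q) hn'.ne'
  have h3 : (((f.coeff q % (n : ℤ)).toNat : ℕ) : ℤ) = f.coeff q % (n : ℤ) := Int.toNat_of_nonneg h2
  have h4 := Int.emod_add_mul_ediv (f.coeff q) (n : ℤ)
  show ((((f.coeff q % (n : ℤ)).toNat : ℕ) : ℤ)) • (el q : GR Q) - f.coeff q • (el q : GR Q) = _
  rw [h3, ← sub_smul, ← natCast_zsmul, smul_smul]
  refine congrArg (fun t : ℤ => t • (el q : GR Q)) ?_
  linarith [mul_neg (n : ℤ) (f.coeff q / (n : ℤ))]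

theorem flvl {G σ Q : Type} [Group G] [Fintype σ] [Group Q] [Finite Q] {r : ℕ} (x : Fin r → G)
    (hx : PRT.Para x) (p : ℕ) [Fact p.Prime] (hQ : IsPGroup p Q) (θ : G →* Q) (a : σ → G)
    (ha : ExtP p (Fin r) a) (u : σ → GR Q)
    (h : ∀ (M : Type) [AddCommGroup M] [Module (GR Q) M] (D : G → M), IsDer θ D →
      ∑ i, u i • D (a i) = 0) : u = 0 := by
  funext i0
  obtain ⟨y, ι, hι, hy, hpg⟩ := ha
  have key : ∀ e : ℕ, ∃ h' : GR Q, u i0 = (p ^ e) • h' := by
    intro e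
    have hpe : 0 < p ^ e := pow_pos (Fact.out (p := p.Prime)).pos e
    have _ := flvl_finite Q (p ^ e) hpe
    have hM : ∀ m : GR Q ⧸ flvlN Q (p ^ e), ∃ k : ℕ, p ^ k • m = 0 := by
      intro m
      obtain ⟨f, rfl⟩ := Submodule.Quotient.mk_surjective _ m
      refine ⟨e, ?_⟩
      rw [← Submodule.Quotient.mk_smul]
      exact (Submodule.Quotient.mk_eq_zero _).2 ⟨f, rfl⟩
    obtain ⟨D, hD, hDy⟩ := exists_der_p x hx p hQ hM θ y hpg
      (fun j => if j = ι i0 then (Submodule.Quotient.mk 1 : GR Q ⧸ flvlN Q (p ^ e)) else 0)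
    have h1 := h (GR Q ⧸ flvlN Q (p ^ e)) D hD
    rw [Finset.sum_eq_single i0] at h1
    · rw [← hy i0, hDy, if_pos rfl, ← Submodule.Quotient.mk_smul] at h1
      obtain ⟨h', hh⟩ := (Submodule.Quotient.mk_eq_zero _).1 h1
      refine ⟨h', ?_⟩
      rw [← hh, smul_eq_mul, mul_one]
    · intro i _ hi
      rw [← hy i, hDy, if_neg, smul_zero]
      exact fun hc => hi (hι hc)
    · intro hi
      exact absurd (Finset.mem_univ _) hi
  have _ := Fintype.ofFinite Q
  show u i0 = 0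
  rw [flvl_eq_sum (u i0)]
  refine Finset.sum_eq_zero fun q _ => ?_
  have hz : (u i0).coeff q = 0 := by
    have hdvd : ∀ e : ℕ, ((p : ℤ) ^ e) ∣ (u i0).coeff q := by
      intro e
      obtain ⟨h', hh⟩ := key e
      refine ⟨h'.coeff q, ?_⟩
      rw [hh]
      show (p ^ e) • h'.coeff q = _
      rw [nsmul_eq_mul]
      push_cast
      rfl
    by_contra hne
    have h2 : ((u i0).coeff q).natAbs < p ^ ((u i0).coeff q).natAbs :=
      Nat.lt_pow_self (Fact.out (p := p.Prime)).one_lt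
    have h3 := hdvd ((u i0).coeff q).natAbs
    have h4 := Int.natAbs_dvd_natAbs.2 h3
    rw [Int.natAbs_pow, Int.natAbs_natCast] at h4
    exact absurd (Nat.le_of_dvd (Int.natAbs_pos.2 hne) h4) (not_le.2 h2)
  rw [hz, zero_smul]

end PAL
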