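import Pool.Agent.PAL.Basic

/-!
# PAL/FoxP (module PAL-FoxP): the relation matrix of a presentation

`z ν` is the image of the generator `ν`, `X i ν ∈ GR G` the image of the Fox derivative of the relator `R i`
(`exists_fox` in `PFC/KFox.lean` with `θ : FreeGroup (Fin N) → G`; the formula there for the derivation
`w ↦ el (θ w) - 1` gives `rel`; the support: work with `θ : FreeGroup (Fin N) → B` and apply `mp B.subtype`, or
use `exists_fund`-like induction).  The last statement: for `w` with `X w = 0` take the derivation `D` on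
the free group with `D(ν) = w ν` (`exists_der`), i.e. a homomorphism to the semidirect product `M ⋊ G` (`SD` in
`PFC/KDer.lean`); it kills the relators `R i` because `D(R i) = ∑_ν X i ν • w ν = 0`, so it factors through
the presented group (`PresentedGroup.toGroup`).
-/

set_option autoImplicit false

open PFC

namespace PAL

private theorem FoxP_mp_supp {G : Type} [Group G] (B : Subgroup G) (f : GR B) :
    InSub B (mp B.subtype f) := by
  classical
  intro g hg
  have h1 : (mp B.subtype f : GR G) = MonoidAlgebra.mapDomain B.subtype f := rfl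
  rw [h1] at hg
  have h2 : g ∈ (MonoidAlgebra.mapDomain B.subtype f : GR G).coeff.support :=
    Finsupp.mem_support_iff.2 hg
  have h3 : (MonoidAlgebra.mapDomain B.subtype f : GR G).coeff =
      Finsupp.mapDomain B.subtype f.coeff := rfl
  rw [h3] at h2
  have h4 := Finsupp.mapDomain_support h2
  obtain ⟨b, _, hb⟩ := Finset.mem_image.1 h4
  rw [← hb]
  exact b.2

theorem fox_pres {G : Type} [Group G] (B : Subgroup G) (N m : ℕ) (R : Fin m → FreeGroup (Fin N))
    (φ : PresentedGroup (Set.range R) ≃* B) :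
    ∃ (z : Fin N → G) (X : Fin m → Fin N → GR G),
      Subgroup.closure (Set.range z) = B ∧
      (∀ i, ∑ ν, X i ν * (el (z ν) - 1) = 0) ∧ (∀ i ν, InSub B (X i ν)) ∧
      ∀ (M : Type) [AddCommGroup M] [Module (GR G) M] (w : Fin N → M),
        (∀ i, ∑ ν, X i ν • w ν = 0) →
        ∃ D : B → M, IsDer B.subtype D ∧ ∀ (ν : Fin N) (h : z ν ∈ B), D ⟨z ν, h⟩ = w ν := by
  classical
  let π : FreeGroup (Fin N) →* PresentedGroup (Set.range R) := PresentedGroup.mk (Set.range R)
  let θ₀ : FreeGroup (Fin N) →* B := φ.toMonoidHom.comp π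
  let θ : FreeGroup (Fin N) →* G := B.subtype.comp θ₀
  have hsurj : Function.Surjective θ₀ := by
    intro b
    obtain ⟨w, hw⟩ := PresentedGroup.mk_surjective (Set.range R) (φ.symm b)
    refine ⟨w, ?_⟩
    show φ (π w) = b
    have h1 : π w = φ.symm b := hw
    rw [h1, MulEquiv.apply_symm_apply]
  have hker : ∀ w, θ₀ w = 1 → w ∈ Subgroup.normalClosure (Set.range R) := by
    intro w hw
    have h1 : φ (π w) = 1 := hw
    have h2 : π w = 1 := by
      apply φ.injective
      rw [h1, map_one]
    exact (QuotientGroup.eq_one_iff w).1 h2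
  have hR : ∀ i, θ₀ (R i) = 1 := by
    intro i
    show φ (π (R i)) = 1
    have h2 : π (R i) = 1 :=
      (QuotientGroup.eq_one_iff (R i)).2 (Subgroup.subset_normalClosure ⟨i, rfl⟩)
    rw [h2, map_one]
  obtain ⟨fox, hf, hz⟩ := exists_der θ₀ (M := Fin N → GR B) (fun z => Pi.single z 1)
  have key : ∀ (M : Type) [AddCommGroup M] [Module (GR G) M] (D : FreeGroup (Fin N) → M),
      IsDer θ D → ∀ w, D w = ∑ ν, mp B.subtype (fox w ν) • D (FreeGroup.of ν) := by
    intro M _ _ D hD w
    refine der_ext_free θ hD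
      (D' := fun w => ∑ ν, mp B.subtype (fox w ν) • D (FreeGroup.of ν)) ?_ ?_ w
    · intro g h
      show ∑ ν, mp B.subtype (fox (g * h) ν) • D (FreeGroup.of ν) =
        ∑ ν, mp B.subtype (fox g ν) • D (FreeGroup.of ν) +
        (el (θ g) : GR G) • ∑ ν, mp B.subtype (fox h ν) • D (FreeGroup.of ν)
      rw [Finset.smul_sum, ← Finset.sum_add_distrib]
      refine Finset.sum_congr rfl fun ν _ => ?_
      rw [hf g h, Pi.add_apply, Pi.smul_apply, smul_eq_mul, map_add, map_mul, add_smul, mul_smul,
        mp_el]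
      rfl
    · intro ν
      show D (FreeGroup.of ν) =
        ∑ ν', mp B.subtype (fox (FreeGroup.of ν) ν') • D (FreeGroup.of ν')
      rw [hz, Finset.sum_eq_single ν]
      · rw [Pi.single_eq_same, map_one, one_smul]
      · intro ν' _ hne
        rw [Pi.single_eq_of_ne hne, map_zero, zero_smul]
      · intro h
        exact absurd (Finset.mem_univ ν) h
  refine ⟨fun ν => θ (FreeGroup.of ν), fun i ν => mp B.subtype (fox (R i) ν), ?_, ?_, ?_, ?_⟩
  · apply le_antisymm
    · rw [Subgroup.closure_le]
      rintro _ ⟨ν, rfl⟩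
      exact (θ₀ (FreeGroup.of ν)).2
    · intro b hb
      obtain ⟨w, hw⟩ := hsurj ⟨b, hb⟩
      have h1 : θ w = b := congrArg Subtype.val hw
      rw [← h1]
      clear hw h1
      induction w using FreeGroup.induction_on with
      | C1 => rw [map_one]; exact Subgroup.one_mem _
      | of ν => exact Subgroup.subset_closure ⟨ν, rfl⟩
      | inv_of ν h => rw [map_inv]; exact Subgroup.inv_mem _ h
      | mul x y hx hy => rw [map_mul]; exact Subgroup.mul_mem _ hx hy
  · intro i
    have hD : IsDer θ (fun w => (el (θ w) - 1 : GR G)) := by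
      intro g h
      show (el (θ (g * h)) - 1 : GR G) = (el (θ g) - 1) + (el (θ g) : GR G) * (el (θ h) - 1)
      rw [map_mul, el_mul]
      noncomm_ring
    have h1 := key (GR G) (fun w => (el (θ w) - 1 : GR G)) hD (R i)
    have h2 : θ (R i) = 1 := by
      show ((θ₀ (R i) : B) : G) = 1
      rw [hR]
      rfl
    have h3 : (el (θ (R i)) - 1 : GR G) = 0 := by rw [h2, el_one, sub_self]
    rw [← h3]
    exact h1.symm
  · intro i ν
    exact FoxP_mp_supp B _
  · intro M _ _ w hw
    obtain ⟨D', hD', hw'⟩ := exists_der θ (M := M) w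
    have hDR : ∀ i, D' (R i) = 0 := by
      intro i
      rw [key M D' hD' (R i)]
      rw [← hw i]
      exact Finset.sum_congr rfl fun ν _ => by rw [hw' ν]
    let S : Subgroup (FreeGroup (Fin N)) :=
      { carrier := {w | θ w = 1 ∧ D' w = 0}
        one_mem' := ⟨map_one θ, der_one θ hD'⟩
        mul_mem' := by
          rintro a b ⟨ha1, ha2⟩ ⟨hb1, hb2⟩
          refine ⟨by rw [map_mul, ha1, hb1, one_mul], ?_⟩
          rw [hD' a b, ha2, hb2, smul_zero, add_zero]
        inv_mem' := by
          rintro a ⟨ha1, ha2⟩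
          refine ⟨by rw [map_inv, ha1, inv_one], ?_⟩
          rw [der_inv θ hD', ha2, smul_zero, neg_zero] }
    have hSn : S.Normal := by
      constructor
      rintro a ⟨ha1, ha2⟩ g
      refine ⟨by rw [map_mul, map_mul, ha1, mul_one, ← map_mul, mul_inv_cancel, map_one], ?_⟩
      have h1 : D' (g * a) = D' g := by rw [hD' g a, ha2, smul_zero, add_zero]
      have h2 : θ (g * a) = θ g := by rw [map_mul, ha1, mul_one]
      rw [hD' (g * a) g⁻¹, h1, h2, ← hD' g g⁻¹, mul_inv_cancel, der_one θ hD']
    have hSR : Subgroup.normalClosure (Set.range R) ≤ S := by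
      apply Subgroup.normalClosure_le_normal
      rintro _ ⟨i, rfl⟩
      refine ⟨?_, hDR i⟩
      show ((θ₀ (R i) : B) : G) = 1
      rw [hR]
      rfl
    have hwd : ∀ a b, θ₀ a = θ₀ b → D' a = D' b := by
      intro a b hab
      have h1 : θ₀ (a⁻¹ * b) = 1 := by rw [map_mul, map_inv, hab, inv_mul_cancel]
      have h2 : D' (a⁻¹ * b) = 0 := (hSR (hker _ h1)).2
      have h3 := hD' a (a⁻¹ * b)
      rw [mul_inv_cancel_left, h2, smul_zero, add_zero] at h3
      exact h3.symm
    choose s hs using hsurj
    refine ⟨fun b => D' (s b), ?_, ?_⟩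
    · intro a b
      have h1 : θ₀ (s (a * b)) = θ₀ (s a * s b) := by rw [map_mul, hs, hs, hs]
      show D' (s (a * b)) = D' (s a) + (el (B.subtype a) : GR G) • D' (s b)
      rw [hwd _ _ h1, hD' (s a) (s b)]
      have h2 : θ (s a) = B.subtype a := congrArg Subtype.val (hs a)
      rw [h2]
    · intro ν h
      show D' (s ⟨θ (FreeGroup.of ν), h⟩) = w ν
      rw [← hw' ν]
      apply hwd
      rw [hs]
      rfl

end PAL
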