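import Pool.Agent.PAL.Trans
import Pool.Agent.PAL.CBas

/-!
# PAL/Hnn (module PAL-Hnn): HNN extensions over cyclic subgroups

`z' = z, t`.  If `c = 1` there is no new row; `X'' = (X, 0)`.  If `c ≠ 1` the new row is
`el t * JB(c) - JB(t c t⁻¹)` on the columns `N` and `1 - el (t c t⁻¹)` on the column `t` (`exists_fund`).
`inj`: the column `t` gives `v'' (1 - t c t⁻¹) = 0`, and `t c t⁻¹` has infinite order (see `PAL/Cyc.lean`), so
`v'' = 0`.  `ext`: given `w` and the value `m` at `t`, take the derivation `D` on `B` (`hB.ext`); the universal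
property for the semidirect product `M ⋊ G` (see `SD` in `PFC/KDer.lean`), `f b = (D b, b)` and `y = (m, t)`;
the condition for `c` is the new row (`der_fund` with `θ = id`, `mp_id`); the component in `G` is the inclusion
by uniqueness.  `gen`: `H` is generated by `B` and `t` (universal property with `Y` the subgroup generated
by `B` and `t`, see `amalgam_sup` in `PAL/Glue.lean`).
-/

set_option autoImplicit false

open PFC

namespace PAL

/-- `H` is the HNN extension of `B` with stable letter `t` which conjugates `c` to `t c t⁻¹` -/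
def IsHNN {G : Type} [Group G] (H B : Subgroup G) (t c : G) : Prop :=
  B ≤ H ∧ t ∈ H ∧ c ∈ B ∧ t * c * t⁻¹ ∈ B ∧ ∀ (Y : Type) [Group Y] (f : B →* Y) (y : Y),
    (∀ (h : c ∈ B) (h' : t * c * t⁻¹ ∈ B), y * f ⟨c, h⟩ * y⁻¹ = f ⟨t * c * t⁻¹, h'⟩) →
    ∃! F : H →* Y, (∀ (x : G) (hB : x ∈ B) (hH : x ∈ H), F ⟨x, hH⟩ = f ⟨x, hB⟩) ∧
      ∀ h : t ∈ H, F ⟨t, h⟩ = y

private theorem Hnn_inSub_mono {G : Type} [Group G] {B H : Subgroup G} (h : B ≤ H) {f : GR G}
    (hf : InSub B f) : InSub H f := fun g hg => h (hf g hg)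

private structure HnnSD (Q M : Type) where
  m : M
  q : Q

private theorem HnnSD.ext' {Q M : Type} {a b : HnnSD Q M} (h1 : a.m = b.m) (h2 : a.q = b.q) :
    a = b := by
  cases a; cases b; cases h1; cases h2; rfl

@[instance_reducible]
private noncomputable def hnnGroup (Q M : Type) [Group Q] [AddCommGroup M] [Module (GR Q) M] :
    Group (HnnSD Q M) where
  mul a b := ⟨a.m + (el a.q : GR Q) • b.m, a.q * b.q⟩
  one := ⟨0, 1⟩
  inv a := ⟨-((el a.q⁻¹ : GR Q) • a.m), a.q⁻¹⟩
  mul_assoc a b c := by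
    refine HnnSD.ext' ?_ (mul_assoc _ _ _)
    show a.m + (el a.q : GR Q) • b.m + (el (a.q * b.q) : GR Q) • c.m =
      a.m + (el a.q : GR Q) • (b.m + (el b.q : GR Q) • c.m)
    rw [smul_add, el_mul, mul_smul, add_assoc]
  one_mul a := by
    refine HnnSD.ext' ?_ (one_mul _)
    show (0 : M) + (el (1 : Q) : GR Q) • a.m = a.m
    rw [el_one, one_smul, zero_add]
  mul_one a := by
    refine HnnSD.ext' ?_ (mul_one _)
    show a.m + (el a.q : GR Q) • (0 : M) = a.m
    rw [smul_zero, add_zero]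
  inv_mul_cancel a := by
    refine HnnSD.ext' ?_ (inv_mul_cancel _)
    show -((el a.q⁻¹ : GR Q) • a.m) + (el a.q⁻¹ : GR Q) • a.m = 0
    exact neg_add_cancel _

/-- the inclusion of `H` is determined by the universal property -/
private theorem Hnn_uniq {G : Type} [Group G] (H B : Subgroup G) (t c : G) (hH : IsHNN H B t c)
    (F : H →* G) (h1 : ∀ (x : G) (_ : x ∈ B) (hH : x ∈ H), F ⟨x, hH⟩ = x)
    (h2 : ∀ h : t ∈ H, F ⟨t, h⟩ = t) : F = H.subtype := by
  obtain ⟨F', -, huniq⟩ := hH.2.2.2.2 G B.subtype t (fun _ _ => rfl)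
  have h3 : F = F' := huniq F ⟨fun x hx hxH => h1 x hx hxH, h2⟩
  have h4 : H.subtype = F' := huniq H.subtype ⟨fun x hx hxH => rfl, fun _ => rfl⟩
  rw [h3, h4]

/-- `H` is generated by `B` and `t` -/
private theorem Hnn_sup {G : Type} [Group G] (H B : Subgroup G) (t c : G) (hH : IsHNN H B t c) :
    B ⊔ Subgroup.zpowers t = H := by
  have hK : B ⊔ Subgroup.zpowers t ≤ H := by
    refine sup_le hH.1 ?_
    rw [Subgroup.zpowers_le]
    exact hH.2.1
  apply le_antisymm hK
  have htK : t ∈ B ⊔ Subgroup.zpowers t := Subgroup.mem_sup_right (Subgroup.mem_zpowers t)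
  obtain ⟨F, ⟨hF1, hF2⟩, -⟩ := hH.2.2.2.2 (↥(B ⊔ Subgroup.zpowers t))
    (Subgroup.inclusion le_sup_left) ⟨t, htK⟩ (fun _ _ => rfl)
  have h1 : (B ⊔ Subgroup.zpowers t).subtype.comp F = H.subtype := by
    apply Hnn_uniq H B t c hH
    · intro x hx hxH
      rw [MonoidHom.comp_apply, hF1 x hx hxH]; rfl
    · intro h
      rw [MonoidHom.comp_apply, hF2 h]; rfl
  intro x hx
  have h3 : (B ⊔ Subgroup.zpowers t).subtype (F ⟨x, hx⟩) = x := DFunLike.congr_fun h1 ⟨x, hx⟩
  rw [← h3]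
  exact (F ⟨x, hx⟩).2

/-- derivations on `B` extend to `H` with a prescribed value at `t` -/
private theorem Hnn_der {G M : Type} [Group G] [AddCommGroup M] [Module (GR G) M]
    (H B : Subgroup G) (t c : G) (hH : IsHNN H B t c) (DB : B → M) (hDB : IsDer B.subtype DB)
    (m : M) (hm : ∀ (h : c ∈ B) (h' : t * c * t⁻¹ ∈ B),
      m + (el t : GR G) • DB ⟨c, h⟩ = DB ⟨t * c * t⁻¹, h'⟩ + (el (t * c * t⁻¹) : GR G) • m) :
    ∃ D : H → M, IsDer H.subtype D ∧
      (∀ (g : G) (hB : g ∈ B) (hg : g ∈ H), D ⟨g, hg⟩ = DB ⟨g, hB⟩) ∧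
      ∀ h : t ∈ H, D ⟨t, h⟩ = m := by
  let _ := hnnGroup G M
  let f : B →* HnnSD G M :=
    { toFun := fun b => ⟨DB b, b⟩
      map_one' := HnnSD.ext' (der_one B.subtype hDB) rfl
      map_mul' := fun a b => HnnSD.ext' (hDB a b) rfl }
  let p : HnnSD G M →* G :=
    { toFun := fun a => a.q
      map_one' := rfl
      map_mul' := fun _ _ => rfl }
  obtain ⟨F, ⟨hF1, hF2⟩, -⟩ := hH.2.2.2.2 (HnnSD G M) f ⟨m, t⟩ (by
    intro h h'
    rw [mul_inv_eq_iff_eq_mul]
    refine HnnSD.ext' (hm h h') ?_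
    show t * c = t * c * t⁻¹ * t
    rw [inv_mul_cancel_right])
  have h1 : p.comp F = H.subtype := by
    apply Hnn_uniq H B t c hH
    · intro x hx hxH
      rw [MonoidHom.comp_apply, hF1 x hx hxH]; rfl
    · intro h
      rw [MonoidHom.comp_apply, hF2 h]; rfl
  have h3 : ∀ x : H, (F x).q = x := fun x => DFunLike.congr_fun h1 x
  refine ⟨fun x => (F x).m, ?_, ?_, ?_⟩
  · intro x y
    show (F (x * y)).m = (F x).m + (el (x : G) : GR G) • (F y).m
    rw [map_mul]
    show (F x).m + (el (F x).q : GR G) • (F y).m = _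
    rw [h3]
  · intro x hx hxH
    show (F ⟨x, hxH⟩).m = _
    rw [hF1 x hx hxH]; rfl
  · intro h
    show (F ⟨t, h⟩).m = _
    rw [hF2 h]

private theorem Hnn_core {G ρ N κ : Type} [Group G] [Fintype ρ] [Fintype N] [Fintype κ]
    (H B : Subgroup G) (t c : G) (z : N → G) (X : ρ → N → GR G) (hB : Pres B z X)
    (hH : IsHNN H B t c) (hκ1 : c = 1 ∨ Nonempty κ)
    (hκ : ∀ u : κ → G → ℝ, (∀ l, Sq (u l)) →
      (∀ x, ∑ l, ra (u l) (1 - el (t * c * t⁻¹)) x = 0) → u = 0) :
    ∃ (ρ' N' : Type) (_ : Fintype ρ') (_ : Fintype N') (z' : N' → G)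
      (X' : ρ' → N' → GR G), Pres H z' X' := by
  have hBH : B ≤ H := hH.1
  have htH : t ∈ H := hH.2.1
  have hc : c ∈ B := hH.2.2.1
  have hd : t * c * t⁻¹ ∈ B := hH.2.2.2.1
  have hz : ∀ ν, z ν ∈ B := by
    intro ν
    rw [← hB.gen]
    exact Subgroup.subset_closure ⟨ν, rfl⟩
  obtain ⟨JC, hFC, hSC⟩ := exists_fund z B hB.gen c hc
  obtain ⟨JD, hFD, hSD⟩ := exists_fund z B hB.gen (t * c * t⁻¹) hd
  refine ⟨ρ ⊕ κ, N ⊕ Unit, inferInstance, inferInstance, Sum.elim z (fun _ => t),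
    Sum.elim (fun i => Sum.elim (X i) fun _ => 0)
      (fun _ => Sum.elim (fun ν => el t * JC ν - JD ν) fun _ => 1 - el (t * c * t⁻¹)),
    ⟨?_, ?_, ?_, ?_, ?_⟩⟩
  · rw [Set.Sum.elim_range, Subgroup.closure_union, hB.gen, Set.range_const,
      ← Subgroup.zpowers_eq_closure]
    exact Hnn_sup H B t c hH
  · rintro (i | l)
    · rw [Fintype.sum_sum_type]
      have h1 := hB.rel i
      have h2 : ∑ _i' : Unit, (0 : GR G) * (el t - 1) = 0 :=
        Finset.sum_eq_zero fun _ _ => zero_mul _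
      show ∑ ν, X i ν * (el (z ν) - 1) + ∑ _i' : Unit, (0 : GR G) * (el t - 1) = 0
      rw [h1, h2, add_zero]
    · rw [Fintype.sum_sum_type]
      have h1 : el c - 1 = ∑ ν, JC ν * (el (z ν) - 1) := hFC
      have h2 : el (t * c * t⁻¹) - 1 = ∑ ν, JD ν * (el (z ν) - 1) := hFD
      show ∑ ν, (el t * JC ν - JD ν) * (el (z ν) - 1) +
        ∑ _i : Unit, (1 - el (t * c * t⁻¹)) * (el t - 1) = 0
      have h3 : ∑ ν, (el t * JC ν - JD ν) * (el (z ν) - 1) =
          el t * (el c - 1) - (el (t * c * t⁻¹) - 1) := by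
        rw [h1, h2, Finset.mul_sum, ← Finset.sum_sub_distrib]
        exact Finset.sum_congr rfl fun ν _ => by rw [sub_mul, mul_assoc]
      have h4 : (el (t * c * t⁻¹) * el t : GR G) = el t * el c := by
        rw [← el_mul, ← el_mul, inv_mul_cancel_right]
      rw [h3, Fintype.sum_unique]
      have h5 : el t * (el c - 1) - (el (t * c * t⁻¹) - 1) +
          (1 - el (t * c * t⁻¹)) * (el t - 1) =
          el t * el c - el (t * c * t⁻¹) * el t := by noncomm_ring
      rw [h5, h4, sub_self]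
  · rintro (i | l) (ν | j)
    · exact Hnn_inSub_mono hBH (hB.supp i ν)
    · exact inSub_zero H
    · show InSub H (el t * JC ν - JD ν)
      rw [sub_eq_add_neg]
      exact inSub_add (inSub_el_mul htH (Hnn_inSub_mono hBH (hSC ν)))
        (inSub_neg (Hnn_inSub_mono hBH (hSD ν)))
    · show InSub H (1 - el (t * c * t⁻¹))
      rw [sub_eq_add_neg]
      exact inSub_add inSub_one (inSub_neg (inSub_el (hBH hd)))
  · intro M _ _ w hw
    obtain ⟨DB, hDB, hDBz⟩ := hB.ext M (fun ν => w (Sum.inl ν)) (by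
      intro i
      have h1 := hw (Sum.inl i)
      rw [Fintype.sum_sum_type] at h1
      have h2 : ∑ i' : Unit, (0 : GR G) • w (Sum.inr i') = 0 :=
        Finset.sum_eq_zero fun _ _ => zero_smul _ _
      change ∑ ν, X i ν • w (Sum.inl ν) + ∑ i' : Unit, (0 : GR G) • w (Sum.inr i') = 0 at h1
      rwa [h2, add_zero] at h1)
    have hm : ∀ (h : c ∈ B) (h' : t * c * t⁻¹ ∈ B),
        w (Sum.inr ()) + (el t : GR G) • DB ⟨c, h⟩ =
          DB ⟨t * c * t⁻¹, h'⟩ + (el (t * c * t⁻¹) : GR G) • w (Sum.inr ()) := by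
      intro h h'
      rcases hκ1 with h1 | ⟨⟨l⟩⟩
      · have hd1 : t * c * t⁻¹ = 1 := by rw [h1, mul_one, mul_inv_cancel]
        have h2 : DB ⟨c, h⟩ = 0 := by
          have : (⟨c, h⟩ : B) = 1 := Subtype.ext h1
          rw [this]
          exact der_one B.subtype hDB
        have h3 : DB ⟨t * c * t⁻¹, h'⟩ = 0 := by
          have : (⟨t * c * t⁻¹, h'⟩ : B) = 1 := Subtype.ext hd1
          rw [this]
          exact der_one B.subtype hDB
        rw [h2, h3, hd1, el_one, smul_zero, one_smul, add_zero, zero_add]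
      · have h2 := der_fund (MonoidHom.id G) B DB hDB z hz c h JC hSC hFC
        have h3 := der_fund (MonoidHom.id G) B DB hDB z hz (t * c * t⁻¹) h' JD hSD hFD
        have h4 := hw (Sum.inr l)
        rw [Fintype.sum_sum_type] at h4
        change ∑ ν, (el t * JC ν - JD ν) • w (Sum.inl ν) +
          ∑ i : Unit, (1 - el (t * c * t⁻¹)) • w (Sum.inr i) = 0 at h4
        have h5 : ∑ ν, mp (MonoidHom.id G) (JC ν) • DB ⟨z ν, hz ν⟩ = ∑ ν, JC ν • w (Sum.inl ν) :=
          Finset.sum_congr rfl fun ν _ => by rw [mp_id, hDBz ν (hz ν)]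
        have h6 : ∑ ν, mp (MonoidHom.id G) (JD ν) • DB ⟨z ν, hz ν⟩ = ∑ ν, JD ν • w (Sum.inl ν) :=
          Finset.sum_congr rfl fun ν _ => by rw [mp_id, hDBz ν (hz ν)]
        rw [h5] at h2
        rw [h6] at h3
        have h7 : ∑ ν, (el t * JC ν - JD ν) • w (Sum.inl ν) =
            (el t : GR G) • DB ⟨c, h⟩ - DB ⟨t * c * t⁻¹, h'⟩ := by
          rw [h2, h3, Finset.smul_sum, ← Finset.sum_sub_distrib]
          exact Finset.sum_congr rfl fun ν _ => by rw [sub_smul, mul_smul]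
        rw [h7, Fintype.sum_unique, sub_smul, one_smul] at h4
        have h8 : (default : Unit) = () := rfl
        rw [h8] at h4
        rw [← sub_eq_zero]
        rw [← h4]
        abel
    obtain ⟨D, hD, hD1, hD2⟩ := Hnn_der H B t c hH DB hDB (w (Sum.inr ())) hm
    refine ⟨D, hD, ?_⟩
    rintro (ν | i) h
    · exact (hD1 (z ν) (hz ν) h).trans (hDBz ν (hz ν))
    · exact hD2 h
  · intro v hv h
    have hcolT : ∀ x, ∑ l, ra (v (Sum.inr l)) (1 - el (t * c * t⁻¹)) x = 0 := by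
      intro x
      have h2 := h (Sum.inr ()) x
      rw [Fintype.sum_sum_type] at h2
      change ∑ i : ρ, ra (v (Sum.inl i)) 0 x +
        ∑ l, ra (v (Sum.inr l)) (1 - el (t * c * t⁻¹)) x = 0 at h2
      have h3 : ∑ r : ρ, ra (v (Sum.inl r)) 0 x = 0 :=
        Finset.sum_eq_zero fun r _ => ra_zero_right _ _
      rwa [h3, zero_add] at h2
    have hmid : (fun l => v (Sum.inr l)) = (0 : κ → G → ℝ) := hκ _ (fun l => hv _) hcolT
    have hl : ∀ l, v (Sum.inr l) = 0 := fun l => congrFun hmid l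
    have h0 : ∀ (f : GR G) (x : G), ra (0 : G → ℝ) f x = 0 := fun f x => ra_zero_left f x
    have hv1 : (fun i => v (Sum.inl i)) = (0 : ρ → G → ℝ) := by
      apply hB.inj
      · exact fun i => hv _
      · intro ν x
        have h2 := h (Sum.inl ν) x
        rw [Fintype.sum_sum_type] at h2
        change ∑ i, ra (v (Sum.inl i)) (X i ν) x +
          ∑ l, ra (v (Sum.inr l)) (el t * JC ν - JD ν) x = 0 at h2
        have h3 : ∑ l, ra (v (Sum.inr l)) (el t * JC ν - JD ν) x = 0 :=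
          Finset.sum_eq_zero fun l _ => by rw [hl l, h0]
        rwa [h3, add_zero] at h2
    funext r
    rcases r with i | l
    · exact congrFun hv1 i
    · exact hl l

/-- elements of finite order are trivial -/
private theorem Hnn_torsion {G : Type} [Group G] (hres : ∀ p : ℕ, p.Prime → ResQ p G) (c : G)
    (hc : c ≠ 1) (n : ℕ) (hn : 0 < n) (h : c ^ n = 1) : False := by
  obtain ⟨p, hpn, hp⟩ := Nat.exists_infinite_primes (n + 1)
  obtain ⟨W, hW, f, hfin, hpW, hf⟩ := hres p hp c hc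
  obtain ⟨k, hk⟩ := hpW (f c)
  have h1 : orderOf (f c) ∣ p ^ k := orderOf_dvd_of_pow_eq_one hk
  have h2 : orderOf (f c) ∣ n := orderOf_dvd_of_pow_eq_one (by rw [← map_pow, h, map_one])
  have hcop : Nat.Coprime (p ^ k) n := by
    apply Nat.Coprime.pow_left
    rw [hp.coprime_iff_not_dvd]
    intro h3
    have := Nat.le_of_dvd hn h3
    omega
  have h3 : orderOf (f c) = 1 := Nat.eq_one_of_dvd_coprimes hcop h1 h2
  exact hf (orderOf_eq_one_iff.1 h3)

theorem hnn_step {G ρ N : Type} [Group G] [Fintype ρ] [Fintype N]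
    (hres : ∀ p : ℕ, p.Prime → ResQ p G) (H B : Subgroup G) (t c : G) (z : N → G)
    (X : ρ → N → GR G) (hB : Pres B z X) (hH : IsHNN H B t c) :
    ∃ (ρ' N' : Type) (_ : Fintype ρ') (_ : Fintype N') (z' : N' → G)
      (X' : ρ' → N' → GR G), Pres H z' X' := by
  by_cases hc : c = 1
  · refine Hnn_core (κ := Empty) H B t c z X hB hH (Or.inl hc) ?_
    intro u _ _
    exact Subsingleton.elim _ _
  · refine Hnn_core (κ := Unit) H B t c z X hB hH (Or.inr ⟨()⟩) ?_
    intro u hu h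
    set d : G := t * c * t⁻¹ with hd
    have hd1 : d ≠ 1 := by
      intro h1
      apply hc
      rw [hd] at h1
      exact conj_eq_one_iff.1 h1
    have h1 : ∀ x, u () (x * d⁻¹) = u () x := by
      intro x
      have h2 := h x
      rw [Fintype.sum_unique] at h2
      have h3 : ra (u ()) (1 - el d) x = u () x - u () (x * d⁻¹) := by
        rw [sub_eq_add_neg, ra_add_right, ra_neg_right, ra_el, ra_one]; ring
      have h4 : ra (u ()) (1 - el d) x = 0 := h2
      rw [h3] at h4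
      exact (sub_eq_zero.1 h4).symm
    have h2 : ∀ (n : ℕ) x, u () (x * d⁻¹ ^ n) = u () x := by
      intro n
      induction n with
      | zero => intro x; rw [pow_zero, mul_one]
      | succ n ih =>
        intro x
        rw [pow_succ, ← mul_assoc, h1, ih]
    have hinj : ∀ x : G, Function.Injective fun n : ℕ => x * d⁻¹ ^ n := by
      intro x
      have key : ∀ m n : ℕ, m < n → x * d⁻¹ ^ m = x * d⁻¹ ^ n → False := by
        intro m n hmn h3
        have h4 : d⁻¹ ^ m = d⁻¹ ^ n := mul_left_cancel h3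
        have h5 : d⁻¹ ^ (n - m) = 1 := by
          have h6 : d⁻¹ ^ n = d⁻¹ ^ m * d⁻¹ ^ (n - m) := by
            rw [← pow_add, Nat.add_sub_cancel' hmn.le]
          rw [h6] at h4
          exact (left_eq_mul.1 h4)
        rw [inv_pow, inv_eq_one] at h5
        exact Hnn_torsion hres d hd1 (n - m) (Nat.sub_pos_of_lt hmn) h5
      intro m n h3
      rcases lt_trichotomy m n with h4 | h4 | h4
      · exact (key m n h4 h3).elim
      · exact h4
      · exact (key n m h4 h3.symm).elim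
    funext l x
    have hs : Summable fun g => u () g ^ 2 := hu ()
    have h3 := hs.comp_injective (hinj x)
    have h4 : ((fun g => u () g ^ 2) ∘ fun n : ℕ => x * d⁻¹ ^ n) = fun _ => u () x ^ 2 := by
      funext n
      show u () (x * d⁻¹ ^ n) ^ 2 = u () x ^ 2
      rw [h2]
    rw [h4] at h3
    have h5 : u () x ^ 2 = 0 := by
      have h6 := h3.tendsto_atTop_zero
      exact tendsto_nhds_unique tendsto_const_nhds h6
    exact pow_eq_zero_iff (two_ne_zero) |>.1 h5

end PAL
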