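import Pool.Agent.PAL.Basic

/-!
# PAL/HomC: deficiency and homomorphisms to `Z/p`

Homomorphisms from `B` to `Z/p` correspond to the vectors `t` with `E t = 0`, `E` the matrix of the
augmentations of the `X i ν` modulo `p`.  If their number is `p ^ (card N - card ρ)` then the rows of `E` are
linearly independent.
-/

set_option autoImplicit false

open PFC

namespace PAL

private theorem HomC_lin {ρ N : Type} [Fintype ρ] [Fintype N] (p : ℕ) [Fact p.Prime]
    (A : Matrix ρ N (ZMod p)) (h : Nat.card (LinearMap.ker A.mulVecLin) * p ^ Fintype.card ρ =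
      p ^ Fintype.card N) (w : ρ → ZMod p) (hw : ∀ ν, ∑ i, w i * A i ν = 0) : w = 0 := by
  classical
  have h1 : Nat.card (LinearMap.ker A.mulVecLin) =
      p ^ Module.finrank (ZMod p) (LinearMap.ker A.mulVecLin) := by
    rw [Module.natCard_eq_pow_finrank (K := ZMod p), Nat.card_zmod]
  have hp : 2 ≤ p := (Fact.out : p.Prime).two_le
  have h2 : Module.finrank (ZMod p) (LinearMap.ker A.mulVecLin) + Fintype.card ρ =
      Fintype.card N := by
    rw [h1, ← pow_add] at h
    exact Nat.pow_right_injective hp h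
  have h3 := LinearMap.finrank_range_add_finrank_ker A.mulVecLin
  rw [Module.finrank_fintype_fun_eq_card] at h3
  have h4 : LinearMap.range A.mulVecLin = ⊤ := by
    apply Submodule.eq_top_of_finrank_eq
    rw [Module.finrank_fintype_fun_eq_card]
    omega
  funext i
  have h5 : Pi.single i (1 : ZMod p) ∈ LinearMap.range A.mulVecLin := by
    rw [h4]
    exact Submodule.mem_top
  obtain ⟨t, ht⟩ := h5
  have h6 : ∀ i', (∑ ν, A i' ν * t ν) = (Pi.single i (1 : ZMod p) : ρ → ZMod p) i' := fun i' =>
    congrFun ht i'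
  have h7 : ∑ i', w i' * (∑ ν, A i' ν * t ν) = w i := by
    rw [Finset.sum_eq_single i]
    · rw [h6, Pi.single_eq_same, mul_one]
    · intro b _ hb
      rw [h6, Pi.single_eq_of_ne hb, mul_zero]
    · intro hi
      exact absurd (Finset.mem_univ i) hi
  have h8 : ∑ i', w i' * (∑ ν, A i' ν * t ν) = ∑ ν, (∑ i', w i' * A i' ν) * t ν := by
    simp only [Finset.mul_sum, Finset.sum_mul]
    rw [Finset.sum_comm]
    refine Finset.sum_congr rfl fun ν _ => Finset.sum_congr rfl fun i' _ => ?_
    rw [mul_assoc]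
  rw [← h7, h8]
  refine Finset.sum_eq_zero fun ν _ => ?_
  rw [hw ν, zero_mul]

theorem modp_of_card {G ρ N : Type} [Group G] [Fintype ρ] [Fintype N] (p : ℕ) [Fact p.Prime]
    (B : Subgroup G) (z : N → G) (X : ρ → N → GR G)
    (hgen : Subgroup.closure (Set.range z) = B)
    (hrel : ∀ i, ∑ ν, X i ν * (el (z ν) - 1) = 0) (hsupp : ∀ i ν, InSub B (X i ν))
    (hext : ∀ (M : Type) [AddCommGroup M] [Module (GR G) M] (w : N → M),
      (∀ i, ∑ ν, X i ν • w ν = 0) →
      ∃ D : B → M, IsDer B.subtype D ∧ ∀ (ν : N) (h : z ν ∈ B), D ⟨z ν, h⟩ = w ν)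
    (hcard : Nat.card (B →* Multiplicative (ZMod p)) * p ^ Fintype.card ρ = p ^ Fintype.card N) :
    ∀ w : ρ → ZMod p, (∀ ν, ∑ i, w i * (eps G (X i ν) : ZMod p) = 0) → w = 0 := by
  classical
  let _ : Module (GR G) (ZMod p) :=
    Module.compHom (ZMod p) ((Int.castRingHom (ZMod p)).comp (eps G))
  have hsm : ∀ (f : GR G) (m : ZMod p), f • m = (eps G f : ZMod p) * m := fun f m => rfl
  have hzB : ∀ ν, z ν ∈ B := fun ν => by
    rw [← hgen]
    exact Subgroup.subset_closure ⟨ν, rfl⟩
  let A : Matrix ρ N (ZMod p) := Matrix.of fun i ν => ((eps G (X i ν) : ℤ) : ZMod p)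
  have hA : ∀ t i, A.mulVecLin t i = ∑ ν, (eps G (X i ν) : ZMod p) * t ν := fun t i => rfl
  have hker : ∀ h : B →* Multiplicative (ZMod p),
      (fun ν => Multiplicative.toAdd (h ⟨z ν, hzB ν⟩)) ∈ LinearMap.ker A.mulVecLin := by
    intro h
    rw [LinearMap.mem_ker]
    funext i
    have hD : IsDer ((MonoidHom.id G).comp B.subtype)
        (fun b => Multiplicative.toAdd (h b)) := by
      intro b c
      rw [hsm, eps_el, Int.cast_one, one_mul]
      show Multiplicative.toAdd (h (b * c)) = _
      rw [map_mul, toAdd_mul]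
    have h1 := der_rel (MonoidHom.id G) B _ hD z hzB (X i) (hsupp i) (hrel i)
    rw [hA]
    refine Eq.trans (Finset.sum_congr rfl fun ν _ => ?_) h1
    rw [mp_id, hsm]
  let F : (B →* Multiplicative (ZMod p)) → LinearMap.ker A.mulVecLin := fun h => ⟨_, hker h⟩
  have hF : Function.Bijective F := by
    constructor
    · intro h h' hh
      have h1 : ∀ ν, h ⟨z ν, hzB ν⟩ = h' ⟨z ν, hzB ν⟩ := fun ν =>
        Multiplicative.toAdd.injective (congrFun (congrArg Subtype.val hh) ν)
      have h2 : ∀ b, b ∈ Subgroup.closure (Set.range z) → ∀ hB : b ∈ B,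
          h ⟨b, hB⟩ = h' ⟨b, hB⟩ := by
        intro b hb
        induction hb using Subgroup.closure_induction with
        | mem x hx =>
          obtain ⟨ν, rfl⟩ := hx
          exact fun _ => h1 ν
        | one =>
          intro hB
          have e : (⟨1, hB⟩ : B) = 1 := rfl
          rw [e, map_one, map_one]
        | mul x y hx hy ihx ihy =>
          intro hB
          have hxB : x ∈ B := hgen ▸ hx
          have hyB : y ∈ B := hgen ▸ hy
          have e : (⟨x * y, hB⟩ : B) = ⟨x, hxB⟩ * ⟨y, hyB⟩ := rfl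
          rw [e, map_mul, map_mul, ihx hxB, ihy hyB]
        | inv x hx ihx =>
          intro hB
          have hxB : x ∈ B := hgen ▸ hx
          have e : (⟨x⁻¹, hB⟩ : B) = (⟨x, hxB⟩ : B)⁻¹ := rfl
          rw [e, map_inv, map_inv, ihx hxB]
      refine MonoidHom.ext fun b => ?_
      exact h2 b.1 (hgen.symm ▸ b.2) b.2
    · rintro ⟨t, ht⟩
      have h1 : ∀ i, ∑ ν, X i ν • t ν = 0 := by
        intro i
        have h2 := congrFun (LinearMap.mem_ker.1 ht) i
        rw [hA] at h2
        exact h2
      obtain ⟨D, hD, hDz⟩ := hext (ZMod p) t h1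
      have hmul : ∀ b c : B, D (b * c) = D b + D c := by
        intro b c
        have h2 := hD b c
        rw [hsm, eps_el, Int.cast_one, one_mul] at h2
        exact h2
      refine ⟨MonoidHom.mk' (fun b => Multiplicative.ofAdd (D b)) fun b c => ?_, ?_⟩
      · rw [hmul, ofAdd_add]
      · refine Subtype.ext (funext fun ν => ?_)
        exact hDz ν (hzB ν)
  have hc : Nat.card (B →* Multiplicative (ZMod p)) = Nat.card (LinearMap.ker A.mulVecLin) :=
    Nat.card_congr (Equiv.ofBijective F hF)
  rw [hc] at hcard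
  intro w hw
  exact HomC_lin p A hcard w hw

end PAL
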