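import Pool.Agent.PAL.Basic
import Pool.Agent.PF.Defs

/-!
# PAL/Htwo (module PAL-Htwo): the second cohomology with values in `ℚ/ℤ` vanishes

A cocycle `f` gives the functions `φ(g) = f(·, g)`, which form a derivation modulo the constant functions.
After a correction by constants on the generators (the determinant is not zero and `ℚ/ℤ` is divisible) there is a
derivation with the same values on the generators; the difference is a function with values in `ℚ/ℤ`, and
`f` is its coboundary.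
-/

set_option autoImplicit false

open PFC

namespace PAL

/-- functions on the group with values in `ℚ/ℤ` -/
private def Htwo_M (G : Type) : Type := G → PF.QZ

private noncomputable instance Htwo_acg (G : Type) : AddCommGroup (Htwo_M G) :=
  inferInstanceAs (AddCommGroup (G → PF.QZ))

/-- right translations -/
private noncomputable def Htwo_r (G : Type) [Group G] : G →* Module.End ℤ (Htwo_M G) where
  toFun g :=
    { toFun := fun m x => m (x * g)
      map_add' := fun _ _ => rfl
      map_smul' := fun _ _ => rfl }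
  map_one' := by
    refine LinearMap.ext fun m => funext fun x => ?_
    show m (x * 1) = m x
    rw [mul_one]
  map_mul' g h := by
    refine LinearMap.ext fun m => funext fun x => ?_
    show m (x * (g * h)) = m (x * g * h)
    rw [mul_assoc]

private noncomputable instance Htwo_mod (G : Type) [Group G] : Module (GR G) (Htwo_M G) :=
  Module.compHom _ (MonoidAlgebra.lift ℤ (Module.End ℤ (Htwo_M G)) G (Htwo_r G)).toRingHom

private theorem Htwo_el {G : Type} [Group G] (g : G) (m : Htwo_M G) (x : G) :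
    ((el g : GR G) • m) x = m (x * g) := by
  show (MonoidAlgebra.lift ℤ (Module.End ℤ (Htwo_M G)) G (Htwo_r G)
    (MonoidAlgebra.of ℤ G g)) m x = _
  rw [MonoidAlgebra.lift_of]
  rfl

/-- constant functions -/
private def Htwo_c {G : Type} (c : PF.QZ) : Htwo_M G := fun _ => c

private theorem Htwo_c_add {G : Type} (c d : PF.QZ) :
    (Htwo_c (c + d) : Htwo_M G) = Htwo_c c + Htwo_c d := rfl

private theorem Htwo_smul {G : Type} [Group G] (r : GR G) (c : PF.QZ) :
    r • (Htwo_c c : Htwo_M G) = Htwo_c (eps G r • c) := by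
  refine add_ext (AddMonoidHom.mk' (fun r : GR G => r • (Htwo_c c : Htwo_M G))
    fun a b => add_smul a b _) (AddMonoidHom.mk' (fun r : GR G => Htwo_c (eps G r • c))
    fun a b => ?_) ?_ r
  · show Htwo_c (eps G (a + b) • c) = Htwo_c (eps G a • c) + Htwo_c (eps G b • c)
    rw [map_add, add_smul, Htwo_c_add]
  · intro g
    show (el g : GR G) • (Htwo_c c : Htwo_M G) = Htwo_c (eps G (el g) • c)
    rw [eps_el, one_smul]
    funext x
    rw [Htwo_el]
    rfl

/-- the constant functions -/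
private noncomputable def Htwo_C (G : Type) [Group G] : Submodule (GR G) (Htwo_M G) where
  carrier := {m | ∃ c, m = Htwo_c c}
  add_mem' := by
    rintro _ _ ⟨c, rfl⟩ ⟨d, rfl⟩
    exact ⟨c + d, rfl⟩
  zero_mem' := ⟨0, rfl⟩
  smul_mem' := by
    rintro r _ ⟨c, rfl⟩
    exact ⟨eps G r • c, Htwo_smul r c⟩

private theorem Htwo_mem {G : Type} [Group G] {m : Htwo_M G} :
    m ∈ Htwo_C G ↔ ∃ c, m = Htwo_c c := Iff.rfl

private theorem Htwo_div (d : ℤ) (hd : d ≠ 0) (c : PF.QZ) : ∃ c' : PF.QZ, d • c' = c := by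
  obtain ⟨q, rfl⟩ := QuotientAddGroup.mk_surjective c
  refine ⟨((q / d : ℚ) : PF.QZ), ?_⟩
  rw [← AddCircle.coe_zsmul]
  show ((d • (q / d) : ℚ) : PF.QZ) = ((q : ℚ) : PF.QZ)
  have hd' : (d : ℚ) ≠ 0 := by exact_mod_cast hd
  congr 1
  rw [zsmul_eq_mul, mul_div_cancel₀ _ hd']

/-- linear equations with nonzero determinant -/
private theorem Htwo_solve {ρ : Type} [Fintype ρ] [DecidableEq ρ] (A : Matrix ρ ρ ℤ)
    (hA : A.det ≠ 0) (k : ρ → PF.QZ) : ∃ u : ρ → PF.QZ, ∀ r, ∑ s, A r s • u s = k r := by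
  choose k' hk' using fun r => Htwo_div A.det hA (k r)
  refine ⟨fun s => ∑ r, A.adjugate s r • k' r, fun r => ?_⟩
  have h1 : ∑ s, A r s • ∑ r', A.adjugate s r' • k' r' =
      ∑ r', (A * A.adjugate) r r' • k' r' := by
    simp only [Finset.smul_sum, Matrix.mul_apply, Finset.sum_smul, smul_smul]
    rw [Finset.sum_comm]
  rw [h1, Matrix.mul_adjugate, Finset.sum_eq_single r]
  · rw [Matrix.smul_apply, Matrix.one_apply_eq, smul_eq_mul, mul_one, hk']
  · intro s _ hs
    rw [Matrix.smul_apply, Matrix.one_apply_ne hs.symm, smul_zero, zero_smul]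
  · intro h
    exact absurd (Finset.mem_univ r) h

theorem coc_cob {G ρ N : Type} [Group G] [Fintype ρ] [DecidableEq ρ] [Fintype N] (z : N → G)
    (X : ρ → N → GR G) (hP : Pres ⊤ z X) (e : ρ → N) (he : Function.Injective e)
    (hdet : (Matrix.of fun i j : ρ => eps G (X i (e j))).det ≠ 0) (f : G → G → PF.QZ)
    (hf : PF.IsCoc f) : PF.IsCob f := by
  classical
  obtain ⟨φ, hφ⟩ : ∃ φ : G → Htwo_M G, ∀ g x, φ g x = f x g := ⟨fun g x => f x g, fun _ _ => rfl⟩
  have hφ1 : ∀ g h, φ g + (el g : GR G) • φ h - φ (g * h) = Htwo_c (f g h) := by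
    intro g h
    funext x
    show φ g x + ((el g : GR G) • φ h) x - φ (g * h) x = f g h
    rw [Htwo_el, hφ, hφ, hφ]
    have h1 := hf x g h
    rw [sub_eq_iff_eq_add, add_comm, ← h1]
  have hφ2 : IsDer (MonoidHom.id G) (fun g => (Htwo_C G).mkQ (φ g)) := by
    intro g h
    show (Htwo_C G).mkQ (φ (g * h)) = (Htwo_C G).mkQ (φ g) + (el g : GR G) • (Htwo_C G).mkQ (φ h)
    rw [← map_smul, ← map_add, ← sub_eq_zero, ← map_sub]
    refine (Submodule.Quotient.mk_eq_zero _).2 ?_
    have h1 : φ (g * h) - (φ g + (el g : GR G) • φ h) = - Htwo_c (f g h) := by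
      rw [← hφ1 g h, neg_sub]
    rw [h1]
    exact neg_mem ⟨f g h, rfl⟩
  have hk : ∀ r, ∃ k, ∑ ν, X r ν • φ (z ν) = Htwo_c k := by
    intro r
    have h1 := der_rel' (MonoidHom.id G) _ hφ2 z (X r) (hP.rel r)
    simp only [mp_id, ← map_smul, ← map_sum] at h1
    exact (Submodule.Quotient.mk_eq_zero _).1 h1
  choose k hk using hk
  obtain ⟨u, hu⟩ := Htwo_solve _ hdet (fun r => - k r)
  obtain ⟨t, ht⟩ : ∃ t : N → PF.QZ, t = Function.extend e u 0 := ⟨_, rfl⟩
  have hsum : ∀ r, ∑ ν, eps G (X r ν) • t ν = - k r := by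
    intro r
    rw [← hu r]
    symm
    refine Fintype.sum_of_injective e he _ _ ?_ ?_
    · intro ν hν
      have h1 : t ν = 0 := by
        rw [ht]
        exact Function.extend_apply' _ _ _ fun ⟨s, hs⟩ => hν ⟨s, hs⟩
      rw [h1, smul_zero]
    · intro s
      rw [ht, he.extend_apply]
      rfl
  obtain ⟨D, hD, hDz⟩ := hP.ext (Htwo_M G) (fun ν => φ (z ν) + Htwo_c (t ν)) (by
    intro r
    simp only [smul_add, Finset.sum_add_distrib, hk, Htwo_smul]
    have h1 : ∑ ν, (Htwo_c (eps G (X r ν) • t ν) : Htwo_M G) = Htwo_c (- k r) := by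
      rw [← hsum r]
      funext x
      exact Finset.sum_apply x Finset.univ fun ν => (Htwo_c (eps G (X r ν) • t ν) : Htwo_M G)
    rw [h1, ← Htwo_c_add, add_neg_cancel]
    rfl)
  obtain ⟨D', hD'⟩ : ∃ D' : G → Htwo_M G, ∀ g, D' g = D ⟨g, Subgroup.mem_top g⟩ :=
    ⟨fun g => D ⟨g, Subgroup.mem_top g⟩, fun _ => rfl⟩
  have hD1 : ∀ g h, D' (g * h) = D' g + (el g : GR G) • D' h := by
    intro g h
    rw [hD', hD', hD']
    exact hD ⟨g, Subgroup.mem_top g⟩ ⟨h, Subgroup.mem_top h⟩
  have hψ : IsDer (MonoidHom.id G) (fun g => (Htwo_C G).mkQ (φ g - D' g)) := by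
    intro g h
    show (Htwo_C G).mkQ (φ (g * h) - D' (g * h)) =
      (Htwo_C G).mkQ (φ g - D' g) + (el g : GR G) • (Htwo_C G).mkQ (φ h - D' h)
    have h1 := hφ2 g h
    have h2 : (Htwo_C G).mkQ (φ (g * h)) = (Htwo_C G).mkQ (φ g) +
      (el g : GR G) • (Htwo_C G).mkQ (φ h) := h1
    rw [map_sub, map_sub, map_sub, h2, hD1, map_add, map_smul, smul_sub]
    abel
  have hψ0 : ∀ g, (Htwo_C G).mkQ (φ g - D' g) = 0 := by
    intro g
    have hg : g ∈ Subgroup.closure (Set.range z) := by
      rw [hP.gen]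
      exact Subgroup.mem_top g
    induction hg using Subgroup.closure_induction with
    | mem x hx =>
      obtain ⟨ν, rfl⟩ := hx
      refine (Submodule.Quotient.mk_eq_zero _).2 ?_
      rw [hD', hDz ν (Subgroup.mem_top _), sub_add_cancel_left]
      exact neg_mem ⟨t ν, rfl⟩
    | one => exact der_one (MonoidHom.id G) hψ
    | mul x y _ _ hx hy =>
      have h1 := hψ x y
      have h2 : (Htwo_C G).mkQ (φ (x * y) - D' (x * y)) =
        (Htwo_C G).mkQ (φ x - D' x) + (el x : GR G) • (Htwo_C G).mkQ (φ y - D' y) := h1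
      rw [h2, hx, hy, smul_zero, add_zero]
    | inv x _ hx =>
      have h1 := der_inv (MonoidHom.id G) hψ x
      have h2 : (Htwo_C G).mkQ (φ x⁻¹ - D' x⁻¹) =
        - ((el ((MonoidHom.id G) x)⁻¹ : GR G) • (Htwo_C G).mkQ (φ x - D' x)) := h1
      rw [h2, hx, smul_zero, neg_zero]
  have hb : ∀ g, ∃ b, φ g - D' g = Htwo_c b := fun g =>
    (Submodule.Quotient.mk_eq_zero _).1 (hψ0 g)
  choose b hb using hb
  refine ⟨b, fun g h => ?_⟩
  have h1 := congrFun (hφ1 g h) 1
  have h2 : ∀ g x, φ g x = D' g x + b g := by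
    intro g x
    have h3 : φ g x - D' g x = b g := congrFun (hb g) x
    rw [← h3, add_sub_cancel]
  have h4 : φ g 1 + ((el g : GR G) • φ h) 1 - φ (g * h) 1 = f g h := h1
  have h5 : D' (g * h) 1 = D' g 1 + D' h (1 * g) := by
    rw [hD1]
    show D' g 1 + ((el g : GR G) • D' h) 1 = _
    rw [Htwo_el]
  rw [Htwo_el, h2, h2, h2, h5] at h4
  rw [← h4]
  abel

end PAL
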