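import Pool.Agent.PAL.ModP
import Pool.Agent.PAL.Glue
import Pool.Agent.PAL.CBas

/-!
# PAL/Indep (module PAL-Indep): amalgams over subgroups which are independent modulo `p`

Take a finite basis `c : Fin t → G` of `B ⊓ A` (`exists_basis_fg`) and Fox derivatives `JB`, `JA` of the `c l`
(`exists_fund`).  `z' = z, zA`; the rows of `X'` are `(X, 0)`, `(- JB, JA)`, `(0, XA)`.  `inj`: the columns of `A`
give `v'' JA + w XA = 0`.  The matrix with the rows `JA`, `XA` satisfies the hypothesis of `inj_of_modp`: if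
`∑_l λ_l eps(JA l i) + ∑_j μ_j eps(XA j i) = 0` modulo `p` for all `i` and `h' : A → Z/p` is a homomorphism, then
(`t_i = h'(zA_i)`; `∑_i eps(XA j i) t_i = 0` and `∑_i eps(JA l i) t_i = h'(c l)`, by `der_rel`/`der_fund` for the
module `Z/p` with trivial action) `∑_l λ_l h'(c l) = 0`; by `hC` the values `h'(c l)` are arbitrary, so `λ = 0`,
and `μ = 0` by `hE`.  So `v'' = 0`, `w = 0`, and `v' = 0` by `hB.inj`.  `ext`: as in `PAL/Step.lean`.
-/

set_option autoImplicit false

open PFC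

namespace PAL

private theorem ind_inSub_mono {G : Type} [Group G] {B H : Subgroup G} (h : B ≤ H) {f : GR G}
    (hf : InSub B f) : InSub H f := fun g hg => h (hf g hg)

/-- homomorphisms on a free subgroup with prescribed values on a basis -/
private theorem ind_hom {G κ R : Type} [Group G] [Group R] (C : Subgroup G) (c : κ → G)
    (hcl : Subgroup.closure (Set.range c) = C) (hinj : Function.Injective (FreeGroup.lift c))
    (s : κ → R) : ∃ h : C →* R, ∀ (l : κ) (hl : c l ∈ C), h ⟨c l, hl⟩ = s l := by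
  have hr : (FreeGroup.lift c).range = C := by
    rw [FreeGroup.range_lift_eq_closure, hcl]
  have hm : ∀ w, FreeGroup.lift c w ∈ C := fun w => hr ▸ ⟨w, rfl⟩
  let f : FreeGroup κ →* C := (FreeGroup.lift c).codRestrict C hm
  have hf : ∀ w, ((f w : C) : G) = FreeGroup.lift c w := fun w => rfl
  have hb : Function.Bijective f := by
    constructor
    · intro a b h
      apply hinj
      rw [← hf, ← hf, h]
    · intro y
      have hy : (y : G) ∈ (FreeGroup.lift c).range := by rw [hr]; exact y.2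
      obtain ⟨w, hw⟩ := hy
      exact ⟨w, Subtype.ext (by rw [hf]; exact hw)⟩
  refine ⟨(FreeGroup.lift s).comp (MulEquiv.ofBijective f hb).symm.toMonoidHom, fun l hl => ?_⟩
  have h1 : (MulEquiv.ofBijective f hb).symm ⟨c l, hl⟩ = FreeGroup.of l := by
    rw [MulEquiv.symm_apply_eq]
    apply Subtype.ext
    show c l = FreeGroup.lift c (FreeGroup.of l)
    rw [FreeGroup.lift_apply_of]
  show FreeGroup.lift s ((MulEquiv.ofBijective f hb).symm ⟨c l, hl⟩) = s l
  rw [h1, FreeGroup.lift_apply_of]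

private theorem ind_const {G : Type} [Group G] {p : ℕ} (c : ZMod p) (f : GR G) :
    lin (fun _ : G => c) f = (eps G f : ZMod p) * c := by
  refine add_ext (lin fun _ : G => c)
    ((AddMonoidHom.mulRight c).comp
      ((Int.castAddHom (ZMod p)).comp (eps G).toAddMonoidHom)) ?_ f
  intro g
  rw [lin_el]
  show c = ((eps G (el g) : ℤ) : ZMod p) * c
  rw [eps_el, Int.cast_one, one_mul]

/-- the extension by zero of a homomorphism on `A` to `Z/p` -/
private theorem ind_ext {G : Type} [Group G] {p : ℕ} (A : Subgroup G)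
    (h : A →* Multiplicative (ZMod p)) : ∃ D : G → ZMod p,
      (∀ (x : G) (hx : x ∈ A), D x = Multiplicative.toAdd (h ⟨x, hx⟩)) ∧
      ∀ (f : GR G), InSub A f → ∀ a ∈ A, lin D (f * (el a - 1)) = (eps G f : ZMod p) * D a := by
  classical
  let D : G → ZMod p := fun g => if hg : g ∈ A then Multiplicative.toAdd (h ⟨g, hg⟩) else 0
  have hD : ∀ g (hg : g ∈ A), D g = Multiplicative.toAdd (h ⟨g, hg⟩) := fun g hg => dif_pos hg
  refine ⟨D, hD, fun f hf a ha => ?_⟩
  rw [lin_mul_sub, ← ind_const]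
  refine lin_congr fun g hg => ?_
  have hgA := hf g hg
  rw [hD g hgA, hD a ha, hD _ (A.mul_mem hgA ha)]
  have h1 : h ⟨g * a, A.mul_mem hgA ha⟩ = h ⟨g, hgA⟩ * h ⟨a, ha⟩ := by
    rw [← map_mul]; rfl
  rw [h1, toAdd_mul, add_sub_cancel_left]

/-- the rows of `JA` and `XA` are linearly independent modulo `p` -/
private theorem ind_modp {G ρ' N' : Type} [Group G] [Fintype ρ'] [Fintype N'] (p : ℕ)
    [Fact p.Prime] (C A : Subgroup G) (hCA : C ≤ A) {t : ℕ} (c : Fin t → G)
    (hccl : Subgroup.closure (Set.range c) = C) (hcinj : Function.Injective (FreeGroup.lift c))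
    (zA : N' → G) (XA : ρ' → N' → GR G) (hzA : ∀ i, zA i ∈ A)
    (hrel : ∀ i, ∑ ν, XA i ν * (el (zA ν) - 1) = 0) (hsupp : ∀ i ν, InSub A (XA i ν))
    (hE : ∀ w : ρ' → ZMod p, (∀ ν, ∑ i, w i * (eps G (XA i ν) : ZMod p) = 0) → w = 0)
    (hC : ∀ h : C →* Multiplicative (ZMod p), ∃ h' : A →* Multiplicative (ZMod p),
      ∀ (x : G) (hx : x ∈ C), h' ⟨x, hCA hx⟩ = h ⟨x, hx⟩)
    (JA : Fin t → N' → GR G) (hFA : ∀ l, Fund zA (c l) (JA l)) (hSA : ∀ l i, InSub A (JA l i))
    (w : Fin t ⊕ ρ' → ZMod p)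
    (hw : ∀ ν, ∑ i, w i * (eps G (Sum.elim (fun l i => - JA l i) XA i ν) : ZMod p) = 0) :
    w = 0 := by
  classical
  have hcC : ∀ l, c l ∈ C := by
    intro l
    rw [← hccl]
    exact Subgroup.subset_closure ⟨l, rfl⟩
  have hw' : ∀ ν, - ∑ l, w (Sum.inl l) * (eps G (JA l ν) : ZMod p) +
      ∑ j, w (Sum.inr j) * (eps G (XA j ν) : ZMod p) = 0 := by
    intro ν
    have h1 := hw ν
    rw [Fintype.sum_sum_type] at h1
    rw [← h1]
    congr 1
    rw [← Finset.sum_neg_distrib]
    refine Finset.sum_congr rfl fun l _ => ?_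
    show _ = w (Sum.inl l) * ((eps G (- JA l ν) : ℤ) : ZMod p)
    rw [map_neg, Int.cast_neg, mul_neg]
  have hl : ∀ m, w (Sum.inl m) = 0 := by
    intro m
    obtain ⟨h, hh⟩ := ind_hom (R := Multiplicative (ZMod p)) C c hccl hcinj
      (fun l => Multiplicative.ofAdd (if l = m then (1 : ZMod p) else 0))
    obtain ⟨h', hh'⟩ := hC h
    obtain ⟨D, hD1, hD2⟩ := ind_ext A h'
    have hX : ∀ j, ∑ ν, (eps G (XA j ν) : ZMod p) * D (zA ν) = 0 := by
      intro j
      have h1 := congrArg (lin D) (hrel j)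
      rw [map_sum, map_zero] at h1
      rw [← h1]
      exact Finset.sum_congr rfl fun ν _ => (hD2 _ (hsupp j ν) _ (hzA ν)).symm
    have hJ : ∀ l, ∑ ν, (eps G (JA l ν) : ZMod p) * D (zA ν) = if l = m then 1 else 0 := by
      intro l
      have h1 := congrArg (lin D) (hFA l)
      rw [map_sum] at h1
      have h2 : lin D (el (c l) - 1) = D (c l) := by
        have h3 := hD2 1 inSub_one (c l) (hCA (hcC l))
        rw [one_mul, map_one, Int.cast_one, one_mul] at h3
        exact h3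
      rw [h2, hD1 (c l) (hCA (hcC l)), hh' (c l) (hcC l), hh l (hcC l), toAdd_ofAdd] at h1
      rw [h1]
      exact Finset.sum_congr rfl fun ν _ => (hD2 _ (hSA l ν) _ (hzA ν)).symm
    have h1 : ∑ ν, (- ∑ l, w (Sum.inl l) * (eps G (JA l ν) : ZMod p) +
      ∑ j, w (Sum.inr j) * (eps G (XA j ν) : ZMod p)) * D (zA ν) = 0 :=
      Finset.sum_eq_zero fun ν _ => by rw [hw' ν, zero_mul]
    have h2 : ∑ ν, (∑ l, w (Sum.inl l) * (eps G (JA l ν) : ZMod p)) * D (zA ν) =
        w (Sum.inl m) := by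
      have h3 : ∀ ν, (∑ l, w (Sum.inl l) * (eps G (JA l ν) : ZMod p)) * D (zA ν) =
          ∑ l, w (Sum.inl l) * ((eps G (JA l ν) : ZMod p) * D (zA ν)) := by
        intro ν
        rw [Finset.sum_mul]
        exact Finset.sum_congr rfl fun l _ => mul_assoc _ _ _
      rw [Finset.sum_congr rfl fun ν _ => h3 ν, Finset.sum_comm]
      have h4 : ∀ l, ∑ ν, w (Sum.inl l) * ((eps G (JA l ν) : ZMod p) * D (zA ν)) =
          w (Sum.inl l) * if l = m then 1 else 0 := by
        intro l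
        rw [← Finset.mul_sum, hJ l]
      rw [Finset.sum_congr rfl fun l _ => h4 l, Finset.sum_eq_single m]
      · rw [if_pos rfl, mul_one]
      · intro l _ hl
        rw [if_neg hl, mul_zero]
      · intro h
        exact absurd (Finset.mem_univ m) h
    have h5 : ∑ ν, (∑ j, w (Sum.inr j) * (eps G (XA j ν) : ZMod p)) * D (zA ν) = 0 := by
      have h3 : ∀ ν, (∑ j, w (Sum.inr j) * (eps G (XA j ν) : ZMod p)) * D (zA ν) =
          ∑ j, w (Sum.inr j) * ((eps G (XA j ν) : ZMod p) * D (zA ν)) := by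
        intro ν
        rw [Finset.sum_mul]
        exact Finset.sum_congr rfl fun j _ => mul_assoc _ _ _
      rw [Finset.sum_congr rfl fun ν _ => h3 ν, Finset.sum_comm]
      refine Finset.sum_eq_zero fun j _ => ?_
      rw [← Finset.mul_sum, hX j, mul_zero]
    have h6 : ∀ ν, (- ∑ l, w (Sum.inl l) * (eps G (JA l ν) : ZMod p) +
        ∑ j, w (Sum.inr j) * (eps G (XA j ν) : ZMod p)) * D (zA ν) =
        - ((∑ l, w (Sum.inl l) * (eps G (JA l ν) : ZMod p)) * D (zA ν)) +
          (∑ j, w (Sum.inr j) * (eps G (XA j ν) : ZMod p)) * D (zA ν) := by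
      intro ν
      rw [add_mul, neg_mul]
    rw [Finset.sum_congr rfl fun ν _ => h6 ν, Finset.sum_add_distrib, Finset.sum_neg_distrib,
      h2, h5, add_zero, neg_eq_zero] at h1
    exact h1
  have hr : (fun j => w (Sum.inr j)) = 0 := by
    apply hE
    intro ν
    have h1 := hw' ν
    have h2 : ∑ l, w (Sum.inl l) * (eps G (JA l ν) : ZMod p) = 0 :=
      Finset.sum_eq_zero fun l _ => by rw [hl l, zero_mul]
    rw [h2, neg_zero, zero_add] at h1
    exact h1
  funext i
  rcases i with l | j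
  · exact hl l
  · exact congrFun hr j

theorem indep_step {G ρ N ρ' N' : Type} [Group G] [Fintype ρ] [Fintype N] [Fintype ρ']
    [Fintype N'] (p : ℕ) [Fact p.Prime] (hres : ResQ p G) (H B A : Subgroup G) (z : N → G)
    (X : ρ → N → GR G) (hB : Pres B z X) (zA : N' → G) (XA : ρ' → N' → GR G)
    (hgen : Subgroup.closure (Set.range zA) = A)
    (hrel : ∀ i, ∑ ν, XA i ν * (el (zA ν) - 1) = 0) (hsupp : ∀ i ν, InSub A (XA i ν))
    (hext : ∀ (M : Type) [AddCommGroup M] [Module (GR G) M] (w : N' → M),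
      (∀ i, ∑ ν, XA i ν • w ν = 0) →
      ∃ D : A → M, IsDer A.subtype D ∧ ∀ (ν : N') (h : zA ν ∈ A), D ⟨zA ν, h⟩ = w ν)
    (hE : ∀ w : ρ' → ZMod p, (∀ ν, ∑ i, w i * (eps G (XA i ν) : ZMod p) = 0) → w = 0)
    (hf : IsFreeGroup (B ⊓ A : Subgroup G)) (hfg : (B ⊓ A).FG)
    (hC : ∀ h : (B ⊓ A : Subgroup G) →* Multiplicative (ZMod p),
      ∃ h' : A →* Multiplicative (ZMod p),
        ∀ (x : G) (hx : x ∈ B ⊓ A), h' ⟨x, hx.2⟩ = h ⟨x, hx⟩)
    (hH : IsAmalgam H B A) :
    ∃ (ρ'' N'' : Type) (_ : Fintype ρ'') (_ : Fintype N'') (z'' : N'' → G)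
      (X'' : ρ'' → N'' → GR G), Pres H z'' X'' := by
  classical
  obtain ⟨t, c, hccl, hcinj, -⟩ := exists_basis_fg (B ⊓ A) hf hfg
  have hcC : ∀ l, c l ∈ B ⊓ A := by
    intro l
    rw [← hccl]
    exact Subgroup.subset_closure ⟨l, rfl⟩
  have hex1 : ∀ l, ∃ f : N → GR G, Fund z (c l) f ∧ ∀ i, InSub B (f i) := fun l =>
    exists_fund z B hB.gen (c l) (hcC l).1
  have hex2 : ∀ l, ∃ f : N' → GR G, Fund zA (c l) f ∧ ∀ i, InSub A (f i) := fun l =>
    exists_fund zA A hgen (c l) (hcC l).2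
  choose JB hFB hSB using hex1
  choose JA hFA hSA using hex2
  have hBH : B ≤ H := hH.1
  have hAH : A ≤ H := hH.2.1
  have hz : ∀ ν, z ν ∈ B := by
    intro ν
    rw [← hB.gen]
    exact Subgroup.subset_closure ⟨ν, rfl⟩
  have hzA : ∀ i, zA i ∈ A := by
    intro i
    rw [← hgen]
    exact Subgroup.subset_closure ⟨i, rfl⟩
  refine ⟨ρ ⊕ (Fin t ⊕ ρ'), N ⊕ N', inferInstance, inferInstance, Sum.elim z zA,
    Sum.elim (fun i => Sum.elim (X i) fun _ => 0)
      (Sum.elim (fun l => Sum.elim (JB l) fun i => - JA l i)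
        fun j => Sum.elim (fun _ => 0) (XA j)), ⟨?_, ?_, ?_, ?_, ?_⟩⟩
  · rw [Set.Sum.elim_range, Subgroup.closure_union, hB.gen, hgen]
    exact amalgam_sup H B A hH
  · rintro (i | l | j)
    · rw [Fintype.sum_sum_type]
      have h1 := hB.rel i
      have h2 : ∑ i' : N', (0 : GR G) * (el (zA i') - 1) = 0 :=
        Finset.sum_eq_zero fun _ _ => zero_mul _
      show ∑ ν, X i ν * (el (z ν) - 1) + ∑ i' : N', (0 : GR G) * (el (zA i') - 1) = 0
      rw [h1, h2, add_zero]
    · rw [Fintype.sum_sum_type]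
      have h1 : el (c l) - 1 = ∑ ν, JB l ν * (el (z ν) - 1) := hFB l
      have h2 : el (c l) - 1 = ∑ i, JA l i * (el (zA i) - 1) := hFA l
      show ∑ ν, JB l ν * (el (z ν) - 1) + ∑ i : N', (- JA l i) * (el (zA i) - 1) = 0
      have h3 : ∑ i : N', (- JA l i) * (el (zA i) - 1) = - (el (c l) - 1) := by
        rw [h2, ← Finset.sum_neg_distrib]
        exact Finset.sum_congr rfl fun i _ => neg_mul _ _
      rw [← h1, h3, add_neg_cancel]
    · rw [Fintype.sum_sum_type]
      have h1 := hrel j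
      have h2 : ∑ i' : N, (0 : GR G) * (el (z i') - 1) = 0 :=
        Finset.sum_eq_zero fun _ _ => zero_mul _
      show ∑ i' : N, (0 : GR G) * (el (z i') - 1) + ∑ ν, XA j ν * (el (zA ν) - 1) = 0
      rw [h1, h2, add_zero]
  · rintro (i | l | j) (ν | k)
    · exact ind_inSub_mono hBH (hB.supp i ν)
    · exact inSub_zero H
    · exact ind_inSub_mono hBH (hSB l ν)
    · exact inSub_neg (ind_inSub_mono hAH (hSA l k))
    · exact inSub_zero H
    · exact ind_inSub_mono hAH (hsupp j k)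
  · intro M _ _ w hw
    obtain ⟨DB, hDB, hDBz⟩ := hB.ext M (fun ν => w (Sum.inl ν)) (by
      intro i
      have h1 := hw (Sum.inl i)
      rw [Fintype.sum_sum_type] at h1
      have h2 : ∑ i' : N', (0 : GR G) • w (Sum.inr i') = 0 :=
        Finset.sum_eq_zero fun _ _ => zero_smul _ _
      change ∑ ν, X i ν • w (Sum.inl ν) + ∑ i' : N', (0 : GR G) • w (Sum.inr i') = 0 at h1
      rwa [h2, add_zero] at h1)
    obtain ⟨DA, hDA, hDAa⟩ := hext M (fun i => w (Sum.inr i)) (by
      intro j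
      have h1 := hw (Sum.inr (Sum.inr j))
      rw [Fintype.sum_sum_type] at h1
      have h2 : ∑ i' : N, (0 : GR G) • w (Sum.inl i') = 0 :=
        Finset.sum_eq_zero fun _ _ => zero_smul _ _
      change ∑ i' : N, (0 : GR G) • w (Sum.inl i') + ∑ ν, XA j ν • w (Sum.inr ν) = 0 at h1
      rwa [h2, zero_add] at h1)
    have hag : ∀ (g : G) (hgB : g ∈ B) (hgA : g ∈ A), DB ⟨g, hgB⟩ = DA ⟨g, hgA⟩ := by
      have h1 : (fun y : (B ⊓ A : Subgroup G) => DB ⟨y.1, y.2.1⟩) =
          fun y : (B ⊓ A : Subgroup G) => DA ⟨y.1, y.2.2⟩ := by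
        refine der_eq_of_gen (B ⊓ A) c hccl _ _ ?_ ?_ ?_
        · intro g h
          exact hDB ⟨g.1, g.2.1⟩ ⟨h.1, h.2.1⟩
        · intro g h
          exact hDA ⟨g.1, g.2.2⟩ ⟨h.1, h.2.2⟩
        · intro l hl
          show DB ⟨c l, hl.1⟩ = DA ⟨c l, hl.2⟩
          have h2 := der_fund (MonoidHom.id G) B DB hDB z hz (c l) hl.1 (JB l) (hSB l) (hFB l)
          have h3 := der_fund (MonoidHom.id G) A DA hDA zA hzA (c l) hl.2 (JA l) (hSA l) (hFA l)
          rw [h2, h3]
          have h4 := hw (Sum.inr (Sum.inl l))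
          rw [Fintype.sum_sum_type] at h4
          change ∑ ν, JB l ν • w (Sum.inl ν) + ∑ i : N', (- JA l i) • w (Sum.inr i) = 0 at h4
          have h5 : ∑ i : N', (- JA l i) • w (Sum.inr i) =
              - ∑ i : N', JA l i • w (Sum.inr i) := by
            rw [← Finset.sum_neg_distrib]
            exact Finset.sum_congr rfl fun i _ => neg_smul _ _
          rw [h5, ← sub_eq_add_neg] at h4
          have h6 := sub_eq_zero.1 h4
          calc ∑ ν, mp (MonoidHom.id G) (JB l ν) • DB ⟨z ν, hz ν⟩ =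
              ∑ ν, JB l ν • w (Sum.inl ν) :=
                Finset.sum_congr rfl fun ν _ => by rw [mp_id, hDBz ν (hz ν)]
            _ = ∑ i, JA l i • w (Sum.inr i) := h6
            _ = _ := Finset.sum_congr rfl fun i _ => by rw [mp_id, hDAa i (hzA i)]
      intro g hgB hgA
      exact congrFun h1 ⟨g, hgB, hgA⟩
    obtain ⟨D, hD, hD1, hD2⟩ := glue_der H B A hH DB hDB DA hDA hag
    refine ⟨D, hD, ?_⟩
    rintro (ν | i) h
    · exact (hD1 (z ν) (hz ν) h).trans (hDBz ν (hz ν))
    · exact (hD2 (zA i) (hzA i) h).trans (hDAa i (hzA i))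
  · intro v hv h
    have h1 : (fun i : Fin t ⊕ ρ' => v (Sum.inr i)) = 0 := by
      refine inj_of_modp p hres (Sum.elim (fun l i => - JA l i) XA) ?_ _
        (fun i => hv (Sum.inr i)) ?_
      · intro w hw
        exact ind_modp p (B ⊓ A) A inf_le_right c hccl hcinj zA XA hzA hrel hsupp hE hC JA hFA hSA
          w hw
      · intro ν y
        have h2 := h (Sum.inr ν) y
        rw [Fintype.sum_sum_type] at h2
        have h3 : ∑ i, ra (v (Sum.inl i)) (0 : GR G) y = 0 :=
          Finset.sum_eq_zero fun i _ => ra_zero_right _ _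
        have h4 : ∑ i, ra (v (Sum.inl i)) (0 : GR G) y + ∑ i : Fin t ⊕ ρ', ra (v (Sum.inr i))
            (Sum.elim (fun l i => - JA l i) XA i ν) y = 0 := by
          rw [← h2]
          congr 1
          refine Finset.sum_congr rfl fun i _ => ?_
          rcases i with l | j <;> rfl
        rw [h3, zero_add] at h4
        exact h4
    have h2 : (fun i : ρ => v (Sum.inl i)) = 0 := by
      refine hB.inj _ (fun i => hv (Sum.inl i)) ?_
      intro ν y
      have h2 := h (Sum.inl ν) y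
      rw [Fintype.sum_sum_type] at h2
      have h3 : ∀ i : Fin t ⊕ ρ', v (Sum.inr i) = fun _ => 0 := fun i => congrFun h1 i
      have h4 : ∑ i : Fin t ⊕ ρ', ra (v (Sum.inr i))
          (Sum.elim (fun i => Sum.elim (X i) fun _ => 0)
            (Sum.elim (fun l => Sum.elim (JB l) fun i => - JA l i)
            fun j => Sum.elim (fun _ => 0) (XA j)) (Sum.inr i) (Sum.inl ν)) y = 0 :=
        Finset.sum_eq_zero fun i _ => by rw [h3 i]; exact ra_zero_left _ _
      rw [h4, add_zero] at h2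
      exact h2
    funext r
    rcases r with i | i
    · exact congrFun h2 i
    · exact congrFun h1 i

end PAL
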