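import Pool.Agent.PAL.Defs
import Pool.Agent.PRT.Defs

/-!
# PAL/Prime (module PAL-Prime): the choice of the prime, extension to generators modulo `p`

`Para x` gives homomorphisms `t_i : G → Z` with `t_i(x_j) = δ_ij`, and for every homomorphism `h` from `G` to a
commutative group `h(g) = ∏ h(x_i)^(t_i(g))` (both sides are homomorphisms which agree on the `x_i`;
`Para`, uniqueness).  Let `E(g) = (t_i(g))_i ∈ Z^r`.  `exists_extP`: the vectors `E(a_i)` are linearly
independent over `Z` (use `h = Abelianization.of`), so the Gram determinant `d = det (E E^T)` is a nonzero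
integer; take a prime `p` which does not divide `d`: the vectors `E(a_i)` are independent modulo `p`;
extend them to a basis of `F_p^r` by vectors `E(x_j)` modulo `p` (`E(x_j)` is the unit vector).  A
homomorphism `G → Z/p` is a linear function of `E(g)` modulo `p`, so a family `y` whose vectors span
`F_p^r` satisfies `PG p y`.  `exists_sub`: the vectors `E(z_ν)` generate `Z^r`; choose a basis of `F_p^r`
among them.
-/

set_option autoImplicit false

open PFC

namespace PAL

/-- the exponent vector of an element with respect to a para-basis -/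
private theorem prime_tvec {G : Type} [Group G] {r : ℕ} (x : Fin r → G) (hx : PRT.Para x) :
    ∃ T : G →* Multiplicative (Fin r → ℤ),
      (∀ j, T (x j) = Multiplicative.ofAdd (Pi.single j 1)) ∧
      ∀ (W : Type) [CommGroup W] (h : G →* W) (g : G),
        h g = ∏ j, h (x j) ^ (Multiplicative.toAdd (T g) j) := by
  obtain ⟨T, hT, -⟩ := hx (Multiplicative (Fin r → ℤ)) CommGroup.isNilpotent
    (fun j => Multiplicative.ofAdd (Pi.single j 1))
  refine ⟨T, hT, ?_⟩
  intro W _ h g
  let h' : G →* W :=
    { toFun := fun g => ∏ j, h (x j) ^ (Multiplicative.toAdd (T g) j)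
      map_one' := by
        apply Finset.prod_eq_one
        intro j _
        rw [map_one]
        exact zpow_zero _
      map_mul' := fun a b => by
        show ∏ j, h (x j) ^ (Multiplicative.toAdd (T (a * b)) j) =
          (∏ j, h (x j) ^ (Multiplicative.toAdd (T a) j)) *
            ∏ j, h (x j) ^ (Multiplicative.toAdd (T b) j)
        rw [← Finset.prod_mul_distrib]
        apply Finset.prod_congr rfl
        intro j _
        rw [map_mul, ← zpow_add]
        rfl }
  obtain ⟨k, hk, hu⟩ := hx W CommGroup.isNilpotent (fun i => h (x i))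
  have h1 : h = k := hu h fun i => rfl
  have h2 : h' = k := by
    apply hu h'
    intro i
    show ∏ j, h (x j) ^ (Multiplicative.toAdd (T (x i)) j) = h (x i)
    rw [hT i, Finset.prod_eq_single i]
    · rw [toAdd_ofAdd, Pi.single_eq_same, zpow_one]
    · intro j _ hji
      rw [toAdd_ofAdd, Pi.single_eq_of_ne hji, zpow_zero]
    · intro hi
      exact absurd (Finset.mem_univ i) hi
  have h3 : h g = h' g := by rw [h1, h2]
  exact h3

/-- the exponent vector modulo `p` -/
private def primeV (p : ℕ) {G : Type} [Group G] {r : ℕ} (T : G →* Multiplicative (Fin r → ℤ))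
    (g : G) : Fin r → ZMod p :=
  fun j => ((Multiplicative.toAdd (T g) j : ℤ) : ZMod p)

private theorem primeV_one (p : ℕ) {G : Type} [Group G] {r : ℕ}
    (T : G →* Multiplicative (Fin r → ℤ)) : primeV p T 1 = 0 := by
  funext j
  show ((Multiplicative.toAdd (T 1) j : ℤ) : ZMod p) = 0
  rw [map_one]
  exact Int.cast_zero

private theorem primeV_mul (p : ℕ) {G : Type} [Group G] {r : ℕ}
    (T : G →* Multiplicative (Fin r → ℤ)) (a b : G) :
    primeV p T (a * b) = primeV p T a + primeV p T b := by
  funext j
  show ((Multiplicative.toAdd (T (a * b)) j : ℤ) : ZMod p) =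
    ((Multiplicative.toAdd (T a) j : ℤ) : ZMod p) + ((Multiplicative.toAdd (T b) j : ℤ) : ZMod p)
  rw [map_mul, ← Int.cast_add]
  rfl

private theorem primeV_inv (p : ℕ) {G : Type} [Group G] {r : ℕ}
    (T : G →* Multiplicative (Fin r → ℤ)) (a : G) :
    primeV p T a⁻¹ = - primeV p T a := by
  have h := primeV_mul p T a⁻¹ a
  rw [inv_mul_cancel, primeV_one] at h
  exact eq_neg_of_add_eq_zero_left h.symm

private theorem primeV_x (p : ℕ) {G : Type} [Group G] {r : ℕ}
    (T : G →* Multiplicative (Fin r → ℤ)) (x : Fin r → G)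
    (hT : ∀ j, T (x j) = Multiplicative.ofAdd (Pi.single j 1)) (i : Fin r) :
    primeV p T (x i) = Pi.single i 1 := by
  funext j
  show ((Multiplicative.toAdd (T (x i)) j : ℤ) : ZMod p) = _
  rw [hT i, toAdd_ofAdd]
  by_cases hji : j = i
  · rw [hji, Pi.single_eq_same, Pi.single_eq_same, Int.cast_one]
  · rw [Pi.single_eq_of_ne hji, Pi.single_eq_of_ne hji, Int.cast_zero]

/-- a family whose vectors modulo `p` span satisfies `PG` -/
private theorem prime_pg {G : Type} [Group G] {r : ℕ} (x : Fin r → G)
    (T : G →* Multiplicative (Fin r → ℤ))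
    (hT2 : ∀ (W : Type) [CommGroup W] (h : G →* W) (g : G),
        h g = ∏ j, h (x j) ^ (Multiplicative.toAdd (T g) j)) (p : ℕ) [Fact p.Prime]
    {X : Type} (y : X → G)
    (hy : Submodule.span (ZMod p) (Set.range fun k => primeV p T (y k)) = ⊤) : PG p y := by
  intro h hh
  have key : ∀ g, Multiplicative.toAdd (h g) =
      ∑ j, primeV p T g j * Multiplicative.toAdd (h (x j)) := by
    intro g
    rw [hT2 (Multiplicative (ZMod p)) h g, toAdd_prod]
    apply Finset.sum_congr rfl
    intro j _
    rw [toAdd_zpow, zsmul_eq_mul]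
    rfl
  let L : (Fin r → ZMod p) →ₗ[ZMod p] ZMod p :=
    { toFun := fun v => ∑ j, v j * Multiplicative.toAdd (h (x j))
      map_add' := fun v w => by
        rw [← Finset.sum_add_distrib]
        apply Finset.sum_congr rfl
        intro j _
        rw [Pi.add_apply, add_mul]
      map_smul' := fun c v => by
        rw [RingHom.id_apply, smul_eq_mul, Finset.mul_sum]
        apply Finset.sum_congr rfl
        intro j _
        rw [Pi.smul_apply, smul_eq_mul, mul_assoc] }
  have hL : ∀ v, L v = 0 := by
    intro v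
    have hv : v ∈ Submodule.span (ZMod p) (Set.range fun k => primeV p T (y k)) := by
      rw [hy]
      exact Submodule.mem_top
    have hle : Submodule.span (ZMod p) (Set.range fun k => primeV p T (y k)) ≤ LinearMap.ker L := by
      rw [Submodule.span_le]
      rintro _ ⟨k, rfl⟩
      show L (primeV p T (y k)) = 0
      have h1 := key (y k)
      rw [hh k] at h1
      exact h1.symm
    exact hle hv
  apply MonoidHom.ext
  intro g
  apply Multiplicative.toAdd.injective
  rw [key g]
  exact hL _

/-- a set of vectors in `F_p^r` which spans and is independent has `r` elements -/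
private theorem prime_card {p r : ℕ} [Fact p.Prime] (b : Set (Fin r → ZMod p))
    (hb : LinearIndepOn (ZMod p) id b) (hs : ∀ j, (Pi.single j 1 : Fin r → ZMod p) ∈
      Submodule.span (ZMod p) b) :
    Submodule.span (ZMod p) b = ⊤ ∧ Nonempty (Fin r ≃ b) := by
  have h1 : Submodule.span (ZMod p) b = ⊤ := by
    rw [eq_top_iff]
    intro v _
    have h2 : v = ∑ j, v j • (Pi.single j 1 : Fin r → ZMod p) := by
      funext k
      rw [Finset.sum_apply, Finset.sum_eq_single k]
      · rw [Pi.smul_apply, Pi.single_eq_same, smul_eq_mul, mul_one]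
      · intro j _ hjk
        rw [Pi.smul_apply, Pi.single_eq_of_ne (Ne.symm hjk), smul_zero]
      · intro hk
        exact absurd (Finset.mem_univ k) hk
    rw [h2]
    exact Submodule.sum_mem _ fun j _ => Submodule.smul_mem _ _ (hs j)
  refine ⟨h1, ?_⟩
  let B : Module.Basis b (ZMod p) (Fin r → ZMod p) :=
    Module.Basis.mk (v := ((↑) : b → Fin r → ZMod p)) hb (by
      rw [Subtype.range_coe]
      exact h1.ge)
  exact ⟨(Pi.basisFun (ZMod p) (Fin r)).indexEquiv B⟩

/-- the choice of the prime -/
private theorem prime_gram {σ : Type} [Fintype σ] {r : ℕ} (A : σ → Fin r → ℤ)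
    (hA : ∀ m : σ → ℤ, (∀ j, ∑ i, m i * A i j = 0) → m = 0) :
    ∃ p : ℕ, p.Prime ∧ ∀ m : σ → ZMod p, (∀ j, ∑ i, m i * ((A i j : ℤ) : ZMod p) = 0) → m = 0 := by
  classical
  let M : Matrix σ (Fin r) ℤ := Matrix.of A
  let D : Matrix σ σ ℤ := M * M.transpose
  have hD : D.det ≠ 0 := by
    intro h0
    obtain ⟨m, hm0, hm⟩ := Matrix.exists_vecMul_eq_zero_iff.mpr h0
    apply hm0
    apply hA
    have h1 : Matrix.vecMul (Matrix.vecMul m M) M.transpose = 0 := by
      rw [Matrix.vecMul_vecMul]
      exact hm
    have h2 : (Matrix.vecMul m M) ⬝ᵥ (Matrix.vecMul m M) = 0 := by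
      have h3 : (Matrix.vecMul (Matrix.vecMul m M) M.transpose) ⬝ᵥ m = 0 := by
        rw [h1, zero_dotProduct]
      rw [← Matrix.dotProduct_mulVec, Matrix.mulVec_transpose] at h3
      exact h3
    have h4 : Matrix.vecMul m M = 0 := dotProduct_self_eq_zero.mp h2
    intro j
    exact congrFun h4 j
  obtain ⟨p, hp1, hp⟩ := Nat.exists_infinite_primes (D.det.natAbs + 1)
  refine ⟨p, hp, ?_⟩
  have : Fact p.Prime := ⟨hp⟩
  have hdet : ((D.det : ℤ) : ZMod p) ≠ 0 := by
    intro h
    rw [ZMod.intCast_zmod_eq_zero_iff_dvd] at h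
    have h5 := Int.natAbs_dvd_natAbs.mpr h
    rw [Int.natAbs_natCast] at h5
    have h6 := Nat.le_of_dvd (Int.natAbs_pos.mpr hD) h5
    omega
  intro m hm
  let Mp : Matrix σ (Fin r) (ZMod p) := M.map (Int.castRingHom (ZMod p))
  have h7 : (Mp * Mp.transpose).det ≠ 0 := by
    have h8 : Mp * Mp.transpose = D.map (Int.castRingHom (ZMod p)) := by
      show Mp * Mp.transpose = (M * M.transpose).map (Int.castRingHom (ZMod p))
      rw [Matrix.map_mul, Matrix.transpose_map]
    rw [h8]
    have h9 := RingHom.map_det (Int.castRingHom (ZMod p)) D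
    rw [RingHom.mapMatrix_apply] at h9
    rw [← h9]
    exact hdet
  by_contra hne
  apply h7
  apply Matrix.exists_vecMul_eq_zero_iff.mp
  refine ⟨m, hne, ?_⟩
  rw [← Matrix.vecMul_vecMul]
  have h10 : Matrix.vecMul m Mp = 0 := by
    funext j
    exact hm j
  rw [h10, Matrix.zero_vecMul]

theorem exists_extP {G σ : Type} [Group G] [Fintype σ] {r : ℕ} (x : Fin r → G)
    (hx : PRT.Para x) (a : σ → G)
    (ha : ∀ m : σ → ℤ, ∏ i, Abelianization.of (a i) ^ m i = 1 → m = 0) :
    ∃ p : ℕ, p.Prime ∧ ExtP p (Fin r) a := by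
  classical
  obtain ⟨T, hT, hT2⟩ := prime_tvec x hx
  obtain ⟨p, hp, hind⟩ := prime_gram (fun i j => Multiplicative.toAdd (T (a i)) j) (by
    intro m hm
    apply ha
    have h1 : ∀ i, Abelianization.of (a i) ^ m i =
        ∏ j, Abelianization.of (x j) ^ (m i * Multiplicative.toAdd (T (a i)) j) := by
      intro i
      rw [hT2 (Abelianization G) Abelianization.of (a i), ← Finset.prod_zpow]
      apply Finset.prod_congr rfl
      intro j _
      rw [← zpow_mul, mul_comm]
    rw [Finset.prod_congr rfl fun i _ => h1 i, Finset.prod_comm]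
    apply Finset.prod_eq_one
    intro j _
    have h2 : ∏ i, Abelianization.of (x j) ^ (m i * Multiplicative.toAdd (T (a i)) j) =
        Abelianization.of (x j) ^ ∑ i, (m i * Multiplicative.toAdd (T (a i)) j) := by
      generalize Abelianization.of (x j) = w
      refine Finset.induction_on (Finset.univ : Finset σ) ?_ ?_
      · rw [Finset.prod_empty, Finset.sum_empty, zpow_zero]
      · intro i s hi ih
        rw [Finset.prod_insert hi, Finset.sum_insert hi, zpow_add, ih]
    rw [h2, hm j, zpow_zero])
  refine ⟨p, hp, ?_⟩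
  have : Fact p.Prime := ⟨hp⟩
  have hli : LinearIndependent (ZMod p) fun i => primeV p T (a i) := by
    rw [Fintype.linearIndependent_iff]
    intro m hm i
    have h3 : m = 0 := by
      apply hind
      intro j
      have h4 := congrFun hm j
      rw [Finset.sum_apply] at h4
      exact h4
    rw [h3]
    rfl
  have hinj : Function.Injective fun i => primeV p T (a i) := hli.injective
  let s : Set (Fin r → ZMod p) := Set.range fun i => primeV p T (a i)
  let t : Set (Fin r → ZMod p) := s ∪ Set.range fun j => primeV p T (x j)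
  have hs : LinearIndepOn (ZMod p) id s := hli.linearIndepOn_id
  obtain ⟨b, hbt, hsb, htb, hb⟩ := exists_linearIndepOn_id_extension hs
    (show s ⊆ t from Set.subset_union_left)
  obtain ⟨hspan, ⟨e⟩⟩ := prime_card b hb (by
    intro j
    apply htb
    right
    exact ⟨j, primeV_x p T x hT j⟩)
  have hc : ∀ w : b, ∃ g : G, primeV p T g = w ∧ ∀ i, primeV p T (a i) = w → g = a i := by
    intro w
    by_cases h : ∃ i, primeV p T (a i) = w
    · obtain ⟨i, hi⟩ := h
      refine ⟨a i, hi, ?_⟩
      intro i' hi'
      have h5 : i = i' := hinj (hi.trans hi'.symm)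
      rw [h5]
    · have hw := hbt w.2
      rcases hw with hw | hw
      · obtain ⟨i, hi⟩ := hw
        exact absurd ⟨i, hi⟩ h
      · obtain ⟨j, hj⟩ := hw
        exact ⟨x j, hj, fun i hi => absurd ⟨i, hi⟩ h⟩
  choose c hc1 hc2 using hc
  refine ⟨fun k => c (e k), fun i => e.symm ⟨primeV p T (a i), hsb ⟨i, rfl⟩⟩, ?_, ?_, ?_⟩
  · intro i i' h
    have h6 := e.symm.injective h
    exact hinj (congrArg Subtype.val h6)
  · intro i
    show c (e (e.symm _)) = a i
    rw [e.apply_symm_apply]
    exact hc2 _ i rfl
  · apply prime_pg x T hT2 p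
    have h7 : (Set.range fun k => primeV p T (c (e k))) = b := by
      apply Set.eq_of_subset_of_subset
      · rintro _ ⟨k, rfl⟩
        show primeV p T (c (e k)) ∈ b
        rw [hc1]
        exact (e k).2
      · intro w hw
        refine ⟨e.symm ⟨w, hw⟩, ?_⟩
        show primeV p T (c (e (e.symm ⟨w, hw⟩))) = w
        rw [e.apply_symm_apply, hc1]
    rw [h7]
    exact hspan

theorem exists_sub {G N : Type} [Group G] {r : ℕ} (x : Fin r → G) (hx : PRT.Para x) (p : ℕ)
    [Fact p.Prime] (z : N → G) (hz : Subgroup.closure (Set.range z) = ⊤) :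
    ∃ ι : Fin r → N, Function.Injective ι ∧ PG p fun i => z (ι i) := by
  classical
  obtain ⟨T, hT, hT2⟩ := prime_tvec x hx
  let t : Set (Fin r → ZMod p) := Set.range fun ν => primeV p T (z ν)
  have hall : ∀ g, primeV p T g ∈ Submodule.span (ZMod p) t := by
    intro g
    have hg : g ∈ Subgroup.closure (Set.range z) := by
      rw [hz]
      exact Subgroup.mem_top g
    induction hg using Subgroup.closure_induction with
    | mem g hg =>
      obtain ⟨ν, rfl⟩ := hg
      exact Submodule.subset_span ⟨ν, rfl⟩
    | one =>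
      rw [primeV_one]
      exact Submodule.zero_mem _
    | mul a b _ _ iha ihb =>
      rw [primeV_mul]
      exact Submodule.add_mem _ iha ihb
    | inv a _ iha =>
      rw [primeV_inv]
      exact Submodule.neg_mem _ iha
  obtain ⟨b, hbt, -, htb, hb⟩ := exists_linearIndepOn_id_extension
    (linearIndependent_empty (ZMod p) (Fin r → ZMod p))
    (Set.empty_subset t)
  obtain ⟨hspan, ⟨e⟩⟩ := prime_card b hb (by
    intro j
    rw [← primeV_x p T x hT j]
    exact Submodule.span_le.mpr htb (hall (x j)))
  have hc : ∀ w : b, ∃ ν : N, primeV p T (z ν) = w := fun w => hbt w.2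
  choose c hc1 using hc
  refine ⟨fun k => c (e k), ?_, ?_⟩
  · intro k k' h
    apply e.injective
    apply Subtype.ext
    rw [← hc1 (e k), ← hc1 (e k')]
    exact congrArg (fun ν => primeV p T (z ν)) h
  · apply prime_pg x T hT2 p
    have h7 : (Set.range fun k => primeV p T (z (c (e k)))) = b := by
      apply Set.eq_of_subset_of_subset
      · rintro _ ⟨k, rfl⟩
        show primeV p T (z (c (e k))) ∈ b
        rw [hc1]
        exact (e k).2
      · intro w hw
        refine ⟨e.symm ⟨w, hw⟩, ?_⟩
        show primeV p T (z (c (e (e.symm ⟨w, hw⟩)))) = w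
        rw [e.apply_symm_apply, hc1]
    rw [h7]
    exact hspan

end PAL
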