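import Pool.Agent.PAL.Inter
import Pool.Agent.PAL.CBas
import Pool.Agent.PAL.Prime

/-!
# PAL/Inert (module PAL-Inert): the edge group is finitely generated

Take a finite basis `a` of `A` (`exists_basis_fg`), a prime `p` (`exists_extP`), a basis `c : κ → G` of
`B ⊓ A` (a subgroup of the free group `A`, so free).  For every finite set of indices `inter` applies
(`exists_fund`, `dual_der`), so `κ` has at most `card N - card ρ` elements; reindex by `Fin t` and apply `inter`
again.
-/

set_option autoImplicit false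

open PFC

namespace PAL

private theorem Inert_free {G : Type} [Group G] (C A : Subgroup G) (hCA : C ≤ A)
    (hA : IsFreeGroup A) : IsFreeGroup C := by
  have h1 : IsFreeGroup (C.subgroupOf A) := inferInstance
  exact IsFreeGroup.ofMulEquiv (Subgroup.subgroupOfEquivOfLe hCA)

private theorem Inert_lift {G κ : Type} [Group G] {t : ℕ} (c : κ → G) (e : Fin t ≃ κ)
    (h : Function.Injective (FreeGroup.lift c)) :
    Function.Injective (FreeGroup.lift fun i => c (e i)) := by
  have h1 : FreeGroup.lift (fun i => c (e i)) =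
      (FreeGroup.lift c).comp (FreeGroup.freeGroupCongr e).toMonoidHom := by
    apply FreeGroup.ext_hom
    intro i
    simp
  rw [h1]
  exact h.comp (FreeGroup.freeGroupCongr e).injective

theorem inert {G ρ N : Type} [Group G] [Fintype ρ] [Fintype N] {r : ℕ} (x : Fin r → G)
    (hx : PRT.Para x) (hres : ∀ p : ℕ, p.Prime → ResQ p G) (B A : Subgroup G) (z : N → G)
    (hz : Subgroup.closure (Set.range z) = B) (X : ρ → N → GR G)
    (hrel : ∀ i, ∑ ν, X i ν * (el (z ν) - 1) = 0) (hsupp : ∀ i ν, InSub B (X i ν))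
    (hinj : ∀ v : ρ → G → ℝ, (∀ i, Sq (v i)) → (∀ ν y, ∑ i, ra (v i) (X i ν) y = 0) → v = 0)
    (hA : IsFreeGroup A) (hfg : A.FG)
    (hAi : Function.Injective (Abelianization.map A.subtype)) :
    ∃ (s t : ℕ) (a : Fin s → G) (c : Fin t → G) (JB : Fin t → N → GR G)
      (JA : Fin t → Fin s → GR G),
      Subgroup.closure (Set.range a) = A ∧ Function.Injective (FreeGroup.lift a) ∧
      Subgroup.closure (Set.range c) = B ⊓ A ∧ Function.Injective (FreeGroup.lift c) ∧
      (∀ l, Fund z (c l) (JB l)) ∧ (∀ l ν, InSub B (JB l ν)) ∧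
      (∀ l, Fund a (c l) (JA l)) ∧ (∀ l i, InSub A (JA l i)) ∧
      Fintype.card ρ + t ≤ Fintype.card N ∧
      ∀ v : ρ ⊕ Fin t → G → ℝ, (∀ i, Sq (v i)) →
        (∀ ν y, ∑ i, ra (v (Sum.inl i)) (X i ν) y = ∑ l, ra (v (Sum.inr l)) (JB l ν) y) →
        v = 0 := by
  obtain ⟨s, a, hacl, hainj, hah⟩ := exists_basis_fg A hA hfg
  obtain ⟨p, hp, hext⟩ := exists_extP x hx a (hah hAi)
  haveI : Fact p.Prime := ⟨hp⟩
  obtain ⟨κ, c, hccl, hcinj⟩ := exists_basis (B ⊓ A) (Inert_free (B ⊓ A) A inf_le_right hA)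
  have hc : ∀ l, c l ∈ B ⊓ A := by
    intro l
    rw [← hccl]
    exact Subgroup.subset_closure ⟨l, rfl⟩
  choose JB hJB hsB using fun l => exists_fund z B hz (c l) (hc l).1
  choose JA hJA hsA using fun l => exists_fund a A hacl (c l) (hc l).2
  classical
  have key : ∀ (κ' : Type) [Fintype κ'] (j : κ' → κ), Function.Injective j →
      (∀ v : ρ ⊕ κ' → G → ℝ, (∀ i, Sq (v i)) →
        (∀ ν y, ∑ i, ra (v (Sum.inl i)) (X i ν) y =
          ∑ l, ra (v (Sum.inr l)) (JB (j l) ν) y) → v = 0) ∧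
        Fintype.card ρ + Fintype.card κ' ≤ Fintype.card N := by
    intro κ' _ j hj
    refine inter x hx p (hres p hp) B A z X hrel hsupp hinj a hext (fun l => c (j l))
      (fun l => hc (j l)) ?_ (fun l => JB (j l)) (fun l => hJB (j l)) (fun l => hsB (j l))
      (fun l => JA (j l)) (fun l => hJA (j l)) (fun l => hsA (j l))
    intro m
    obtain ⟨D, hD, hD2⟩ := dual_der (B ⊓ A) c hccl hcinj (j m)
    refine ⟨D, hD, fun l => ?_⟩
    rw [hD2 (j l) (hc (j l))]
    by_cases hl : l = m
    · rw [if_pos hl, if_pos (congrArg j hl)]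
    · rw [if_neg hl, if_neg fun h => hl (hj h)]
  have hfin : Finite κ := by
    by_contra hinf
    rw [not_finite_iff_infinite] at hinf
    obtain ⟨F, hF⟩ := Infinite.exists_subset_card_eq κ (Fintype.card N + 1)
    have h1 := (key F (fun l => l.1) Subtype.val_injective).2
    rw [Fintype.card_coe, hF] at h1
    omega
  haveI := Fintype.ofFinite κ
  obtain ⟨t, e⟩ : ∃ t : ℕ, Nonempty (Fin t ≃ κ) :=
    ⟨Fintype.card κ, ⟨(Fintype.equivFin κ).symm⟩⟩
  obtain ⟨e⟩ := e
  have h1 := key (Fin t) e e.injective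
  refine ⟨s, t, a, fun l => c (e l), fun l => JB (e l), fun l => JA (e l), hacl, hainj, ?_,
    Inert_lift c e hcinj, fun l => hJB (e l), fun l => hsB (e l), fun l => hJA (e l),
    fun l => hsA (e l), ?_, h1.1⟩
  · rw [← hccl]
    congr 1
    exact e.surjective.range_comp c
  · have h2 := h1.2
    rwa [Fintype.card_fin] at h2

end PAL
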