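import Pool.Agent.PAL.Basic

/-!
# PAL/Rat (module PAL-Rat): kernel vectors supported on the intersection

Let `t` be a choice of representatives of the right cosets of `C` with `t(1) = 1`, `D` the derivation for `m` and
`F(g) = D(g t(g)⁻¹)`.  Apply `lin F` to `Fund a (c l) (J l)` (`lin_mul_sub`):
`δ_{l m} = F(c l) - F(1) = ∑_i ∑_g (J l i)(g) E_i(g)` with `E_i(g) = F(g a_i) - F(g)`, and
`E_i(c g) = el c * E_i(g)` for `c ∈ C`.  For `x ∈ C` apply both sides to `v l` from the right and sum over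
`l`: with `g = c r` (`r` the representative, so `C g = C r`)
`v_m(x) = ∑_i ∑_r ∑_d (E_i(r))(d) (∑_l ra (v l) (J l i) (x d⁻¹ r)) = 0`, because `v l (x d⁻¹ r g⁻¹)` vanishes unless
`g ∈ C r`.
-/

set_option autoImplicit false

open PFC

namespace PAL

/-- representatives of the right cosets -/
private theorem Rat_rep {G : Type} [Group G] (C : Subgroup G) :
    ∃ t : G → G, t 1 = 1 ∧ (∀ g, g * (t g)⁻¹ ∈ C) ∧ ∀ c ∈ C, ∀ g, t (c * g) = t g := by
  obtain ⟨t0, ht0⟩ : ∃ t0 : G → G, t0 = fun g => Quotient.out (Quotient.mk (QuotientGroup.rightRel C) g) := ⟨_, rfl⟩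
  have h1 : ∀ g, g * (t0 g)⁻¹ ∈ C := by
    intro g
    rw [ht0]
    exact QuotientGroup.rightRel_apply.1 (Quotient.mk_out (s := QuotientGroup.rightRel C) g)
  have h2 : ∀ c ∈ C, ∀ g, t0 (c * g) = t0 g := by
    intro c hc g
    rw [ht0]
    refine congrArg Quotient.out (Quotient.sound ?_)
    show QuotientGroup.rightRel C (c * g) g
    rw [QuotientGroup.rightRel_apply]
    have h3 : g * (c * g)⁻¹ = c⁻¹ := by group
    rw [h3]
    exact C.inv_mem hc
  refine ⟨fun g => (t0 1)⁻¹ * t0 g, inv_mul_cancel _, fun g => ?_, fun c hc g => ?_⟩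
  · have h3 : g * ((t0 1)⁻¹ * t0 g)⁻¹ = g * (t0 g)⁻¹ * (1 * (t0 1)⁻¹)⁻¹ := by group
    rw [h3]
    exact C.mul_mem (h1 g) (C.inv_mem (h1 1))
  · show (t0 1)⁻¹ * t0 (c * g) = (t0 1)⁻¹ * t0 g
    rw [h2 c hc g]

/-- interchange of two finite sums -/
private theorem Rat_swap {G H W : Type} [Group G] [Group H] [AddCommGroup W] (K : G → H → W) (f : GR G) (e : GR H) :
    lin (fun g => lin (fun d => K g d) e) f = lin (fun d => lin (fun g => K g d) f) e := by
  rw [lin_eq_sum _ f _ (Finset.Subset.refl _), lin_eq_sum _ e _ (Finset.Subset.refl _)]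
  have h1 : ∀ g, lin (fun d => K g d) e = ∑ d ∈ e.coeff.support, e.coeff d • K g d := fun g =>
    lin_eq_sum _ e _ (Finset.Subset.refl _)
  have h2 : ∀ d, lin (fun g => K g d) f = ∑ g ∈ f.coeff.support, f.coeff g • K g d := fun d =>
    lin_eq_sum _ f _ (Finset.Subset.refl _)
  simp only [h1, h2, Finset.smul_sum]
  rw [Finset.sum_comm]
  refine Finset.sum_congr rfl fun d _ => Finset.sum_congr rfl fun g _ => ?_
  rw [smul_comm]

/-- the right action and `lin` -/
private theorem Rat_ra {G H : Type} [Group G] [Group H] (u : H → ℝ) (E : G → GR H) (f : GR G) (y : H) :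
    ra u (lin E f) y = lin (fun g => ra u (E g) y) f := by
  obtain ⟨L, hL⟩ : ∃ L : GR H →+ ℝ, L = lin (fun d => u (y * d⁻¹)) := ⟨_, rfl⟩
  have h1 : ∀ e, ra u e y = L e := fun e => by
    rw [hL]
    rfl
  rw [h1, funext fun g => h1 (E g), lin_comp]

theorem supp_zero {G κ σ : Type} [Group G] [Fintype κ] [DecidableEq κ] [Fintype σ]
    (C : Subgroup G) (c : κ → G) (hc : ∀ l, c l ∈ C)
    (hfree : ∀ m : κ, ∃ D : C → GR C, IsDer (MonoidHom.id C) D ∧
      ∀ l, D ⟨c l, hc l⟩ = if l = m then 1 else 0)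
    (a : σ → G) (J : κ → σ → GR G) (hJ : ∀ l, Fund a (c l) (J l)) (v : κ → G → ℝ)
    (hv : ∀ l g, g ∉ C → v l g = 0) (h : ∀ i x, ∑ l, ra (v l) (J l i) x = 0) : v = 0 := by
  classical
  obtain ⟨t, ht1, htC, htc⟩ := Rat_rep C
  funext m x
  show v m x = 0
  by_cases hx : x ∈ C
  swap
  · exact hv m x hx
  obtain ⟨D, hD, hDc⟩ := hfree m
  have hD1 : D 1 = 0 := der_one (MonoidHom.id C) hD
  obtain ⟨F, hF⟩ : ∃ F : G → GR C, ∀ g, F g = D ⟨g * (t g)⁻¹, htC g⟩ := ⟨_, fun _ => rfl⟩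
  have hFc : ∀ (y : C) (g : G), F (y * g) = D y + el y * F g := by
    intro y g
    have e1 : (⟨(y : G) * g * (t ((y : G) * g))⁻¹, htC _⟩ : C) = y * ⟨g * (t g)⁻¹, htC g⟩ := by
      refine Subtype.ext ?_
      show (y : G) * g * (t ((y : G) * g))⁻¹ = y * (g * (t g)⁻¹)
      rw [htc y y.2 g, mul_assoc]
    rw [hF, hF, e1, hD y ⟨g * (t g)⁻¹, htC g⟩, smul_eq_mul]
    rfl
  have hF1 : F 1 = 0 := by
    have e1 : (⟨(1 : G) * (t 1)⁻¹, htC 1⟩ : C) = 1 := by
      refine Subtype.ext ?_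
      show (1 : G) * (t 1)⁻¹ = 1
      rw [ht1, inv_one, mul_one]
    rw [hF, e1, hD1]
  have hFl : ∀ l, F (c l) = if l = m then 1 else 0 := by
    intro l
    have h1 := hFc ⟨c l, hc l⟩ 1
    rw [hF1, mul_zero, add_zero, hDc l] at h1
    rw [← h1]
    show F (c l) = F (c l * 1)
    rw [mul_one]
  obtain ⟨E, hE⟩ : ∃ E : σ → G → GR C, ∀ i g, E i g = F (g * a i) - F g := ⟨_, fun _ _ => rfl⟩
  have hEc : ∀ i (y : C) (g : G), E i (y * g) = el y * E i g := by
    intro i y g
    rw [hE, hE, mul_assoc, hFc, hFc, mul_sub]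
    abel
  have hδ : ∀ l, (if l = m then (1 : GR C) else 0) = ∑ i, lin (E i) (J l i) := by
    intro l
    have h1 := congrArg (lin F) (hJ l)
    rw [map_sub, lin_el, ← el_one, lin_el, hF1, sub_zero, hFl l, map_sum] at h1
    rw [h1]
    refine Finset.sum_congr rfl fun i _ => ?_
    rw [el_one, lin_mul_sub]
    refine congrArg (fun K => lin K (J l i)) (funext fun g => ?_)
    exact (hE i g).symm
  obtain ⟨u, hu⟩ : ∃ u : κ → C → ℝ, ∀ l y, u l y = v l y := ⟨fun l y => v l y, fun _ _ => rfl⟩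
  -- the main computation for a fixed index
  have key : ∀ i, ∑ l, lin (fun g => ra (u l) (E i g) ⟨x, hx⟩) (J l i) = 0 := by
    intro i
    obtain ⟨R, hR⟩ : ∃ R : Finset G, R = Finset.univ.biUnion fun l => ((J l i).coeff.support).image t := ⟨_, rfl⟩
    have h1 : ∀ l g, (J l i).coeff g ≠ 0 → ra (u l) (E i g) ⟨x, hx⟩ =
        ∑ r ∈ R, lin (fun d : C => v l (x * (d : G)⁻¹ * r * g⁻¹)) (E i r) := by
      intro l g hg
      have hgR : t g ∈ R := by
        rw [hR, Finset.mem_biUnion]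
        exact ⟨l, Finset.mem_univ l, Finset.mem_image_of_mem t (Finsupp.mem_support_iff.2 hg)⟩
      rw [Finset.sum_eq_single (t g)]
      · have e1 : E i g = el (⟨g * (t g)⁻¹, htC g⟩ : C) * E i (t g) := by
          rw [← hEc]
          refine congrArg (E i) ?_
          show g = g * (t g)⁻¹ * t g
          rw [inv_mul_cancel_right]
        show lin (fun d : C => u l (⟨x, hx⟩ * d⁻¹)) (E i g) = _
        rw [e1, lin_el_mul]
        refine congrArg (fun K => lin K (E i (t g))) (funext fun d => ?_)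
        show u l (⟨x, hx⟩ * (⟨g * (t g)⁻¹, htC g⟩ * d)⁻¹) = v l (x * (d : G)⁻¹ * t g * g⁻¹)
        rw [hu]
        refine congrArg (v l) ?_
        show x * (g * (t g)⁻¹ * (d : G))⁻¹ = x * (d : G)⁻¹ * t g * g⁻¹
        group
      · intro r hr hrg
        have hrt : t r = r ∧ r = t r := by
          rw [hR, Finset.mem_biUnion] at hr
          obtain ⟨l', -, hr'⟩ := hr
          obtain ⟨g', -, rfl⟩ := Finset.mem_image.1 hr'
          have e2 := htc _ (C.inv_mem (htC g')) g'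
          have e3 : (g' * (t g')⁻¹)⁻¹ * g' = t g' := by group
          rw [e3] at e2
          exact ⟨e2, e2.symm⟩
        have e4 : (fun d : C => v l (x * (d : G)⁻¹ * r * g⁻¹)) = fun _ : C => (0 : ℝ) := by
          funext d
          refine hv l _ fun hmem => hrg ?_
          have e5 : r * g⁻¹ ∈ C := by
            have e6 := C.mul_mem (C.inv_mem (C.mul_mem hx (C.inv_mem d.2))) hmem
            have e7 : (x * (d : G)⁻¹)⁻¹ * (x * (d : G)⁻¹ * r * g⁻¹) = r * g⁻¹ := by group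
            rwa [e7] at e6
          have e8 := htc _ e5 g
          rw [inv_mul_cancel_right] at e8
          rw [← e8]
          exact hrt.2
        rw [e4, lin_zero]
      · intro hn
        exact absurd hgR hn
    have h2 : ∀ l, lin (fun g => ra (u l) (E i g) ⟨x, hx⟩) (J l i) =
        ∑ r ∈ R, lin (fun d : C => ra (v l) (J l i) (x * (d : G)⁻¹ * r)) (E i r) := by
      intro l
      rw [lin_congr (F' := fun g => ∑ r ∈ R, lin (fun d : C => v l (x * (d : G)⁻¹ * r * g⁻¹)) (E i r)) (h1 l),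
        lin_sum]
      refine Finset.sum_congr rfl fun r _ => ?_
      rw [Rat_swap]
      rfl
    rw [Finset.sum_congr rfl fun l _ => h2 l, Finset.sum_comm]
    refine Finset.sum_eq_zero fun r _ => ?_
    rw [← lin_sum]
    have h3 : (fun d : C => ∑ l, ra (v l) (J l i) (x * (d : G)⁻¹ * r)) = fun _ : C => (0 : ℝ) :=
      funext fun d => h i _
    rw [h3, lin_zero]
  have h1 : v m x = ∑ l, ra (u l) (if l = m then (1 : GR C) else 0) ⟨x, hx⟩ := by
    rw [Finset.sum_eq_single m]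
    · rw [if_pos rfl, ra_one, hu]
    · intro l _ hl
      rw [if_neg hl, ra_zero_right]
    · intro hm
      exact absurd (Finset.mem_univ m) hm
  rw [h1]
  have h2 : ∀ l, ra (u l) (if l = m then (1 : GR C) else 0) ⟨x, hx⟩ =
      ∑ i, lin (fun g => ra (u l) (E i g) ⟨x, hx⟩) (J l i) := by
    intro l
    rw [hδ l, ra_sum_right]
    refine Finset.sum_congr rfl fun i _ => ?_
    exact Rat_ra (u l) (E i) (J l i) ⟨x, hx⟩
  rw [Finset.sum_congr rfl fun l _ => h2 l, Finset.sum_comm]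
  exact Finset.sum_eq_zero fun i _ => key i

end PAL
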