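import Pool.Agent.PAL.Trans
import Pool.Agent.PAL.FLvl
import Pool.Agent.PAL.Rat

/-!
# PAL/Inter (module PAL-Inter): the kernel of the matrix of the edge group is zero

Finite levels: `flvl` and the rules for derivations; `transfer` for square summable vectors; restriction to the cosets `gB`
and `gA`, translation and `supp_zero`.
-/

set_option autoImplicit false

open PFC

namespace PAL

private theorem Inter_lvl {G ρ N κ σ : Type} [Group G] [Fintype ρ] [Fintype N] [Fintype κ]
    [Fintype σ] {r : ℕ} (x : Fin r → G) (hx : PRT.Para x) (p : ℕ) [Fact p.Prime]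
    (z : N → G) (X : ρ → N → GR G)
    (hrel : ∀ i, ∑ ν, X i ν * (el (z ν) - 1) = 0)
    (a : σ → G) (hext : ExtP p (Fin r) a) (c : κ → G)
    (JB : κ → N → GR G) (hJB : ∀ l, Fund z (c l) (JB l))
    (JA : κ → σ → GR G) (hJA : ∀ l, Fund a (c l) (JA l))
    (Q : Type) [Group Q] [Finite Q] (hQ : IsPGroup p Q) (θ : G →* Q) (v : ρ → GR Q) (w : κ → GR Q)
    (h : ∀ ν, ∑ i, v i * mp θ (X i ν) = ∑ l, w l * mp θ (JB l ν)) (i : σ) :
    ∑ l, w l * mp θ (JA l i) = 0 := by
  have h0 := flvl x hx p hQ θ a hext (fun i => ∑ l, w l * mp θ (JA l i)) ?_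
  · exact congrFun h0 i
  intro M _ _ D hD
  have e1 : ∑ i, (∑ l, w l * mp θ (JA l i)) • D (a i) = ∑ l, w l • D (c l) := by
    simp only [Finset.sum_smul]
    rw [Finset.sum_comm]
    refine Finset.sum_congr rfl fun l _ => ?_
    rw [der_fund' θ D hD a (c l) (JA l) (hJA l), Finset.smul_sum]
    exact Finset.sum_congr rfl fun i _ => mul_smul _ _ _
  have e2 : ∑ l, w l • D (c l) = ∑ ν, (∑ l, w l * mp θ (JB l ν)) • D (z ν) := by
    simp only [Finset.sum_smul]
    rw [Finset.sum_comm]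
    refine Finset.sum_congr rfl fun l _ => ?_
    rw [der_fund' θ D hD z (c l) (JB l) (hJB l), Finset.smul_sum]
    exact Finset.sum_congr rfl fun i _ => (mul_smul _ _ _).symm
  have e3 : ∑ ν, (∑ l, w l * mp θ (JB l ν)) • D (z ν) = 0 := by
    simp only [← h, Finset.sum_smul]
    rw [Finset.sum_comm]
    refine Finset.sum_eq_zero fun i _ => ?_
    have e4 := der_rel' θ D hD z (X i) (hrel i)
    have e5 := congrArg (fun m => v i • m) e4
    simp only [Finset.smul_sum, smul_zero] at e5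
    rw [← e5]
    exact Finset.sum_congr rfl fun i _ => mul_smul _ _ _
  show ∑ i, (∑ l, w l * mp θ (JA l i)) • D (a i) = 0
  rw [e1, e2, e3]

open Classical in
private theorem Inter_sq {G : Type} [Group G] (B : Subgroup G) (g : G) {v : G → ℝ} (hv : Sq v) :
    Sq (fun y => if g⁻¹ * y ∈ B then v y else 0) := by
  refine Summable.of_nonneg_of_le (fun y => sq_nonneg _) (fun y => ?_) hv
  show (if g⁻¹ * y ∈ B then v y else 0) ^ 2 ≤ v y ^ 2
  split_ifs
  · exact le_rfl
  · rw [zero_pow two_ne_zero]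
    exact sq_nonneg _

theorem inter {G ρ N κ σ : Type} [Group G] [Fintype ρ] [Fintype N] [Fintype κ] [DecidableEq κ]
    [Fintype σ] {r : ℕ} (x : Fin r → G) (hx : PRT.Para x) (p : ℕ) [Fact p.Prime]
    (hres : ResQ p G) (B A : Subgroup G) (z : N → G) (X : ρ → N → GR G)
    (hrel : ∀ i, ∑ ν, X i ν * (el (z ν) - 1) = 0) (hsupp : ∀ i ν, InSub B (X i ν))
    (hinj : ∀ v : ρ → G → ℝ, (∀ i, Sq (v i)) → (∀ ν y, ∑ i, ra (v i) (X i ν) y = 0) → v = 0)
    (a : σ → G) (hext : ExtP p (Fin r) a) (c : κ → G) (hc : ∀ l, c l ∈ B ⊓ A)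
    (hfree : ∀ m : κ, ∃ D : (B ⊓ A : Subgroup G) → GR (B ⊓ A : Subgroup G),
      IsDer (MonoidHom.id (B ⊓ A : Subgroup G)) D ∧ ∀ l, D ⟨c l, hc l⟩ = if l = m then 1 else 0)
    (JB : κ → N → GR G) (hJB : ∀ l, Fund z (c l) (JB l)) (hsB : ∀ l ν, InSub B (JB l ν))
    (JA : κ → σ → GR G) (hJA : ∀ l, Fund a (c l) (JA l)) (hsA : ∀ l i, InSub A (JA l i)) :
    (∀ v : ρ ⊕ κ → G → ℝ, (∀ i, Sq (v i)) →
      (∀ ν y, ∑ i, ra (v (Sum.inl i)) (X i ν) y = ∑ l, ra (v (Sum.inr l)) (JB l ν) y) → v = 0) ∧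
      Fintype.card ρ + Fintype.card κ ≤ Fintype.card N := by
  classical
  let J : ρ ⊕ κ → N → GR G := Sum.elim X (fun l ν => - JB l ν)
  let J' : ρ ⊕ κ → σ → GR G := Sum.elim (fun _ _ => 0) JA
  have hJs : ∀ i ν, InSub B (J i ν) := by
    rintro (i | l) ν
    · exact hsupp i ν
    · exact inSub_neg (hsB l ν)
  have hJsum : ∀ (v : ρ ⊕ κ → G → ℝ) (ν : N) (y : G), ∑ l, ra (v l) (J l ν) y =
      ∑ i, ra (v (Sum.inl i)) (X i ν) y - ∑ l, ra (v (Sum.inr l)) (JB l ν) y := by
    intro v ν y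
    rw [Fintype.sum_sum_type, sub_eq_add_neg, ← Finset.sum_neg_distrib]
    congr 1
    exact Finset.sum_congr rfl fun l _ => ra_neg_right _ _ _
  have hker : ∀ v : ρ ⊕ κ → G → ℝ, (∀ i, Sq (v i)) → (∀ ν y, ∑ l, ra (v l) (J l ν) y = 0) →
      ∀ i y, ∑ l, ra (v (Sum.inr l)) (JA l i) y = 0 := by
    intro v hv h0 i y
    have h1 := transfer p hres J J' (fun Q _ _ hQ θ u hu j => ?_) v hv h0 i y
    · rw [Fintype.sum_sum_type] at h1
      have h2 : ∑ i', ra (v (Sum.inl i')) (J' (Sum.inl i') i) y = 0 :=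
        Finset.sum_eq_zero fun i' _ => ra_zero_right _ _
      rw [h2, zero_add] at h1
      exact h1
    · rw [Fintype.sum_sum_type]
      have h2 : ∑ i', u (Sum.inl i') * mp θ (J' (Sum.inl i') j) = 0 := by
        refine Finset.sum_eq_zero fun i' _ => ?_
        show u (Sum.inl i') * mp θ 0 = 0
        rw [map_zero, mul_zero]
      rw [h2, zero_add]
      refine Inter_lvl x hx p z X hrel a hext c JB hJB JA hJA Q hQ θ (fun i => u (Sum.inl i))
        (fun l => u (Sum.inr l)) (fun ν => ?_) j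
      have h3 := hu ν
      rw [Fintype.sum_sum_type] at h3
      have h4 : ∑ l, u (Sum.inr l) * mp θ (J (Sum.inr l) ν) =
          - ∑ l, u (Sum.inr l) * mp θ (JB l ν) := by
        rw [← Finset.sum_neg_distrib]
        refine Finset.sum_congr rfl fun l _ => ?_
        show u (Sum.inr l) * mp θ (- JB l ν) = _
        rw [map_neg, mul_neg]
      rw [h4, ← sub_eq_add_neg] at h3
      exact sub_eq_zero.1 h3
  have hfirst : ∀ v : ρ ⊕ κ → G → ℝ, (∀ i, Sq (v i)) →
      (∀ ν y, ∑ l, ra (v l) (J l ν) y = 0) → v = 0 := by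
    intro v hv h0
    have hr : ∀ l g, v (Sum.inr l) g = 0 := by
      intro l g
      let w : ρ ⊕ κ → G → ℝ := fun l y => if g⁻¹ * y ∈ B then v l y else 0
      have hw : ∀ ν y, ∑ l, ra (w l) (J l ν) y = 0 := by
        intro ν y
        have h1 : ∀ l, ra (w l) (J l ν) y = if g⁻¹ * y ∈ B then ra (v l) (J l ν) y else 0 :=
          fun l => ra_restrict B (v l) (J l ν) (hJs l ν) g y
        simp only [h1]
        split_ifs
        · exact h0 ν y
        · exact Finset.sum_const_zero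
      have h2 := hker w (fun i => Inter_sq B g (hv i)) hw
      let w3 : κ → G → ℝ := fun l y =>
        if g⁻¹ * (g * y) ∈ A then w (Sum.inr l) (g * y) else 0
      have h3 : w3 = 0 := by
        refine supp_zero (B ⊓ A) c hc hfree a JA hJA w3 (fun l y hy => ?_) (fun i y => ?_)
        · show (if g⁻¹ * (g * y) ∈ A then (if g⁻¹ * (g * y) ∈ B then v (Sum.inr l) (g * y) else 0)
            else 0) = 0
          rw [inv_mul_cancel_left]
          by_cases hA : y ∈ A
          · rw [if_pos hA]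
            exact if_neg fun hB => hy ⟨hB, hA⟩
          · rw [if_neg hA]
        · have h4 : ∀ l, ra (w3 l) (JA l i) y =
              if g⁻¹ * (g * y) ∈ A then ra (w (Sum.inr l)) (JA l i) (g * y) else 0 := by
            intro l
            rw [← ra_restrict A (w (Sum.inr l)) (JA l i) (hsA l i) g (g * y)]
            exact ra_trans (fun y => if g⁻¹ * y ∈ A then w (Sum.inr l) y else 0) (JA l i) g y
          simp only [h4]
          split_ifs
          · exact h2 i (g * y)
          · exact Finset.sum_const_zero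
      have h5 : w3 l 1 = 0 := by rw [h3]; rfl
      have h6 : w3 l 1 = v (Sum.inr l) g := by
        show (if g⁻¹ * (g * 1) ∈ A then (if g⁻¹ * (g * 1) ∈ B then v (Sum.inr l) (g * 1) else 0)
            else 0) = _
        rw [mul_one, inv_mul_cancel, if_pos A.one_mem, if_pos B.one_mem]
      rw [← h6, h5]
    have hl := hinj (fun i => v (Sum.inl i)) (fun i => hv (Sum.inl i)) (fun ν y => ?_)
    · funext i g
      rcases i with i | l
      · exact congrFun (congrFun hl i) g
      · exact hr l g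
    · have h1 := h0 ν y
      rw [hJsum, sub_eq_zero] at h1
      show ∑ i, ra (v (Sum.inl i)) (X i ν) y = 0
      rw [h1]
      refine Finset.sum_eq_zero fun l _ => ?_
      have h2 : v (Sum.inr l) = fun _ => 0 := funext (hr l)
      rw [h2]
      exact ra_zero_left _ _
  refine ⟨fun v hv h => hfirst v hv fun ν y => ?_, ?_⟩
  · rw [hJsum, h ν y, sub_self]
  · by_contra hlt
    rw [not_le] at hlt
    obtain ⟨v, hv0, hv, h0⟩ := exists_kernel p hres J (by rw [Fintype.card_sum]; exact hlt)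
    exact hv0 (hfirst v hv h0)

end PAL
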