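import Pool.Agent.PAL.Lvl

/-!
# PAL/Lim (module PAL-Lim): the limit of the projections

Take an ultrafilter `U ≤ F` and the functions `pf_i` of `lvl` for the images of `J` in the group ring
of `Q i` (`nrm_mp`).  Put `p l l' g = lim_U pf_i l l' (π_i g)` (bounded by `1`).  For a finite set `S`,
`π_i` is eventually injective on `S` together with the supports of the entries of `qn K n (TT J)`; then
the coefficient of `qn K n (TT J_i)` at `π_i g` is the one of `qn K n (TT J)` at `g` (`coeff_qn_mp`).  The
equations and inequalities pass to the limit (all sums are finite).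
-/

set_option autoImplicit false

open PFC Filter

namespace PAL

private theorem Lim_nrm_nonneg {G ρ σ : Type} [Group G] [Fintype ρ] [Fintype σ]
    (J : ρ → σ → GR G) : 0 ≤ nrm J := by
  unfold nrm
  refine Finset.sum_nonneg fun l _ => Finset.sum_nonneg fun j _ => ?_
  exact Finset.sum_nonneg fun g _ => abs_nonneg _

/-- eventually injective on a finite set -/
private theorem Lim_inj {G I : Type} [Group G] (F : Filter I) (Q : I → Type)
    [∀ i, Group (Q i)] (π : ∀ i, G →* Q i) (hπ : ∀ g : G, g ≠ 1 → ∀ᶠ i in F, π i g ≠ 1)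
    (T : Finset G) : ∀ᶠ i in F, Set.InjOn (π i) (T : Set G) := by
  have h1 : ∀ᶠ i in F, ∀ g ∈ T, ∀ h ∈ T, g ≠ h → π i g ≠ π i h := by
    rw [Filter.eventually_all_finset]
    intro g _
    rw [Filter.eventually_all_finset]
    intro h _
    by_cases hgh : g = h
    · exact Filter.Eventually.of_forall fun i hne => absurd hgh hne
    · have h2 : g * h⁻¹ ≠ 1 := fun h3 => hgh (mul_inv_eq_one.1 h3)
      filter_upwards [hπ _ h2] with i hi _ h3
      apply hi
      rw [map_mul, map_inv, h3, mul_inv_cancel]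
  filter_upwards [h1] with i hi g hg h hh heq
  by_contra hne
  exact hi g hg h hh hne heq

theorem lim_data {G I ρ σ : Type} [Group G] [Fintype ρ] [DecidableEq ρ] [Fintype σ] (F : Filter I)
    [F.NeBot] (Q : I → Type) [∀ i, Group (Q i)] [∀ i, Finite (Q i)] (π : ∀ i, G →* Q i)
    (hπ : ∀ g : G, g ≠ 1 → ∀ᶠ i in F, π i g ≠ 1) (J : ρ → σ → GR G) (K : ℝ) (hK : 2 ≤ K)
    (hJ : nrm J ^ 2 ≤ K) :
    ∃ p : ρ → ρ → G → ℝ,
      (∀ n : ℕ, 2 ≤ n → ∀ S : Finset G,
        ∑ l, ∑ l', ∑ g ∈ S, ((qn K n (TT J) l l').coeff g - p l l' g) ^ 2 ≤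
          Fintype.card ρ * eta K n) ∧
      (∀ (τ : Type) (J' : ρ → τ → GR G),
        (∀ (i : I) (v : ρ → GR (Q i)), (∀ j, ∑ l, v l * mp (π i) (J l j) = 0) →
          ∀ j, ∑ l, v l * mp (π i) (J' l j) = 0) →
        ∀ l j g, ∑ l', ra (p l l') (J' l' j) g = 0) ∧
      (Fintype.card ρ : ℝ) - Fintype.card σ ≤ ∑ l, p l l 1 := by
  classical
  let _inst : ∀ i, Fintype (Q i) := fun i => Fintype.ofFinite (Q i)
  have hJi : ∀ i, nrm (fun l j => mp (π i) (J l j)) ^ 2 ≤ K := fun i =>
    (pow_le_pow_left₀ (Lim_nrm_nonneg _) (nrm_mp (π i) J) 2).trans hJ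
  choose pf hb hest hker htr using fun i => lvl (fun l j => mp (π i) (J l j)) K hK (hJi i)
  let U : Ultrafilter I := Ultrafilter.of F
  have hU : (U : Filter I) ≤ F := Ultrafilter.of_le F
  -- the limit
  have hlim : ∀ (l l' : ρ) (g : G), ∃ x : ℝ,
      Tendsto (fun i => pf i l l' (π i g)) (U : Filter I) (nhds x) := by
    intro l l' g
    have hc : IsCompact (Set.Icc (-1 : ℝ) 1) := isCompact_Icc
    have h1 : ((U.map fun i => pf i l l' (π i g)) : Filter ℝ) ≤
        Filter.principal (Set.Icc (-1 : ℝ) 1) := by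
      rw [Filter.le_principal_iff]
      show (fun i => pf i l l' (π i g)) ⁻¹' Set.Icc (-1 : ℝ) 1 ∈ (U : Filter I)
      exact Filter.Eventually.of_forall fun i => abs_le.1 (hb i l l' (π i g))
    obtain ⟨x, -, hx⟩ := hc.ultrafilter_le_nhds _ h1
    exact ⟨x, hx⟩
  choose p hp using hlim
  refine ⟨p, ?_, ?_, ?_⟩
  · intro n hn S
    -- injectivity
    let T : Finset G := S ∪ Finset.univ.biUnion fun l : ρ => Finset.univ.biUnion fun l' : ρ =>
      (qn K n (TT J) l l').coeff.support
    have hinj : ∀ᶠ i in (U : Filter I), Set.InjOn (π i) (T : Set G) :=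
      hU (Lim_inj F Q π hπ T)
    have hle : ∀ᶠ i in (U : Filter I),
        ∑ l, ∑ l', ∑ g ∈ S, ((qn K n (TT J) l l').coeff g - pf i l l' (π i g)) ^ 2 ≤
          Fintype.card ρ * eta K n := by
      filter_upwards [hinj] with i hi
      refine le_trans ?_ (hest i n hn)
      refine Finset.sum_le_sum fun l _ => Finset.sum_le_sum fun l' _ => ?_
      have hS : Set.InjOn (π i) (S : Set G) := hi.mono fun g hg =>
        Finset.mem_coe.2 (Finset.mem_union_left _ (Finset.mem_coe.1 hg))
      have hco : ∀ g ∈ S, (qn K n (TT J) l l').coeff g =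
          (qn K n (TT fun l j => mp (π i) (J l j)) l l').coeff (π i g) := by
        intro g hg
        rw [coeff_qn_mp (π i) J K n l l']
        show _ = Finsupp.mapDomain (π i) (qn K n (TT J) l l').coeff (π i g)
        symm
        refine Finsupp.mapDomain_apply' (T : Set G) _ ?_ hi
          (Finset.mem_coe.2 (Finset.mem_union_left _ hg))
        intro h hh
        refine Finset.mem_coe.2 (Finset.mem_union_right _ ?_)
        rw [Finset.mem_biUnion]
        refine ⟨l, Finset.mem_univ _, ?_⟩
        rw [Finset.mem_biUnion]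
        exact ⟨l', Finset.mem_univ _, Finset.mem_coe.1 hh⟩
      have h2 : ∑ g ∈ S, ((qn K n (TT J) l l').coeff g - pf i l l' (π i g)) ^ 2 =
          ∑ q ∈ S.image (π i),
            ((qn K n (TT fun l j => mp (π i) (J l j)) l l').coeff q - pf i l l' q) ^ 2 := by
        rw [Finset.sum_image fun a ha b hb hab => hS ha hb hab]
        exact Finset.sum_congr rfl fun g hg => by rw [hco g hg]
      rw [h2]
      exact Finset.sum_le_sum_of_subset_of_nonneg (Finset.subset_univ _)
        fun q _ _ => sq_nonneg _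
    have hten : Tendsto (fun i => ∑ l, ∑ l', ∑ g ∈ S,
        ((qn K n (TT J) l l').coeff g - pf i l l' (π i g)) ^ 2) (U : Filter I)
        (nhds (∑ l, ∑ l', ∑ g ∈ S, ((qn K n (TT J) l l').coeff g - p l l' g) ^ 2)) :=
      tendsto_finsetSum _ fun l _ => tendsto_finsetSum _ fun l' _ =>
        tendsto_finsetSum _ fun g _ => (tendsto_const_nhds.sub (hp l l' g)).pow 2
    exact le_of_tendsto hten hle
  · intro τ J' h l j g
    have hten : Tendsto (fun i => ∑ l', ra (fun x => pf i l l' (π i x)) (J' l' j) g)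
        (U : Filter I) (nhds (∑ l', ra (p l l') (J' l' j) g)) := by
      refine tendsto_finsetSum _ fun l' _ => ?_
      unfold ra
      rw [lin_eq_sum _ (J' l' j) _ (Finset.Subset.refl _)]
      have h1 : (fun i => lin (fun g' => pf i l l' (π i (g * g'⁻¹))) (J' l' j)) = fun i =>
          ∑ g' ∈ (J' l' j).coeff.support,
            (J' l' j).coeff g' • pf i l l' (π i (g * g'⁻¹)) := by
        funext i
        exact lin_eq_sum _ (J' l' j) _ (Finset.Subset.refl _)
      rw [h1]
      exact tendsto_finsetSum _ fun g' _ => (hp l l' (g * g'⁻¹)).const_smul _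
    have hzero : ∀ i, ∑ l', ra (fun x => pf i l l' (π i x)) (J' l' j) g = 0 := by
      intro i
      have h2 := hker i τ (fun l j => mp (π i) (J' l j)) (h i) l j (π i g)
      rw [← h2]
      refine Finset.sum_congr rfl fun l' _ => ?_
      unfold ra
      rw [lin_mp]
      refine lin_congr fun g' _ => ?_
      show pf i l l' (π i (g * g'⁻¹)) = pf i l l' (π i g * (π i g')⁻¹)
      rw [map_mul, map_inv]
    have h3 : Tendsto (fun i => ∑ l', ra (fun x => pf i l l' (π i x)) (J' l' j) g)
        (U : Filter I) (nhds 0) := by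
      simp only [hzero]
      exact tendsto_const_nhds
    exact tendsto_nhds_unique hten h3
  · have hten : Tendsto (fun i => ∑ l, pf i l l (π i 1)) (U : Filter I)
        (nhds (∑ l, p l l 1)) := tendsto_finsetSum _ fun l _ => hp l l 1
    refine ge_of_tendsto hten (Filter.Eventually.of_forall fun i => ?_)
    have h1 := htr i
    simp only [map_one]
    exact h1

end PAL
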