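import Mathlib

/-!
# PAL/RatK (module PAL-RatK): real kernel vectors of integer matrices

Choose a basis of `ℝ` over `ℚ`; the coordinates of a real kernel vector are rational kernel vectors;
clear denominators.
-/

set_option autoImplicit false

open Matrix

namespace PAL

/-- rational kernel vectors -/
private theorem int_to_rat {N N' N'' : Type} [Fintype N] (A : Matrix N N' ℤ) (A' : Matrix N N'' ℤ)
    (h : ∀ x : N → ℤ, x ᵥ* A = 0 → x ᵥ* A' = 0) (y : N → ℚ)
    (hy : ∀ m, ∑ n, y n * (A n m : ℚ) = 0) (m : N'') : ∑ n, y n * (A' n m : ℚ) = 0 := by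
  obtain ⟨d, hd⟩ := IsLocalization.exist_integer_multiples_of_finite (nonZeroDivisors ℤ) y
  choose z hz using hd
  have hd0 : ((d : ℤ) : ℚ) ≠ 0 := Int.cast_ne_zero.2 (nonZeroDivisors.coe_ne_zero d)
  have hz' : ∀ n, (z n : ℚ) = ((d : ℤ) : ℚ) * y n := fun n => by
    have h1 := hz n
    rw [zsmul_eq_mul] at h1
    exact h1
  have h1 : z ᵥ* A = 0 := by
    funext m
    show ∑ n, z n * A n m = 0
    have h2 : ((∑ n, z n * A n m : ℤ) : ℚ) = 0 := by
      push_cast
      rw [← mul_zero ((d : ℤ) : ℚ), ← hy m, Finset.mul_sum]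
      refine Finset.sum_congr rfl fun n _ => ?_
      rw [hz', mul_assoc]
    exact_mod_cast h2
  have h3 : ∑ n, z n * A' n m = 0 := congrFun (h z h1) m
  have h4 : ((∑ n, z n * A' n m : ℤ) : ℚ) = 0 := by rw [h3, Int.cast_zero]
  push_cast at h4
  have h5 : ((d : ℤ) : ℚ) * ∑ n, y n * (A' n m : ℚ) = 0 := by
    rw [← h4, Finset.mul_sum]
    refine Finset.sum_congr rfl fun n _ => ?_
    rw [hz', mul_assoc]
  exact (mul_eq_zero.1 h5).resolve_left hd0

theorem int_to_real {N N' N'' : Type} [Fintype N] (A : Matrix N N' ℤ) (A' : Matrix N N'' ℤ)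
    (h : ∀ x : N → ℤ, x ᵥ* A = 0 → x ᵥ* A' = 0) (x : N → ℝ)
    (hx : x ᵥ* A.map (Int.cast : ℤ → ℝ) = 0) : x ᵥ* A'.map (Int.cast : ℤ → ℝ) = 0 := by
  let b := Module.Basis.ofVectorSpace ℚ ℝ
  have key : ∀ (c : N → ℤ) (i), b.repr (∑ n, x n * (c n : ℝ)) i =
      ∑ n, b.repr (x n) i * (c n : ℚ) := by
    intro c i
    rw [map_sum, Finsupp.finsetSum_apply]
    refine Finset.sum_congr rfl fun n _ => ?_
    have h1 : x n * (c n : ℝ) = (c n : ℚ) • x n := by
      rw [Rat.smul_def, Rat.cast_intCast, mul_comm]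
    rw [h1, map_smul, Finsupp.smul_apply, smul_eq_mul, mul_comm]
  funext m
  show ∑ n, x n * (A' n m : ℝ) = 0
  apply b.repr.injective
  rw [map_zero]
  ext i
  rw [key (fun n => A' n m) i, Finsupp.zero_apply]
  refine int_to_rat A A' h (fun n => b.repr (x n) i) (fun m' => ?_) m
  rw [← key (fun n => A n m') i]
  have h1 : ∑ n, x n * (A n m' : ℝ) = 0 := congrFun hx m'
  rw [h1, map_zero, Finsupp.zero_apply]

end PAL
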