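import Pool.Agent.PAL.Rep
import Pool.Agent.PAL.RatK

/-!
# PAL/Lvl (module PAL-Lvl): the projection at a finite level

Apply `spec` to `A = big J` (with `big_norm`).  The matrix `P` is determined by `Pᵀ = P`, `P A = 0`
and `x A = 0 → x P = x` (two such matrices satisfy `P' P = P'`, `P P' = P`, transpose), hence invariant
under left translations: `P ((l, h q), (l', h q')) = P ((l, q), (l', q'))`.  Put
`pf l l' q = P ((l, 1), (l', q))`, so `P ((l, q), (l', q')) = pf l l' (q⁻¹ q')`.  `P` is a symmetric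
idempotent, so its entries are at most `1` in absolute value.  The estimate of `spec` for
`big_qn`, `big_TT` is `|Q|` times the required one; the trace of `P` is `|Q| ∑ pf l l 1`.  The rows of `P`
are real kernel vectors of `big J`, hence (`int_to_real`, `vecMul_big`, `vecMul_big_int`) of `big J'`.
-/

set_option autoImplicit false

open PFC Matrix

namespace PAL

private theorem lvl_uniq {N N' : Type} [Fintype N] [DecidableEq N] (B : Matrix N N' ℝ)
    (P P' : Matrix N N ℝ) (h1 : Pᵀ = P) (h2 : P * B = 0)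
    (h3 : ∀ x : N → ℝ, x ᵥ* B = 0 → x ᵥ* P = x) (h1' : P'ᵀ = P') (h2' : P' * B = 0)
    (h3' : ∀ x : N → ℝ, x ᵥ* B = 0 → x ᵥ* P' = x) : P' = P := by
  have key : ∀ R S : Matrix N N ℝ, R * B = 0 → (∀ x : N → ℝ, x ᵥ* B = 0 → x ᵥ* S = x) →
      R * S = R := by
    intro R S hR hS
    ext i j
    have e1 : R i ᵥ* B = 0 := by
      funext k
      have e2 : (R * B) i k = 0 := by rw [hR]; rfl
      exact e2
    have e3 := congrFun (hS (R i) e1) j
    exact e3
  have a1 : P' * P = P' := key P' P h2' h3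
  have a2 : P * P' = P := key P P' h2 h3'
  have a3 : (P' * P)ᵀ = P * P' := by
    rw [Matrix.transpose_mul, h1, h1']
  rw [a1, h1', a2] at a3
  exact a3

private theorem lvl_idem {N N' : Type} [Fintype N] [DecidableEq N] (B : Matrix N N' ℝ)
    (P : Matrix N N ℝ) (h2 : P * B = 0)
    (h3 : ∀ x : N → ℝ, x ᵥ* B = 0 → x ᵥ* P = x) : P * P = P := by
  ext i j
  have e1 : P i ᵥ* B = 0 := by
    funext k
    have e2 : (P * B) i k = 0 := by rw [h2]; rfl
    exact e2
  have e3 := congrFun (h3 (P i) e1) j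
  exact e3

private theorem lvl_le_one {N : Type} [Fintype N] [DecidableEq N] (P : Matrix N N ℝ)
    (h1 : Pᵀ = P) (h2 : P * P = P) (i j : N) : |P i j| ≤ 1 := by
  have hs : ∀ i j, P i j = P j i := by
    intro i j
    have := congrFun (congrFun h1 j) i
    exact this
  have hd : ∀ i j, P i j ^ 2 ≤ P i i := by
    intro i j
    have e1 : P i i = ∑ k, P i k ^ 2 := by
      have e2 : (P * P) i i = P i i := by rw [h2]
      rw [← e2, Matrix.mul_apply]
      refine Finset.sum_congr rfl fun k _ => ?_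
      rw [hs k i, sq]
    rw [e1]
    exact Finset.single_le_sum (f := fun k => P i k ^ 2) (fun k _ => sq_nonneg _)
      (Finset.mem_univ j)
  have h3 : P i i ≤ 1 := by
    by_contra hc
    have hc : 1 < P i i := lt_of_not_ge hc
    have := hd i i
    nlinarith
  have h4 : P i j ^ 2 ≤ 1 := (hd i j).trans h3
  exact abs_le_one_iff_mul_self_le_one.mpr (by rw [← sq]; exact h4)

private theorem lvl_sum {Q : Type} [Group Q] [Fintype Q] (F : Q → ℝ) :
    ∑ q : Q, ∑ q' : Q, F (q⁻¹ * q') = Fintype.card Q * ∑ q, F q := by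
  have h : ∀ q : Q, ∑ q' : Q, F (q⁻¹ * q') = ∑ q', F q' := by
    intro q
    exact Equiv.sum_comp (Equiv.mulLeft q⁻¹) F
  rw [Finset.sum_congr rfl fun q _ => h q, Finset.sum_const, nsmul_eq_mul, Finset.card_univ]

/-- left translation on the second coordinate -/
private def lvlE {Q : Type} [Group Q] (ρ : Type) (h : Q) : ρ × Q ≃ ρ × Q :=
  Equiv.prodCongr (Equiv.refl ρ) (Equiv.mulLeft h)

private theorem lvlE_apply {Q : Type} [Group Q] (ρ : Type) (h : Q) (l : ρ) (q : Q) :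
    lvlE ρ h (l, q) = (l, h * q) := rfl

private theorem lvl_big {Q ρ σ : Type} [Group Q] (J : ρ → σ → GR Q) (h : Q) :
    (rl (big J)).submatrix (lvlE ρ h) (lvlE σ h) = rl (big J) := by
  ext a b
  obtain ⟨l, q⟩ := a
  obtain ⟨j, q'⟩ := b
  show (((J l j).coeff ((h * q)⁻¹ * (h * q')) : ℤ) : ℝ) = (((J l j).coeff (q⁻¹ * q') : ℤ) : ℝ)
  have e : (h * q)⁻¹ * (h * q') = q⁻¹ * q' := by group
  rw [e]

private theorem lvl_inv {Q ρ σ : Type} [Group Q] [Fintype Q] [DecidableEq Q] [Fintype ρ]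
    [DecidableEq ρ] [Fintype σ]
    (J : ρ → σ → GR Q) (P : Matrix (ρ × Q) (ρ × Q) ℝ) (h1 : Pᵀ = P) (h2 : P * rl (big J) = 0)
    (h3 : ∀ x : ρ × Q → ℝ, x ᵥ* rl (big J) = 0 → x ᵥ* P = x) (l l' : ρ) (q q' : Q) :
    P (l, q) (l', q') = P (l, 1) (l', q⁻¹ * q') := by
  have key : P.submatrix (lvlE ρ q) (lvlE ρ q) = P := by
    refine lvl_uniq (rl (big J)) P _ h1 h2 h3 ?_ ?_ ?_
    · rw [Matrix.transpose_submatrix, h1]
    · have e1 : P.submatrix (lvlE ρ q) (lvlE ρ q) * rl (big J) =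
          P.submatrix (lvlE ρ q) (lvlE ρ q) *
            (rl (big J)).submatrix (lvlE ρ q) (lvlE σ q) := by
        rw [lvl_big J q]
      rw [e1, Matrix.submatrix_mul_equiv, h2]
      rfl
    · intro x hx
      have e1 : x ᵥ* (rl (big J)).submatrix (lvlE ρ q) (lvlE σ q) = 0 := by
        rw [lvl_big J q]; exact hx
      rw [Matrix.submatrix_vecMul_equiv] at e1
      have e2 : (x ∘ (lvlE ρ q).symm) ᵥ* rl (big J) = 0 := by
        funext b
        have e3 := congrFun e1 ((lvlE σ q).symm b)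
        have e4 : ((x ∘ (lvlE ρ q).symm) ᵥ* rl (big J)) (lvlE σ q ((lvlE σ q).symm b)) = 0 := e3
        rw [Equiv.apply_symm_apply] at e4
        exact e4
      have e5 := h3 _ e2
      rw [Matrix.submatrix_vecMul_equiv, e5]
      funext a
      show x ((lvlE ρ q).symm (lvlE ρ q a)) = x a
      rw [Equiv.symm_apply_apply]
  have e1 : P (lvlE ρ q (l, 1)) (lvlE ρ q (l', q⁻¹ * q')) = P (l, 1) (l', q⁻¹ * q') := by
    have := congrFun (congrFun key (l, 1)) (l', q⁻¹ * q')
    exact this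
  rw [lvlE_apply, lvlE_apply, mul_one, mul_inv_cancel_left] at e1
  exact e1

private theorem lvl_coeff_mul {Q : Type} [Group Q] [Fintype Q] (f g : MonoidAlgebra ℝ Q) (x : Q) :
    (f * g).coeff x = ∑ s, f.coeff s * g.coeff (s⁻¹ * x) := by
  rw [MonoidAlgebra.coeff_mul_apply_left, Finsupp.sum_fintype]
  intro s
  rw [zero_mul]

/-- `big` for square matrices over the real group ring -/
private noncomputable def lvlB {Q ρ : Type} [Group Q] (M : Matrix ρ ρ (MonoidAlgebra ℝ Q)) :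
    Matrix (ρ × Q) (ρ × Q) ℝ := big M

private theorem lvlB_mul {Q ρ : Type} [Group Q] [Fintype Q] [Fintype ρ]
    (M M' : Matrix ρ ρ (MonoidAlgebra ℝ Q)) : lvlB (M * M') = lvlB M * lvlB M' := by
  ext a b
  obtain ⟨l, q⟩ := a
  obtain ⟨l', q'⟩ := b
  rw [Matrix.mul_apply, Fintype.sum_prod_type]
  show ((M * M') l l').coeff (q⁻¹ * q') =
    ∑ k, ∑ s, (M l k).coeff (q⁻¹ * s) * (M' k l').coeff (s⁻¹ * q')
  rw [Matrix.mul_apply, MonoidAlgebra.coeff_sum, Finsupp.finsetSum_apply]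
  refine Finset.sum_congr rfl fun k _ => ?_
  rw [lvl_coeff_mul, ← Equiv.sum_comp (Equiv.mulLeft q⁻¹)]
  refine Finset.sum_congr rfl fun s _ => ?_
  show (M l k).coeff (q⁻¹ * s) * (M' k l').coeff ((q⁻¹ * s)⁻¹ * (q⁻¹ * q')) = _
  have e : (q⁻¹ * s)⁻¹ * (q⁻¹ * q') = s⁻¹ * q' := by group
  rw [e]

private theorem lvlB_one {Q ρ : Type} [Group Q] [DecidableEq Q] [DecidableEq ρ] :
    lvlB (1 : Matrix ρ ρ (MonoidAlgebra ℝ Q)) = 1 := by
  ext a b
  obtain ⟨l, q⟩ := a
  obtain ⟨l', q'⟩ := b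
  show ((1 : Matrix ρ ρ (MonoidAlgebra ℝ Q)) l l').coeff (q⁻¹ * q') = _
  by_cases h : l = l'
  · subst h
    rw [Matrix.one_apply_eq, MonoidAlgebra.one_def, MonoidAlgebra.coeff_single, Finsupp.single_apply]
    by_cases h' : q = q'
    · subst h'
      rw [Matrix.one_apply_eq, if_pos (inv_mul_cancel q).symm]
    · rw [Matrix.one_apply_ne (fun e => h' (Prod.ext_iff.mp e).2), if_neg]
      intro e
      exact h' (inv_mul_eq_one.mp e.symm)
  · rw [Matrix.one_apply_ne h, Matrix.one_apply_ne (fun e => h (Prod.ext_iff.mp e).1)]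
    rfl

private theorem lvlB_add {Q ρ : Type} [Group Q] (M M' : Matrix ρ ρ (MonoidAlgebra ℝ Q)) :
    lvlB (M + M') = lvlB M + lvlB M' := rfl

private theorem lvlB_sub {Q ρ : Type} [Group Q] (M M' : Matrix ρ ρ (MonoidAlgebra ℝ Q)) :
    lvlB (M - M') = lvlB M - lvlB M' := rfl

private theorem lvlB_smul {Q ρ : Type} [Group Q] (c : ℝ) (M : Matrix ρ ρ (MonoidAlgebra ℝ Q)) :
    lvlB (c • M) = c • lvlB M := rfl

private theorem lvlB_pow {Q ρ : Type} [Group Q] [Fintype Q] [DecidableEq Q] [Fintype ρ]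
    [DecidableEq ρ] (M : Matrix ρ ρ (MonoidAlgebra ℝ Q)) (k : ℕ) :
    lvlB (M ^ k) = lvlB M ^ k := by
  induction k with
  | zero => rw [pow_zero, pow_zero, lvlB_one]
  | succ k ih => rw [pow_succ, pow_succ, lvlB_mul, ih]

private theorem lvlB_qn {Q ρ : Type} [Group Q] [Fintype Q] [DecidableEq Q] [Fintype ρ]
    [DecidableEq ρ] (M : Matrix ρ ρ (MonoidAlgebra ℝ Q)) (K : ℝ) (n : ℕ) :
    lvlB (qn K n M) = qn K n (lvlB M) := by
  have hs : ∀ (s : Finset ℕ) (F : ℕ → Matrix ρ ρ (MonoidAlgebra ℝ Q)),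
      lvlB (∑ k ∈ s, F k) = ∑ k ∈ s, lvlB (F k) := by
    intro s F
    classical
    induction s using Finset.induction_on with
    | empty => rw [Finset.sum_empty, Finset.sum_empty]; rfl
    | insert a s ha ih => rw [Finset.sum_insert ha, Finset.sum_insert ha, lvlB_add, ih]
  unfold qn
  rw [lvlB_smul, hs]
  refine congrArg _ (Finset.sum_congr rfl fun k _ => ?_)
  rw [lvlB_pow, lvlB_sub, lvlB_one, lvlB_smul]

theorem lvl {Q ρ σ : Type} [Group Q] [Fintype Q] [Fintype ρ] [DecidableEq ρ] [Fintype σ]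
    (J : ρ → σ → GR Q) (K : ℝ) (hK : 2 ≤ K) (hJ : nrm J ^ 2 ≤ K) :
    ∃ pf : ρ → ρ → Q → ℝ, (∀ l l' q, |pf l l' q| ≤ 1) ∧
      (∀ n : ℕ, 2 ≤ n →
        ∑ l, ∑ l', ∑ q, ((qn K n (TT J) l l').coeff q - pf l l' q) ^ 2 ≤
          Fintype.card ρ * eta K n) ∧
      (∀ (τ : Type) (J' : ρ → τ → GR Q),
        (∀ v : ρ → GR Q, (∀ j, ∑ l, v l * J l j = 0) → ∀ j, ∑ l, v l * J' l j = 0) →
        ∀ l j q, ∑ l', ra (pf l l') (J' l' j) q = 0) ∧
      (Fintype.card ρ : ℝ) - Fintype.card σ ≤ ∑ l, pf l l 1 := by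
  classical
  obtain ⟨P, h1, h2, h3, h4, h5⟩ := spec (big J) K hK (big_norm J K hJ)
  have hinv : ∀ (l l' : ρ) (q q' : Q), P (l, q) (l', q') = P (l, 1) (l', q⁻¹ * q') :=
    lvl_inv J P h1 h2 h3
  have hidem : P * P = P := lvl_idem _ P h2 h3
  have hQ : (0 : ℝ) < Fintype.card Q := by
    exact_mod_cast Fintype.card_pos
  refine ⟨fun l l' q => P (l, 1) (l', q), fun l l' q => lvl_le_one P h1 hidem _ _, ?_, ?_, ?_⟩
  · intro n hn
    have e1 := h5 n hn
    have e0 : rl (big J) * (rl (big J))ᵀ = lvlB (TT J) := (big_TT J).symm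
    rw [e0, ← lvlB_qn] at e1
    have e2 : ∀ (l : ρ) (q : Q) (l' : ρ) (q' : Q),
        (lvlB (qn K n (TT J)) - P) (l, q) (l', q') =
          (qn K n (TT J) l l').coeff (q⁻¹ * q') - P (l, 1) (l', q⁻¹ * q') := by
      intro l q l' q'
      rw [← hinv, Matrix.sub_apply]
      rfl
    have e3 : ∑ i, ∑ j, ((lvlB (qn K n (TT J)) - P) i j) ^ 2 =
        Fintype.card Q * ∑ l, ∑ l', ∑ q, ((qn K n (TT J) l l').coeff q - P (l, 1) (l', q)) ^ 2 := by
      rw [Fintype.sum_prod_type]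
      rw [Finset.mul_sum]
      refine Finset.sum_congr rfl fun l _ => ?_
      have e4 : ∀ q : Q, ∑ j : ρ × Q, ((lvlB (qn K n (TT J)) - P) (l, q) j) ^ 2 =
          ∑ l', ∑ q' : Q, (fun z => ((qn K n (TT J) l l').coeff z - P (l, 1) (l', z)) ^ 2)
            (q⁻¹ * q') := by
        intro q
        rw [Fintype.sum_prod_type]
        refine Finset.sum_congr rfl fun l' _ => Finset.sum_congr rfl fun q' _ => ?_
        rw [e2]
      rw [Finset.sum_congr rfl fun q _ => e4 q, Finset.sum_comm, Finset.mul_sum]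
      refine Finset.sum_congr rfl fun l' _ => ?_
      exact lvl_sum (fun z => ((qn K n (TT J) l l').coeff z - P (l, 1) (l', z)) ^ 2)
    rw [e3, Fintype.card_prod, Nat.cast_mul] at e1
    have e5 : (Fintype.card Q : ℝ) * ∑ l, ∑ l', ∑ q,
        ((qn K n (TT J) l l').coeff q - P (l, 1) (l', q)) ^ 2 ≤
        Fintype.card Q * (Fintype.card ρ * eta K n) := by
      calc _ ≤ _ := e1
        _ = _ := by ring
    exact le_of_mul_le_mul_left e5 hQ
  · intro τ J' hv l j q
    have e1 : ∀ x : ρ × Q → ℤ, x ᵥ* big J = 0 → x ᵥ* big J' = 0 := by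
      intro x hx
      obtain ⟨v, hvx⟩ : ∃ v : ρ → GR Q, (fun a : ρ × Q => (v a.1).coeff a.2) = x := by
        refine ⟨fun l => MonoidAlgebra.ofCoeff (Finsupp.equivFunOnFinite.symm fun q => x (l, q)), ?_⟩
        funext a
        obtain ⟨l, q⟩ := a
        rfl
      have e2 : ∀ j, ∑ l, v l * J l j = 0 := by
        intro j
        ext q
        rw [← vecMul_big_int, hvx, hx]
        rfl
      have e3 := hv v e2
      funext b
      obtain ⟨j, q⟩ := b
      rw [← hvx, vecMul_big_int, e3 j]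
      rfl
    have e2 : P (l, 1) ᵥ* (big J).map (Int.cast : ℤ → ℝ) = 0 := by
      funext b
      have e3 : (P * rl (big J)) (l, 1) b = 0 := by rw [h2]; rfl
      exact e3
    have e3 := int_to_real (big J) (big J') e1 (P (l, 1)) e2
    have e4 := congrFun e3 (j, q)
    rw [vecMul_big] at e4
    exact e4
  · have e1 : P.trace = Fintype.card Q * ∑ l, P (l, 1) (l, 1) := by
      unfold Matrix.trace
      rw [Fintype.sum_prod_type, Finset.mul_sum]
      refine Finset.sum_congr rfl fun l _ => ?_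
      have e2 : ∀ q : Q, P.diag (l, q) = P (l, 1) (l, 1) := by
        intro q
        show P (l, q) (l, q) = _
        rw [hinv, inv_mul_cancel]
      rw [Finset.sum_congr rfl fun q _ => e2 q, Finset.sum_const, nsmul_eq_mul, Finset.card_univ]
    rw [e1, Fintype.card_prod, Fintype.card_prod, Nat.cast_mul, Nat.cast_mul] at h4
    have e5 : (Fintype.card Q : ℝ) * ((Fintype.card ρ : ℝ) - Fintype.card σ) ≤
        Fintype.card Q * ∑ l, P (l, 1) (l, 1) := by
      calc _ = _ := by ring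
        _ ≤ _ := h4
    exact le_of_mul_le_mul_left e5 hQ

end PAL
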