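import Pool.Agent.PAL.Trans

/-!
# PAL/ModP (module PAL-ModP): matrices whose augmentation is injective modulo `p`

Finite level `θ : G → Q` (`Q` a finite `p`-group): the group `Q` acts by left multiplication on the finite set
of all `u : ρ → MonoidAlgebra (ZMod p) Q` with `u X = 0` (`X` the image of the matrix); if it has a nonzero
element then its number of elements is divisible by `p`, so there is a nonzero vector `u` fixed by `Q`
(`IsPGroup.exists_fixed_point_of_prime_dvd_card_of_fixed_point`); `u i = λ_i ∑_q q`, and `u X = 0` means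
`∑_i λ_i eps(X_{iν}) = 0`, so `λ = 0`.  So `u X = 0` for `u : ρ → GR Q` implies that `u` is divisible by `p`;
divide and repeat: `u = 0`.  Then `transfer` with `J' = ` the unit matrix (`ra_one`).
-/

set_option autoImplicit false

open PFC

namespace PAL

private theorem mop_coeff {Q : Type} [Group Q] (a f : GR Q) (x : Q) :
    (a * f).coeff x = lin (fun g => a.coeff (x * g⁻¹)) f := by
  let F : GR Q →+ ℤ := AddMonoidHom.mk' (fun f => (a * f).coeff x) (by
    intro f f'
    rw [mul_add]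
    rfl)
  refine add_ext F (lin fun g => a.coeff (x * g⁻¹)) ?_ f
  intro g
  rw [lin_el]
  show (a * MonoidAlgebra.single g 1).coeff x = _
  rw [MonoidAlgebra.coeff_mul_single_apply, mul_one]

private theorem mop_cast {Q : Type} [Group Q] (p : ℕ) (F : Q → ℤ) (f : GR Q) :
    ((lin F f : ℤ) : ZMod p) = lin (fun g => ((F g : ℤ) : ZMod p)) f := by
  have h := lin_comp (Int.castAddHom (ZMod p)) F f
  exact h.symm

private theorem mop_const {Q : Type} [Group Q] {p : ℕ} (c : ZMod p) (f : GR Q) :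
    lin (fun _ : Q => c) f = c * (eps Q f : ZMod p) := by
  let F : GR Q →+ ZMod p := AddMonoidHom.mk' (fun f => c * (eps Q f : ZMod p)) (by
    intro f f'
    rw [map_add, Int.cast_add, mul_add])
  refine (add_ext F (lin fun _ : Q => c) ?_ f).symm
  intro g
  rw [lin_el]
  show c * (eps Q (el g) : ZMod p) = c
  rw [eps_el, Int.cast_one, mul_one]

private def mopV {Q ρ N : Type} [Group Q] [Fintype ρ] (p : ℕ) (Y : ρ → N → GR Q) :
    Submodule (ZMod p) (ρ → Q → ZMod p) where
  carrier := {u | ∀ ν x, ∑ i, lin (fun g => u i (x * g⁻¹)) (Y i ν) = 0}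
  zero_mem' := by
    intro ν x
    exact Finset.sum_eq_zero fun i _ => lin_zero (Y i ν)
  add_mem' := by
    intro u w hu hw ν x
    have h : ∀ i, lin (fun g => (u + w) i (x * g⁻¹)) (Y i ν) =
        lin (fun g => u i (x * g⁻¹)) (Y i ν) + lin (fun g => w i (x * g⁻¹)) (Y i ν) := fun i =>
      lin_add (fun g => u i (x * g⁻¹)) (fun g => w i (x * g⁻¹)) (Y i ν)
    rw [Finset.sum_congr rfl fun i _ => h i, Finset.sum_add_distrib, hu ν x, hw ν x, add_zero]
  smul_mem' := by
    intro c u hu ν x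
    have h : ∀ i, lin (fun g => (c • u) i (x * g⁻¹)) (Y i ν) =
        c * lin (fun g => u i (x * g⁻¹)) (Y i ν) := fun i =>
      lin_comp (AddMonoidHom.mulLeft c) (fun g => u i (x * g⁻¹)) (Y i ν)
    rw [Finset.sum_congr rfl fun i _ => h i, ← Finset.mul_sum, hu ν x, mul_zero]

private theorem mop_shift {Q ρ N : Type} [Group Q] [Fintype ρ] (p : ℕ) (Y : ρ → N → GR Q)
    {u : ρ → Q → ZMod p} (hu : u ∈ mopV p Y) (q : Q) :
    (fun i x => u i (q⁻¹ * x)) ∈ mopV p Y := by
  intro ν x
  have h := hu ν (q⁻¹ * x)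
  rw [← h]
  refine Finset.sum_congr rfl fun i _ => ?_
  have h2 : (fun g => u i (q⁻¹ * (x * g⁻¹))) = fun g => u i (q⁻¹ * x * g⁻¹) := by
    funext g
    rw [mul_assoc]
  show lin (fun g => u i (q⁻¹ * (x * g⁻¹))) (Y i ν) = _
  rw [h2]

private theorem mop_zero {Q ρ N : Type} [Group Q] [Finite Q] [Fintype ρ] (p : ℕ)
    [Fact p.Prime] (hQ : IsPGroup p Q) (Y : ρ → N → GR Q)
    (hE : ∀ w : ρ → ZMod p, (∀ ν, ∑ i, w i * (eps Q (Y i ν) : ZMod p) = 0) → w = 0)
    (u : ρ → Q → ZMod p) (hu : u ∈ mopV p Y) : u = 0 := by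
  classical
  by_contra hne
  let act : MulAction Q (mopV p Y) :=
    { smul := fun q w => ⟨fun i x => w.1 i (q⁻¹ * x), mop_shift p Y w.2 q⟩
      one_smul := by
        intro w
        apply Subtype.ext
        funext i x
        show w.1 i ((1 : Q)⁻¹ * x) = w.1 i x
        rw [inv_one, one_mul]
      mul_smul := by
        intro q r w
        apply Subtype.ext
        funext i x
        show w.1 i ((q * r)⁻¹ * x) = w.1 i (r⁻¹ * (q⁻¹ * x))
        rw [mul_inv_rev, mul_assoc] }
  have hnt : Nontrivial (mopV p Y) :=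
    ⟨⟨⟨u, hu⟩, 0, fun h => hne (congrArg Subtype.val h)⟩⟩
  have hcard : p ∣ Nat.card (mopV p Y) := by
    rw [Module.natCard_eq_pow_finrank (K := ZMod p) (V := mopV p Y), Nat.card_zmod]
    exact dvd_pow_self p (Module.finrank_pos (R := ZMod p) (M := mopV p Y)).ne'
  have h0 : (0 : mopV p Y) ∈ MulAction.fixedPoints Q (mopV p Y) := by
    intro q
    apply Subtype.ext
    funext i x
    rfl
  obtain ⟨b, hb, hb0⟩ := hQ.exists_fixed_point_of_prime_dvd_card_of_fixed_point
    (mopV p Y) hcard h0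
  have hconst : ∀ i x, b.1 i x = b.1 i 1 := by
    intro i x
    have h1 := congrFun (congrFun (congrArg Subtype.val (hb x)) i) x
    have h2 : b.1 i (x⁻¹ * x) = b.1 i x := h1
    rw [inv_mul_cancel] at h2
    exact h2.symm
  have hw : (fun i => b.1 i 1) = 0 := by
    apply hE
    intro ν
    have h3 := b.2 ν 1
    rw [← h3]
    refine Finset.sum_congr rfl fun i _ => ?_
    rw [← mop_const]
    have h4 : (fun g : Q => b.1 i (1 * g⁻¹)) = fun _ => b.1 i 1 := by
      funext g
      exact hconst i _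
    rw [h4]
  apply hb0
  apply Subtype.ext
  funext i x
  rw [hconst i x]
  exact (congrFun hw i).symm

private theorem mop_desc {Q ρ N : Type} [Group Q] [Finite Q] [Fintype ρ] (p : ℕ)
    [Fact p.Prime] (hQ : IsPGroup p Q) (Y : ρ → N → GR Q)
    (hE : ∀ w : ρ → ZMod p, (∀ ν, ∑ i, w i * (eps Q (Y i ν) : ZMod p) = 0) → w = 0) (n : ℕ) :
    ∀ u : ρ → Q → ℤ, (∀ ν x, ∑ i, lin (fun g => u i (x * g⁻¹)) (Y i ν) = 0) →
      ∀ i x, (p : ℤ) ^ n ∣ u i x := by
  induction n with
  | zero =>
    intro u _ i x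
    rw [pow_zero]
    exact one_dvd _
  | succ n ih =>
    intro u hu i x
    have hp0 : (p : ℤ) ≠ 0 := by exact_mod_cast (Fact.out (p := p.Prime)).ne_zero
    have h1 : (fun i x => ((u i x : ℤ) : ZMod p)) ∈ mopV p Y := by
      intro ν x
      have h2 := hu ν x
      have h3 := congrArg (Int.cast : ℤ → ZMod p) h2
      rw [Int.cast_sum, Int.cast_zero] at h3
      rw [← h3]
      exact Finset.sum_congr rfl fun i _ => (mop_cast p _ _).symm
    have h4 := mop_zero p hQ Y hE _ h1
    have h5 : ∀ i x, (p : ℤ) ∣ u i x := by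
      intro i x
      have h6 := congrFun (congrFun h4 i) x
      exact (ZMod.intCast_zmod_eq_zero_iff_dvd _ p).1 h6
    choose u' hu' using h5
    have h7 : ∀ ν x, ∑ i, lin (fun g => u' i (x * g⁻¹)) (Y i ν) = 0 := by
      intro ν x
      have h8 := hu ν x
      have h9 : ∀ i, lin (fun g => u i (x * g⁻¹)) (Y i ν) =
          (p : ℤ) * lin (fun g => u' i (x * g⁻¹)) (Y i ν) := by
        intro i
        have h10 : (fun g => u i (x * g⁻¹)) = fun g => (p : ℤ) * u' i (x * g⁻¹) := by
          funext g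
          exact hu' i _
        rw [h10]
        exact lin_comp (AddMonoidHom.mulLeft (p : ℤ)) (fun g => u' i (x * g⁻¹)) (Y i ν)
      rw [Finset.sum_congr rfl fun i _ => h9 i, ← Finset.mul_sum] at h8
      exact (mul_eq_zero.1 h8).resolve_left hp0
    rw [hu' i x, pow_succ']
    exact mul_dvd_mul_left _ (ih u' h7 i x)

private theorem mop_all {Q ρ N : Type} [Group Q] [Finite Q] [Fintype ρ] (p : ℕ)
    [Fact p.Prime] (hQ : IsPGroup p Q) (Y : ρ → N → GR Q)
    (hE : ∀ w : ρ → ZMod p, (∀ ν, ∑ i, w i * (eps Q (Y i ν) : ZMod p) = 0) → w = 0)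
    (v : ρ → GR Q) (hv : ∀ ν, ∑ i, v i * Y i ν = 0) : v = 0 := by
  have h1 : ∀ ν x, ∑ i, lin (fun g => (v i).coeff (x * g⁻¹)) (Y i ν) = 0 := by
    intro ν x
    rw [← Finset.sum_congr rfl fun i _ => mop_coeff (v i) (Y i ν) x]
    have h2 := congrArg (fun c : GR Q => c.coeff x) (hv ν)
    have h3 : (∑ i, v i * Y i ν).coeff x = ∑ i, (v i * Y i ν).coeff x := by
      let F : GR Q →+ ℤ := AddMonoidHom.mk' (fun f => f.coeff x) (fun f f' => rfl)
      exact map_sum F _ _
    rw [← h3]
    exact h2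
  funext i
  apply MonoidAlgebra.ext
  ext x
  by_contra hne
  have h4 := mop_desc p hQ Y hE ((v i).coeff x).natAbs (fun i x => (v i).coeff x) h1 i x
  have h5 := Int.le_of_dvd (abs_pos.2 hne) ((dvd_abs _ _).2 h4)
  have h6 : ((v i).coeff x).natAbs < p ^ ((v i).coeff x).natAbs :=
    Nat.lt_pow_self (Fact.out (p := p.Prime)).one_lt
  have h7 : (((v i).coeff x).natAbs : ℤ) < (p : ℤ) ^ ((v i).coeff x).natAbs := by exact_mod_cast h6
  rw [Int.natCast_natAbs] at h7
  exact absurd h5 (not_le.2 h7)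

theorem inj_of_modp {G ρ N : Type} [Group G] [Fintype ρ] [Fintype N] (p : ℕ) [Fact p.Prime]
    (hres : ResQ p G) (X : ρ → N → GR G)
    (hE : ∀ w : ρ → ZMod p, (∀ ν, ∑ i, w i * (eps G (X i ν) : ZMod p) = 0) → w = 0)
    (v : ρ → G → ℝ) (hv : ∀ i, Sq (v i)) (h0 : ∀ ν x, ∑ i, ra (v i) (X i ν) x = 0) : v = 0 := by
  classical
  have key := transfer p hres X (fun l j : ρ => if l = j then (1 : GR G) else 0) (by
    intro Q _ _ hQ θ w hw j
    have hE' : ∀ c : ρ → ZMod p, (∀ ν, ∑ i, c i * (eps Q (mp θ (X i ν)) : ZMod p) = 0) →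
        c = 0 := by
      intro c hc
      apply hE c
      intro ν
      rw [← hc ν]
      refine Finset.sum_congr rfl fun i _ => ?_
      have h1 : eps Q (mp θ (X i ν)) = eps G (X i ν) := by
        refine add_ext (((eps Q).toAddMonoidHom).comp ((mp θ).toAddMonoidHom))
          ((eps G).toAddMonoidHom) ?_ (X i ν)
        intro g
        show eps Q (mp θ (el g)) = eps G (el g)
        rw [mp_el, eps_el, eps_el]
      rw [h1]
    have h2 := mop_all p hQ (fun i ν => mp θ (X i ν)) hE' w hw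
    rw [h2]
    exact Finset.sum_eq_zero fun l _ => zero_mul _) v hv h0
  funext j x
  have h3 := key j x
  rw [Finset.sum_eq_single j] at h3
  · rw [if_pos rfl, ra_one] at h3
    exact h3
  · intro l _ hl
    rw [if_neg hl, ra_zero_right]
  · intro h
    exact absurd (Finset.mem_univ j) h

end PAL
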