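import Pool.Agent.PAL.Trans
import Pool.Agent.PRT.ParaRes
import Pool.Agent.PDC.MN.MagA

/-!
# PAL/ResP (module PAL-ResP): parafree groups are residually finite `p`-groups

The case `p = 2` is `PRT.resP_parafree` (`PRT/ParaRes.lean`, `PRT/FreeRep.lean`, `PRT/Uni.lean`,
`PRT/Fpc.lean`); copy the proofs with `p` in place of `2`.
-/

set_option autoImplicit false

open PFC Pool.Agent.PDC.MN
open scoped commutatorElement

namespace PAL

/-- the entries of the matrices of the representation -/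
private noncomputable def ent {X : Type} (u : List X) (g : FreeGroup X) (i j : ℕ) : ℤ :=
  if i ≤ j then mc g ((u.drop i).take (j - i)) else 0

private theorem ent_one {X : Type} (u : List X) {i j : ℕ} (hj : j ≤ u.length) :
    ent u 1 i j = if i = j then 1 else 0 := by
  unfold ent
  by_cases h1 : i = j
  · subst h1
    simp [mc_one]
  · rw [if_neg h1]
    by_cases h2 : i ≤ j
    · rw [if_pos h2, mc_one]
      have h3 : ((u.drop i).take (j - i)).isEmpty = false := by
        have h4 : ((u.drop i).take (j - i)).length = j - i := by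
          rw [List.length_take, List.length_drop]
          omega
        cases hc : (u.drop i).take (j - i) with
        | nil =>
          rw [hc, List.length_nil] at h4
          omega
        | cons a l => rfl
      rw [h3]
      simp
    · rw [if_neg h2]

private theorem ent_mul {X : Type} (u : List X) (g h : FreeGroup X) {i j : ℕ} (hj : j ≤ u.length) :
    ent u (g * h) i j = ∑ l ∈ Finset.range (u.length + 1), ent u g i l * ent u h l j := by
  by_cases hij : i ≤ j
  · have h0 : ∑ l ∈ Finset.range (u.length + 1), ent u g i l * ent u h l j =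
        ∑ l ∈ Finset.Ico i (j + 1), ent u g i l * ent u h l j := by
      symm
      refine Finset.sum_subset (fun l hl => ?_) (fun l _ hl2 => ?_)
      · rw [Finset.mem_Ico] at hl
        rw [Finset.mem_range]
        omega
      · rw [Finset.mem_Ico] at hl2
        unfold ent
        by_cases h1 : i ≤ l
        · have h2 : ¬ l ≤ j := by omega
          rw [if_neg h2, mul_zero]
        · rw [if_neg h1, zero_mul]
    rw [h0, Finset.sum_Ico_eq_sum_range]
    have h1 : ent u (g * h) i j = mc (g * h) ((u.drop i).take (j - i)) := if_pos hij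
    have h4 : ((u.drop i).take (j - i)).length = j - i := by
      rw [List.length_take, List.length_drop]
      omega
    rw [h1, mc_mul, h4, show j + 1 - i = j - i + 1 by omega]
    refine Finset.sum_congr rfl fun t ht => ?_
    rw [Finset.mem_range] at ht
    unfold ent
    rw [if_pos (Nat.le_add_right _ _), if_pos (by omega : i + t ≤ j), List.take_take, List.drop_take,
      List.drop_drop, Nat.add_sub_cancel_left, min_eq_left (by omega), Nat.sub_sub]
  · have h1 : ent u (g * h) i j = 0 := if_neg hij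
    rw [h1]
    symm
    refine Finset.sum_eq_zero fun l _ => ?_
    unfold ent
    by_cases h2 : i ≤ l
    · have h3 : ¬ l ≤ j := by omega
      rw [if_neg h3, mul_zero]
    · rw [if_neg h2, zero_mul]

section SU

variable {n : ℕ} {R : Type} [CommRing R]

/-- the entries at `(a, b)` with `b < a + j` vanish -/
private def SU (j : ℕ) (A : Matrix (Fin n) (Fin n) R) : Prop :=
  ∀ a b : Fin n, (b : ℕ) < a + j → A a b = 0

private theorem SU_mul {i j : ℕ} {A B : Matrix (Fin n) (Fin n) R} (hA : SU i A) (hB : SU j B) :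
    SU (i + j) (A * B) := by
  intro a b hab
  rw [Matrix.mul_apply]
  refine Finset.sum_eq_zero fun c _ => ?_
  by_cases h1 : (c : ℕ) < a + i
  · rw [hA a c h1, zero_mul]
  · rw [hB c b (by omega), mul_zero]

private theorem SU_add {j : ℕ} {A B : Matrix (Fin n) (Fin n) R} (hA : SU j A) (hB : SU j B) :
    SU j (A + B) := by
  intro a b hab
  rw [Matrix.add_apply, hA a b hab, hB a b hab, add_zero]

private theorem SU_sub {j : ℕ} {A B : Matrix (Fin n) (Fin n) R} (hA : SU j A) (hB : SU j B) :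
    SU j (A - B) := by
  intro a b hab
  rw [Matrix.sub_apply, hA a b hab, hB a b hab, sub_zero]

private theorem SU_neg {j : ℕ} {A : Matrix (Fin n) (Fin n) R} (hA : SU j A) : SU j (-A) := by
  intro a b hab
  rw [Matrix.neg_apply, hA a b hab, neg_zero]

private theorem SU_one : SU 0 (1 : Matrix (Fin n) (Fin n) R) := by
  intro a b hab
  rw [Matrix.one_apply_ne]
  rintro rfl
  omega

private theorem SU_mono {i j : ℕ} (h : i ≤ j) {A : Matrix (Fin n) (Fin n) R} (hA : SU j A) : SU i A :=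
  fun a b hab => hA a b (by omega)

private theorem SU_pow {A : Matrix (Fin n) (Fin n) R} (hA : SU 1 A) (j : ℕ) : SU j (A ^ j) := by
  induction j with
  | zero =>
    rw [pow_zero]
    exact SU_one
  | succ j ih =>
    rw [pow_succ]
    exact SU_mul ih hA

private theorem SU_top {A : Matrix (Fin n) (Fin n) R} (hA : SU n A) : A = 0 := by
  ext a b
  exact hA a b (by omega)

end SU


/-- the representation modulo `m` -/
private noncomputable def rp {X : Type} (u : List X) (m : ℕ) :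
    FreeGroup X →* Matrix (Fin (u.length + 1)) (Fin (u.length + 1)) (ZMod m) where
  toFun g := Matrix.of fun i j => ((ent u g i j : ℤ) : ZMod m)
  map_one' := by
    ext i j
    rw [Matrix.of_apply, ent_one u (by omega), Matrix.one_apply]
    by_cases h : i = j
    · rw [if_pos h, if_pos (congrArg Fin.val h), Int.cast_one]
    · rw [if_neg h, if_neg fun h' => h (Fin.ext h'), Int.cast_zero]
  map_mul' g h := by
    ext i j
    rw [Matrix.mul_apply, Matrix.of_apply, ent_mul u g h (by omega), Int.cast_sum,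
      ← Fin.sum_univ_eq_sum_range (fun l => ((ent u g i l * ent u h l j : ℤ) : ZMod m))]
    refine Finset.sum_congr rfl fun l _ => ?_
    rw [Int.cast_mul]
    rfl

private theorem rp_zero {X : Type} (u : List X) (m : ℕ) (g : FreeGroup X) : SU 0 (rp u m g) := by
  intro a b hab
  show ((ent u g a b : ℤ) : ZMod m) = 0
  have : ent u g a b = 0 := if_neg (by omega)
  rw [this, Int.cast_zero]

private theorem rp_one {X : Type} (u : List X) (m : ℕ) (g : FreeGroup X) : SU 1 (rp u m g - 1) := by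
  intro a b hab
  show ((ent u g a b : ℤ) : ZMod m) - (1 : Matrix _ _ (ZMod m)) a b = 0
  by_cases h : a = b
  · subst h
    have : ent u g a a = 1 := by
      unfold ent
      rw [if_pos le_rfl, Nat.sub_self, List.take_zero, mc_nil]
    rw [this, Int.cast_one, Matrix.one_apply_eq, sub_self]
  · have h1 : (a : ℕ) ≠ b := fun h' => h (Fin.ext h')
    have : ent u g a b = 0 := if_neg (by omega)
    rw [this, Int.cast_zero, Matrix.one_apply_ne h, sub_zero]

/-- the subgroup of the elements congruent to `1` up to the diagonal `j` -/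
private def US {n : ℕ} {R : Type} [CommRing R] (W : Subgroup (Matrix (Fin n) (Fin n) R)ˣ)
    (hW : ∀ x ∈ W, SU 0 ((x : (Matrix (Fin n) (Fin n) R)ˣ) : Matrix (Fin n) (Fin n) R)) (j : ℕ) :
    Subgroup W where
  carrier := {x | SU j (((x : (Matrix (Fin n) (Fin n) R)ˣ) : Matrix (Fin n) (Fin n) R) - 1)}
  one_mem' := by
    show SU j _
    intro a b _
    simp
  mul_mem' := by
    intro x y hx hy
    show SU j _
    have h1 : (((x * y : W) : (Matrix (Fin n) (Fin n) R)ˣ) : Matrix (Fin n) (Fin n) R) - 1 =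
        ((((x : (Matrix (Fin n) (Fin n) R)ˣ) : Matrix (Fin n) (Fin n) R) - 1) *
          ((y : (Matrix (Fin n) (Fin n) R)ˣ) : Matrix (Fin n) (Fin n) R)) +
          (((y : (Matrix (Fin n) (Fin n) R)ˣ) : Matrix (Fin n) (Fin n) R) - 1) := by
      rw [Subgroup.coe_mul, Units.val_mul]
      noncomm_ring
    rw [h1]
    exact SU_add (SU_mul (j := 0) hx (hW _ y.2)) hy
  inv_mem' := by
    intro x hx
    show SU j _
    have h1 : (((x⁻¹ : W) : (Matrix (Fin n) (Fin n) R)ˣ) : Matrix (Fin n) (Fin n) R) - 1 =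
        -((((x : (Matrix (Fin n) (Fin n) R)ˣ) : Matrix (Fin n) (Fin n) R) - 1) *
          (((x⁻¹ : W) : (Matrix (Fin n) (Fin n) R)ˣ) : Matrix (Fin n) (Fin n) R)) := by
      rw [sub_mul, one_mul, Subgroup.coe_inv, Units.mul_inv, neg_sub]
    rw [h1]
    exact SU_neg (SU_mul (j := 0) hx (hW _ (x⁻¹).2))

private theorem gam_US {n : ℕ} {R : Type} [CommRing R] (W : Subgroup (Matrix (Fin n) (Fin n) R)ˣ)
    (hW : ∀ x ∈ W, SU 0 ((x : (Matrix (Fin n) (Fin n) R)ˣ) : Matrix (Fin n) (Fin n) R))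
    (hW1 : ∀ x ∈ W, SU 1 (((x : (Matrix (Fin n) (Fin n) R)ˣ) : Matrix (Fin n) (Fin n) R) - 1)) (j : ℕ) :
    PF.gam W j ≤ US W hW (j + 1) := by
  induction j with
  | zero => exact fun x _ => hW1 _ x.2
  | succ j ih =>
    rw [PF.gam, Subgroup.lowerCentralSeries_succ, Subgroup.commutator_le]
    intro x hx y _
    have hx' : SU (j + 1) (((x : (Matrix (Fin n) (Fin n) R)ˣ) : Matrix (Fin n) (Fin n) R) - 1) := ih hx
    have hy' := hW1 _ y.2
    show SU (j + 1 + 1) _
    have hinv : ((((y * x)⁻¹ : W) : (Matrix (Fin n) (Fin n) R)ˣ) : Matrix (Fin n) (Fin n) R) =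
        ((((y * x)⁻¹ : W) : (Matrix (Fin n) (Fin n) R)ˣ) : Matrix (Fin n) (Fin n) R) := rfl
    have h1 : ((⁅x, y⁆ : W) : (Matrix (Fin n) (Fin n) R)ˣ) =
        (x : (Matrix (Fin n) (Fin n) R)ˣ) * y * ((y : (Matrix (Fin n) (Fin n) R)ˣ) * x)⁻¹ := by
      rw [commutatorElement_def, mul_inv_rev]
      simp [mul_assoc]
    have h2 : (((⁅x, y⁆ : W) : (Matrix (Fin n) (Fin n) R)ˣ) : Matrix (Fin n) (Fin n) R) - 1 =
        ((((x : (Matrix (Fin n) (Fin n) R)ˣ) : Matrix (Fin n) (Fin n) R) - 1) *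
          (((y : (Matrix (Fin n) (Fin n) R)ˣ) : Matrix (Fin n) (Fin n) R) - 1) -
        (((y : (Matrix (Fin n) (Fin n) R)ˣ) : Matrix (Fin n) (Fin n) R) - 1) *
          (((x : (Matrix (Fin n) (Fin n) R)ˣ) : Matrix (Fin n) (Fin n) R) - 1)) *
        ((((y * x)⁻¹ : W) : (Matrix (Fin n) (Fin n) R)ˣ) : Matrix (Fin n) (Fin n) R) := by
      have h3 : ((((y * x)⁻¹ : W) : (Matrix (Fin n) (Fin n) R)ˣ) : Matrix (Fin n) (Fin n) R) =
        ((((y : (Matrix (Fin n) (Fin n) R)ˣ) * x)⁻¹ : (Matrix (Fin n) (Fin n) R)ˣ) :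
          Matrix (Fin n) (Fin n) R) := rfl
      have h4 : (((x : (Matrix (Fin n) (Fin n) R)ˣ) : Matrix (Fin n) (Fin n) R) - 1) *
          (((y : (Matrix (Fin n) (Fin n) R)ˣ) : Matrix (Fin n) (Fin n) R) - 1) -
        (((y : (Matrix (Fin n) (Fin n) R)ˣ) : Matrix (Fin n) (Fin n) R) - 1) *
          (((x : (Matrix (Fin n) (Fin n) R)ˣ) : Matrix (Fin n) (Fin n) R) - 1) =
        ((x : (Matrix (Fin n) (Fin n) R)ˣ) * (y : (Matrix (Fin n) (Fin n) R)ˣ) :
          (Matrix (Fin n) (Fin n) R)ˣ) -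
        ((y : (Matrix (Fin n) (Fin n) R)ˣ) * (x : (Matrix (Fin n) (Fin n) R)ˣ) :
          (Matrix (Fin n) (Fin n) R)ˣ) := by
        rw [Units.val_mul, Units.val_mul]
        noncomm_ring
      rw [h1, h4, h3, Units.val_mul, sub_mul, Units.mul_inv]
    rw [h2]
    have h6 := SU_mul (i := j + 1) (j := 1) hx' hy'
    have h5 := SU_mul (i := 1) (j := j + 1) hy' hx'
    rw [add_comm] at h5
    exact SU_mul (i := j + 1 + 1) (j := 0) (SU_sub h6 h5) (hW _ ((y * x)⁻¹ : W).2)

private theorem resP_bin {C : Type} [CommRing C] (a : C) (n : ℕ) :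
    ∃ c : C, (1 + a) ^ n = 1 + n * a + a ^ 2 * c := by
  induction n with
  | zero => exact ⟨0, by simp⟩
  | succ n ih =>
    obtain ⟨c, hc⟩ := ih
    refine ⟨n + c + a * c, ?_⟩
    rw [pow_succ, hc]
    push_cast
    ring

private theorem resP_two {C : Type} [CommRing C] (p : ℕ) (r : C) (j : ℕ) :
    ∃ r' : C, (1 + p * r) ^ (p ^ j) = 1 + p ^ (j + 1) * r' := by
  induction j with
  | zero => exact ⟨r, by simp⟩
  | succ j ih =>
    obtain ⟨r', hr⟩ := ih
    obtain ⟨c, hc⟩ := resP_bin ((p : C) ^ (j + 1) * r') p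
    refine ⟨r' + p ^ j * r' ^ 2 * c, ?_⟩
    rw [pow_succ, pow_mul, hr, hc]
    ring

private theorem resP_unip (p : ℕ) (hp : p.Prime) (R : Type) [Ring R] (s : ℕ)
    (hs : (p : R) ^ s = 0) (N : R) (hN : IsNilpotent N) : ∃ m : ℕ, (1 + N) ^ (p ^ m) = 1 := by
  obtain ⟨k, hk⟩ := hN
  obtain ⟨r, hr⟩ : ∃ r : Polynomial ℤ, (1 + Polynomial.X) ^ p ^ k =
      1 ^ p ^ k + Polynomial.X ^ p ^ k + (p : Polynomial ℤ) * r := by
    obtain ⟨r0, hr0⟩ := exists_add_pow_prime_pow_eq hp (1 : Polynomial ℤ) Polynomial.X k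
    exact ⟨1 * Polynomial.X * r0, by rw [hr0]; ring⟩
  obtain ⟨r', hr'⟩ := resP_two p r s
  have h1 := congrArg (Polynomial.aeval N) hr
  have h2 := congrArg (Polynomial.aeval N) hr'
  simp only [map_pow, map_add, map_mul, map_one, map_natCast, Polynomial.aeval_X, one_pow] at h1 h2
  have h3 : N ^ (p ^ k) = 0 := pow_eq_zero_of_le (Nat.lt_pow_self hp.one_lt).le hk
  have h4 : (p : R) ^ (s + 1) = 0 := pow_eq_zero_of_le (Nat.le_succ s) hs
  rw [h3, add_zero] at h1
  rw [h4, zero_mul, add_zero] at h2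
  refine ⟨k + s, ?_⟩
  rw [pow_add, pow_mul, h1, h2]

private theorem resP_free (p : ℕ) [hp : Fact p.Prime] (X : Type) (w : FreeGroup X) (u : List X) (hu : mc w u ≠ 0) (hne : u ≠ []) :
    ∃ (W : Type) (_ : Group W) (f : FreeGroup X →* W), (Finite W ∧ IsPGroup p W) ∧ f w ≠ 1 ∧
      PF.gam W u.length = ⊥ := by
  obtain ⟨s, hs⟩ : ∃ s : ℕ, ¬ ((p ^ s : ℕ) : ℤ) ∣ mc w u := by
    refine ⟨(mc w u).natAbs, fun h => ?_⟩
    have h1 := Int.natAbs_dvd_natAbs.2 h
    rw [Int.natAbs_natCast] at h1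
    have h2 := Nat.le_of_dvd (Int.natAbs_pos.2 hu) h1
    have h3 := Nat.lt_pow_self (n := (mc w u).natAbs) hp.out.one_lt
    omega
  have hpos : 0 < p ^ s := pow_pos hp.out.pos s
  have : NeZero (p ^ s) := ⟨hpos.ne'⟩
  let φ := rp u (p ^ s)
  let F : FreeGroup X →* (Matrix (Fin (u.length + 1)) (Fin (u.length + 1)) (ZMod (p ^ s)))ˣ := φ.toHomUnits
  have hF : ∀ g, ((F g : (Matrix (Fin (u.length + 1)) (Fin (u.length + 1)) (ZMod (p ^ s)))ˣ) :
    Matrix (Fin (u.length + 1)) (Fin (u.length + 1)) (ZMod (p ^ s))) = φ g := fun g => rfl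
  have hW : ∀ x ∈ F.range, SU 0 ((x : (Matrix (Fin (u.length + 1)) (Fin (u.length + 1)) (ZMod (p ^ s)))ˣ) :
      Matrix (Fin (u.length + 1)) (Fin (u.length + 1)) (ZMod (p ^ s))) := by
    rintro _ ⟨g, rfl⟩
    exact rp_zero u (p ^ s) g
  have hW1 : ∀ x ∈ F.range, SU 1 (((x : (Matrix (Fin (u.length + 1)) (Fin (u.length + 1)) (ZMod (p ^ s)))ˣ) :
      Matrix (Fin (u.length + 1)) (Fin (u.length + 1)) (ZMod (p ^ s))) - 1) := by
    rintro _ ⟨g, rfl⟩
    exact rp_one u (p ^ s) g
  refine ⟨F.range, inferInstance, F.rangeRestrict, ⟨?_, ?_⟩, ?_, ?_⟩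
  · have : Finite (Matrix (Fin (u.length + 1)) (Fin (u.length + 1)) (ZMod (p ^ s)))ˣ := inferInstance
    infer_instance
  · rintro ⟨x, hx⟩
    have h1 := hW1 x hx
    have hn : IsNilpotent ((x : (Matrix (Fin (u.length + 1)) (Fin (u.length + 1)) (ZMod (p ^ s)))ˣ) - 1 :
        Matrix (Fin (u.length + 1)) (Fin (u.length + 1)) (ZMod (p ^ s))) :=
      ⟨u.length + 1, SU_top (SU_pow h1 _)⟩
    have h2 : (p : Matrix (Fin (u.length + 1)) (Fin (u.length + 1)) (ZMod (p ^ s))) ^ s = 0 := by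
      have h3 : ((p ^ s : ℕ) : Matrix (Fin (u.length + 1)) (Fin (u.length + 1)) (ZMod (p ^ s))) = 0 :=
        CharP.cast_eq_zero _ _
      rw [Nat.cast_pow] at h3
      exact_mod_cast h3
    obtain ⟨m, hm⟩ := resP_unip p hp.out _ s h2 _ hn
    refine ⟨m, ?_⟩
    rw [add_sub_cancel] at hm
    refine Subtype.ext (Units.ext ?_)
    rw [SubmonoidClass.mk_pow, Units.val_pow_eq_pow_val]
    exact hm
  · intro h
    have h1 : F w = 1 := congrArg Subtype.val h
    have h2 : φ w = 1 := congrArg Units.val h1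
    have h3 := congrFun (congrFun h2 0) (Fin.last u.length)
    have h4 : (φ w) 0 (Fin.last u.length) = ((ent u w 0 u.length : ℤ) : ZMod (p ^ s)) := rfl
    have h5 : ent u w 0 u.length = mc w u := by
      unfold ent
      rw [if_pos (Nat.zero_le _), List.drop_zero, Nat.sub_zero, List.take_length]
    have h6 : 0 < u.length := List.length_pos_iff.2 hne
    rw [h4, h5, Matrix.one_apply_ne (fun h => by
      have := congrArg Fin.val h
      simp at this
      omega), ZMod.intCast_zmod_eq_zero_iff_dvd] at h3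
    exact hs h3
  · rw [eq_bot_iff]
    intro x hx
    have h1 : SU (u.length + 1) _ := gam_US F.range hW hW1 u.length hx
    have h2 := SU_top h1
    rw [Subgroup.mem_bot]
    exact Subtype.ext (Units.ext (sub_eq_zero.1 h2))

private theorem resP_map {G H : Type} [Group G] [Group H] (f : G →* H) (n : ℕ) {g : G}
    (hg : g ∈ PF.gam G n) : f g ∈ PF.gam H n := by
  have h1 : ((⊤ : Subgroup G).lowerCentralSeries n).map f ≤
      (⊤ : Subgroup H).lowerCentralSeries n := by
    rw [Subgroup.map_lowerCentralSeries]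
    exact Subgroup.lowerCentralSeries_mono n le_top
  exact h1 ⟨g, hg, rfl⟩

private theorem resP_quot (G : Type) [Group G] (c : ℕ) :
    Group.IsNilpotent (G ⧸ PF.gam G c) := by
  rw [Subgroup.nilpotent_iff_lowerCentralSeries]
  refine ⟨c, ?_⟩
  have h1 : ((⊤ : Subgroup G).lowerCentralSeries c).map (QuotientGroup.mk' (PF.gam G c)) =
      (⊤ : Subgroup (G ⧸ PF.gam G c)).lowerCentralSeries c := by
    rw [Subgroup.map_lowerCentralSeries]
    congr 1
    exact Subgroup.map_top_of_surjective _ (QuotientGroup.mk'_surjective _)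
  rw [← h1, eq_bot_iff]
  rintro _ ⟨y, hy, rfl⟩
  exact (QuotientGroup.eq_one_iff y).2 hy

theorem resQ_parafree (G : Type) [Group G] (hres : (⨅ n : ℕ, PF.gam G n) = ⊥) {r : ℕ}
    (x : Fin r → G) (hx : PRT.Para x) (p : ℕ) [Fact p.Prime] : ResQ p G := by
  intro g hg
  obtain ⟨c, hc⟩ : ∃ c, g ∉ PF.gam G c := by
    by_contra h
    push Not at h
    apply hg
    have h1 : g ∈ (⨅ n : ℕ, PF.gam G n) := Subgroup.mem_iInf.2 h
    rw [hres] at h1
    exact h1
  have hV : Group.IsNilpotent (G ⧸ PF.gam G c) := resP_quot G c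
  let q : FreeGroup (Fin r) →* G ⧸ PF.gam G c := FreeGroup.lift (fun i => (x i : G ⧸ PF.gam G c))
  have hS : ∀ y : G, ∃ w, q w = (y : G ⧸ PF.gam G c) := by
    obtain ⟨h, hh, -⟩ := hx q.range (Subgroup.isNilpotent _)
      (fun i => ⟨(x i : G ⧸ PF.gam G c), ⟨FreeGroup.of i, FreeGroup.lift_apply_of⟩⟩)
    obtain ⟨h', hh', hu⟩ := hx (G ⧸ PF.gam G c) hV (fun i => (x i : G ⧸ PF.gam G c))
    have h1 : (q.range.subtype).comp h = h' := by
      apply hu
      intro i
      rw [MonoidHom.comp_apply, hh i]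
      rfl
    have h2 : QuotientGroup.mk' (PF.gam G c) = h' := by
      apply hu
      intro i
      rfl
    intro y
    obtain ⟨w, hw⟩ := (h y).2
    refine ⟨w, ?_⟩
    rw [hw]
    have h3 : ((q.range.subtype).comp h) y = QuotientGroup.mk' (PF.gam G c) y := by rw [h1, h2]
    exact h3
  obtain ⟨w, hw⟩ := hS g
  have hqx : ∀ v, q v = ((FreeGroup.lift x v : G) : G ⧸ PF.gam G c) := by
    intro v
    have h1 : q = (QuotientGroup.mk' (PF.gam G c)).comp (FreeGroup.lift x) := by
      ext i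
      simp [q]
    rw [h1]
    rfl
  have hgw : g⁻¹ * FreeGroup.lift x w ∈ PF.gam G c := by
    rw [hqx] at hw
    exact QuotientGroup.eq.1 hw.symm
  have hwc : w ∉ PF.gam (FreeGroup (Fin r)) c := by
    intro h
    apply hc
    have h1 : FreeGroup.lift x w ∈ PF.gam G c := resP_map (FreeGroup.lift x) c h
    have h2 : g = FreeGroup.lift x w * (g⁻¹ * FreeGroup.lift x w)⁻¹ := by group
    rw [h2]
    exact Subgroup.mul_mem _ h1 (Subgroup.inv_mem _ hgw)
  have hmu : ¬ PFC.MuDeep (c + 1) w := fun h => hwc (PFC.magnus_witt (Fin r) c w h)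
  unfold PFC.MuDeep at hmu
  push Not at hmu
  obtain ⟨i, hi0, hic, hmui⟩ := hmu
  obtain ⟨u, hui, hu⟩ := PRT.mc_of_mu (Fin r) w i hmui
  obtain ⟨W, _, θ, hW, hθ, hgam⟩ := resP_free p (Fin r) w u hu (by
    rintro rfl
    rw [List.length_nil] at hui
    omega)
  obtain ⟨h, hh, -⟩ := hx W (have := hW.1; IsPGroup.isNilpotent hW.2) (fun i => θ (FreeGroup.of i))
  refine ⟨W, _, h, hW.1, hW.2, ?_⟩
  have h1 : h.comp (FreeGroup.lift x) = θ := by
    ext i
    simp [hh]
  have h2 : h (g⁻¹ * FreeGroup.lift x w) = 1 := by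
    have h3 : h (g⁻¹ * FreeGroup.lift x w) ∈ PF.gam W c := resP_map h c hgw
    have h4 : PF.gam W c ≤ PF.gam W u.length :=
      Subgroup.lowerCentralSeries_antitone _ (by omega)
    have h5 := h4 h3
    rw [hgam] at h5
    exact h5
  rw [map_mul, map_inv] at h2
  have h3 : h g = h (FreeGroup.lift x w) := inv_mul_eq_one.1 h2
  rw [h3]
  have h4 : h (FreeGroup.lift x w) = θ w := by rw [← h1]; rfl
  rw [h4]
  exact hθ

end PAL
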