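import Pool.Agent.PAL.Step
import Pool.Agent.PAL.Rank
import Pool.Agent.PAL.Det
import Pool.Agent.PAL.Cd
import Pool.Agent.PAL.Htwo
import Pool.Agent.PAL.ResP
import Pool.Agent.PAL.ModP
import Pool.Agent.PAL.FoxP
import Pool.Agent.PAL.HomC
import Pool.Agent.PRT.ParaEx
import Pool.Agent.PF.CohZero

/-!
# PAL/Main: the main theorem
-/

set_option autoImplicit false

open PFC CategoryTheory

namespace PAL

/-- `B` has a finite presentation with `N` generators and `m` relators, and `Hom(B, Z/p)` has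
`p ^ (N - m)` elements, for some prime `p` -/
def DefRank (B : Type) [Group B] : Prop :=
  ∃ (p N m : ℕ) (R : Fin m → FreeGroup (Fin N)), p.Prime ∧
    Nonempty (PresentedGroup (Set.range R) ≃* B) ∧
    Nat.card (B →* Multiplicative (ZMod p)) * p ^ m = p ^ N

/-- homologically injective finitely generated free subgroups -/
def HomInj {G : Type} [Group G] (A : Subgroup G) : Prop :=
  IsFreeGroup A ∧ A.FG ∧ Function.Injective (Abelianization.map A.subtype)

/-- iterated amalgams -/
inductive Built {G : Type} [Group G] : Subgroup G → Prop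
  | base (B : Subgroup G) (hB : DefRank B) : Built B
  | step (H B A : Subgroup G) (hB : Built B) (hA : HomInj A) (hH : IsAmalgam H B A) : Built H

theorem res_all (G : Type) [Group G] [Group.FG G] (hG : PF.IsParafree G) :
    ∃ (r : ℕ) (x : Fin r → G), PRT.Para x ∧ ∀ p : ℕ, p.Prime → ResQ p G := by
  obtain ⟨r, x, hx⟩ := PRT.exists_para G hG
  refine ⟨r, x, hx, fun p hp => ?_⟩
  have : Fact p.Prime := ⟨hp⟩
  exact resQ_parafree G hG.1 x hx p

theorem base_pres {G : Type} [Group G] (hres : ∀ p : ℕ, p.Prime → ResQ p G) (B : Subgroup G)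
    (hB : DefRank B) :
    ∃ (ρ N : Type) (_ : Fintype ρ) (_ : Fintype N) (z : N → G) (X : ρ → N → GR G),
      Pres B z X := by
  obtain ⟨p, N, m, R, hp, ⟨φ⟩, hc⟩ := hB
  have : Fact p.Prime := ⟨hp⟩
  obtain ⟨z, X, h1, h2, h3, h4⟩ := fox_pres B N m R φ
  refine ⟨Fin m, Fin N, inferInstance, inferInstance, z, X, h1, h2, h3, h4, ?_⟩
  refine inj_of_modp p (hres p hp) X ?_
  refine modp_of_card p B z X h1 h2 h3 h4 ?_
  rw [Fintype.card_fin, Fintype.card_fin]
  exact hc

theorem built_pres {G : Type} [Group G] {r : ℕ} (x : Fin r → G) (hx : PRT.Para x)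
    (hres : ∀ p : ℕ, p.Prime → ResQ p G) (H : Subgroup G) (hH : Built H) :
    ∃ (ρ N : Type) (_ : Fintype ρ) (_ : Fintype N) (z : N → G) (X : ρ → N → GR G),
      Pres H z X := by
  induction hH with
  | base B hB => exact base_pres hres B hB
  | step H B A _ hA hH ih =>
    obtain ⟨ρ, N, _, _, z, X, hP⟩ := ih
    exact (step x hx hres H B A z X hP hA.1 hA.2.1 hA.2.2 hH).2

/-- homologically injective finitely generated free subgroups of parafree groups are inert -/
theorem main_inert (G : Type) [Group G] [Group.FG G] (hG : PF.IsParafree G) (A : Subgroup G)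
    (hA : HomInj A) (n : ℕ) (b : Fin n → G) :
    ∃ t : ℕ, t ≤ n ∧
      Nonempty (FreeGroup (Fin t) ≃* (Subgroup.closure (Set.range b) ⊓ A : Subgroup G)) := by
  obtain ⟨r, x, hx, hres⟩ := res_all G hG
  obtain ⟨s, t, a, c, JB, JA, -, -, h3, h4, -, -, -, -, h9, -⟩ := inert x hx hres
    (Subgroup.closure (Set.range b)) A b rfl (fun (_ : Fin 0) (_ : Fin n) => (0 : GR G))
    (fun i => i.elim0) (fun i => i.elim0) (fun v _ _ => funext fun i => i.elim0) hA.1 hA.2.1
    hA.2.2
  refine ⟨t, by simpa using h9, ?_⟩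
  have h5 : (FreeGroup.lift c).range = Subgroup.closure (Set.range b) ⊓ A := by
    rw [← h3, FreeGroup.range_lift_eq_closure]
  rw [← h5]
  exact ⟨MonoidHom.ofInjective h4⟩

theorem main_built (G : Type) [Group G] [Group.FG G] (hG : PF.IsParafree G)
    (h : Built (⊤ : Subgroup G)) :
    PdLT G (Tr G) 3 ∧ Limits.IsZero (groupHomology (Rep.trivial ℤ G ℤ) 2) := by
  classical
  obtain ⟨r, x, hx, hres⟩ := res_all G hG
  obtain ⟨ρ, N, _, _, z, X, hP⟩ := built_pres x hx hres ⊤ h
  refine ⟨cd_two z X hP, ?_⟩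
  have : Fact (Nat.Prime 2) := ⟨Nat.prime_two⟩
  obtain ⟨ι, h1, h2, h3⟩ := rank_le x hx 2 (hres 2 Nat.prime_two) z X hP
  obtain ⟨e, he, hd⟩ := det_ne 2 z X hP ι h1 h2 h3
  exact PF.isZero_H2 G fun f hf => coc_cob z X hP e he hd f hf

end PAL
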