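import Mathlib

/-!
# PAL/SpecB (module PAL-SpecB): the real estimate

`qf K n t = (1/n) ∑_{k<n} (1 - t/K)^k`, so `0 ≤ qf K n t ≤ min(1, K/(n t))` for `0 < t ≤ K`.  If the
product of the `lam i ∈ (0, K]` is at least `1` then at most `|s| log K / log(1/ε)` of them are less
than `ε`; take `ε = n^(-1/2)`.
-/

set_option autoImplicit false

open Filter

namespace PAL

/-- `(1/n) ∑_{k<n} (1 - t/K)^k` -/
noncomputable def qf (K : ℝ) (n : ℕ) (t : ℝ) : ℝ :=
  (n : ℝ)⁻¹ * ∑ k ∈ Finset.range n, (1 - t / K) ^ k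

/-- the error term -/
noncomputable def eta (K : ℝ) (n : ℕ) : ℝ := 2 * Real.log K / Real.log n + K ^ 2 / n

theorem qf_zero (K : ℝ) (n : ℕ) (hn : 1 ≤ n) : qf K n 0 = 1 := by
  have hn' : (n : ℝ) ≠ 0 := by
    have : n ≠ 0 := by omega
    exact_mod_cast this
  simp [qf, hn']

theorem eta_tendsto (K : ℝ) : Tendsto (eta K) atTop (nhds 0) := by
  have h1 : Tendsto (fun n : ℕ => 2 * Real.log K / Real.log n) atTop (nhds 0) :=
    Tendsto.div_atTop tendsto_const_nhds
      (Real.tendsto_log_atTop.comp tendsto_natCast_atTop_atTop)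
  have h2 : Tendsto (fun n : ℕ => K ^ 2 / (n : ℝ)) atTop (nhds 0) :=
    tendsto_const_div_atTop_nhds_zero_nat _
  have h3 := h1.add h2
  rw [add_zero] at h3
  exact h3

private theorem specB_nonneg {K : ℝ} (hK : 0 < K) (n : ℕ) {t : ℝ} (h : t ≤ K) : 0 ≤ qf K n t := by
  have h1 : 0 ≤ 1 - t / K := by
    rw [sub_nonneg, div_le_one hK]
    exact h
  exact mul_nonneg (by positivity) (Finset.sum_nonneg fun k _ => pow_nonneg h1 k)

private theorem specB_le_one {K : ℝ} (hK : 0 < K) (n : ℕ) {t : ℝ} (h0 : 0 ≤ t) (h : t ≤ K)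
    (hn : 1 ≤ n) : qf K n t ≤ 1 := by
  have h1 : 0 ≤ 1 - t / K := by
    rw [sub_nonneg, div_le_one hK]
    exact h
  have h2 : 1 - t / K ≤ 1 := by
    have : 0 ≤ t / K := by positivity
    linarith
  have hn' : (0 : ℝ) < n := by exact_mod_cast hn
  have h3 : ∑ k ∈ Finset.range n, (1 - t / K) ^ k ≤ n := by
    calc ∑ k ∈ Finset.range n, (1 - t / K) ^ k ≤ ∑ k ∈ Finset.range n, (1 : ℝ) :=
          Finset.sum_le_sum fun k _ => pow_le_one₀ h1 h2
      _ = n := by simp
  unfold qf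
  rw [inv_mul_le_iff₀ hn', mul_one]
  exact h3

private theorem specB_le_div {K : ℝ} (hK : 0 < K) (n : ℕ) {t : ℝ} (h0 : 0 < t) (h : t ≤ K)
    (hn : 1 ≤ n) : qf K n t ≤ K / (n * t) := by
  have h1 : 0 ≤ 1 - t / K := by
    rw [sub_nonneg, div_le_one hK]
    exact h
  have hn' : (0 : ℝ) < n := by exact_mod_cast hn
  have h3 : (∑ k ∈ Finset.range n, (1 - t / K) ^ k) * (t / K) ≤ 1 := by
    have h4 := geom_sum_mul_neg (1 - t / K) n
    have h5 : 1 - (1 - t / K) = t / K := by ring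
    rw [h5] at h4
    rw [h4]
    have := pow_nonneg h1 n
    linarith
  unfold qf
  rw [inv_mul_le_iff₀ hn']
  have h6 : (n : ℝ) * (K / (n * t)) = K / t := by
    field_simp
  rw [h6, le_div_iff₀ h0]
  have h7 : (∑ k ∈ Finset.range n, (1 - t / K) ^ k) * (t / K) * K ≤ 1 * K :=
    mul_le_mul_of_nonneg_right h3 hK.le
  have h8 : (∑ k ∈ Finset.range n, (1 - t / K) ^ k) * (t / K) * K =
      (∑ k ∈ Finset.range n, (1 - t / K) ^ k) * t := by
    field_simp
  rw [h8, one_mul] at h7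
  exact h7

theorem qf_sum {ι : Type} (s : Finset ι) (lam : ι → ℝ) (K : ℝ) (hK : 2 ≤ K)
    (h1 : ∀ i ∈ s, 0 < lam i ∧ lam i ≤ K) (h2 : 1 ≤ ∏ i ∈ s, lam i) (n : ℕ) (hn : 2 ≤ n) :
    ∑ i ∈ s, qf K n (lam i) ^ 2 ≤ s.card * eta K n := by
  classical
  have hK0 : 0 < K := by linarith
  have hn0 : (0 : ℝ) < n := by
    have : 0 < n := by omega
    exact_mod_cast this
  have hn1 : (1 : ℝ) < n := by
    have : 1 < n := by omega
    exact_mod_cast this
  have hlog : 0 < Real.log n := Real.log_pos hn1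
  set e : ℝ := (Real.sqrt n)⁻¹ with he
  have hsq : 0 < Real.sqrt n := Real.sqrt_pos.2 hn0
  have he0 : 0 < e := inv_pos.2 hsq
  set A : Finset ι := s.filter fun i => lam i < e with hA
  have hcard : (A.card : ℝ) ≤ s.card * (2 * Real.log K / Real.log n) := by
    have h3 : 0 ≤ ∑ i ∈ s, Real.log (lam i) := by
      rw [← Real.log_prod fun i hi => (h1 i hi).1.ne']
      exact Real.log_nonneg h2
    have h4 : ∑ i ∈ s, Real.log (lam i) ≤
        ∑ i ∈ s, (Real.log K + (if lam i < e then Real.log e else 0)) := by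
      refine Finset.sum_le_sum fun i hi => ?_
      obtain ⟨h5, h6⟩ := h1 i hi
      have hKlog : 0 ≤ Real.log K := Real.log_nonneg (by linarith)
      by_cases h7 : lam i < e
      · rw [if_pos h7]
        have := Real.log_le_log h5 h7.le
        linarith
      · rw [if_neg h7, add_zero]
        exact Real.log_le_log h5 h6
    rw [Finset.sum_add_distrib, Finset.sum_const, ← Finset.sum_filter, Finset.sum_const,
      nsmul_eq_mul, nsmul_eq_mul] at h4
    have h8 : Real.log e = -(Real.log n / 2) := by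
      rw [he, Real.log_inv, Real.log_sqrt hn0.le]
    rw [h8] at h4
    have h9 : (A.card : ℝ) * Real.log n ≤ s.card * (2 * Real.log K) := by
      have : 0 ≤ (s.card : ℝ) * Real.log K + (A.card : ℝ) * -(Real.log n / 2) := h3.trans h4
      linarith
    rw [← mul_div_assoc, le_div_iff₀ hlog]
    exact h9
  have h10 : ∑ i ∈ s, qf K n (lam i) ^ 2 ≤
      ∑ i ∈ s, ((if lam i < e then (1 : ℝ) else 0) + K ^ 2 / n) := by
    refine Finset.sum_le_sum fun i hi => ?_
    obtain ⟨h5, h6⟩ := h1 i hi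
    have hq0 := specB_nonneg hK0 n h6
    by_cases h7 : lam i < e
    · rw [if_pos h7]
      have hq1 := specB_le_one hK0 n h5.le h6 (by omega)
      have h11 : qf K n (lam i) ^ 2 ≤ 1 := pow_le_one₀ hq0 hq1
      have h12 : 0 ≤ K ^ 2 / (n : ℝ) := by positivity
      linarith
    · rw [if_neg h7, zero_add]
      have h13 := specB_le_div hK0 n h5 h6 (by omega)
      have h14 : K / (n * lam i) ≤ K / Real.sqrt n := by
        refine div_le_div_of_nonneg_left hK0.le hsq ?_
        have h15 : (n : ℝ) * e ≤ n * lam i := mul_le_mul_of_nonneg_left (not_lt.1 h7) hn0.le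
        have h16 : (n : ℝ) * e = Real.sqrt n := by
          rw [he, ← div_eq_mul_inv, Real.div_sqrt]
        rw [h16] at h15
        exact h15
      calc qf K n (lam i) ^ 2 ≤ (K / Real.sqrt n) ^ 2 := pow_le_pow_left₀ hq0 (h13.trans h14) 2
        _ = K ^ 2 / n := by rw [div_pow, Real.sq_sqrt hn0.le]
  rw [Finset.sum_add_distrib, Finset.sum_const, ← Finset.sum_filter, Finset.sum_const,
    nsmul_eq_mul, nsmul_eq_mul, mul_one] at h10
  calc ∑ i ∈ s, qf K n (lam i) ^ 2 ≤ (A.card : ℝ) + s.card * (K ^ 2 / n) := h10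
    _ ≤ s.card * (2 * Real.log K / Real.log n) + s.card * (K ^ 2 / n) := by linarith
    _ = s.card * eta K n := by unfold eta; ring

end PAL
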