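import Pool.Agent.PAL.SpecA
import Pool.Agent.PAL.SpecB

/-!
# PAL/SpecC (module PAL-SpecC): the projection onto the left kernel of an integer matrix

`T = A Aᵀ` is symmetric and positive semidefinite with eigenvalues in `[0, K]`.  The spectral theorem
`T = U diag(λ) Uᵀ` gives the algebra homomorphism `f ↦ U diag(f) Uᵀ`; `P` is the image of the
indicator of `λ = 0`, and the sum of the squares of the entries of `qn K n T - P` is
`∑_{λ_i ≠ 0} (qf K n λ_i)^2`.  The trace of `P` is the number of zero eigenvalues.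
-/

set_option autoImplicit false

open Matrix

namespace PAL

/-- `(1/n) ∑_{k<n} (1 - t/K)^k` in a real algebra -/
noncomputable def qn (K : ℝ) (n : ℕ) {R : Type} [Ring R] [Algebra ℝ R] (t : R) : R :=
  (n : ℝ)⁻¹ • ∑ k ∈ Finset.range n, (1 - K⁻¹ • t) ^ k

/-- an integer matrix as a real matrix -/
noncomputable abbrev rl {N N' : Type} (A : Matrix N N' ℤ) : Matrix N N' ℝ :=
  A.map (Int.cast : ℤ → ℝ)

private noncomputable def SpecC_D {N : Type} [Fintype N] [DecidableEq N] (U : Matrix N N ℝ)
    (h1 : Uᵀ * U = 1) (h2 : U * Uᵀ = 1) : (N → ℝ) →ₐ[ℝ] Matrix N N ℝ where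
  toFun f := U * diagonal f * Uᵀ
  map_one' := by
    change U * diagonal (fun _ => 1) * Uᵀ = 1
    rw [diagonal_one, Matrix.mul_one, h2]
  map_mul' f g := by
    change U * diagonal (fun i => f i * g i) * Uᵀ = _
    rw [← diagonal_mul_diagonal]
    have h3 : U * diagonal f * Uᵀ * (U * diagonal g * Uᵀ) =
        U * diagonal f * (Uᵀ * U) * diagonal g * Uᵀ := by
      simp only [Matrix.mul_assoc]
    rw [h3, h1]
    simp only [Matrix.mul_assoc, Matrix.one_mul]
  map_zero' := by
    change U * diagonal (fun _ => 0) * Uᵀ = 0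
    rw [diagonal_zero, Matrix.mul_zero, Matrix.zero_mul]
  map_add' f g := by
    change U * diagonal (fun i => f i + g i) * Uᵀ = _
    rw [← diagonal_add, Matrix.mul_add, Matrix.add_mul]
  commutes' r := by
    change U * diagonal (fun _ => r) * Uᵀ = _
    rw [← smul_one_eq_diagonal, Matrix.mul_smul, Matrix.mul_one, Matrix.smul_mul, h2,
      Algebra.algebraMap_eq_smul_one]

private theorem SpecC_hom {N : Type} [Fintype N] [DecidableEq N] {S : Matrix N N ℝ}
    (hS : S.IsHermitian) : ∃ D : (N → ℝ) →ₐ[ℝ] Matrix N N ℝ, D hS.eigenvalues = S ∧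
      (∀ f, (D f)ᵀ = D f) ∧ ∀ f, (D f).trace = ∑ i, f i := by
  obtain ⟨U, hU⟩ : ∃ U : Matrix N N ℝ, U = (hS.eigenvectorUnitary : Matrix N N ℝ) := ⟨_, rfl⟩
  have h1 : Uᵀ * U = 1 := by
    have h := Unitary.coe_star_mul_self hS.eigenvectorUnitary
    rw [← hU, star_eq_conjTranspose, conjTranspose_eq_transpose_of_trivial] at h
    exact h
  have h2 : U * Uᵀ = 1 := mul_eq_one_comm.1 h1
  refine ⟨SpecC_D U h1 h2, ?_, fun f => ?_, fun f => ?_⟩
  · change U * diagonal hS.eigenvalues * Uᵀ = S
    have h := hS.spectral_theorem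
    rw [Unitary.conjStarAlgAut_apply, ← hU, star_eq_conjTranspose,
      conjTranspose_eq_transpose_of_trivial] at h
    exact h.symm
  · change (U * diagonal f * Uᵀ)ᵀ = U * diagonal f * Uᵀ
    rw [transpose_mul, transpose_mul, transpose_transpose, diagonal_transpose, Matrix.mul_assoc]
  · change (U * diagonal f * Uᵀ).trace = ∑ i, f i
    rw [Matrix.trace_mul_comm, ← Matrix.mul_assoc, h1, Matrix.one_mul, trace_diagonal]

private theorem SpecC_tr {N N' : Type} [Fintype N] [Fintype N'] (M : Matrix N N' ℝ) :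
    (M * Mᵀ).trace = ∑ i, ∑ j, M i j ^ 2 := by
  simp only [Matrix.trace, Matrix.diag_apply, Matrix.mul_apply, Matrix.transpose_apply, sq]

private theorem SpecC_qn {N : Type} [Fintype N] [DecidableEq N] (D : (N → ℝ) →ₐ[ℝ] Matrix N N ℝ)
    (K : ℝ) (n : ℕ) (f : N → ℝ) : qn K n (D f) = D fun i => qf K n (f i) := by
  unfold qn
  have h1 : (fun i => qf K n (f i)) = (n : ℝ)⁻¹ • ∑ k ∈ Finset.range n, (1 - K⁻¹ • f) ^ k := by
    funext i
    simp only [qf, Pi.smul_apply, Finset.sum_apply, Pi.pow_apply, Pi.sub_apply, Pi.one_apply,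
      smul_eq_mul]
    congr 1
    refine Finset.sum_congr rfl fun k _ => ?_
    rw [div_eq_inv_mul]
  rw [h1, map_smul, map_sum]
  congr 1
  refine Finset.sum_congr rfl fun k _ => ?_
  rw [map_pow, map_sub, map_one, map_smul]

private theorem SpecC_eta {K : ℝ} (hK : 2 ≤ K) {n : ℕ} : 0 ≤ eta K n := by
  unfold eta
  have h1 : 0 ≤ Real.log K := Real.log_nonneg (by linarith)
  have h2 : 0 ≤ Real.log n := Real.log_natCast_nonneg n
  positivity

theorem spec {N N' : Type} [Fintype N] [DecidableEq N] [Fintype N'] (A : Matrix N N' ℤ) (K : ℝ)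
    (hK : 2 ≤ K) (hA : ∀ x : N → ℝ, ∑ j, (x ᵥ* rl A) j ^ 2 ≤ K * ∑ i, x i ^ 2) :
    ∃ P : Matrix N N ℝ, Pᵀ = P ∧ P * rl A = 0 ∧ (∀ x : N → ℝ, x ᵥ* rl A = 0 → x ᵥ* P = x) ∧
      (Fintype.card N : ℝ) - Fintype.card N' ≤ P.trace ∧
      ∀ n : ℕ, 2 ≤ n →
        ∑ i, ∑ j, ((qn K n (rl A * (rl A)ᵀ) - P) i j) ^ 2 ≤ Fintype.card N * eta K n := by
  have hS_eq : (A * Aᵀ).map (Int.cast : ℤ → ℝ) = rl A * (rl A)ᵀ := by
    ext i j
    simp only [Matrix.map_apply, Matrix.mul_apply, Matrix.transpose_apply]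
    push_cast
    rfl
  have hT : ((A * Aᵀ).map (Int.cast : ℤ → ℝ)).IsHermitian := by
    rw [hS_eq, IsHermitian, conjTranspose_eq_transpose_of_trivial, transpose_mul,
      transpose_transpose]
  have hdet := pdet (A * Aᵀ) hT
  have hrank := hT.rank_eq_card_non_zero_eigs
  obtain ⟨D, hD, hDt, hDtr⟩ := SpecC_hom hT
  obtain ⟨lam, hlam⟩ : ∃ lam, lam = hT.eigenvalues := ⟨_, rfl⟩
  rw [← hlam] at hdet hrank hD
  rw [hS_eq] at hD hrank
  have hb : ∀ i, 0 ≤ lam i ∧ lam i ≤ K := by
    intro i
    have h1 : (D (Pi.single i 1) * rl A * (D (Pi.single i 1) * rl A)ᵀ).trace = lam i := by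
      rw [transpose_mul, hDt]
      have h2 : D (Pi.single i 1) * rl A * ((rl A)ᵀ * D (Pi.single i 1)) =
          D (Pi.single i 1 * lam * Pi.single i 1) := by
        rw [map_mul, map_mul, hD]
        simp only [Matrix.mul_assoc]
      rw [h2, hDtr, Finset.sum_eq_single i]
      · simp
      · intro k _ hk
        simp [Pi.single_eq_of_ne hk]
      · intro h
        exact absurd (Finset.mem_univ i) h
    rw [SpecC_tr] at h1
    have h3 : ∑ k, ∑ l, D (Pi.single i 1) k l ^ 2 = 1 := by
      rw [← SpecC_tr, hDt, ← map_mul, hDtr, Finset.sum_eq_single i]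
      · simp
      · intro k _ hk
        simp [Pi.single_eq_of_ne hk]
      · intro h
        exact absurd (Finset.mem_univ i) h
    constructor
    · rw [← h1]
      exact Finset.sum_nonneg fun _ _ => Finset.sum_nonneg fun _ _ => sq_nonneg _
    · rw [← h1]
      calc ∑ k, ∑ j, (D (Pi.single i 1) * rl A) k j ^ 2
          ≤ ∑ k, K * ∑ l, D (Pi.single i 1) k l ^ 2 := by
            refine Finset.sum_le_sum fun k _ => ?_
            have h4 := hA (D (Pi.single i 1) k)
            rw [← Matrix.mul_apply_eq_vecMul] at h4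
            exact h4
        _ = K := by rw [← Finset.mul_sum, h3, mul_one]
  refine ⟨D fun i => if lam i = 0 then 1 else 0, hDt _, ?_, ?_, ?_, ?_⟩
  · have h1 : (D fun i => if lam i = 0 then 1 else 0) * (rl A * (rl A)ᴴ) = 0 := by
      rw [conjTranspose_eq_transpose_of_trivial, ← hD, ← map_mul]
      have h2 : (fun i => if lam i = 0 then 1 else 0) * lam = 0 := by
        funext i
        by_cases h : lam i = 0
        · simp [h]
        · simp [h]
      rw [h2, map_zero]
    exact (mul_self_mul_conjTranspose_eq_zero _ _).1 h1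
  · intro x hx
    have h1 : 1 - (D fun i => if lam i = 0 then 1 else 0) =
        rl A * (rl A)ᵀ * D (fun i => (lam i)⁻¹) := by
      rw [← hD, ← map_mul, ← map_one D, ← map_sub]
      congr 1
      funext i
      by_cases h : lam i = 0
      · simp [h]
      · simp [h]
    have h2 : x ᵥ* (1 - (D fun i => if lam i = 0 then 1 else 0)) = 0 := by
      rw [h1, Matrix.mul_assoc, ← vecMul_vecMul, hx, zero_vecMul]
    rw [vecMul_sub, vecMul_one, sub_eq_zero] at h2
    exact h2.symm
  · have h1 : (rl A * (rl A)ᵀ).rank ≤ Fintype.card N' :=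
      (rank_mul_le_left _ _).trans (rank_le_card_width _)
    rw [hrank] at h1
    have h2 : (Fintype.card {i // lam i ≠ 0} : ℝ) ≤ Fintype.card N' := by exact_mod_cast h1
    rw [hDtr, Finset.sum_boole]
    have h3 : (Finset.univ.filter fun i => lam i = 0).card + Fintype.card {i // lam i ≠ 0} =
        Fintype.card N := by
      rw [Fintype.card_subtype, ← Finset.card_univ]
      exact Finset.card_filter_add_card_filter_not _
    have h4 : ((Finset.univ.filter fun i => lam i = 0).card : ℝ) +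
        (Fintype.card {i // lam i ≠ 0} : ℝ) = Fintype.card N := by exact_mod_cast h3
    linarith
  · intro n hn
    rw [← hD, SpecC_qn, ← map_sub, ← SpecC_tr, hDt, ← map_mul, hDtr]
    have hprod : 1 ≤ ∏ i ∈ Finset.univ.filter (fun i => lam i ≠ 0), lam i := by
      rw [abs_of_nonneg (Finset.prod_nonneg fun i _ => (hb i).1)] at hdet
      exact hdet
    have h1 := qf_sum (Finset.univ.filter fun i => lam i ≠ 0) lam K hK (fun i hi =>
      ⟨lt_of_le_of_ne (hb i).1 (Ne.symm (Finset.mem_filter.1 hi).2), (hb i).2⟩) hprod n hn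
    have h2 : ((Finset.univ.filter fun i => lam i ≠ 0).card : ℝ) * eta K n ≤
        Fintype.card N * eta K n := by
      refine mul_le_mul_of_nonneg_right ?_ (SpecC_eta hK)
      exact_mod_cast Finset.card_le_univ _
    refine le_trans (le_of_eq ?_) (h1.trans h2)
    rw [Finset.sum_filter]
    refine Finset.sum_congr rfl fun i _ => ?_
    by_cases h : lam i = 0
    · simp only [Pi.mul_apply, Pi.sub_apply, h, if_true, ne_eq, not_true_eq_false, if_false]
      rw [qf_zero K n (by omega), sub_self, mul_zero]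
    · simp only [Pi.mul_apply, Pi.sub_apply, h, if_false, ne_eq, not_false_eq_true, if_true,
        sub_zero, sq]

end PAL
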