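import Pool.Agent.PAL.Basic
import Pool.Agent.PAL.SpecC

/-!
# PAL/Rep (module PAL-Rep): matrices over the group ring of a finite group

`big M ((l,q),(j,q')) = (coefficient of M l j at q⁻¹ q')`: the matrix of the right multiplication by
`M` on row vectors.  `big (M * M') = big M * big M'`, `big 1 = 1`, `big` is linear.
-/

set_option autoImplicit false

open PFC Matrix

namespace PAL

/-- the matrix of the right multiplication by `M` on row vectors -/
noncomputable def big {R : Type} [Semiring R] {Q ρ σ : Type} [Group Q]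
    (M : ρ → σ → MonoidAlgebra R Q) : Matrix (ρ × Q) (σ × Q) R :=
  fun a b => (M a.1 b.1).coeff (a.2⁻¹ * b.2)

/-- the integral group ring in the real group ring -/
noncomputable def toR {G : Type} [Group G] : GR G →+* MonoidAlgebra ℝ G :=
  MonoidAlgebra.mapRingHom G (Int.castRingHom ℝ)

/-- the involution `g ↦ g⁻¹` of the group ring -/
noncomputable def sta {G : Type} [Group G] (f : GR G) : GR G :=
  MonoidAlgebra.mapDomain (fun g => g⁻¹) f

/-- `J J*` over the real group ring -/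
noncomputable def TT {G ρ σ : Type} [Group G] [Fintype σ] (J : ρ → σ → GR G) :
    Matrix ρ ρ (MonoidAlgebra ℝ G) :=
  fun l l' => toR (∑ j, J l j * sta (J l' j))

/-- the sum of the absolute values of all coefficients -/
noncomputable def nrm {G ρ σ : Type} [Group G] [Fintype ρ] [Fintype σ] (J : ρ → σ → GR G) : ℝ :=
  ∑ l, ∑ j, (J l j).coeff.sum fun _ n => |(n : ℝ)|

/-! ### private tools -/

private theorem rep_conv {R : Type} [Semiring R] {Q : Type} [Group Q] [Fintype Q]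
    (x y : MonoidAlgebra R Q) (g : Q) :
    (x * y).coeff g = ∑ h : Q, x.coeff h * y.coeff (h⁻¹ * g) := by
  classical
  rw [MonoidAlgebra.coeff_mul, Finsupp.sum_fintype]
  · refine Finset.sum_congr rfl fun h _ => ?_
    rw [Finsupp.sum_fintype]
    · rw [Finset.sum_eq_single (h⁻¹ * g)]
      · rw [if_pos (mul_inv_cancel_left h g)]
      · intro b _ hb
        rw [if_neg]
        intro h2
        exact hb (by rw [← h2, inv_mul_cancel_left])
      · intro h2
        exact absurd (Finset.mem_univ _) h2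
    · intro i
      rw [mul_zero, ite_self]
  · intro i
    rw [Finsupp.sum_fintype]
    · refine Finset.sum_eq_zero fun b _ => ?_
      rw [zero_mul, ite_self]
    · intro i
      rw [mul_zero, ite_self]

private theorem rep_sub {Q M : Type} [Group Q] [Fintype Q] [AddCommMonoid M] (q : Q) (F : Q → M) :
    ∑ q' : Q, F (q⁻¹ * q') = ∑ h : Q, F h :=
  Fintype.sum_equiv (Equiv.mulLeft q⁻¹) _ _ fun _ => rfl

private theorem rep_sub' {Q M : Type} [Group Q] [Fintype Q] [AddCommMonoid M] (q : Q) (F : Q → M) :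
    ∑ q' : Q, F (q'⁻¹ * q) = ∑ h : Q, F h :=
  Fintype.sum_equiv ((Equiv.inv Q).trans (Equiv.mulRight q)) _ _ fun _ => rfl

private theorem rep_qn {A B : Type} [Ring A] [Algebra ℝ A] [Ring B] [Algebra ℝ B] (F : A →ₐ[ℝ] B)
    (K : ℝ) (n : ℕ) (t : A) : F (qn K n t) = qn K n (F t) := by
  unfold qn
  rw [map_smul, map_sum]
  congr 1
  refine Finset.sum_congr rfl fun k _ => ?_
  rw [map_pow, map_sub, map_one, map_smul]

theorem coeff_toR {G : Type} [Group G] (f : GR G) (g : G) : (toR f).coeff g = (f.coeff g : ℝ) := by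
  unfold toR
  rw [MonoidAlgebra.coeff_mapRingHom]
  rfl

theorem coeff_sta {G : Type} [Group G] (f : GR G) (g : G) : (sta f).coeff g = f.coeff g⁻¹ := by
  have h1 : (sta f).coeff g = Finsupp.mapDomain (fun g : G => g⁻¹) f.coeff g := rfl
  rw [h1]
  have h2 : Finsupp.mapDomain (fun g : G => g⁻¹) f.coeff ((fun g : G => g⁻¹) g⁻¹) = f.coeff g⁻¹ :=
    Finsupp.mapDomain_apply inv_injective f.coeff g⁻¹
  have h3 : ((fun g : G => g⁻¹) g⁻¹) = g := inv_inv g
  rw [h3] at h2
  exact h2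

/-- `big` is multiplicative -/
private theorem rep_big_mul {R : Type} [Semiring R] {Q ρ σ τ : Type} [Group Q] [Fintype Q]
    [Fintype σ] (M : Matrix ρ σ (MonoidAlgebra R Q)) (M' : Matrix σ τ (MonoidAlgebra R Q)) :
    big (M * M') = big M * big M' := by
  ext a b
  rw [Matrix.mul_apply, Fintype.sum_prod_type]
  show ((M * M') a.1 b.1).coeff (a.2⁻¹ * b.2) = _
  rw [Matrix.mul_apply, MonoidAlgebra.coeff_sum, Finsupp.finsetSum_apply]
  refine Finset.sum_congr rfl fun l _ => ?_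
  rw [rep_conv]
  have h1 := rep_sub a.2 fun h => (M a.1 l).coeff h * (M' l b.1).coeff (h⁻¹ * (a.2⁻¹ * b.2))
  rw [← h1]
  refine Finset.sum_congr rfl fun q _ => ?_
  show _ = (M a.1 l).coeff (a.2⁻¹ * q) * (M' l b.1).coeff (q⁻¹ * b.2)
  have h2 : (a.2⁻¹ * q)⁻¹ * (a.2⁻¹ * b.2) = q⁻¹ * b.2 := by group
  rw [h2]

private theorem rep_big_one {R : Type} [Semiring R] {Q ρ : Type} [Group Q] [DecidableEq Q]
    [DecidableEq ρ] : big (1 : Matrix ρ ρ (MonoidAlgebra R Q)) = 1 := by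
  ext a b
  show ((1 : Matrix ρ ρ (MonoidAlgebra R Q)) a.1 b.1).coeff (a.2⁻¹ * b.2) = _
  by_cases h1 : a.1 = b.1
  · rw [h1, Matrix.one_apply_eq, MonoidAlgebra.one_def, MonoidAlgebra.coeff_single,
      Finsupp.single_apply]
    by_cases h2 : a.2 = b.2
    · have h3 : a = b := Prod.ext h1 h2
      rw [h3, Matrix.one_apply_eq, if_pos]
      rw [inv_mul_cancel]
    · rw [if_neg, Matrix.one_apply_ne]
      · intro h3
        exact h2 (congrArg Prod.snd h3)
      · intro h3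
        exact h2 (inv_mul_eq_one.1 h3.symm)
  · rw [Matrix.one_apply_ne h1, Matrix.one_apply_ne]
    · rfl
    · intro h3
      exact h1 (congrArg Prod.fst h3)

/-- `big` as a homomorphism of algebras -/
private noncomputable def rep_bigA (Q ρ : Type) [Group Q] [Fintype Q] [DecidableEq Q] [Fintype ρ]
    [DecidableEq ρ] : Matrix ρ ρ (MonoidAlgebra ℝ Q) →ₐ[ℝ] Matrix (ρ × Q) (ρ × Q) ℝ :=
  AlgHom.ofLinearMap
    { toFun := fun M => big M
      map_add' := fun _ _ => rfl
      map_smul' := fun _ _ => rfl }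
    rep_big_one (fun M M' => rep_big_mul M M')

theorem big_qn {Q ρ : Type} [Group Q] [Fintype Q] [DecidableEq Q] [Fintype ρ] [DecidableEq ρ]
    (M : Matrix ρ ρ (MonoidAlgebra ℝ Q)) (K : ℝ) (n : ℕ) :
    big (qn K n M : Matrix ρ ρ (MonoidAlgebra ℝ Q)) = qn K n (big M) := by
  have h1 : ∀ M' : Matrix ρ ρ (MonoidAlgebra ℝ Q), rep_bigA Q ρ M' = big M' := fun _ => rfl
  have h := rep_qn (rep_bigA Q ρ) K n M
  rw [h1, h1] at h
  exact h

theorem big_TT {Q ρ σ : Type} [Group Q] [Fintype Q] [Fintype σ] (J : ρ → σ → GR Q) :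
    big (TT J) = rl (big J) * (rl (big J))ᵀ := by
  ext a b
  rw [Matrix.mul_apply, Fintype.sum_prod_type]
  show (toR (∑ j, J a.1 j * sta (J b.1 j))).coeff (a.2⁻¹ * b.2) = _
  rw [coeff_toR, MonoidAlgebra.coeff_sum, Finsupp.finsetSum_apply, Int.cast_sum]
  refine Finset.sum_congr rfl fun j _ => ?_
  rw [rep_conv, Int.cast_sum]
  have h1 := rep_sub a.2 fun h =>
    (((J a.1 j).coeff h * (sta (J b.1 j)).coeff (h⁻¹ * (a.2⁻¹ * b.2)) : ℤ) : ℝ)
  rw [← h1]
  refine Finset.sum_congr rfl fun q _ => ?_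
  show _ = ((J a.1 j).coeff (a.2⁻¹ * q) : ℝ) * ((J b.1 j).coeff (b.2⁻¹ * q) : ℝ)
  have h2 : ((a.2⁻¹ * q)⁻¹ * (a.2⁻¹ * b.2))⁻¹ = b.2⁻¹ * q := by group
  rw [coeff_sta, h2, Int.cast_mul]

theorem vecMul_big {Q ρ σ : Type} [Group Q] [Fintype Q] [Fintype ρ] (J : ρ → σ → GR Q)
    (x : ρ × Q → ℝ) (j : σ) (q : Q) :
    (x ᵥ* rl (big J)) (j, q) = ∑ l, ra (fun q' => x (l, q')) (J l j) q := by
  show ∑ a, x a * ((J a.1 j).coeff (a.2⁻¹ * q) : ℝ) = _
  rw [Fintype.sum_prod_type]
  refine Finset.sum_congr rfl fun l _ => ?_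
  show ∑ q', x (l, q') * ((J l j).coeff (q'⁻¹ * q) : ℝ) = lin (fun g => x (l, q * g⁻¹)) (J l j)
  rw [lin_eq_sum _ _ Finset.univ (Finset.subset_univ _)]
  have h1 := rep_sub' q fun g => ((J l j).coeff g) • x (l, q * g⁻¹)
  rw [← h1]
  refine Finset.sum_congr rfl fun q' _ => ?_
  show _ = ((J l j).coeff (q'⁻¹ * q)) • x (l, q * (q'⁻¹ * q)⁻¹)
  have h2 : q * (q'⁻¹ * q)⁻¹ = q' := by group
  rw [h2, zsmul_eq_mul, mul_comm]

/-- the integral version: row vectors over the group ring -/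
theorem vecMul_big_int {Q ρ σ : Type} [Group Q] [Fintype Q] [Fintype ρ] (J : ρ → σ → GR Q)
    (v : ρ → GR Q) (j : σ) (q : Q) :
    ((fun a : ρ × Q => (v a.1).coeff a.2) ᵥ* big J) (j, q) = (∑ l, v l * J l j).coeff q := by
  show ∑ a : ρ × Q, (v a.1).coeff a.2 * (J a.1 j).coeff (a.2⁻¹ * q) = _
  rw [Fintype.sum_prod_type, MonoidAlgebra.coeff_sum, Finsupp.finsetSum_apply]
  refine Finset.sum_congr rfl fun l _ => ?_
  rw [rep_conv]

private theorem rep_schur {A B : Type} [Fintype A] [Fintype B] (M : Matrix A B ℝ) (c : ℝ)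
    (hr : ∀ a, ∑ b, |M a b| ≤ c) (hc : ∀ b, ∑ a, |M a b| ≤ c) (x : A → ℝ) :
    ∑ b, (x ᵥ* M) b ^ 2 ≤ c ^ 2 * ∑ a, x a ^ 2 := by
  have h1 : ∀ b, (x ᵥ* M) b ^ 2 ≤ c * ∑ a, x a ^ 2 * |M a b| := by
    intro b
    have h2 : (∑ a, x a * M a b) ^ 2 ≤ (∑ a, |M a b|) * ∑ a, x a ^ 2 * |M a b| := by
      apply Finset.sum_sq_le_sum_mul_sum_of_sq_le_mul
      · intro a _
        exact abs_nonneg _
      · intro a _
        positivity
      · intro a _
        have h3 : (x a * M a b) ^ 2 = |M a b| * (x a ^ 2 * |M a b|) := by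
          rw [mul_pow, ← sq_abs (M a b)]
          ring
        exact le_of_eq h3
    have h4 : (x ᵥ* M) b = ∑ a, x a * M a b := rfl
    rw [h4]
    refine h2.trans (mul_le_mul_of_nonneg_right (hc b) ?_)
    exact Finset.sum_nonneg fun a _ => by positivity
  calc ∑ b, (x ᵥ* M) b ^ 2 ≤ ∑ b, c * ∑ a, x a ^ 2 * |M a b| := Finset.sum_le_sum fun b _ => h1 b
    _ = ∑ a, c * (x a ^ 2 * ∑ b, |M a b|) := by
        rw [← Finset.mul_sum, Finset.sum_comm, ← Finset.mul_sum]
        congr 1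
        refine Finset.sum_congr rfl fun a _ => ?_
        rw [Finset.mul_sum]
    _ ≤ ∑ a, c ^ 2 * x a ^ 2 := by
        refine Finset.sum_le_sum fun a _ => ?_
        have h5 : 0 ≤ ∑ b, |M a b| := Finset.sum_nonneg fun b _ => abs_nonneg _
        have h6 : 0 ≤ c := h5.trans (hr a)
        have h7 : x a ^ 2 * ∑ b, |M a b| ≤ x a ^ 2 * c :=
          mul_le_mul_of_nonneg_left (hr a) (sq_nonneg _)
        calc c * (x a ^ 2 * ∑ b, |M a b|) ≤ c * (x a ^ 2 * c) := mul_le_mul_of_nonneg_left h7 h6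
          _ = c ^ 2 * x a ^ 2 := by ring
    _ = c ^ 2 * ∑ a, x a ^ 2 := by rw [← Finset.mul_sum]

private theorem rep_nrm {Q ρ σ : Type} [Group Q] [Fintype Q] [Fintype ρ] [Fintype σ]
    (J : ρ → σ → GR Q) : nrm J = ∑ l, ∑ j, ∑ g : Q, |((J l j).coeff g : ℝ)| := by
  unfold nrm
  refine Finset.sum_congr rfl fun l _ => Finset.sum_congr rfl fun j _ => ?_
  rw [Finsupp.sum_fintype]
  intro i
  rw [Int.cast_zero, abs_zero]

/-- the norm bound (Schur test): row and column sums of `|big J|` are at most `nrm J` -/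
theorem big_norm {Q ρ σ : Type} [Group Q] [Fintype Q] [Fintype ρ] [Fintype σ] (J : ρ → σ → GR Q)
    (K : ℝ) (hJ : nrm J ^ 2 ≤ K) (x : ρ × Q → ℝ) :
    ∑ b, (x ᵥ* rl (big J)) b ^ 2 ≤ K * ∑ a, x a ^ 2 := by
  have hn : ∀ l j, 0 ≤ ∑ g : Q, |((J l j).coeff g : ℝ)| := fun l j =>
    Finset.sum_nonneg fun _ _ => abs_nonneg _
  have h := rep_schur (rl (big J)) (nrm J) ?_ ?_ x
  · exact h.trans (mul_le_mul_of_nonneg_right hJ (Finset.sum_nonneg fun _ _ => sq_nonneg _))
  · intro a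
    show ∑ b : σ × Q, |((J a.1 b.1).coeff (a.2⁻¹ * b.2) : ℝ)| ≤ _
    rw [Fintype.sum_prod_type, rep_nrm]
    have h1 : ∑ j, ∑ q, |((J a.1 j).coeff (a.2⁻¹ * q) : ℝ)| =
        ∑ j, ∑ g : Q, |((J a.1 j).coeff g : ℝ)| :=
      Finset.sum_congr rfl fun j _ => rep_sub a.2 fun g => |((J a.1 j).coeff g : ℝ)|
    refine le_trans (le_of_eq h1) ?_
    exact Finset.single_le_sum (f := fun l => ∑ j, ∑ g : Q, |((J l j).coeff g : ℝ)|)
      (fun l _ => Finset.sum_nonneg fun j _ => hn l j) (Finset.mem_univ a.1)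
  · intro b
    show ∑ a : ρ × Q, |((J a.1 b.1).coeff (a.2⁻¹ * b.2) : ℝ)| ≤ _
    rw [Fintype.sum_prod_type, rep_nrm]
    refine Finset.sum_le_sum fun l _ => ?_
    have h1 : ∑ q, |((J l b.1).coeff (q⁻¹ * b.2) : ℝ)| = ∑ g : Q, |((J l b.1).coeff g : ℝ)| :=
      rep_sub' b.2 fun g => |((J l b.1).coeff g : ℝ)|
    refine le_trans (le_of_eq h1) ?_
    exact Finset.single_le_sum (f := fun j => ∑ g : Q, |((J l j).coeff g : ℝ)|)
      (fun j _ => hn l j) (Finset.mem_univ b.1)

private theorem rep_sum_zero {G : Type} (u : G →₀ ℤ) (S : Finset G) (hS : u.support ⊆ S) :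
    (u.sum fun _ n => |(n : ℝ)|) = ∑ g ∈ S, |(u g : ℝ)| :=
  Finsupp.sum_of_support_subset _ hS _ fun g _ => by rw [Int.cast_zero, abs_zero]

private theorem rep_nrm_add {G : Type} (u v : G →₀ ℤ) :
    ((u + v).sum fun _ n => |(n : ℝ)|) ≤ (u.sum fun _ n => |(n : ℝ)|) +
      (v.sum fun _ n => |(n : ℝ)|) := by
  classical
  have h1 : (u + v).support ⊆ u.support ∪ v.support := Finsupp.support_add
  rw [rep_sum_zero (u + v) _ h1, rep_sum_zero u _ Finset.subset_union_left,
    rep_sum_zero v _ Finset.subset_union_right, ← Finset.sum_add_distrib]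
  refine Finset.sum_le_sum fun g _ => ?_
  rw [Finsupp.add_apply, Int.cast_add]
  exact abs_add_le _ _

private theorem rep_nrm_map {G Q : Type} (θ : G → Q) (u : G →₀ ℤ) :
    ((Finsupp.mapDomain θ u).sum fun _ n => |(n : ℝ)|) ≤ (u.sum fun _ n => |(n : ℝ)|) := by
  classical
  induction u using Finsupp.induction with
  | zero => rw [Finsupp.mapDomain_zero]; exact le_refl _
  | single_add a b f ha hb ih =>
    have h0 : ∀ {X : Type} (x : X), ((Finsupp.single x b).sum fun _ n => |((n : ℤ) : ℝ)|) = |(b : ℝ)| :=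
      fun x => Finsupp.sum_single_index (by rw [Int.cast_zero, abs_zero])
    rw [Finsupp.mapDomain_add, Finsupp.mapDomain_single]
    refine (rep_nrm_add _ _).trans ?_
    rw [h0]
    have h1 : ((Finsupp.single a b + f).sum fun _ n => |((n : ℤ) : ℝ)|) =
        ((Finsupp.single a b).sum fun _ n => |((n : ℤ) : ℝ)|) + (f.sum fun _ n => |((n : ℤ) : ℝ)|) := by
      apply Finsupp.sum_add_index_of_disjoint
      rw [Finset.disjoint_left]
      intro x hx hx2
      have h2 : x = a := by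
        have := Finsupp.support_single_subset hx
        exact Finset.mem_singleton.1 this
      rw [h2] at hx2
      exact ha hx2
    rw [h1, h0]
    exact add_le_add (le_refl _) ih

theorem nrm_mp {G Q ρ σ : Type} [Group G] [Group Q] [Fintype ρ] [Fintype σ] (θ : G →* Q)
    (J : ρ → σ → GR G) : nrm (fun l j => mp θ (J l j)) ≤ nrm J := by
  unfold nrm
  refine Finset.sum_le_sum fun l _ => Finset.sum_le_sum fun j _ => ?_
  exact rep_nrm_map θ (J l j).coeff

private theorem rep_toR_mp {G Q : Type} [Group G] [Group Q] (θ : G →* Q) (f : GR G) :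
    toR (mp θ f) = MonoidAlgebra.mapDomainRingHom ℝ θ (toR f) := by
  have h : ((toR (G := Q)).comp (mp θ)).toAddMonoidHom =
      ((MonoidAlgebra.mapDomainRingHom ℝ θ).comp (toR (G := G))).toAddMonoidHom := by
    apply MonoidAlgebra.addMonoidHom_ext
    intro g n
    show toR (MonoidAlgebra.mapDomain θ (MonoidAlgebra.single g n)) =
      MonoidAlgebra.mapDomain θ (toR (MonoidAlgebra.single g n))
    unfold toR
    rw [MonoidAlgebra.mapDomain_single, MonoidAlgebra.mapRingHom_single,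
      MonoidAlgebra.mapRingHom_single, MonoidAlgebra.mapDomain_single]
  exact DFunLike.congr_fun h f

private theorem rep_sta_mp {G Q : Type} [Group G] [Group Q] (θ : G →* Q) (f : GR G) :
    sta (mp θ f) = mp θ (sta f) := by
  ext q
  show Finsupp.mapDomain (fun g : Q => g⁻¹) (Finsupp.mapDomain θ f.coeff) q =
    Finsupp.mapDomain θ (Finsupp.mapDomain (fun g : G => g⁻¹) f.coeff) q
  rw [← Finsupp.mapDomain_comp, ← Finsupp.mapDomain_comp]
  have h : (fun g : Q => g⁻¹) ∘ θ = θ ∘ (fun g : G => g⁻¹) := by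
    funext g
    show (θ g)⁻¹ = θ g⁻¹
    rw [map_inv]
  rw [h]

/-- the homomorphism of matrix algebras given by `θ` -/
private noncomputable def rep_mapA {G Q : Type} [Group G] [Group Q] (ρ : Type) [Fintype ρ]
    [DecidableEq ρ] (θ : G →* Q) :
    Matrix ρ ρ (MonoidAlgebra ℝ G) →ₐ[ℝ] Matrix ρ ρ (MonoidAlgebra ℝ Q) :=
  AlgHom.ofLinearMap
    { toFun := fun M => RingHom.mapMatrix (m := ρ) (MonoidAlgebra.mapDomainRingHom ℝ θ) M
      map_add' := fun M M' => map_add _ M M'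
      map_smul' := fun c M => by
        ext l l' q
        show Finsupp.mapDomain θ (c • (M l l').coeff) q = c • (Finsupp.mapDomain θ (M l l').coeff q)
        rw [Finsupp.mapDomain_smul]
        rfl }
    (map_one (RingHom.mapMatrix (m := ρ) (MonoidAlgebra.mapDomainRingHom ℝ θ)))
    (map_mul (RingHom.mapMatrix (m := ρ) (MonoidAlgebra.mapDomainRingHom ℝ θ)))

/-- `qn K n (TT J)` for the image of `J` in the group ring of `Q` (`Q` arbitrary) -/
theorem coeff_qn_mp {G Q ρ σ : Type} [Group G] [Group Q] [Fintype ρ] [DecidableEq ρ] [Fintype σ]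
    (θ : G →* Q) (J : ρ → σ → GR G) (K : ℝ) (n : ℕ) (l l' : ρ) :
    qn K n (TT fun l j => mp θ (J l j)) l l' =
      MonoidAlgebra.mapDomain θ (qn K n (TT J) l l') := by
  have h1 : (TT fun l j => mp θ (J l j)) = rep_mapA ρ θ (TT J) := by
    funext l l'
    show toR (∑ j, mp θ (J l j) * sta (mp θ (J l' j))) =
      MonoidAlgebra.mapDomainRingHom ℝ θ (toR (∑ j, J l j * sta (J l' j)))
    rw [← rep_toR_mp, map_sum (mp θ)]
    refine congrArg toR (Finset.sum_congr rfl fun j _ => ?_)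
    rw [map_mul, rep_sta_mp]
  rw [h1, ← rep_qn]
  rfl

end PAL
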