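import Mathlib

/-!
# PAL/SpecA (module PAL-SpecA): the product of the nonzero eigenvalues of an integer matrix

The characteristic polynomial of `T` (integer coefficients) maps to `∏ (X - λ_i)`; its lowest nonzero
coefficient is, up to sign, the product of the nonzero eigenvalues, and a nonzero integer.
-/

set_option autoImplicit false

namespace PAL

private theorem SpecA_linear (a : ℝ) :
    (Polynomial.X - Polynomial.C a).trailingCoeff = if a ≠ 0 then -a else 1 := by
  by_cases h : a = 0
  · rw [if_neg (not_not.2 h), h, Polynomial.C_0, sub_zero]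
    unfold Polynomial.trailingCoeff
    rw [Polynomial.natTrailingDegree_X, Polynomial.coeff_X_one]
  · rw [if_pos h]
    have h1 : (Polynomial.X - Polynomial.C a).coeff 0 = -a := by
      rw [Polynomial.coeff_sub, Polynomial.coeff_X_zero, Polynomial.coeff_C_zero, zero_sub]
    rw [Polynomial.trailingCoeff_eq_coeff_zero (by rw [h1]; exact neg_ne_zero.2 h), h1]

private theorem SpecA_prod {N : Type} [DecidableEq N] (s : Finset N) (a : N → ℝ) :
    (∏ i ∈ s, (Polynomial.X - Polynomial.C (a i))).trailingCoeff =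
      ∏ i ∈ s, if a i ≠ 0 then -a i else 1 := by
  induction s using Finset.induction_on with
  | empty =>
    rw [Finset.prod_empty, Finset.prod_empty]
    have h : (1 : Polynomial ℝ).coeff 0 ≠ 0 := by
      rw [Polynomial.coeff_one_zero]
      exact one_ne_zero
    rw [Polynomial.trailingCoeff_eq_coeff_zero h, Polynomial.coeff_one_zero]
  | insert i s hi ih =>
    rw [Finset.prod_insert hi, Finset.prod_insert hi, Polynomial.trailingCoeff_mul, ih, SpecA_linear]

theorem pdet {N : Type} [Fintype N] [DecidableEq N] (T : Matrix N N ℤ)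
    (hT : (T.map (Int.cast : ℤ → ℝ)).IsHermitian) :
    1 ≤ |∏ i ∈ Finset.univ.filter (fun i => hT.eigenvalues i ≠ 0), hT.eigenvalues i| := by
  have h1 : (T.map (Int.cast : ℤ → ℝ)).charpoly = T.charpoly.map (Int.castRingHom ℝ) :=
    Matrix.charpoly_map T (Int.castRingHom ℝ)
  have h2 : (T.map (Int.cast : ℤ → ℝ)).charpoly = ∏ i, (Polynomial.X - Polynomial.C (hT.eigenvalues i)) :=
    hT.charpoly_eq
  have h3 : (T.map (Int.cast : ℤ → ℝ)).charpoly.trailingCoeff ≠ 0 := by
    rw [Ne, Polynomial.trailingCoeff_eq_zero]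
    exact (Matrix.charpoly_monic _).ne_zero
  obtain ⟨m, hm⟩ : ∃ m : ℤ, (T.map (Int.cast : ℤ → ℝ)).charpoly.trailingCoeff = (m : ℝ) := by
    unfold Polynomial.trailingCoeff
    generalize (T.map (Int.cast : ℤ → ℝ)).charpoly.natTrailingDegree = d
    rw [h1, Polynomial.coeff_map]
    exact ⟨_, rfl⟩
  have h4 : 1 ≤ |(T.map (Int.cast : ℤ → ℝ)).charpoly.trailingCoeff| := by
    rw [hm] at h3 ⊢
    have h5 : m ≠ 0 := by
      intro h
      rw [h, Int.cast_zero] at h3
      exact h3 rfl
    exact_mod_cast Int.one_le_abs h5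
  rw [h2, SpecA_prod, Finset.abs_prod] at h4
  rw [Finset.abs_prod, Finset.prod_filter]
  refine le_of_le_of_eq h4 (Finset.prod_congr rfl fun i _ => ?_)
  by_cases h : hT.eigenvalues i ≠ 0
  · rw [if_pos h, if_pos h, abs_neg]
  · rw [if_neg h, if_neg h, abs_one]

end PAL
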