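import Pool.Agent.PAL.Inert
import Pool.Agent.PAL.Glue

/-!
# PAL/Step (module PAL-Step): presentations of iterated amalgams

`base`: a basis of the free group, no relators (`free_der`).  `step`: apply `inert`; `N' = N ⊕ Fin s`,
`z' = z, a`; `ρ' = ρ ⊕ Fin t`; `X'` is `X, 0` on the rows `ρ` and `JB, - JA` on the rows `Fin t`.  `ext`: for
`w' = (w, wa)` with `X' w' = 0` take the derivation on `B` with `D(z ν) = w ν` (`hB.ext`) and the one on `A` with
`D(a i) = wa i` (`free_der`); by `der_fund` (with `θ = id`, `mp_id`) they agree on the `c l`, hence on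
`B ⊓ A` (`der_eq_of_gen` applied to the restrictions); glue (`glue_der`).  `inj`: the columns `N` of `v X' = 0`
and the last statement of `inert` (change the sign of the rows `Fin t`).
-/

set_option autoImplicit false

open PFC

namespace PAL

private theorem Step_inSub_mono {G : Type} [Group G] {B H : Subgroup G} (h : B ≤ H) {f : GR G}
    (hf : InSub B f) : InSub H f := fun g hg => h (hf g hg)

theorem base {G : Type} [Group G] (B : Subgroup G) (hB : IsFreeGroup B) (hfg : B.FG) :
    ∃ (N : ℕ) (z : Fin N → G), Pres B z fun (_ : Fin 0) (_ : Fin N) => (0 : GR G) := by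
  obtain ⟨s, z, hcl, hinj, -⟩ := exists_basis_fg B hB hfg
  refine ⟨s, z, ⟨hcl, fun r => r.elim0, fun r => r.elim0, ?_, ?_⟩⟩
  · intro M _ _ w _
    exact free_der B z hcl hinj w
  · intro v _ _
    exact Subsingleton.elim _ _

theorem step {G ρ N : Type} [Group G] [Fintype ρ] [Fintype N] {r : ℕ} (x : Fin r → G)
    (hx : PRT.Para x) (hres : ∀ p : ℕ, p.Prime → ResQ p G) (H B A : Subgroup G) (z : N → G)
    (X : ρ → N → GR G) (hB : Pres B z X) (hA : IsFreeGroup A) (hfg : A.FG)
    (hAi : Function.Injective (Abelianization.map A.subtype)) (hH : IsAmalgam H B A) :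
    (B ⊓ A).FG ∧ ∃ (ρ' N' : Type) (_ : Fintype ρ') (_ : Fintype N') (z' : N' → G)
      (X' : ρ' → N' → GR G), Pres H z' X' := by
  obtain ⟨s, t, a, c, JB, JA, hacl, hainj, hccl, hcinj, hFB, hSB, hFA, hSA, -, hfin⟩ :=
    inert x hx hres B A z hB.gen X hB.rel hB.supp hB.inj hA hfg hAi
  refine ⟨?_, ?_⟩
  · rw [Subgroup.fg_iff]
    exact ⟨Set.range c, hccl, Set.finite_range c⟩
  have hBH : B ≤ H := hH.1
  have hAH : A ≤ H := hH.2.1
  have hz : ∀ ν, z ν ∈ B := by
    intro ν
    rw [← hB.gen]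
    exact Subgroup.subset_closure ⟨ν, rfl⟩
  have ha : ∀ i, a i ∈ A := by
    intro i
    rw [← hacl]
    exact Subgroup.subset_closure ⟨i, rfl⟩
  refine ⟨ρ ⊕ Fin t, N ⊕ Fin s, inferInstance, inferInstance, Sum.elim z a,
    Sum.elim (fun i => Sum.elim (X i) fun _ => 0)
      (fun l => Sum.elim (JB l) fun i => - JA l i), ⟨?_, ?_, ?_, ?_, ?_⟩⟩
  · rw [Set.Sum.elim_range, Subgroup.closure_union, hB.gen, hacl]
    exact amalgam_sup H B A hH
  · rintro (i | l)
    · rw [Fintype.sum_sum_type]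
      have h1 := hB.rel i
      have h2 : ∑ i' : Fin s, (0 : GR G) * (el (a i') - 1) = 0 :=
        Finset.sum_eq_zero fun _ _ => zero_mul _
      show ∑ ν, X i ν * (el (z ν) - 1) + ∑ i' : Fin s, (0 : GR G) * (el (a i') - 1) = 0
      rw [h1, h2, add_zero]
    · rw [Fintype.sum_sum_type]
      have h1 : el (c l) - 1 = ∑ ν, JB l ν * (el (z ν) - 1) := hFB l
      have h2 : el (c l) - 1 = ∑ i, JA l i * (el (a i) - 1) := hFA l
      show ∑ ν, JB l ν * (el (z ν) - 1) + ∑ i : Fin s, (- JA l i) * (el (a i) - 1) = 0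
      have h3 : ∑ i : Fin s, (- JA l i) * (el (a i) - 1) = - (el (c l) - 1) := by
        rw [h2, ← Finset.sum_neg_distrib]
        exact Finset.sum_congr rfl fun i _ => neg_mul _ _
      rw [← h1, h3, add_neg_cancel]
  · rintro (i | l) (ν | j)
    · exact Step_inSub_mono hBH (hB.supp i ν)
    · exact inSub_zero H
    · exact Step_inSub_mono hBH (hSB l ν)
    · exact inSub_neg (Step_inSub_mono hAH (hSA l j))
  · intro M _ _ w hw
    obtain ⟨DB, hDB, hDBz⟩ := hB.ext M (fun ν => w (Sum.inl ν)) (by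
      intro i
      have h1 := hw (Sum.inl i)
      rw [Fintype.sum_sum_type] at h1
      have h2 : ∑ i' : Fin s, (0 : GR G) • w (Sum.inr i') = 0 :=
        Finset.sum_eq_zero fun _ _ => zero_smul _ _
      change ∑ ν, X i ν • w (Sum.inl ν) + ∑ i' : Fin s, (0 : GR G) • w (Sum.inr i') = 0 at h1
      rwa [h2, add_zero] at h1)
    obtain ⟨DA, hDA, hDAa⟩ := free_der A a hacl hainj (fun i => w (Sum.inr i))
    have hag : ∀ (g : G) (hgB : g ∈ B) (hgA : g ∈ A), DB ⟨g, hgB⟩ = DA ⟨g, hgA⟩ := by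
      have h1 : (fun y : (B ⊓ A : Subgroup G) => DB ⟨y.1, y.2.1⟩) =
          fun y : (B ⊓ A : Subgroup G) => DA ⟨y.1, y.2.2⟩ := by
        refine der_eq_of_gen (B ⊓ A) c hccl _ _ ?_ ?_ ?_
        · intro g h
          exact hDB ⟨g.1, g.2.1⟩ ⟨h.1, h.2.1⟩
        · intro g h
          exact hDA ⟨g.1, g.2.2⟩ ⟨h.1, h.2.2⟩
        · intro l hl
          show DB ⟨c l, hl.1⟩ = DA ⟨c l, hl.2⟩
          have h2 := der_fund (MonoidHom.id G) B DB hDB z hz (c l) hl.1 (JB l) (hSB l) (hFB l)
          have h3 := der_fund (MonoidHom.id G) A DA hDA a ha (c l) hl.2 (JA l) (hSA l) (hFA l)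
          rw [h2, h3]
          have h4 := hw (Sum.inr l)
          rw [Fintype.sum_sum_type] at h4
          change ∑ ν, JB l ν • w (Sum.inl ν) + ∑ i : Fin s, (- JA l i) • w (Sum.inr i) = 0 at h4
          have h5 : ∑ i : Fin s, (- JA l i) • w (Sum.inr i) =
              - ∑ i : Fin s, JA l i • w (Sum.inr i) := by
            rw [← Finset.sum_neg_distrib]
            exact Finset.sum_congr rfl fun i _ => neg_smul _ _
          rw [h5, ← sub_eq_add_neg] at h4
          have h6 := sub_eq_zero.1 h4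
          calc ∑ ν, mp (MonoidHom.id G) (JB l ν) • DB ⟨z ν, hz ν⟩ =
              ∑ ν, JB l ν • w (Sum.inl ν) :=
                Finset.sum_congr rfl fun ν _ => by rw [mp_id, hDBz ν (hz ν)]
            _ = ∑ i, JA l i • w (Sum.inr i) := h6
            _ = _ := Finset.sum_congr rfl fun i _ => by rw [mp_id, hDAa i (ha i)]
      intro g hgB hgA
      exact congrFun h1 ⟨g, hgB, hgA⟩
    obtain ⟨D, hD, hD1, hD2⟩ := glue_der H B A hH DB hDB DA hDA hag
    refine ⟨D, hD, ?_⟩
    rintro (ν | i) h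
    · exact (hD1 (z ν) (hz ν) h).trans (hDBz ν (hz ν))
    · exact (hD2 (a i) (ha i) h).trans (hDAa i (ha i))
  · intro v hv h
    have h1 : Sum.elim (fun i => v (Sum.inl i)) (fun l y => - v (Sum.inr l) y) =
        (0 : ρ ⊕ Fin t → G → ℝ) := by
      refine hfin _ ?_ ?_
      · rintro (i | l)
        · exact hv (Sum.inl i)
        · have h2 := hv (Sum.inr l)
          unfold Sq at h2 ⊢
          simp only [Sum.elim_inr, neg_sq]
          exact h2
      · intro ν y
        have h2 := h (Sum.inl ν) y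
        rw [Fintype.sum_sum_type] at h2
        change ∑ i, ra (v (Sum.inl i)) (X i ν) y + ∑ l, ra (v (Sum.inr l)) (JB l ν) y = 0 at h2
        show ∑ i, ra (v (Sum.inl i)) (X i ν) y = ∑ l, ra (fun y => - v (Sum.inr l) y) (JB l ν) y
        have h3 : ∑ l, ra (fun y => - v (Sum.inr l) y) (JB l ν) y =
            - ∑ l, ra (v (Sum.inr l)) (JB l ν) y := by
          rw [← Finset.sum_neg_distrib]
          exact Finset.sum_congr rfl fun l _ => ra_neg_left _ _ _
        rw [h3]
        exact eq_neg_of_add_eq_zero_left h2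
    funext r y
    rcases r with i | l
    · exact congrFun (congrFun h1 (Sum.inl i)) y
    · have h2 : - v (Sum.inr l) y = 0 := congrFun (congrFun h1 (Sum.inr l)) y
      exact neg_eq_zero.1 h2

end PAL
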