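import Pool.Agent.PAL.Lim
import Pool.Agent.PAL.Conv

/-!
# PAL/Trans (module PAL-Trans): the transfer lemma

Index set: finite subsets `S` of `G`, the filter `atTop`, `Q S` a finite `p`-group and `π S : G → Q S` with
`π S g ≠ 1` for all `g ∈ S`, `g ≠ 1` (a finite product of the groups given by `ResQ`).  Apply `lim_data`
with `K = max 2 (nrm J ^ 2)`.  (a): `v = v * p` by `conv_fix`, and
`(v J')_j(x) = ∑_y ∑_l v_l(y) (∑_{l'} ra (p l l') (J' l' j) (y⁻¹ x)) = 0` (a finite linear combination of the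
sums of `conv_fix`).  (b): some `p l l 1 ≠ 0`, and the row `p l` is in the kernel (`J' = J`).
-/

set_option autoImplicit false

open PFC Filter

namespace PAL

/-- residually a finite `p`-group -/
def ResQ (p : ℕ) (G : Type) [Group G] : Prop :=
  ∀ g : G, g ≠ 1 → ∃ (W : Type) (_ : Group W) (f : G →* W), Finite W ∧ IsPGroup p W ∧ f g ≠ 1

private theorem Trans_pi (p : ℕ) {ι : Type} [Finite ι] (W : ι → Type) [∀ i, Group (W i)]
    (h : ∀ i, IsPGroup p (W i)) : IsPGroup p (∀ i, W i) := by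
  intro x
  choose k hk using fun i => h i (x i)
  obtain ⟨N, hN⟩ : ∃ N : ℕ, ∀ i, k i ≤ N := by
    obtain ⟨N, hN⟩ := (Set.finite_range k).bddAbove
    exact ⟨N, fun i => hN (Set.mem_range_self i)⟩
  refine ⟨N, funext fun i => ?_⟩
  show x i ^ p ^ N = 1
  obtain ⟨m, hm⟩ := Nat.exists_eq_add_of_le (hN i)
  rw [hm, pow_add, pow_mul, hk i, one_pow]

/-- the finite `p`-quotients of `G`, indexed by the finite subsets -/
private theorem Trans_fam (p : ℕ) {G : Type} [Group G] (hres : ResQ p G) :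
    ∃ (Q : Finset G → Type) (_ : ∀ S, Group (Q S)) (π : ∀ S, G →* Q S), (∀ S, Finite (Q S)) ∧
      (∀ S, IsPGroup p (Q S)) ∧ ∀ g : G, g ≠ 1 → ∀ᶠ S in atTop, π S g ≠ 1 := by
  choose W hW f hf hp hg using hres
  let Q : Finset G → Type := fun S => ∀ i : {g : G // g ∈ S ∧ g ≠ 1}, W i.1 i.2.2
  let hQ : ∀ S, Group (Q S) := fun S =>
    @Pi.group {g : G // g ∈ S ∧ g ≠ 1} (fun i => W i.1 i.2.2) (fun i => hW i.1 i.2.2)
  let π : ∀ S, G →* Q S := fun S => { toFun := fun x i => f i.1 i.2.2 x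
                                      map_one' := funext fun i => map_one (f i.1 i.2.2)
                                      map_mul' := fun x y => funext fun i => map_mul (f i.1 i.2.2) x y }
  have hfin : ∀ S : Finset G, Finite {g : G // g ∈ S ∧ g ≠ 1} := fun S =>
    Finite.of_injective (fun i => (⟨i.1, i.2.1⟩ : {g : G // g ∈ S})) fun a b hab =>
      Subtype.ext (congrArg (fun z : {g : G // g ∈ S} => (z : G)) hab)
  refine ⟨Q, hQ, π, fun S => ?_, fun S => ?_, fun g hg1 => ?_⟩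
  · haveI := hfin S
    have : ∀ i : {g : G // g ∈ S ∧ g ≠ 1}, Finite (W i.1 i.2.2) := fun i => hf i.1 i.2.2
    show Finite (∀ i : {g : G // g ∈ S ∧ g ≠ 1}, W i.1 i.2.2)
    infer_instance
  · haveI := hfin S
    exact Trans_pi p (fun i : {g : G // g ∈ S ∧ g ≠ 1} => W i.1 i.2.2) fun i => hp i.1 i.2.2
  · refine (eventually_ge_atTop ({g} : Finset G)).mono fun S hS h1 => ?_
    have hgS : g ∈ S := hS (Finset.mem_singleton_self g)
    have h2 := congrFun h1 ⟨g, hgS, hg1⟩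
    exact hg g hg1 h2

private theorem Trans_hasSum {G : Type} [Group G] (w : G → ℝ) (F : G → G → ℝ)
    (h : ∀ x, HasSum (fun y => F y x) (w x)) (f : GR G) (x : G) :
    HasSum (fun y => ra (F y) f x) (ra w f x) := by
  unfold ra
  rw [lin_eq_sum _ f _ (Finset.Subset.refl _)]
  have h1 : (fun y => lin (fun g => F y (x * g⁻¹)) f) = fun y =>
      ∑ g ∈ f.coeff.support, f.coeff g • F y (x * g⁻¹) := by
    funext y
    exact lin_eq_sum _ f _ (Finset.Subset.refl _)
  rw [h1]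
  exact hasSum_sum fun g _ => (h (x * g⁻¹)).const_smul (f.coeff g)

theorem transfer {G ρ σ τ : Type} [Group G] [Fintype ρ] [Fintype σ] (p : ℕ) [Fact p.Prime]
    (hres : ResQ p G) (J : ρ → σ → GR G) (J' : ρ → τ → GR G)
    (h : ∀ (Q : Type) [Group Q] [Finite Q], IsPGroup p Q → ∀ (θ : G →* Q) (v : ρ → GR Q),
      (∀ j, ∑ l, v l * mp θ (J l j) = 0) → ∀ j, ∑ l, v l * mp θ (J' l j) = 0)
    (v : ρ → G → ℝ) (hv : ∀ l, Sq (v l)) (h0 : ∀ j x, ∑ l, ra (v l) (J l j) x = 0) :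
    ∀ j x, ∑ l, ra (v l) (J' l j) x = 0 := by
  classical
  obtain ⟨Q, hQ, π, hfin, hpQ, hπ⟩ := Trans_fam p hres
  obtain ⟨P, hP, hker, -⟩ := lim_data (atTop : Filter (Finset G)) Q π hπ J
    (max 2 (nrm J ^ 2)) (le_max_left _ _) (le_max_right _ _)
  intro j x
  have hk : ∀ l g, ∑ l', ra (P l l') (J' l' j) g = 0 := fun l g =>
    hker τ J' (fun S w hw => h (Q S) (hpQ S) (π S) w hw) l j g
  have h1 : HasSum (fun y => ∑ l', ra (fun z => ∑ l, v l y * P l l' (y⁻¹ * z)) (J' l' j) x)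
      (∑ l', ra (v l') (J' l' j) x) := by
    refine hasSum_sum fun l' _ => ?_
    exact Trans_hasSum (v l') (fun y z => ∑ l, v l y * P l l' (y⁻¹ * z))
      (fun z => conv_fix J (max 2 (nrm J ^ 2)) P hP v hv h0 l' z) (J' l' j) x
  have h2 : (fun y => ∑ l', ra (fun z => ∑ l, v l y * P l l' (y⁻¹ * z)) (J' l' j) x) =
      fun _ => 0 := by
    funext y
    have h3 : ∀ l', ra (fun z => ∑ l, v l y * P l l' (y⁻¹ * z)) (J' l' j) x =
        ∑ l, v l y * ra (P l l') (J' l' j) (y⁻¹ * x) := by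
      intro l'
      rw [ra_sum_left]
      refine Finset.sum_congr rfl fun l _ => ?_
      rw [ra_smul_left, ra_trans]
    rw [Finset.sum_congr rfl fun l' _ => h3 l', Finset.sum_comm]
    refine Finset.sum_eq_zero fun l _ => ?_
    rw [← Finset.mul_sum, hk, mul_zero]
  rw [h2] at h1
  exact h1.unique hasSum_zero

theorem exists_kernel {G ρ σ : Type} [Group G] [Fintype ρ] [Fintype σ] (p : ℕ) [Fact p.Prime]
    (hres : ResQ p G) (J : ρ → σ → GR G) (hc : Fintype.card σ < Fintype.card ρ) :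
    ∃ v : ρ → G → ℝ, v ≠ 0 ∧ (∀ l, Sq (v l)) ∧ ∀ j x, ∑ l, ra (v l) (J l j) x = 0 := by
  classical
  obtain ⟨Q, hQ, π, hfin, hpQ, hπ⟩ := Trans_fam p hres
  obtain ⟨P, hP, hker, htr⟩ := lim_data (atTop : Filter (Finset G)) Q π hπ J
    (max 2 (nrm J ^ 2)) (le_max_left _ _) (le_max_right _ _)
  have h1 : (0 : ℝ) < ∑ l, P l l 1 := by
    have h2 : (Fintype.card σ : ℝ) < Fintype.card ρ := by exact_mod_cast hc
    linarith
  obtain ⟨l, hl⟩ : ∃ l, P l l 1 ≠ 0 := by
    by_contra h2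
    push Not at h2
    rw [Finset.sum_eq_zero fun l _ => h2 l] at h1
    exact lt_irrefl _ h1
  refine ⟨P l, fun h2 => hl ?_, fun l' => sq_of_bound J (max 2 (nrm J ^ 2)) P hP l l', fun j x =>
    hker σ J (fun S w hw => hw) l j x⟩
  rw [h2]
  rfl

end PAL
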